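import Pool.Agent.MP_106392_al.Defs3

/-! Module I0b: linear algebra of three by three matrices, part two. -/

set_option autoImplicit false
namespace Pool.Agent.MP_106392_al
open Matrix
noncomputable section

namespace LinBAux

theorem minors {F : Type*} [CommRing F] {r : M3 F} (h : cof r = 0) (i i' j j' : Fin 3) :
    r i j * r i' j' = r i j' * r i' j := by
  have h00 := congrFun (congrFun h 0) 0
  have h01 := congrFun (congrFun h 0) 1
  have h02 := congrFun (congrFun h 0) 2
  have h10 := congrFun (congrFun h 1) 0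
  have h11 := congrFun (congrFun h 1) 1
  have h12 := congrFun (congrFun h 1) 2
  have h20 := congrFun (congrFun h 2) 0
  have h21 := congrFun (congrFun h 2) 1
  have h22 := congrFun (congrFun h 2) 2
  simp [cof] at h00 h01 h02 h10 h11 h12 h20 h21 h22
  fin_cases i <;> fin_cases i' <;> fin_cases j <;> fin_cases j' <;>
    simp only [Fin.zero_eta, Fin.mk_one, Fin.reduceFinMk] <;>
    first
    | ring1
    | linear_combination h00
    | linear_combination -h00
    | linear_combination h01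
    | linear_combination -h01
    | linear_combination h02
    | linear_combination -h02
    | linear_combination h10
    | linear_combination -h10
    | linear_combination h11
    | linear_combination -h11
    | linear_combination h12
    | linear_combination -h12
    | linear_combination h20
    | linear_combination -h20
    | linear_combination h21
    | linear_combination -h21
    | linear_combination h22
    | linear_combination -h22

theorem exists_ne {F : Type*} [Zero F] {n : V3 F} (hn : n ≠ 0) : ∃ i, n i ≠ 0 := by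
  by_contra hc
  push Not at hc
  exact hn (funext hc)

/-- parallel vectors -/
theorem parallel {F : Type*} [Field F] {n y : V3 F} (hn : n ≠ 0) (h : n ⨯₃ y = 0) :
    ∃ a : F, y = a • n := by
  obtain ⟨i, hi⟩ := exists_ne hn
  have h0 := congrFun h 0
  have h1 := congrFun h 1
  have h2 := congrFun h 2
  simp [cross_apply] at h0 h1 h2
  refine ⟨y i / n i, ?_⟩
  funext j
  rw [Pi.smul_apply, smul_eq_mul, div_mul_eq_mul_div, eq_div_iff hi]
  fin_cases i <;> fin_cases j <;>
    simp only [Fin.zero_eta, Fin.mk_one, Fin.reduceFinMk] <;>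
    first
    | ring1
    | linear_combination h0
    | linear_combination -h0
    | linear_combination h1
    | linear_combination -h1
    | linear_combination h2
    | linear_combination -h2

theorem cof_cof {F : Type*} [CommRing F] (r : M3 F) : cof (cof r) = r.det • r := by
  ext i j
  fin_cases i <;> fin_cases j <;>
    simp [cof, Matrix.det_fin_three] <;> ring

theorem transpose_mul_cof {F : Type*} [CommRing F] (r : M3 F) :
    rᵀ * cof r = r.det • (1 : M3 F) := by
  ext i j
  fin_cases i <;> fin_cases j <;>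
    simp [cof, Matrix.det_fin_three, Matrix.mul_apply, Fin.sum_univ_three] <;> ring

theorem mul_cof_transpose {F : Type*} [CommRing F] (r : M3 F) :
    r * (cof r)ᵀ = r.det • (1 : M3 F) := by
  ext i j
  fin_cases i <;> fin_cases j <;>
    simp [cof, Matrix.det_fin_three, Matrix.mul_apply, Fin.sum_univ_three] <;> ring

theorem cof_mul {F : Type*} [CommRing F] (A B : M3 F) : cof (A * B) = cof A * cof B := by
  ext i j
  fin_cases i <;> fin_cases j <;>
    simp [cof, Matrix.mul_apply, Fin.sum_univ_three] <;> ring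

theorem cof_transpose {F : Type*} [CommRing F] (A : M3 F) : cof Aᵀ = (cof A)ᵀ := by
  ext i j
  fin_cases i <;> fin_cases j <;>
    simp [cof] <;> ring

theorem mul_out {F : Type*} [CommRing F] (A : M3 F) (a b : V3 F) :
    A * out a b = out (A *ᵥ a) b := by
  ext i j
  simp [out, Matrix.mul_apply, Matrix.vecMulVec_apply, Matrix.mulVec, dotProduct,
    Fin.sum_univ_three]
  ring

theorem out_transpose {F : Type*} [CommRing F] (a b : V3 F) : (out a b)ᵀ = out b a := by
  ext i j
  simp [out, Matrix.vecMulVec_apply, mul_comm]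

theorem out_mul_out {F : Type*} [CommRing F] (a b c d : V3 F) :
    out a b * out c d = (b ⬝ᵥ c) • out a d := by
  ext i j
  simp [out, Matrix.mul_apply, Matrix.vecMulVec_apply, dotProduct,
    Fin.sum_univ_three]
  ring

theorem out_eq_zero {F : Type*} [Field F] {a b : V3 F} (hb : b ≠ 0) (h : out a b = 0) :
    a = 0 := by
  obtain ⟨j, hj⟩ := exists_ne hb
  funext i
  have := congrFun (congrFun h i) j
  simp [out, Matrix.vecMulVec_apply] at this
  rcases this with h | h
  · simpa using h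
  · exact absurd h hj

end LinBAux

open LinBAux

theorem rank_one {F : Type*} [Field F] {r : M3 F} (h : cof r = 0) (h0 : r ≠ 0) :
    ∃ n v : V3 F, n ≠ 0 ∧ v ≠ 0 ∧ r = out n v := by
  obtain ⟨i₀, j₀, hij⟩ : ∃ i j, r i j ≠ 0 := by
    by_contra hc
    push Not at hc
    exact h0 (by ext i j; exact hc i j)
  refine ⟨fun i => r i j₀, fun j => r i₀ j / r i₀ j₀, ?_, ?_, ?_⟩
  · intro h1
    exact hij (congrFun h1 i₀)
  · intro h1
    have := congrFun h1 j₀
    simp [hij] at this
  · ext i j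
    have := minors h i i₀ j j₀
    simp only [out, Matrix.vecMulVec_apply]
    field_simp
    linear_combination this

theorem rank_two {F : Type*} [Field F] {r : M3 F} (h : r.det = 0) (h0 : cof r ≠ 0) :
    ∃ n w : V3 F, n ≠ 0 ∧ w ≠ 0 ∧ cof r = out n w ∧ rᵀ *ᵥ n = 0 ∧ r *ᵥ w = 0 := by
  obtain ⟨n, w, hn, hw, hc⟩ := rank_one (r := cof r) (by rw [cof_cof, h, zero_smul]) h0
  refine ⟨n, w, hn, hw, hc, ?_, ?_⟩
  · have h1 := transpose_mul_cof r
    rw [hc, h, zero_smul, mul_out] at h1
    exact out_eq_zero hw h1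
  · have h1 := mul_cof_transpose r
    rw [hc, h, zero_smul, out_transpose, mul_out] at h1
    exact out_eq_zero hn h1

theorem exists_iso_frame {F : Type*} [Field F] [CharZero F] {n : V3 F} (hn : n ≠ 0)
    (h : n ⬝ᵥ n = 0) : ∃ k : V3 F, n ⨯₃ k = n := by
  obtain ⟨i, hi⟩ := exists_ne hn
  have key : ∀ m : V3 F, n ⨯₃ (n ⨯₃ m) = (n ⬝ᵥ m) • n := by
    intro m
    simp only [dotProduct, Fin.sum_univ_three] at h ⊢
    funext j
    fin_cases j <;> simp [cross_apply]
    · linear_combination (-m 0) * h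
    · linear_combination (-m 1) * h
    · linear_combination (-m 2) * h
  refine ⟨(n i)⁻¹ • (n ⨯₃ Pi.single i 1), ?_⟩
  rw [map_smul, key]
  simp [hi]

theorem mem_iso_plane {F : Type*} [Field F] [CharZero F] {n k x : V3 F} (hn : n ≠ 0)
    (h : n ⨯₃ k = n) (hx : x ⬝ᵥ n = 0) : ∃ a b : F, x = a • n + b • k := by
  have hnn : n ⬝ᵥ n = 0 := by
    nth_rewrite 2 [← h]
    exact dot_self_cross n k
  have h1 : n ⨯₃ (n ⨯₃ x) = 0 := by
    simp only [dotProduct, Fin.sum_univ_three] at hnn hx
    funext j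
    fin_cases j <;> simp [cross_apply]
    · linear_combination (n 0) * hx - (x 0) * hnn
    · linear_combination (n 1) * hx - (x 1) * hnn
    · linear_combination (n 2) * hx - (x 2) * hnn
  obtain ⟨b, hb⟩ := parallel hn h1
  have h2 : n ⨯₃ (x - b • k) = 0 := by
    rw [map_sub, map_smul, h, hb, sub_self]
  obtain ⟨a, ha⟩ := parallel hn h2
  exact ⟨a, b, by rw [← ha, sub_add_cancel]⟩

/-- a matrix with `r rᵀ = c`, `c ≠ 0`, is a multiple of a rotation -/
theorem conformal {r : M3 ℂ} {c : ℂ} (hc : c ≠ 0) (h : r * rᵀ = c • (1 : M3 ℂ)) :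
    ∃ (O : M3 ℂ) (e : ℂ), Oᵀ * O = 1 ∧ O.det = 1 ∧ e ≠ 0 ∧ r = e • O := by
  obtain ⟨e, he⟩ : ∃ e : ℂ, e ^ 2 = c := by
    obtain ⟨e, he⟩ := IsAlgClosed.exists_pow_nat_eq c (n := 2) (by norm_num)
    exact ⟨e, he⟩
  have hdet : r.det ^ 2 = (c * e) ^ 2 := by
    have h1 := congrArg Matrix.det h
    rw [Matrix.det_mul, Matrix.det_transpose, Matrix.det_smul, Matrix.det_one] at h1
    simp only [Fintype.card_fin, mul_one] at h1
    rw [mul_pow, he]
    linear_combination h1
  have main : ∀ e : ℂ, e ^ 2 = c → r.det = c * e →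
      ∃ (O : M3 ℂ) (e : ℂ), Oᵀ * O = 1 ∧ O.det = 1 ∧ e ≠ 0 ∧ r = e • O := by
    intro e he hd
    have he0 : e ≠ 0 := by
      rintro rfl
      exact hc (by rw [← he]; norm_num)
    refine ⟨e⁻¹ • r, e, ?_, ?_, he0, ?_⟩
    · rw [mul_eq_one_comm]
      rw [Matrix.transpose_smul, Matrix.smul_mul, Matrix.mul_smul, h, smul_smul, smul_smul,
        ← he]
      have : e⁻¹ * e⁻¹ * e ^ 2 = 1 := by field_simp
      rw [this, one_smul]
    · rw [Matrix.det_smul, hd, ← he]
      simp only [Fintype.card_fin]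
      field_simp
    · rw [smul_smul, mul_inv_cancel₀ he0, one_smul]
  rcases sq_eq_sq_iff_eq_or_eq_neg.mp hdet with h1 | h1
  · exact main e he h1
  · exact main (-e) (by rw [neg_sq, he]) (by rw [h1]; ring)

namespace LinBAux

theorem out_mul {F : Type*} [CommRing F] (a b : V3 F) (A : M3 F) :
    out a b * A = out a (Aᵀ *ᵥ b) := by
  ext i j
  simp [out, Matrix.mul_apply, Matrix.vecMulVec_apply, Matrix.mulVec, dotProduct,
    Fin.sum_univ_three]
  ring

theorem out_zero_left {F : Type*} [CommRing F] (b : V3 F) : out (0 : V3 F) b = 0 := by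
  ext i j
  simp [out, Matrix.vecMulVec_apply]

theorem out_zero_right {F : Type*} [CommRing F] (b : V3 F) : out b (0 : V3 F) = 0 := by
  ext i j
  simp [out, Matrix.vecMulVec_apply]

theorem det_one_add {F : Type*} [CommRing F] (c : F) (k : V3 F) :
    (1 + c • out k k : M3 F).det = 1 + c * (k ⬝ᵥ k) := by
  simp [Matrix.det_fin_three, out, Matrix.vecMulVec_apply, dotProduct, Fin.sum_univ_three]
  ring

theorem cof_one_add {F : Type*} [CommRing F] (a b : F) (k : V3 F) :
    cof (a • (1 : M3 F) + b • out k k) = (a * (a + b * (k ⬝ᵥ k))) • (1 : M3 F)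
      - (a * b) • out k k := by
  ext i j
  fin_cases i <;> fin_cases j <;>
    simp [cof, out, Matrix.vecMulVec_apply, dotProduct, Fin.sum_univ_three] <;> ring

theorem T_mul_T {F : Type*} [CommRing F] (c d : F) (k : V3 F) :
    (1 + c • out k k : M3 F) * (1 + d • out k k) =
      1 + (c + d + c * d * (k ⬝ᵥ k)) • out k k := by
  rw [add_mul, mul_add, mul_add, one_mul, mul_one, one_mul, Matrix.smul_mul, Matrix.mul_smul,
    out_mul_out]
  module

theorem T_transpose {F : Type*} [CommRing F] (c : F) (k : V3 F) :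
    (1 + c • out k k : M3 F)ᵀ = 1 + c • out k k := by
  rw [Matrix.transpose_add, Matrix.transpose_one, Matrix.transpose_smul, out_transpose]

theorem sign_fix {r T O : M3 ℂ} {e : ℂ} (hO : Oᵀ * O = 1) (he : e ≠ 0)
    (h : r = e • (T * O)) :
    ∃ (O : M3 ℂ) (e : ℂ), Oᵀ * O = 1 ∧ O.det = 1 ∧ e ≠ 0 ∧ r = e • (T * O) := by
  have h1 : O.det ^ 2 = 1 := by
    have := congrArg Matrix.det hO
    rw [Matrix.det_mul, Matrix.det_transpose, Matrix.det_one] at this
    rw [sq, this]
  rcases sq_eq_one_iff.mp h1 with h2 | h2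
  · exact ⟨O, e, hO, h2, he, h⟩
  · refine ⟨-O, -e, ?_, ?_, neg_ne_zero.mpr he, ?_⟩
    · rw [Matrix.transpose_neg, neg_mul_neg, hO]
    · rw [Matrix.det_neg, h2]
      norm_num
    · rw [mul_neg, neg_smul, smul_neg, neg_neg, h]

theorem polar_regular {r : M3 ℂ} {k : V3 ℂ} {a b c : ℂ} (ha : a ≠ 0)
    (h : r * rᵀ = a • (1 : M3 ℂ) + b • out k k) (hc : 1 + c * (k ⬝ᵥ k) ≠ 0)
    (hb : a * (2 * c + c ^ 2 * (k ⬝ᵥ k)) = b) :
    ∃ (O : M3 ℂ) (e : ℂ), Oᵀ * O = 1 ∧ O.det = 1 ∧ e ≠ 0 ∧
      r = e • ((1 + c • out k k) * O) := by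
  obtain ⟨e, he⟩ := IsAlgClosed.exists_pow_nat_eq a (n := 2) (by norm_num)
  have he0 : e ≠ 0 := by
    rintro rfl
    exact ha (by rw [← he]; norm_num)
  set T : M3 ℂ := 1 + c • out k k with hT
  set S : M3 ℂ := 1 + (-(c / (1 + c * (k ⬝ᵥ k)))) • out k k with hS
  have hTS : T * S = 1 := by
    rw [hT, hS, T_mul_T]
    have : c + -(c / (1 + c * (k ⬝ᵥ k))) + c * -(c / (1 + c * (k ⬝ᵥ k))) * (k ⬝ᵥ k) = 0 := by
      field_simp
      ring
    rw [this, zero_smul, add_zero]
  have hST : S * T = 1 := mul_eq_one_comm.mp hTS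
  have hrr : r * rᵀ = (e ^ 2) • (T * T) := by
    rw [h, hT, T_mul_T, he, ← hb]
    module
  refine sign_fix (T := T) (O := e⁻¹ • (S * r)) ?_ he0 ?_
  · rw [mul_eq_one_comm, Matrix.transpose_smul, Matrix.smul_mul, Matrix.mul_smul,
      Matrix.transpose_mul]
    have hSt : Sᵀ = S := by rw [hS, T_transpose]
    have : S * r * (rᵀ * Sᵀ) = (e ^ 2) • (1 : M3 ℂ) := by
      rw [hSt]
      calc S * r * (rᵀ * S) = S * (r * rᵀ) * S := by simp only [Matrix.mul_assoc]
        _ = (e ^ 2) • ((S * T) * (T * S)) := by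
          rw [hrr, Matrix.mul_smul, Matrix.smul_mul]
          simp only [Matrix.mul_assoc]
        _ = (e ^ 2) • (1 : M3 ℂ) := by rw [hTS, hST, mul_one]
    rw [this, smul_smul, smul_smul]
    have : e⁻¹ * e⁻¹ * e ^ 2 = 1 := by field_simp
    rw [this, one_smul]
  · rw [Matrix.mul_smul, ← Matrix.mul_assoc, hTS, one_mul, smul_smul, mul_inv_cancel₀ he0,
      one_smul]

end LinBAux

/-- polar decomposition for `r rᵀ = a + b k kᵀ`, `a ≠ 0`, `rank r ≥ 2` -/
theorem polar {r : M3 ℂ} {k : V3 ℂ} {a b : ℂ} (ha : a ≠ 0)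
    (h : r * rᵀ = a • (1 : M3 ℂ) + b • out k k) :
    ∃ (O : M3 ℂ) (e c : ℂ), Oᵀ * O = 1 ∧ O.det = 1 ∧ e ≠ 0 ∧
      r = e • ((1 + c • out k k) * O) := by
  have reg : ∀ c : ℂ, 1 + c * (k ⬝ᵥ k) ≠ 0 → a * (2 * c + c ^ 2 * (k ⬝ᵥ k)) = b →
      ∃ (O : M3 ℂ) (e c : ℂ), Oᵀ * O = 1 ∧ O.det = 1 ∧ e ≠ 0 ∧
      r = e • ((1 + c • out k k) * O) := by
    intro c h1 h2
    obtain ⟨O, e, h3⟩ := polar_regular ha h h1 h2
    exact ⟨O, e, c, h3⟩
  by_cases hk : k ⬝ᵥ k = 0
  · refine reg (b / (2 * a)) ?_ ?_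
    · rw [hk]; simp
    · rw [hk]; field_simp; ring
  by_cases hD : 1 + (k ⬝ᵥ k) * b / a = 0
  · -- the degenerate case
    have hb : b = -(a / (k ⬝ᵥ k)) := by
      field_simp at hD ⊢
      linear_combination hD
    set κ : ℂ := k ⬝ᵥ k with hκ
    have hk0 : k ≠ 0 := by
      rintro rfl
      exact hk (by rw [hκ]; simp)
    have h' : r * rᵀ = a • (1 + (-κ⁻¹) • out k k : M3 ℂ) := by
      rw [h, hb]
      module
    have hdet : r.det = 0 := by
      have h1 := congrArg Matrix.det h'
      rw [Matrix.det_mul, Matrix.det_transpose, Matrix.det_smul, det_one_add, ← hκ] at h1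
      have : (1 : ℂ) + -κ⁻¹ * κ = 0 := by field_simp; ring
      rw [this, mul_zero] at h1
      exact mul_self_eq_zero.mp h1
    have hcof : cof r * (cof r)ᵀ = (a ^ 2 / κ) • out k k := by
      rw [← cof_transpose, ← cof_mul, h, cof_one_add, ← hκ, hb]
      have h1 : a * (a + -(a / κ) * κ) = 0 := by field_simp; ring
      have h2 : a * -(a / κ) = -(a ^ 2 / κ) := by ring
      rw [h1, h2, zero_smul, zero_sub, neg_smul, neg_neg]
    have hout : (a ^ 2 / κ) • out k k ≠ 0 := by
      intro h1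
      have h2 : out k k = 0 := by
        rcases smul_eq_zero.mp h1 with h2 | h2
        · exact absurd h2 (div_ne_zero (pow_ne_zero 2 ha) hk)
        · exact h2
      exact hk0 (out_eq_zero hk0 h2)
    have hcr : cof r ≠ 0 := by
      intro h1
      rw [h1, zero_mul] at hcof
      exact hout hcof.symm
    obtain ⟨n, w, hn, hw, hc, h1, h2⟩ := rank_two hdet hcr
    rw [hc, out_transpose, out_mul_out] at hcof
    have hww : w ⬝ᵥ w ≠ 0 := by
      intro h3
      rw [h3, zero_smul] at hcof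
      exact hout hcof.symm
    have hrk : rᵀ *ᵥ k = 0 := by
      obtain ⟨j, hj⟩ := exists_ne hk0
      have : k = (κ * (w ⬝ᵥ w) * n j / (a ^ 2 * k j)) • n := by
        funext i
        have h3 := congrFun (congrFun hcof i) j
        simp only [Matrix.smul_apply, out, Matrix.vecMulVec_apply, smul_eq_mul] at h3
        rw [Pi.smul_apply, smul_eq_mul]
        field_simp
        field_simp at h3
        linear_combination -h3
      rw [this, Matrix.mulVec_smul, h1, smul_zero]
    obtain ⟨e, he⟩ := IsAlgClosed.exists_pow_nat_eq a (n := 2) (by norm_num)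
    have he0 : e ≠ 0 := by
      rintro rfl
      exact ha (by rw [← he]; norm_num)
    obtain ⟨s, hs⟩ := IsAlgClosed.exists_pow_nat_eq (κ / (w ⬝ᵥ w)) (n := 2) (by norm_num)
    have hrm : r *ᵥ (s • w) = 0 := by rw [Matrix.mulVec_smul, h2, smul_zero]
    have hmm : (s • w) ⬝ᵥ (s • w) = κ := by
      rw [smul_dotProduct, dotProduct_smul, smul_eq_mul, smul_eq_mul, ← mul_assoc, ← sq, hs]
      field_simp
    set m : V3 ℂ := s • w with hm
    have hPk : (1 + (-κ⁻¹) • out k k : M3 ℂ) *ᵥ k = 0 := by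
      rw [Matrix.add_mulVec, Matrix.one_mulVec, Matrix.smul_mulVec]
      have : out k k *ᵥ k = κ • k := by
        funext i
        simp only [out, Matrix.mulVec, dotProduct, Matrix.vecMulVec_apply, Fin.sum_univ_three,
          Pi.smul_apply, smul_eq_mul, hκ]
        ring
      rw [this, smul_smul]
      have : -κ⁻¹ * κ = -1 := by field_simp
      rw [this, neg_one_smul, add_neg_cancel]
    obtain ⟨O, e', h3⟩ := sign_fix (r := r) (T := 1 + (-κ⁻¹) • out k k)
      (O := e⁻¹ • r + κ⁻¹ • out k m) (e := e) (by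
        rw [mul_eq_one_comm, Matrix.transpose_add, Matrix.transpose_smul, Matrix.transpose_smul,
          out_transpose, add_mul, mul_add, mul_add]
        simp only [Matrix.smul_mul, Matrix.mul_smul]
        rw [h', mul_out, hrm, out_zero_left, out_mul, Matrix.transpose_transpose, hrm,
          out_zero_right, out_mul_out, hmm]
        simp only [smul_zero, add_zero, zero_add, smul_smul]
        have h5 : e⁻¹ * (e⁻¹ * a) = 1 := by rw [← he]; field_simp
        have h6 : κ⁻¹ * (κ⁻¹ * κ) = κ⁻¹ := by field_simp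
        rw [h5, h6, one_smul]
        module) he0 (by
        rw [mul_add, Matrix.mul_smul, Matrix.mul_smul, mul_out, hPk, out_zero_left, smul_zero,
          add_zero, smul_smul, mul_inv_cancel₀ he0, one_smul, add_mul, one_mul,
          Matrix.smul_mul, out_mul, hrk, out_zero_right, smul_zero, add_zero])
    exact ⟨O, e', -κ⁻¹, h3⟩
  · obtain ⟨s, hs⟩ := IsAlgClosed.exists_pow_nat_eq (1 + (k ⬝ᵥ k) * b / a) (n := 2)
      (by norm_num)
    have hs0 : s ≠ 0 := by
      rintro rfl
      exact hD (by rw [← hs]; norm_num)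
    refine reg ((s - 1) / (k ⬝ᵥ k)) ?_ ?_
    · have : 1 + (s - 1) / (k ⬝ᵥ k) * (k ⬝ᵥ k) = s := by field_simp; ring
      rw [this]
      exact hs0
    · have : 2 * ((s - 1) / (k ⬝ᵥ k)) + ((s - 1) / (k ⬝ᵥ k)) ^ 2 * (k ⬝ᵥ k) =
          (s ^ 2 - 1) / (k ⬝ᵥ k) := by field_simp; ring
      rw [this, hs]
      field_simp
      ring

/-- the normal form of matrices of rank two with isotropic kernel and cokernel -/
theorem isotropic_form {r : M3 ℂ} {n w : V3 ℂ} (hn : n ≠ 0) (hw : w ≠ 0)
    (hc : cof r = out n w) (h1 : rᵀ *ᵥ n = 0) (h2 : r *ᵥ w = 0)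
    (hnn : n ⬝ᵥ n = 0) (hww : w ⬝ᵥ w = 0) :
    ∃ (h k : V3 ℂ) (q₁ q₂ p₁ p₂ : ℂ), n ⨯₃ h = n ∧ w ⨯₃ k = w ∧
      r = out n (q₁ • w + q₂ • k) + out h (p₁ • w + p₂ • k) := by
  obtain ⟨h, hh⟩ := exists_iso_frame hn hnn
  obtain ⟨k, hk⟩ := exists_iso_frame hw hww
  have hcol : ∀ j, ∃ a b : ℂ, (fun i => r i j) = a • n + b • h := by
    intro j
    refine mem_iso_plane hn hh ?_
    have := congrFun h1 j
    simpa [Matrix.mulVec, dotProduct, Fin.sum_univ_three] using this
  choose α β hαβ using hcol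
  have hr : r = out n α + out h β := by
    ext i j
    have := congrFun (hαβ j) i
    simp only [Pi.add_apply, Pi.smul_apply, smul_eq_mul] at this
    simp only [Matrix.add_apply, out, Matrix.vecMulVec_apply]
    rw [this]
    ring
  have hz : (α ⬝ᵥ w) • n + (β ⬝ᵥ w) • h = 0 := by
    rw [← h2]
    funext i
    rw [hr]
    simp only [Pi.add_apply, Pi.smul_apply, smul_eq_mul, Matrix.mulVec, dotProduct,
      Matrix.add_apply, out, Matrix.vecMulVec_apply, Fin.sum_univ_three]
    ring
  have hβ : β ⬝ᵥ w = 0 := by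
    have h3 : n ⨯₃ ((α ⬝ᵥ w) • n + (β ⬝ᵥ w) • h) = 0 := by rw [hz, map_zero]
    rw [map_add, map_smul, map_smul, cross_self, smul_zero, zero_add, hh] at h3
    rcases smul_eq_zero.mp h3 with h4 | h4
    · exact h4
    · exact absurd h4 hn
  have hα : α ⬝ᵥ w = 0 := by
    rw [hβ, zero_smul, add_zero] at hz
    rcases smul_eq_zero.mp hz with h4 | h4
    · exact h4
    · exact absurd h4 hn
  obtain ⟨q₁, q₂, hq⟩ := mem_iso_plane hw hk hα
  obtain ⟨p₁, p₂, hp⟩ := mem_iso_plane hw hk hβ
  exact ⟨h, k, q₁, q₂, p₁, p₂, hh, hk, by rw [← hq, ← hp]; exact hr⟩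

end
end Pool.Agent.MP_106392_al
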