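import Pool.Agent.MP_106392_al.Defs3

/-!
# Linear algebra of cross products (module I0a)
-/

set_option autoImplicit false

namespace Pool.Agent.MP_106392_al

open Matrix

noncomputable section

namespace LinA

variable {F : Type*}

theorem mulVec3 [CommRing F] (A : M3 F) (x : V3 F) :
    A *ᵥ x = ![A 0 0 * x 0 + A 0 1 * x 1 + A 0 2 * x 2,
      A 1 0 * x 0 + A 1 1 * x 1 + A 1 2 * x 2,
      A 2 0 * x 0 + A 2 1 * x 1 + A 2 2 * x 2] := by
  funext i
  fin_cases i <;> simp [Matrix.mulVec, dotProduct, Fin.sum_univ_three]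

theorem dot3 [CommRing F] (x y : V3 F) : x ⬝ᵥ y = x 0 * y 0 + x 1 * y 1 + x 2 * y 2 := by
  simp [dotProduct, Fin.sum_univ_three]

theorem ext3 {x y : V3 F} (h0 : x 0 = y 0) (h1 : x 1 = y 1) (h2 : x 2 = y 2) : x = y := by
  funext i
  fin_cases i
  · exact h0
  · exact h1
  · exact h2

theorem extM {A B : M3 F} (h00 : A 0 0 = B 0 0) (h01 : A 0 1 = B 0 1) (h02 : A 0 2 = B 0 2)
    (h10 : A 1 0 = B 1 0) (h11 : A 1 1 = B 1 1) (h12 : A 1 2 = B 1 2)
    (h20 : A 2 0 = B 2 0) (h21 : A 2 1 = B 2 1) (h22 : A 2 2 = B 2 2) : A = B := by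
  ext i j
  fin_cases i <;> fin_cases j <;> assumption

/-- vanishing of the cross product with a nonzero vector -/
theorem parallel [Field F] {u a : V3 F} (ha : a ≠ 0) (h : u ⨯₃ a = 0) : ∃ s : F, u = s • a := by
  rw [cross_apply] at h
  have e0 := congrFun h 0
  have e1 := congrFun h 1
  have e2 := congrFun h 2
  simp only [Matrix.cons_val_zero, Matrix.cons_val_one, Matrix.cons_val, Pi.zero_apply] at e0 e1 e2
  have hne : a 0 ≠ 0 ∨ a 1 ≠ 0 ∨ a 2 ≠ 0 := by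
    by_contra hcon
    push Not at hcon
    exact ha (ext3 hcon.1 hcon.2.1 hcon.2.2)
  rcases hne with h0 | h0 | h0
  · refine ⟨u 0 / a 0, ext3 ?_ ?_ ?_⟩
    · simp only [Pi.smul_apply, smul_eq_mul]; field_simp
    · simp only [Pi.smul_apply, smul_eq_mul]; field_simp; linear_combination -e2
    · simp only [Pi.smul_apply, smul_eq_mul]; field_simp; linear_combination e1
  · refine ⟨u 1 / a 1, ext3 ?_ ?_ ?_⟩
    · simp only [Pi.smul_apply, smul_eq_mul]; field_simp; linear_combination e2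
    · simp only [Pi.smul_apply, smul_eq_mul]; field_simp
    · simp only [Pi.smul_apply, smul_eq_mul]; field_simp; linear_combination -e0
  · refine ⟨u 2 / a 2, ext3 ?_ ?_ ?_⟩
    · simp only [Pi.smul_apply, smul_eq_mul]; field_simp; linear_combination -e1
    · simp only [Pi.smul_apply, smul_eq_mul]; field_simp; linear_combination e0
    · simp only [Pi.smul_apply, smul_eq_mul]; field_simp

end LinA

open LinA

theorem scalar_of_cross {F : Type*} [CommRing F] {Z : M3 F}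
    (h : ∀ x : V3 F, x ⨯₃ (Z *ᵥ x) = 0) : Z = Z 0 0 • (1 : M3 F) := by
  have h0 := h ![1, 0, 0]
  have h1 := h ![0, 1, 0]
  have h2 := h ![0, 0, 1]
  have h3 := h ![1, 1, 0]
  have h4 := h ![0, 1, 1]
  rw [mulVec3, cross_apply] at h0 h1 h2 h3 h4
  have a0 := congrFun h0 1
  have a1 := congrFun h0 2
  have b0 := congrFun h1 0
  have b1 := congrFun h1 2
  have c0 := congrFun h2 0
  have c1 := congrFun h2 1
  have d := congrFun h3 2
  have e := congrFun h4 0
  clear h0 h1 h2 h3 h4 h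
  simp only [Matrix.cons_val_zero, Matrix.cons_val_one, Matrix.cons_val, Pi.zero_apply] at *
  refine extM ?_ ?_ ?_ ?_ ?_ ?_ ?_ ?_ ?_ <;>
    simp only [Matrix.smul_apply, Matrix.one_apply, smul_eq_mul, Fin.reduceEq, if_true, if_false,
      Fin.isValue] <;> grind

/-- the ten minors -/
theorem LinA.minors {F : Type*} [Field F] [CharZero F] {A B : M3 F}
    (hA : Aᵀ = A) (hB : Bᵀ = B) (h : ∀ x : V3 F, x ⬝ᵥ ((A *ᵥ x) ⨯₃ (B *ᵥ x)) = 0) :
    (A 0 1 * B 0 2 = A 0 2 * B 0 1 ∧ A 0 1 * B 1 2 = A 1 2 * B 0 1 ∧ A 0 2 * B 1 2 = A 1 2 * B 0 2) ∧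
    (A 0 1 * (B 0 0 - B 1 1) = (A 0 0 - A 1 1) * B 0 1 ∧
     A 0 1 * (B 1 1 - B 2 2) = (A 1 1 - A 2 2) * B 0 1) ∧
    (A 0 2 * (B 0 0 - B 1 1) = (A 0 0 - A 1 1) * B 0 2 ∧
     A 0 2 * (B 1 1 - B 2 2) = (A 1 1 - A 2 2) * B 0 2) ∧
    (A 1 2 * (B 0 0 - B 1 1) = (A 0 0 - A 1 1) * B 1 2 ∧
     A 1 2 * (B 1 1 - B 2 2) = (A 1 1 - A 2 2) * B 1 2) ∧
    (A 0 0 - A 1 1) * (B 1 1 - B 2 2) = (A 1 1 - A 2 2) * (B 0 0 - B 1 1) := by
  have a10 : A 1 0 = A 0 1 := congrFun (congrFun hA 0) 1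
  have a20 : A 2 0 = A 0 2 := congrFun (congrFun hA 0) 2
  have a21 : A 2 1 = A 1 2 := congrFun (congrFun hA 1) 2
  have b10 : B 1 0 = B 0 1 := congrFun (congrFun hB 0) 1
  have b20 : B 2 0 = B 0 2 := congrFun (congrFun hB 0) 2
  have b21 : B 2 1 = B 1 2 := congrFun (congrFun hB 1) 2
  have h0 := h ![1, 0, 0]
  have h1 := h ![0, 1, 0]
  have h2 := h ![0, 0, 1]
  have h3 := h ![1, 1, 0]
  have h4 := h ![1, -1, 0]
  have h5 := h ![1, 0, 1]
  have h6 := h ![1, 0, -1]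
  have h7 := h ![0, 1, 1]
  have h8 := h ![0, 1, -1]
  have h9 := h ![1, 1, 1]
  clear h
  rw [mulVec3, mulVec3, cross_apply, dot3] at h0 h1 h2 h3 h4 h5 h6 h7 h8 h9
  simp only [Matrix.cons_val_zero, Matrix.cons_val_one, Matrix.cons_val, a10, a20, a21, b10, b20,
    b21] at h0 h1 h2 h3 h4 h5 h6 h7 h8 h9
  refine ⟨⟨?_, ?_, ?_⟩, ⟨?_, ?_⟩, ⟨?_, ?_⟩, ⟨?_, ?_⟩, ?_⟩
  · linear_combination h0
  · linear_combination -h1
  · linear_combination h2
  · linear_combination (-1/2) * h5 + (1/2) * h6 - (1/2) * h7 + (1/2) * h8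
  · linear_combination (1/2) * h7 - (1/2) * h8
  · linear_combination (1/2) * h3 - (1/2) * h4
  · linear_combination (1/2) * h7 + (1/2) * h8
  · linear_combination (1/2) * h3 + (1/2) * h4
  · linear_combination (-1/2) * h3 - (1/2) * h4 - (1/2) * h5 - (1/2) * h6
  · linear_combination h0 + h1 + h2 - h3 - h5 - h7 + h9

theorem LinA.ext_sym {F : Type*} [Field F] {A B : M3 F} (hA : Aᵀ = A) (hB : Bᵀ = B)
    (h01 : A 0 1 = B 0 1) (h02 : A 0 2 = B 0 2) (h12 : A 1 2 = B 1 2)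
    (h00 : A 0 0 = B 0 0) (h11 : A 1 1 = B 1 1) (h22 : A 2 2 = B 2 2) : A = B := by
  have a10 : A 1 0 = A 0 1 := congrFun (congrFun hA 0) 1
  have a20 : A 2 0 = A 0 2 := congrFun (congrFun hA 0) 2
  have a21 : A 2 1 = A 1 2 := congrFun (congrFun hA 1) 2
  have b10 : B 1 0 = B 0 1 := congrFun (congrFun hB 0) 1
  have b20 : B 2 0 = B 0 2 := congrFun (congrFun hB 0) 2
  have b21 : B 2 1 = B 1 2 := congrFun (congrFun hB 1) 2
  exact extM h00 h01 h02 (by rw [a10, b10, h01]) h11 h12 (by rw [a20, b20, h02])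
    (by rw [a21, b21, h12]) h22

theorem LinA.exists_scalar_add {F : Type*} [Field F] {A B : M3 F} (hA : Aᵀ = A) (hB : Bᵀ = B)
    (t : F) (h01 : B 0 1 = t * A 0 1) (h02 : B 0 2 = t * A 0 2) (h12 : B 1 2 = t * A 1 2)
    (h00 : B 0 0 - B 1 1 = t * (A 0 0 - A 1 1)) (h11 : B 1 1 - B 2 2 = t * (A 1 1 - A 2 2)) :
    ∃ a t : F, B = a • (1 : M3 F) + t • A := by
  refine ⟨B 2 2 - t * A 2 2, t, LinA.ext_sym hB ?_ ?_ ?_ ?_ ?_ ?_ ?_⟩
  · rw [transpose_add, transpose_smul, transpose_smul, transpose_one, hA]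
  all_goals
    simp only [Matrix.add_apply, Matrix.smul_apply, Matrix.one_apply, smul_eq_mul, Fin.reduceEq,
      if_true, if_false, Fin.isValue]
  · linear_combination h01
  · linear_combination h02
  · linear_combination h12
  · linear_combination h00 + h11
  · linear_combination h11
  · ring

theorem dependent_of_det {F : Type*} [Field F] [CharZero F] {A B : M3 F}
    (hA : Aᵀ = A) (hB : Bᵀ = B) (h : ∀ x : V3 F, x ⬝ᵥ ((A *ᵥ x) ⨯₃ (B *ᵥ x)) = 0) :
    (∃ a : F, A = a • (1 : M3 F)) ∨ ∃ a t : F, B = a • (1 : M3 F) + t • A := by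
  obtain ⟨⟨m1, m2, m3⟩, ⟨m4, m5⟩, ⟨m6, m7⟩, ⟨m8, m9⟩, m10⟩ := LinA.minors hA hB h
  by_cases c1 : A 0 1 = 0
  · by_cases c2 : A 0 2 = 0
    · by_cases c3 : A 1 2 = 0
      · by_cases c4 : A 0 0 - A 1 1 = 0
        · by_cases c5 : A 1 1 - A 2 2 = 0
          · left
            refine ⟨A 2 2, LinA.ext_sym hA ?_ ?_ ?_ ?_ ?_ ?_ ?_⟩
            · rw [transpose_smul, transpose_one]
            all_goals
              simp only [Matrix.smul_apply, Matrix.one_apply, smul_eq_mul,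
                Fin.reduceEq, if_true, if_false, Fin.isValue]
            · linear_combination c1
            · linear_combination c2
            · linear_combination c3
            · linear_combination c4 + c5
            · linear_combination c5
            · ring
          · right
            refine LinA.exists_scalar_add hA hB ((B 1 1 - B 2 2) / (A 1 1 - A 2 2)) ?_ ?_ ?_ ?_ ?_ <;>
            rw [div_mul_eq_mul_div, eq_div_iff c5] <;> grind
        · right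
          refine LinA.exists_scalar_add hA hB ((B 0 0 - B 1 1) / (A 0 0 - A 1 1)) ?_ ?_ ?_ ?_ ?_ <;>
          rw [div_mul_eq_mul_div, eq_div_iff c4] <;> grind
      · right
        refine LinA.exists_scalar_add hA hB (B 1 2 / A 1 2) ?_ ?_ ?_ ?_ ?_ <;>
        rw [div_mul_eq_mul_div, eq_div_iff c3] <;> grind
    · right
      refine LinA.exists_scalar_add hA hB (B 0 2 / A 0 2) ?_ ?_ ?_ ?_ ?_ <;>
      rw [div_mul_eq_mul_div, eq_div_iff c2] <;> grind
  · right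
    refine LinA.exists_scalar_add hA hB (B 0 1 / A 0 1) ?_ ?_ ?_ ?_ ?_ <;>
    rw [div_mul_eq_mul_div, eq_div_iff c1] <;> grind

theorem LinA.eq_zero_of_cross {F : Type*} [Field F] {u a b : V3 F} (h1 : u ⨯₃ a = 0)
    (h2 : u ⨯₃ b = 0) (h : a ⨯₃ b ≠ 0) : u = 0 := by
  have ha : a ≠ 0 := by
    rintro rfl
    exact h (by simp)
  obtain ⟨s, rfl⟩ := parallel ha h1
  rw [map_smul, LinearMap.smul_apply, smul_eq_zero] at h2
  rcases h2 with h2 | h2
  · rw [h2, zero_smul]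
  · exact absurd h2 h

theorem LinA.exists_cross {F : Type*} [Field F] {ρ : M3 F} (hρ : cof ρ ≠ 0) :
    ∃ x y : V3 F, (ρ *ᵥ x) ⨯₃ (ρ *ᵥ y) ≠ 0 := by
  by_contra hcon
  push Not at hcon
  apply hρ
  have h0 := hcon ![0, 1, 0] ![0, 0, 1]
  have h1 := hcon ![0, 0, 1] ![1, 0, 0]
  have h2 := hcon ![1, 0, 0] ![0, 1, 0]
  rw [mulVec3, mulVec3, cross_apply] at h0 h1 h2
  simp only [Matrix.cons_val_zero, Matrix.cons_val_one, Matrix.cons_val] at h0 h1 h2
  have a0 := congrFun h0 0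
  have a1 := congrFun h0 1
  have a2 := congrFun h0 2
  have b0 := congrFun h1 0
  have b1 := congrFun h1 1
  have b2 := congrFun h1 2
  have c0 := congrFun h2 0
  have c1 := congrFun h2 1
  have c2 := congrFun h2 2
  clear h0 h1 h2 hcon hρ
  simp only [Matrix.cons_val_zero, Matrix.cons_val_one, Matrix.cons_val, Pi.zero_apply] at *
  refine extM ?_ ?_ ?_ ?_ ?_ ?_ ?_ ?_ ?_ <;>
    simp only [cof, Matrix.of_apply, Matrix.cons_val', Matrix.cons_val_zero, Matrix.cons_val_one,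
      Matrix.cons_val, Matrix.zero_apply] <;> grind

theorem eq_smul_of_cross {F : Type*} [Field F] {S ρ : M3 F} (hρ : cof ρ ≠ 0)
    (h : ∀ x : V3 F, (S *ᵥ x) ⨯₃ (ρ *ᵥ x) = 0) : ∃ τ : F, S = τ • ρ := by
  obtain ⟨x, y, hxy⟩ := LinA.exists_cross hρ
  have hpol : ∀ x y : V3 F, (S *ᵥ x) ⨯₃ (ρ *ᵥ y) = - ((S *ᵥ y) ⨯₃ (ρ *ᵥ x)) := by
    intro x y
    have := h (x + y)
    simp only [mulVec_add, map_add, LinearMap.add_apply, h x, h y, zero_add, add_zero] at this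
    rw [add_comm] at this
    exact eq_neg_of_add_eq_zero_left this
  have hx : ρ *ᵥ x ≠ 0 := by
    intro h0
    rw [h0] at hxy
    exact hxy (by simp)
  have hy : ρ *ᵥ y ≠ 0 := by
    intro h0
    rw [h0] at hxy
    exact hxy (by simp)
  obtain ⟨τ, hτ⟩ := parallel hx (h x)
  obtain ⟨τ', hτ'⟩ := parallel hy (h y)
  have h1 := hpol x y
  rw [hτ, hτ', map_smul, LinearMap.smul_apply, map_smul, LinearMap.smul_apply,
    ← cross_anticomm (ρ *ᵥ x) (ρ *ᵥ y), smul_neg, neg_neg, ← sub_eq_zero, ← sub_smul,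
    smul_eq_zero, sub_eq_zero] at h1
  have h2 : τ = τ' := by
    rcases h1 with h1 | h1
    · exact h1
    · exact absurd h1 hxy
  subst h2
  refine ⟨τ, Matrix.toLin'.injective (LinearMap.ext fun z => ?_)⟩
  rw [toLin'_apply, toLin'_apply, smul_mulVec, ← sub_eq_zero]
  refine LinA.eq_zero_of_cross (a := ρ *ᵥ x) (b := ρ *ᵥ y) ?_ ?_ hxy
  · rw [map_sub, LinearMap.sub_apply, hpol z x, hτ, map_smul, LinearMap.smul_apply, map_smul,
      LinearMap.smul_apply, ← cross_anticomm (ρ *ᵥ z) (ρ *ᵥ x), smul_neg, neg_neg, sub_self]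
  · rw [map_sub, LinearMap.sub_apply, hpol z y, hτ', map_smul, LinearMap.smul_apply, map_smul,
      LinearMap.smul_apply, ← cross_anticomm (ρ *ᵥ z) (ρ *ᵥ y), smul_neg, neg_neg, sub_self]

theorem axial_of_dot {F : Type*} [Field F] [CharZero F] {A : M3 F} {k : V3 F}
    (hA : Aᵀ = A) (hk : k ≠ 0) (h : ∀ x : V3 F, k ⬝ᵥ (x ⨯₃ (A *ᵥ x)) = 0) :
    ∃ a b : F, A = a • (1 : M3 F) + b • out k k := by
  have a10 : A 1 0 = A 0 1 := congrFun (congrFun hA 0) 1
  have a20 : A 2 0 = A 0 2 := congrFun (congrFun hA 0) 2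
  have a21 : A 2 1 = A 1 2 := congrFun (congrFun hA 1) 2
  have h0 := h ![1, 0, 0]
  have h1 := h ![0, 1, 0]
  have h2 := h ![0, 0, 1]
  have h3 := h ![1, 1, 0]
  have h4 := h ![1, 0, 1]
  have h5 := h ![0, 1, 1]
  rw [mulVec3, cross_apply, dot3] at h0 h1 h2 h3 h4 h5
  simp only [Matrix.cons_val_zero, Matrix.cons_val_one, Matrix.cons_val, a10, a20, a21]
    at h0 h1 h2 h3 h4 h5
  have E2 : k 2 * (A 0 0 - A 1 1) = k 0 * A 0 2 - k 1 * A 1 2 := by grind
  have E0 : k 0 * (A 1 1 - A 2 2) = k 1 * A 0 1 - k 2 * A 0 2 := by grind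
  have E1 : k 1 * (A 2 2 - A 0 0) = k 2 * A 1 2 - k 0 * A 0 1 := by grind
  have D1 : k 0 * A 1 2 = k 1 * A 0 2 := by grind
  have D2 : k 1 * A 0 2 = k 2 * A 0 1 := by grind
  clear h h0 h1 h2 h3 h4 h5
  have hne : k 0 ≠ 0 ∨ k 1 ≠ 0 ∨ k 2 ≠ 0 := by
    by_contra hcon
    push Not at hcon
    exact hk (ext3 hcon.1 hcon.2.1 hcon.2.2)
  have key : ∀ a b : F, A 0 1 = b * (k 0 * k 1) → A 0 2 = b * (k 0 * k 2) →
      A 1 2 = b * (k 1 * k 2) → A 0 0 = a + b * (k 0 * k 0) → A 1 1 = a + b * (k 1 * k 1) →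
      A 2 2 = a + b * (k 2 * k 2) → ∃ a b : F, A = a • (1 : M3 F) + b • out k k := by
    intro a b h01 h02 h12 h00 h11 h22
    refine ⟨a, b, LinA.ext_sym hA ?_ ?_ ?_ ?_ ?_ ?_ ?_⟩
    · rw [transpose_add, transpose_smul, transpose_smul, transpose_one, out, transpose_vecMulVec]
    all_goals
      simp only [Matrix.add_apply, Matrix.smul_apply, Matrix.one_apply, smul_eq_mul, Fin.reduceEq,
        if_true, if_false, Fin.isValue, out, vecMulVec_apply, mul_zero, mul_one, zero_add]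
    · exact h01
    · exact h02
    · exact h12
    · exact h00
    · exact h11
    · exact h22
  rcases hne with h0 | h0 | h0
  · have hb : (((A 0 0 - A 1 1) * k 0 + k 1 * A 0 1) / (k 0) ^ 3) * (k 0) ^ 3 =
      (A 0 0 - A 1 1) * k 0 + k 1 * A 0 1 := div_mul_cancel₀ _ (pow_ne_zero 3 h0)
    generalize (((A 0 0 - A 1 1) * k 0 + k 1 * A 0 1) / (k 0) ^ 3) = b at hb
    have h03 : (k 0) ^ 3 ≠ 0 := pow_ne_zero 3 h0
    refine key (A 0 0 - b * (k 0 * k 0)) b ?_ ?_ ?_ ?_ ?_ ?_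
    · apply mul_left_cancel₀ h03; grind
    · apply mul_left_cancel₀ h03; grind
    · apply mul_left_cancel₀ h03; grind
    · ring
    · apply mul_left_cancel₀ h03; grind
    · apply mul_left_cancel₀ h03; grind
  · have hb : (((A 1 1 - A 2 2) * k 1 + k 2 * A 1 2) / (k 1) ^ 3) * (k 1) ^ 3 =
      (A 1 1 - A 2 2) * k 1 + k 2 * A 1 2 := div_mul_cancel₀ _ (pow_ne_zero 3 h0)
    generalize (((A 1 1 - A 2 2) * k 1 + k 2 * A 1 2) / (k 1) ^ 3) = b at hb
    have h03 : (k 1) ^ 3 ≠ 0 := pow_ne_zero 3 h0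
    refine key (A 1 1 - b * (k 1 * k 1)) b ?_ ?_ ?_ ?_ ?_ ?_
    · apply mul_left_cancel₀ h03; grind
    · apply mul_left_cancel₀ h03; grind
    · apply mul_left_cancel₀ h03; grind
    · apply mul_left_cancel₀ h03; grind
    · ring
    · apply mul_left_cancel₀ h03; grind
  · have hb : (((A 2 2 - A 0 0) * k 2 + k 0 * A 0 2) / (k 2) ^ 3) * (k 2) ^ 3 =
      (A 2 2 - A 0 0) * k 2 + k 0 * A 0 2 := div_mul_cancel₀ _ (pow_ne_zero 3 h0)
    generalize (((A 2 2 - A 0 0) * k 2 + k 0 * A 0 2) / (k 2) ^ 3) = b at hb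
    have h03 : (k 2) ^ 3 ≠ 0 := pow_ne_zero 3 h0
    refine key (A 2 2 - b * (k 2 * k 2)) b ?_ ?_ ?_ ?_ ?_ ?_
    · apply mul_left_cancel₀ h03; grind
    · apply mul_left_cancel₀ h03; grind
    · apply mul_left_cancel₀ h03; grind
    · apply mul_left_cancel₀ h03; grind
    · apply mul_left_cancel₀ h03; grind
    · ring

theorem axial_of_dot' {F : Type*} [Field F] [CharZero F] {A : M3 F} {n m : V3 F}
    (hA : Aᵀ = A) (hn : n ≠ 0)
    (h : ∀ x : V3 F, n ⬝ᵥ (x ⨯₃ (A *ᵥ x)) = (n ⬝ᵥ x) * ((m ⨯₃ n) ⬝ᵥ x)) :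
    ∃ a b : F, A = a • (1 : M3 F) + b • out n n + out n m + out m n := by
  obtain ⟨a, b, hab⟩ := axial_of_dot (A := A - (out n m + out m n)) (k := n)
    (by
      rw [transpose_sub, transpose_add, hA, out, out, transpose_vecMulVec, transpose_vecMulVec,
        add_comm (vecMulVec m n)]) hn
    (by
      intro x
      have hx := h x
      rw [mulVec3, cross_apply, cross_apply, dot3, dot3, dot3] at hx
      rw [mulVec3, cross_apply, dot3]
      simp only [Matrix.cons_val_zero, Matrix.cons_val_one, Matrix.cons_val, Matrix.sub_apply,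
        Matrix.add_apply, out, vecMulVec_apply] at hx ⊢
      linear_combination hx)
  refine ⟨a, b, ?_⟩
  rw [sub_eq_iff_eq_add] at hab
  rw [hab]
  abel

theorem scalar_of_mul_cross {F : Type*} [Field F] [CharZero F] {A ρ : M3 F}
    (hρ : cof ρ ≠ 0) (h : ∀ x : V3 F, ρ *ᵥ (x ⨯₃ (A *ᵥ x)) = 0) :
    ∃ a : F, A = a • (1 : M3 F) := by
  refine ⟨A 0 0, scalar_of_cross ?_⟩
  -- some vector `w` with `(w ⬝ x) P(x) = 0`
  have hdet : ∀ (i j : Fin 3) (x : V3 F),
      ((ρ i ⨯₃ ρ j) ⬝ᵥ x) • (x ⨯₃ (A *ᵥ x)) = 0 := by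
    intro i j x
    have hi := congrFun (h x) i
    have hj := congrFun (h x) j
    have h3 : x ⬝ᵥ (x ⨯₃ (A *ᵥ x)) = 0 := dot_self_cross _ _
    rw [mulVec, Pi.zero_apply] at hi hj
    generalize (x ⨯₃ (A *ᵥ x)) = P at hi hj h3
    rw [dot3] at hi hj h3
    rw [cross_apply, dot3]
    refine ext3 ?_ ?_ ?_ <;>
      simp only [Pi.smul_apply, smul_eq_mul, Pi.zero_apply, Matrix.cons_val_zero,
        Matrix.cons_val_one, Matrix.cons_val] <;> grind
  obtain ⟨i, j, hij⟩ : ∃ i j : Fin 3, ρ i ⨯₃ ρ j ≠ 0 := by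
    by_contra hcon
    push Not at hcon
    apply hρ
    have h0 := hcon 1 2
    have h1 := hcon 2 0
    have h2 := hcon 0 1
    rw [cross_apply] at h0 h1 h2
    have a0 := congrFun h0 0
    have a1 := congrFun h0 1
    have a2 := congrFun h0 2
    have b0 := congrFun h1 0
    have b1 := congrFun h1 1
    have b2 := congrFun h1 2
    have c0 := congrFun h2 0
    have c1 := congrFun h2 1
    have c2 := congrFun h2 2
    clear h0 h1 h2 hcon hρ hdet h
    simp only [Matrix.cons_val_zero, Matrix.cons_val_one, Matrix.cons_val, Pi.zero_apply] at *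
    refine extM ?_ ?_ ?_ ?_ ?_ ?_ ?_ ?_ ?_ <;>
      simp only [cof, Matrix.of_apply, Matrix.cons_val', Matrix.cons_val_zero, Matrix.cons_val_one,
        Matrix.cons_val, Matrix.zero_apply] <;> grind
  have hw := hdet i j
  generalize ρ i ⨯₃ ρ j = w at hij hw
  -- a vector with `w ⬝ x₀ ≠ 0`
  obtain ⟨x₀, hx₀⟩ : ∃ x₀ : V3 F, w ⬝ᵥ x₀ ≠ 0 := by
    by_contra hcon
    push Not at hcon
    have h0 := hcon ![1, 0, 0]
    have h1 := hcon ![0, 1, 0]
    have h2 := hcon ![0, 0, 1]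
    rw [dot3] at h0 h1 h2
    simp only [Matrix.cons_val_zero, Matrix.cons_val_one, Matrix.cons_val, mul_one, mul_zero,
      add_zero, zero_add] at h0 h1 h2
    exact hij (ext3 h0 h1 h2)
  have hP : ∀ x : V3 F, w ⬝ᵥ x ≠ 0 → x ⨯₃ (A *ᵥ x) = 0 := by
    intro x hx
    have := hw x
    rw [smul_eq_zero] at this
    exact this.resolve_left hx
  intro x
  by_cases hx : w ⬝ᵥ x = 0
  · have h0 := hP x₀ hx₀
    have h1 := hP (x + x₀) (by rw [dotProduct_add, hx, zero_add]; exact hx₀)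
    have h2 := hP (x - x₀) (by rw [dotProduct_sub, hx, zero_sub]; exact neg_ne_zero.2 hx₀)
    simp only [mulVec_add, mulVec_sub, map_add, map_sub, LinearMap.add_apply, LinearMap.sub_apply,
      h0, add_zero, sub_zero] at h1 h2
    have h3 : (2 : F) • (x ⨯₃ (A *ᵥ x)) = 0 := by
      have h4 : (2 : F) • (x ⨯₃ (A *ᵥ x)) = ((x ⨯₃ (A *ᵥ x)) + (x₀ ⨯₃ (A *ᵥ x)) + (x ⨯₃ (A *ᵥ x₀)))
        + ((x ⨯₃ (A *ᵥ x)) - (x₀ ⨯₃ (A *ᵥ x)) - (x ⨯₃ (A *ᵥ x₀))) := by
        rw [two_smul]; abel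
      rw [h4]
      have h5 : (x ⨯₃ (A *ᵥ x)) + (x₀ ⨯₃ (A *ᵥ x)) + (x ⨯₃ (A *ᵥ x₀)) = 0 := by
        rw [← h1]
      have h6 : (x ⨯₃ (A *ᵥ x)) - (x₀ ⨯₃ (A *ᵥ x)) - (x ⨯₃ (A *ᵥ x₀)) = 0 := by
        rw [← h2]
      rw [h5, h6, add_zero]
    rw [smul_eq_zero] at h3
    exact h3.resolve_left two_ne_zero
  · exact hP x hx

/-- a symmetric matrix satisfying a quadratic equation -/
theorem axial_of_quadratic {F : Type*} [Field F] [CharZero F] {H : M3 F} (hH : Hᵀ = H)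
    (hns : ¬ ∃ a : F, H = a • (1 : M3 F)) {p q : F} (h : H * H = p • H + q • (1 : M3 F)) :
    ∃ (k : V3 F) (a b : F), k ≠ 0 ∧ b ≠ 0 ∧ H = a • (1 : M3 F) + b • out k k := by
  have a10 : H 1 0 = H 0 1 := congrFun (congrFun hH 0) 1
  have a20 : H 2 0 = H 0 2 := congrFun (congrFun hH 0) 2
  have a21 : H 2 1 = H 1 2 := congrFun (congrFun hH 1) 2
  have e00 := congrFun (congrFun h 0) 0
  have e01 := congrFun (congrFun h 0) 1
  have e02 := congrFun (congrFun h 0) 2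
  have e11 := congrFun (congrFun h 1) 1
  have e12 := congrFun (congrFun h 1) 2
  have e22 := congrFun (congrFun h 2) 2
  simp only [Matrix.mul_apply, Fin.sum_univ_three, Matrix.add_apply, Matrix.smul_apply,
    Matrix.one_apply, smul_eq_mul, Fin.reduceEq, if_true, if_false, Fin.isValue, a10, a20, a21,
    mul_one, mul_zero, add_zero] at e00 e01 e02 e11 e12 e22
  obtain ⟨a, ha⟩ : ∃ a : F, a = H 0 0 + H 1 1 + H 2 2 - p := ⟨_, rfl⟩
  have hnz : ¬ (H 0 1 = 0 ∧ H 0 2 = 0 ∧ H 1 2 = 0 ∧ H 0 0 = H 1 1 ∧ H 1 1 = H 2 2) := by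
    rintro ⟨h1, h2, h3, h4, h5⟩
    apply hns
    refine ⟨H 2 2, LinA.ext_sym hH ?_ ?_ ?_ ?_ ?_ ?_ ?_⟩
    · rw [transpose_smul, transpose_one]
    all_goals
      simp only [Matrix.smul_apply, Matrix.one_apply, smul_eq_mul, Fin.reduceEq,
        if_true, if_false, Fin.isValue, mul_zero, mul_one]
    · exact h1
    · exact h2
    · exact h3
    · exact h4.trans h5
    · exact h5
  -- minors of `H - a`
  have hα : (p - (H 0 0 + H 1 1 + H 2 2)) * p + q + (H 0 0 * H 1 1 - H 0 1 ^ 2 + H 0 0 * H 2 2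
      - H 0 2 ^ 2 + H 1 1 * H 2 2 - H 1 2 ^ 2) = 0 := by
    by_contra hα
    obtain ⟨α, hαd⟩ : ∃ α, α = (p - (H 0 0 + H 1 1 + H 2 2)) * p + q + (H 0 0 * H 1 1 - H 0 1 ^ 2
      + H 0 0 * H 2 2 - H 0 2 ^ 2 + H 1 1 * H 2 2 - H 1 2 ^ 2) := ⟨_, rfl⟩
    rw [← hαd] at hα
    apply hnz
    have f1 : α * H 0 1 = 0 := by
      rw [hαd]
      linear_combination (-(H 0 0) - (p - (H 0 0 + H 1 1 + H 2 2))) * e01 - H 0 1 * e11
        - H 0 2 * e12
    have f2 : α * H 0 2 = 0 := by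
      rw [hαd]
      linear_combination (-(H 0 0) - (p - (H 0 0 + H 1 1 + H 2 2))) * e02 - H 0 1 * e12
        - H 0 2 * e22
    have f3 : α * H 1 2 = 0 := by
      rw [hαd]
      linear_combination (-(H 1 1) - (p - (H 0 0 + H 1 1 + H 2 2))) * e12 - H 0 1 * e02
        - H 1 2 * e22
    have f4 : α * (H 0 0 - H 1 1) = 0 := by
      rw [hαd]
      linear_combination -(H 0 0 * e00 + H 0 1 * e01 + H 0 2 * e02)
        - (p - (H 0 0 + H 1 1 + H 2 2)) * e00
        + (H 0 1 * e01 + H 1 1 * e11 + H 1 2 * e12)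
        + (p - (H 0 0 + H 1 1 + H 2 2)) * e11
    have f5 : α * (H 1 1 - H 2 2) = 0 := by
      rw [hαd]
      linear_combination -(H 0 1 * e01 + H 1 1 * e11 + H 1 2 * e12)
        - (p - (H 0 0 + H 1 1 + H 2 2)) * e11
        + (H 0 2 * e02 + H 1 2 * e12 + H 2 2 * e22)
        + (p - (H 0 0 + H 1 1 + H 2 2)) * e22
    rw [mul_eq_zero] at f1 f2 f3 f4 f5
    exact ⟨f1.resolve_left hα, f2.resolve_left hα, f3.resolve_left hα,
      sub_eq_zero.1 (f4.resolve_left hα), sub_eq_zero.1 (f5.resolve_left hα)⟩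
  have m1 : (H 1 1 - a) * (H 2 2 - a) = H 1 2 * H 1 2 := by
    rw [ha]; linear_combination hα + e00
  have m2 : (H 0 0 - a) * (H 2 2 - a) = H 0 2 * H 0 2 := by
    rw [ha]; linear_combination hα + e11
  have m3 : (H 0 0 - a) * (H 1 1 - a) = H 0 1 * H 0 1 := by
    rw [ha]; linear_combination hα + e22
  have m4 : (H 0 0 - a) * H 1 2 = H 0 1 * H 0 2 := by
    rw [ha]; linear_combination -e12
  have m5 : (H 1 1 - a) * H 0 2 = H 0 1 * H 1 2 := by
    rw [ha]; linear_combination -e02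
  have m6 : (H 2 2 - a) * H 0 1 = H 0 2 * H 1 2 := by
    rw [ha]; linear_combination -e01
  have key : ∀ (b : F) (k : V3 F), k ≠ 0 → b ≠ 0 → H 0 1 = b * (k 0 * k 1) →
      H 0 2 = b * (k 0 * k 2) →
      H 1 2 = b * (k 1 * k 2) → H 0 0 - a = b * (k 0 * k 0) → H 1 1 - a = b * (k 1 * k 1) →
      H 2 2 - a = b * (k 2 * k 2) → ∃ (k : V3 F) (a b : F), k ≠ 0 ∧ b ≠ 0 ∧
        H = a • (1 : M3 F) + b • out k k := by
    intro b k hk hb h01 h02 h12 h00 h11 h22
    refine ⟨k, a, b, hk, hb, LinA.ext_sym hH ?_ ?_ ?_ ?_ ?_ ?_ ?_⟩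
    · rw [transpose_add, transpose_smul, transpose_smul, transpose_one, out, transpose_vecMulVec]
    all_goals
      simp only [Matrix.add_apply, Matrix.smul_apply, Matrix.one_apply, smul_eq_mul, Fin.reduceEq,
        if_true, if_false, Fin.isValue, out, vecMulVec_apply, mul_zero, mul_one, zero_add]
    · exact h01
    · exact h02
    · exact h12
    · linear_combination h00
    · linear_combination h11
    · linear_combination h22
  by_cases c0 : H 0 0 - a = 0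
  · by_cases c1 : H 1 1 - a = 0
    · by_cases c2 : H 2 2 - a = 0
      · exfalso
        apply hnz
        have z1 : H 1 2 = 0 := by
          rw [c1, zero_mul] at m1; exact mul_self_eq_zero.1 m1.symm
        have z2 : H 0 2 = 0 := by
          rw [c0, zero_mul] at m2; exact mul_self_eq_zero.1 m2.symm
        have z3 : H 0 1 = 0 := by
          rw [c0, zero_mul] at m3; exact mul_self_eq_zero.1 m3.symm
        exact ⟨z3, z2, z1, by linear_combination c0 - c1, by linear_combination c1 - c2⟩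
      · refine key (H 2 2 - a)⁻¹ ![H 0 2, H 1 2, H 2 2 - a] ?_ (inv_ne_zero c2) ?_ ?_ ?_ ?_ ?_ ?_
        · intro h0
          exact c2 (congrFun h0 2)
        all_goals
          simp only [Matrix.cons_val_zero, Matrix.cons_val_one, Matrix.cons_val]
          apply mul_left_cancel₀ c2
          rw [← mul_assoc, mul_inv_cancel₀ c2]
          grind
    · refine key (H 1 1 - a)⁻¹ ![H 0 1, H 1 1 - a, H 1 2] ?_ (inv_ne_zero c1) ?_ ?_ ?_ ?_ ?_ ?_
      · intro h0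
        exact c1 (congrFun h0 1)
      all_goals
        simp only [Matrix.cons_val_zero, Matrix.cons_val_one, Matrix.cons_val]
        apply mul_left_cancel₀ c1
        rw [← mul_assoc, mul_inv_cancel₀ c1]
        grind
  · refine key (H 0 0 - a)⁻¹ ![H 0 0 - a, H 0 1, H 0 2] ?_ (inv_ne_zero c0) ?_ ?_ ?_ ?_ ?_ ?_
    · intro h0
      exact c0 (congrFun h0 0)
    all_goals
      simp only [Matrix.cons_val_zero, Matrix.cons_val_one, Matrix.cons_val]
      apply mul_left_cancel₀ c0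
      rw [← mul_assoc, mul_inv_cancel₀ c0]
      grind

end
end Pool.Agent.MP_106392_al
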