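import Pool.Agent.MP_106392_al.NId
import Pool.Agent.MP_106392_al.LinA

/-! Module Sb: injectivity conditions, and the lowest order consequences of the equations. -/

set_option autoImplicit false
namespace Pool.Agent.MP_106392_al
open Matrix
noncomputable section

namespace SerB

/-- value of a vector of power series at zero -/
def evV (v : V3 R) : V3 ℂ := fun i => PowerSeries.constantCoeff (R := ℂ) (v i)

theorem evV_mulVec (A : M3 R) (v : V3 R) : evV (A *ᵥ v) = ev0 A *ᵥ evV v := by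
  funext i
  simp [evV, ev0, Matrix.mulVec, dotProduct, Fin.sum_univ_three]

theorem evV_cross (u v : V3 R) : evV (u ⨯₃ v) = evV u ⨯₃ evV v := by
  funext i
  fin_cases i <;> simp [evV, cross_apply]

theorem evV_vC (x : V3 ℂ) : evV (vC x) = x := by
  funext i
  simp [evV, vC]

theorem evV_add (u v : V3 R) : evV (u + v) = evV u + evV v := by
  funext i
  simp [evV]

theorem evV_sub (u v : V3 R) : evV (u - v) = evV u - evV v := by
  funext i
  simp [evV]

theorem evV_zero : evV 0 = 0 := by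
  funext i
  simp [evV]

theorem evV_X (v : V3 R) : evV ((PowerSeries.X : R) • v) = 0 := by
  funext i
  simp [evV]

theorem ev0_cst (A : M3 ℂ) : ev0 (cst A) = A := by
  ext i j
  simp [ev0, cst]

theorem ev0_cof (A : M3 R) : ev0 (cof A) = cof (ev0 A) := by
  ext i j
  fin_cases i <;> fin_cases j <;> simp [cof, ev0]

theorem ev0_transpose (A : M3 R) : ev0 Aᵀ = (ev0 A)ᵀ := by
  ext i j
  simp [ev0]

theorem smul_cancel {u v : V3 R} (h : (PowerSeries.X : R) • u = (PowerSeries.X : R) • v) :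
    u = v := by
  funext i
  have := congrFun h i
  simpa [PowerSeries.X_ne_zero] using this

theorem dot_self_smul {F : Type*} [CommRing F] (A : M3 F) (x y : V3 F) :
    (A *ᵥ x) ⬝ᵥ y = x ⬝ᵥ (Aᵀ *ᵥ y) := by
  simp [Matrix.mulVec, dotProduct, Fin.sum_univ_three]
  ring

/-- division by `λ` -/
theorem exists_div {D : M3 R} (h : ev0 D = 0) : ∃ D' : M3 R, D = (PowerSeries.X : R) • D' := by
  have : ∀ i j, ∃ d : R, D i j = PowerSeries.X * d := by
    intro i j
    have h1 := congrFun (congrFun h i) j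
    have : (PowerSeries.X : R) ∣ D i j := by
      rw [PowerSeries.X_dvd_iff]
      simpa [ev0] using h1
    exact this
  choose d hd using this
  exact ⟨Matrix.of d, by ext i j; simp [hd]⟩

theorem exists_one_add {G : M3 R} (h : ev0 G = 1) :
    ∃ G' : M3 R, G = 1 + (PowerSeries.X : R) • G' := by
  obtain ⟨G', hG'⟩ := exists_div (D := G - 1) (by
    ext i j
    have := congrFun (congrFun h i) j
    simp only [ev0, Matrix.map_apply, Matrix.sub_apply, map_sub, Matrix.zero_apply] at this ⊢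
    rw [this]
    by_cases hij : i = j
    · subst hij; simp
    · simp [Matrix.one_apply_ne hij])
  exact ⟨G', by rw [← hG']; abel⟩

theorem eq_zero_of_cross {F : Type*} [Field F] {v : V3 F} (h : ∀ x : V3 F, v ⨯₃ x = 0) :
    v = 0 := by
  have h1 := congrFun (h ![1, 0, 0]) 2
  have h2 := congrFun (h ![0, 1, 0]) 0
  have h3 := congrFun (h ![0, 1, 0]) 2
  have h4 := congrFun (h ![0, 0, 1]) 0
  simp [cross_apply] at h1 h2 h3 h4
  funext i
  fin_cases i
  · exact h3
  · exact h1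
  · exact h2

theorem eq_zero_of_dot {F : Type*} [Field F] {v : V3 F} (h : ∀ y : V3 F, y ⬝ᵥ v = 0) :
    v = 0 := by
  funext i
  have := h (Pi.single i 1)
  simpa using this

theorem eq_zero_of_mulVec {F : Type*} [Field F] {A : M3 F} (h : ∀ y : V3 F, A *ᵥ y = 0) :
    A = 0 := by
  ext i j
  have := congrFun (h (Pi.single j 1)) i
  simpa using this

theorem triple {F : Type*} [CommRing F] {X : M3 F} (hX : Xᵀ = X) (u x : V3 F) :
    x ⬝ᵥ (X *ᵥ (u ⨯₃ x)) = u ⬝ᵥ (x ⨯₃ (X *ᵥ x)) := by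
  have h01 : X 0 1 = X 1 0 := congrFun (congrFun hX 1) 0
  have h02 : X 0 2 = X 2 0 := congrFun (congrFun hX 2) 0
  have h12 : X 1 2 = X 2 1 := congrFun (congrFun hX 2) 1
  simp [Matrix.mulVec, dotProduct, Fin.sum_univ_three, cross_apply]
  rw [h01, h02, h12]
  ring

theorem pr_smul {F : Type*} [CommRing F] (L Y : M3 F) (c : F) : pr L (c • Y) = c * pr L Y := by
  simp [pr, Fin.sum_univ_three]
  ring

theorem out_mulVec {F : Type*} [CommRing F] (a b y : V3 F) :
    out a b *ᵥ y = (b ⬝ᵥ y) • a := by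
  funext i
  simp [out, Matrix.mulVec, dotProduct, Matrix.vecMulVec_apply, Fin.sum_univ_three]
  ring

end SerB

open SerB

theorem inj_rank_two {r L : M3 ℂ} (hr : cof r ≠ 0) (hL : pr L r ≠ 0) (L' : M3 ℂ) :
    ∀ X Y : M3 ℂ, Xᵀ = X →
      (∀ x y : V3 ℂ, X *ᵥ ((r *ᵥ y) ⨯₃ x) + (Y *ᵥ y) ⨯₃ x = 0) →
      pr L Y = 0 → pr L' X = 0 → X = 0 ∧ Y = 0 := by
  intro X Y hX H hY _
  have h1 : ∀ x : V3 ℂ, rᵀ *ᵥ (x ⨯₃ (X *ᵥ x)) = 0 := by
    intro x
    refine eq_zero_of_dot fun y => ?_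
    rw [← dot_self_smul, ← triple hX]
    have h2 : x ⬝ᵥ (X *ᵥ ((r *ᵥ y) ⨯₃ x) + (Y *ᵥ y) ⨯₃ x) = 0 := by rw [H, dotProduct_zero]
    rw [dotProduct_add] at h2
    have h3 : x ⬝ᵥ ((Y *ᵥ y) ⨯₃ x) = 0 := dot_cross_self (Y *ᵥ y) x
    rw [h3, add_zero] at h2
    exact h2
  have hcr : cof rᵀ ≠ 0 := by
    intro h2
    apply hr
    have : cof rᵀ = (cof r)ᵀ := by
      ext i j
      fin_cases i <;> fin_cases j <;> simp [cof] <;> ring
    rw [this] at h2
    have h3 := congrArg Matrix.transpose h2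
    simpa using h3
  obtain ⟨a, ha⟩ := scalar_of_mul_cross hcr h1
  have h4 : a • r + Y = 0 := by
    refine eq_zero_of_mulVec fun y => eq_zero_of_cross fun x => ?_
    have h5 := H x y
    rw [ha, Matrix.smul_mulVec, Matrix.one_mulVec] at h5
    rw [Matrix.add_mulVec, Matrix.smul_mulVec, map_add, LinearMap.add_apply, map_smul,
      LinearMap.smul_apply]
    exact h5
  have h6 : Y = (-a) • r := by
    rw [neg_smul]
    exact eq_neg_of_add_eq_zero_right h4
  have h7 : a = 0 := by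
    rw [h6, pr_smul] at hY
    rcases mul_eq_zero.mp hY with h | h
    · exact neg_eq_zero.mp h
    · exact absurd h hL
  constructor
  · rw [ha, h7, zero_smul]
  · rw [h6, h7, neg_zero, zero_smul]

theorem inj_rank_one {n v : V3 ℂ} (hn : n ≠ 0) (hv : v ≠ 0) {L L' : M3 ℂ}
    (hL : pr L (out n v) ≠ 0) (hL1 : pr L' 1 = 0) (hL2 : pr L' (out n n) ≠ 0) :
    ∀ X Y : M3 ℂ, Xᵀ = X →
      (∀ x y : V3 ℂ, X *ᵥ ((out n v *ᵥ y) ⨯₃ x) + (Y *ᵥ y) ⨯₃ x = 0) →
      pr L Y = 0 → pr L' X = 0 → X = 0 ∧ Y = 0 := by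
  intro X Y hX H hY hX'
  have h1 : ∀ x : V3 ℂ, n ⬝ᵥ (x ⨯₃ (X *ᵥ x)) = 0 := by
    intro x
    obtain ⟨i, hi⟩ : ∃ i, v i ≠ 0 := by
      by_contra hc
      push Not at hc
      exact hv (funext hc)
    have h2 : x ⬝ᵥ (X *ᵥ ((out n v *ᵥ Pi.single i 1) ⨯₃ x) + (Y *ᵥ Pi.single i 1) ⨯₃ x) = 0 := by
      rw [H, dotProduct_zero]
    rw [dotProduct_add] at h2
    have h3 : x ⬝ᵥ ((Y *ᵥ Pi.single i 1) ⨯₃ x) = 0 := dot_cross_self _ x
    rw [h3, add_zero, triple hX, out_mulVec, smul_dotProduct] at h2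
    rcases smul_eq_zero.mp h2 with h | h
    · exfalso
      apply hi
      simpa using h
    · exact h
  obtain ⟨a, b, hab⟩ := axial_of_dot hX hn h1
  have h4 : a • out n v + Y = 0 := by
    refine eq_zero_of_mulVec fun y => eq_zero_of_cross fun x => ?_
    have h5 := H x y
    have h6 : X *ᵥ ((out n v *ᵥ y) ⨯₃ x) = a • ((out n v *ᵥ y) ⨯₃ x) := by
      rw [hab, Matrix.add_mulVec, Matrix.smul_mulVec, Matrix.smul_mulVec, Matrix.one_mulVec,
        out_mulVec n n, out_mulVec, map_smul, LinearMap.smul_apply, dotProduct_smul,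
        dot_self_cross]
      simp
    rw [h6] at h5
    rw [Matrix.add_mulVec, Matrix.smul_mulVec, map_add, LinearMap.add_apply, map_smul,
      LinearMap.smul_apply]
    exact h5
  have h6 : Y = (-a) • out n v := by
    rw [neg_smul]
    exact eq_neg_of_add_eq_zero_right h4
  have h7 : a = 0 := by
    rw [h6, pr_smul] at hY
    rcases mul_eq_zero.mp hY with h | h
    · exact neg_eq_zero.mp h
    · exact absurd h hL
  have h8 : b = 0 := by
    rw [hab, h7, zero_smul, zero_add, pr_smul] at hX'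
    rcases mul_eq_zero.mp hX' with h | h
    · exact h
    · exact absurd h hL2
  constructor
  · rw [hab, h7, h8, zero_smul, zero_smul, add_zero]
  · rw [h6, h7, neg_zero, zero_smul]

theorem half_zero {s A B A' B' : M3 ℂ} {G D : M3 R} (h : Half 0 s A B A' B' G D) : D = 0 := by
  have step : ∀ k : ℕ, ∃ D' : M3 R, D = (PowerSeries.X : R) ^ k • D' := by
    intro k
    induction k with
    | zero => exact ⟨D, by rw [pow_zero, one_smul]⟩
    | succ k ih =>
      obtain ⟨D', hD'⟩ := ih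
      have hI : ∀ x y : V3 R, G *ᵥ ((D' *ᵥ y) ⨯₃ x) =
          (PowerSeries.X : R) • (D' *ᵥ (y ⨯₃ (cst s *ᵥ x))) := by
        intro x y
        have h1 := h.I1 x y
        have h0 : cst (0 : M3 ℂ) = 0 := by
          ext i j
          simp [cst]
        rw [hD', h0] at h1
        simp only [Matrix.smul_mulVec, Matrix.zero_mulVec, map_smul, LinearMap.smul_apply,
          map_zero, LinearMap.zero_apply, zero_add, Matrix.mulVec_smul] at h1
        rw [smul_comm] at h1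
        funext i
        have h2 := congrFun h1 i
        simp only [Pi.smul_apply, smul_eq_mul] at h2 ⊢
        exact mul_left_cancel₀ (pow_ne_zero k PowerSeries.X_ne_zero) h2
      have hD0 : ev0 D' = 0 := by
        refine eq_zero_of_mulVec fun y => eq_zero_of_cross fun x => ?_
        have h1 := congrArg evV (hI (vC x) (vC y))
        rw [evV_mulVec, evV_cross, evV_mulVec, evV_X, h.G0, Matrix.one_mulVec, evV_vC,
          evV_vC] at h1
        exact h1
      obtain ⟨D'', hD''⟩ := exists_div hD0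
      exact ⟨D'', by rw [hD', hD'', smul_smul, pow_succ]⟩
  ext i j n
  obtain ⟨D', hD'⟩ := step (n + 1)
  rw [hD', Matrix.smul_apply, smul_eq_mul, Matrix.zero_apply, map_zero,
    PowerSeries.coeff_X_pow_mul']
  simp

theorem half_c1 {r s A B A' B' : M3 ℂ} {G D : M3 R} (h : Half r s A B A' B' G D) (x : V3 ℂ) :
    (s *ᵥ x) ⨯₃ (rᵀ *ᵥ x) = rᵀ *ᵥ (x ⨯₃ (A *ᵥ x)) := by
  obtain ⟨G', hG'⟩ := exists_one_add h.G0
  -- the value of `G'` at zero
  have e1 : x ⨯₃ ((ev0 G' - A) *ᵥ x) = 0 := by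
    have h1 := h.I2 (vC x)
    have h2 : G - (PowerSeries.X : R) • cst A = 1 + (PowerSeries.X : R) • (G' - cst A) := by
      rw [hG', smul_sub]
      abel
    rw [h2, Matrix.add_mulVec, Matrix.one_mulVec, map_add, cross_self, zero_add,
      Matrix.smul_mulVec, map_smul, Matrix.mulVec_smul, sq, mul_smul] at h1
    have h3 := congrArg evV (smul_cancel h1)
    rw [evV_mulVec, h.G0, Matrix.one_mulVec, evV_cross, evV_mulVec, evV_X, evV_vC] at h3
    have h4 : ev0 (G' - cst A) = ev0 G' - A := by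
      ext i j
      simp [ev0, cst]
    rw [h4] at h3
    exact h3
  have e2 : x ⨯₃ (ev0 G' *ᵥ x) = x ⨯₃ (A *ᵥ x) := by
    rw [Matrix.sub_mulVec, map_sub, sub_eq_zero] at e1
    exact e1
  -- the equation dotted with `x`
  have e3 : Dᵀ *ᵥ (vC x ⨯₃ (G *ᵥ vC x)) =
      (PowerSeries.X : R) • ((cst s *ᵥ vC x) ⨯₃ (Dᵀ *ᵥ vC x)) := by
    have key : ∀ y : V3 R, y ⬝ᵥ (Dᵀ *ᵥ (vC x ⨯₃ (G *ᵥ vC x))) =
        y ⬝ᵥ ((PowerSeries.X : R) • ((cst s *ᵥ vC x) ⨯₃ (Dᵀ *ᵥ vC x))) := by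
      intro y
      rw [← dot_self_smul, ← triple h.symG, h.I1, dotProduct_add]
      have h3 : vC x ⬝ᵥ ((cst r *ᵥ y) ⨯₃ vC x) = 0 := dot_cross_self _ _
      rw [h3, zero_add, dotProduct_smul, dotProduct_smul]
      congr 1
      have h4 : vC x ⬝ᵥ (D *ᵥ (y ⨯₃ (cst s *ᵥ vC x))) =
          (Dᵀ *ᵥ vC x) ⬝ᵥ (y ⨯₃ (cst s *ᵥ vC x)) := by
        rw [dot_self_smul, Matrix.transpose_transpose]
      rw [h4, triple_product_permutation]
    funext i
    have := key (Pi.single i 1)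
    simpa using this
  have e4 : Dᵀ *ᵥ (vC x ⨯₃ (G' *ᵥ vC x)) = (cst s *ᵥ vC x) ⨯₃ (Dᵀ *ᵥ vC x) := by
    apply smul_cancel
    rw [← e3, hG', Matrix.add_mulVec, Matrix.one_mulVec, map_add, cross_self, zero_add,
      Matrix.smul_mulVec, map_smul, Matrix.mulVec_smul]
  have e5 := congrArg evV e4
  rw [evV_mulVec, evV_cross, evV_cross, evV_mulVec, evV_mulVec, evV_mulVec, evV_vC,
    ev0_transpose, h.D0, ev0_cst, e2] at e5
  exact e5.symm

theorem half_c3 {r s A B A' B' : M3 ℂ} {G D : M3 R} (h : Half r s A B A' B' G D) (y : V3 ℂ) :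
    (r *ᵥ y) ⨯₃ (cof r *ᵥ y) - cof r *ᵥ (y ⨯₃ (A' *ᵥ y)) = r *ᵥ (y ⨯₃ (B' *ᵥ y)) := by
  have h1 := congrArg evV (h.I3 (vC y))
  simpa only [evV_mulVec, evV_sub, evV_cross, evV_vC, ev0_cst, ev0_cof, h.G0, h.D0,
    Matrix.one_mulVec] using h1

end
end Pool.Agent.MP_106392_al
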