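import Pool.Agent.MP_106392_al.SideHalf
import Pool.Agent.MP_106392_al.LinA

/-!
# Module Sc: the equation `I2` alone
-/

set_option autoImplicit false
namespace Pool.Agent.MP_106392_al
open Matrix
noncomputable section

namespace SC

/-- the matrix of `n`-th coefficients -/
def cfM (M : M3 R) (n : ℕ) : M3 ℂ := M.map (PowerSeries.coeff (R := ℂ) n)

/-- the vector of `n`-th coefficients -/
def cfV (v : V3 R) (n : ℕ) : V3 ℂ := fun i => PowerSeries.coeff (R := ℂ) n (v i)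

theorem cfM_apply (M : M3 R) (n : ℕ) (i j : Fin 3) :
    cfM M n i j = PowerSeries.coeff (R := ℂ) n (M i j) := rfl

theorem cfV_apply (v : V3 R) (n : ℕ) (i : Fin 3) :
    cfV v n i = PowerSeries.coeff (R := ℂ) n (v i) := rfl

theorem cfM_ext {M N : M3 R} (h : ∀ n, cfM M n = cfM N n) : M = N := by
  ext i j n
  have := congrFun (congrFun (h n) i) j
  simpa [cfM] using this

theorem cfM_zero (M : M3 R) : cfM M 0 = ev0 M := by
  ext i j
  simp [cfM, ev0]

theorem cfM_transpose {M : M3 R} (h : Mᵀ = M) (n : ℕ) : (cfM M n)ᵀ = cfM M n := by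
  ext i j
  have := congrFun (congrFun h i) j
  simp only [Matrix.transpose_apply] at this
  simp only [Matrix.transpose_apply, cfM_apply]
  rw [this]

theorem cfV_mulVec (M : M3 R) (v : V3 R) (n : ℕ) :
    cfV (M *ᵥ v) n = ∑ p ∈ Finset.HasAntidiagonal.antidiagonal n, cfM M p.1 *ᵥ cfV v p.2 := by
  ext i
  simp only [cfV_apply, Matrix.mulVec, dotProduct, map_sum, PowerSeries.coeff_mul,
    Finset.sum_apply, cfM_apply]
  rw [Finset.sum_comm]

theorem cfV_cross (x : V3 ℂ) (v : V3 R) (n : ℕ) :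
    cfV (vC x ⨯₃ v) n = x ⨯₃ cfV v n := by
  ext i
  fin_cases i <;> simp [cfV_apply, vC, cross_apply, PowerSeries.coeff_C_mul]

theorem cfV_mulVec_vC (M : M3 R) (x : V3 ℂ) (n : ℕ) :
    cfV (M *ᵥ vC x) n = cfM M n *ᵥ x := by
  ext i
  simp [cfV_apply, vC, Matrix.mulVec, dotProduct, cfM_apply, PowerSeries.coeff_mul_C]

theorem vC_cross (x y : V3 ℂ) : vC x ⨯₃ vC y = vC (x ⨯₃ y) := by
  ext i : 1
  fin_cases i <;> simp [vC, cross_apply]

theorem cst_mulVec_vC (A : M3 ℂ) (x : V3 ℂ) : cst A *ᵥ vC x = vC (A *ᵥ x) := by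
  ext i : 1
  simp [vC, cst, Matrix.mulVec, dotProduct, map_sum]

/-- the `n`-th coefficient of `I2` -/
theorem coefI2 {A B : M3 ℂ} {G : M3 R}
    (I2 : ∀ x : V3 R, G *ᵥ (x ⨯₃ ((G - lam • cst A) *ᵥ x)) = lam ^ 2 • (x ⨯₃ (cst B *ᵥ x)))
    (x : V3 ℂ) (n : ℕ) :
    ∑ p ∈ Finset.HasAntidiagonal.antidiagonal n,
      cfM G p.1 *ᵥ (x ⨯₃ (cfM (G - lam • cst A) p.2 *ᵥ x)) =
      if n = 2 then x ⨯₃ (B *ᵥ x) else 0 := by
  have h := congrArg (fun v => cfV v n) (I2 (vC x))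
  rw [cfV_mulVec] at h
  simp only [cfV_cross, cfV_mulVec_vC] at h
  rw [h, cst_mulVec_vC, vC_cross]
  ext i
  rw [cfV_apply]
  simp only [Pi.smul_apply, smul_eq_mul, vC]
  rw [PowerSeries.coeff_X_pow_mul']
  rcases lt_trichotomy n 2 with hn | hn | hn
  · rw [if_neg (by omega), if_neg (by omega)]
    rfl
  · subst hn
    simp
  · rw [if_pos (by omega), if_neg (by omega), PowerSeries.coeff_C, if_neg (by omega)]
    rfl

theorem cfN_zero (A : M3 ℂ) (G : M3 R) : cfM (G - lam • cst A) 0 = cfM G 0 := by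
  ext i j
  simp [cfM_apply]

theorem cfN_one (A : M3 ℂ) (G : M3 R) : cfM (G - lam • cst A) 1 = cfM G 1 - A := by
  ext i j
  simp only [cfM_apply, Matrix.sub_apply, Matrix.smul_apply, smul_eq_mul, map_sub, cst,
    Matrix.map_apply]
  congr 1
  have := PowerSeries.coeff_succ_X_mul (R := ℂ) 0 (PowerSeries.C (A i j))
  simpa using this

theorem cfN_two (A : M3 ℂ) (G : M3 R) (n : ℕ) :
    cfM (G - lam • cst A) (n + 2) = cfM G (n + 2) := by
  ext i j
  simp only [cfM_apply, Matrix.sub_apply, Matrix.smul_apply, smul_eq_mul, map_sub, cst,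
    Matrix.map_apply]
  rw [PowerSeries.coeff_succ_X_mul, PowerSeries.coeff_C, if_neg (by omega), sub_zero]

theorem cross_scalar (a : ℂ) (x : V3 ℂ) : x ⨯₃ ((a • (1 : M3 ℂ)) *ᵥ x) = 0 := by
  rw [Matrix.smul_mulVec, Matrix.one_mulVec, map_smul, cross_self, smul_zero]

theorem cross_sub' (M N : M3 ℂ) (x : V3 ℂ) :
    x ⨯₃ ((M - N) *ᵥ x) = x ⨯₃ (M *ᵥ x) - x ⨯₃ (N *ᵥ x) := by
  rw [Matrix.sub_mulVec, map_sub]

/-- the first coefficients -/
theorem first {A B : M3 ℂ} {G : M3 R} (hG : ev0 G = 1)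
    (I2 : ∀ x : V3 R, G *ᵥ (x ⨯₃ ((G - lam • cst A) *ᵥ x)) = lam ^ 2 • (x ⨯₃ (cst B *ᵥ x))) :
    (∃ a₀ : ℂ, cfM G 1 - A = a₀ • (1 : M3 ℂ)) ∧ (∃ b₀ : ℂ, cfM G 2 - B = b₀ • (1 : M3 ℂ)) ∧
    (∀ x, x ⨯₃ (cfM G 3 *ᵥ x) + cfM G 1 *ᵥ (x ⨯₃ (cfM G 2 *ᵥ x)) = 0) ∧
    (∀ x, x ⨯₃ (cfM G 4 *ᵥ x) + cfM G 1 *ᵥ (x ⨯₃ (cfM G 3 *ᵥ x)) +
      cfM G 2 *ᵥ (x ⨯₃ (cfM G 2 *ᵥ x)) = 0) := by
  have hg0 : cfM G 0 = 1 := by rw [cfM_zero, hG]
  have hN0 : cfM (G - lam • cst A) 0 = 1 := by rw [cfN_zero, hg0]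
  have h1 : ∃ a₀ : ℂ, cfM G 1 - A = a₀ • (1 : M3 ℂ) := by
    refine ⟨_, scalar_of_cross (Z := cfM G 1 - A) ?_⟩
    intro x
    have := coefI2 I2 x 1
    rw [if_neg (by norm_num), Finset.Nat.sum_antidiagonal_succ] at this
    simp only [Finset.Nat.antidiagonal_zero, Finset.sum_singleton, zero_add] at this
    rw [hN0, hg0, cfN_one, Matrix.one_mulVec, Matrix.one_mulVec, cross_self,
      Matrix.mulVec_zero, add_zero] at this
    exact this
  obtain ⟨a₀, ha₀⟩ := h1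
  have hz : ∀ x : V3 ℂ, x ⨯₃ (cfM (G - lam • cst A) 1 *ᵥ x) = 0 := by
    intro x
    rw [cfN_one, ha₀, cross_scalar]
  have hz0 : ∀ x : V3 ℂ, x ⨯₃ (cfM (G - lam • cst A) 0 *ᵥ x) = 0 := by
    intro x
    rw [hN0, Matrix.one_mulVec, cross_self]
  refine ⟨⟨a₀, ha₀⟩, ?_, ?_, ?_⟩
  · refine ⟨_, scalar_of_cross (Z := cfM G 2 - B) ?_⟩
    intro x
    have := coefI2 I2 x 2
    rw [if_pos rfl] at this
    simp only [Finset.Nat.sum_antidiagonal_succ, Finset.Nat.antidiagonal_zero,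
      Finset.sum_singleton, zero_add] at this
    rw [hz, hz0, Matrix.mulVec_zero, Matrix.mulVec_zero, add_zero, add_zero, hg0,
      Matrix.one_mulVec, cfN_two A G 0] at this
    rw [cross_sub', this, sub_self]
  · intro x
    have := coefI2 I2 x 3
    rw [if_neg (by norm_num)] at this
    simp only [Finset.Nat.sum_antidiagonal_succ, Finset.Nat.antidiagonal_zero,
      Finset.sum_singleton, zero_add] at this
    rw [hz, hz0, Matrix.mulVec_zero, Matrix.mulVec_zero, add_zero, add_zero, hg0,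
      Matrix.one_mulVec, cfN_two A G 1, cfN_two A G 0] at this
    exact this
  · intro x
    have := coefI2 I2 x 4
    rw [if_neg (by norm_num)] at this
    simp only [Finset.Nat.sum_antidiagonal_succ, Finset.Nat.antidiagonal_zero,
      Finset.sum_singleton, zero_add] at this
    rw [hz, hz0, Matrix.mulVec_zero, Matrix.mulVec_zero, add_zero, add_zero, hg0,
      Matrix.one_mulVec, cfN_two A G 2, cfN_two A G 1, cfN_two A G 0] at this
    rw [add_assoc]
    exact this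

/-- `A` is a combination of `1` and `B` unless `B` is scalar -/
theorem dep {A B : M3 ℂ} {G : M3 R} (hA : Aᵀ = A) (hB : Bᵀ = B)
    (hG : ev0 G = 1)
    (I2 : ∀ x : V3 R, G *ᵥ (x ⨯₃ ((G - lam • cst A) *ᵥ x)) = lam ^ 2 • (x ⨯₃ (cst B *ᵥ x))) :
    (∃ b : ℂ, B = b • (1 : M3 ℂ)) ∨ ∃ a t : ℂ, A = a • (1 : M3 ℂ) + t • B := by
  obtain ⟨⟨a₀, h1⟩, ⟨b₀, h2⟩, h3, -⟩ := first hG I2
  rcases dependent_of_det (A := B) (B := A) hB hA (by
    intro x
    have h := congrArg (fun v => x ⬝ᵥ v) (h3 x)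
    have e1 : cfM G 1 = a₀ • (1 : M3 ℂ) + A := by rw [← h1]; abel
    have e2 : cfM G 2 = b₀ • (1 : M3 ℂ) + B := by rw [← h2]; abel
    rw [e1, e2] at h
    have s01 : A 1 0 = A 0 1 := congrFun (congrFun hA 0) 1
    have s02 : A 2 0 = A 0 2 := congrFun (congrFun hA 0) 2
    have s12 : A 2 1 = A 1 2 := congrFun (congrFun hA 1) 2
    simp [cross_apply, Matrix.mulVec, dotProduct, Fin.sum_univ_three, Matrix.add_apply,
      Matrix.smul_apply, s01, s02, s12] at h ⊢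
    linear_combination h) with h | h
  · exact Or.inl h
  · exact Or.inr h

end SC

/-- `B` scalar -/
theorem so3_rational {A B : M3 ℂ} {G : M3 R} (hA : Aᵀ = A) (sG : Gᵀ = G) (hG : ev0 G = 1)
    (I2 : ∀ x : V3 R, G *ᵥ (x ⨯₃ ((G - lam • cst A) *ᵥ x)) = lam ^ 2 • (x ⨯₃ (cst B *ᵥ x)))
    (hB : ∃ b : ℂ, B = b • (1 : M3 ℂ)) :
    ∃ w : R, PowerSeries.constantCoeff (R := ℂ) w = 1 ∧ G = shapeG A 0 w := by
  obtain ⟨b, rfl⟩ := hB
  have hdet : G.det ≠ 0 := by
    intro h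
    have := SideHalf.const_det G
    rw [h, hG, Matrix.det_one, map_zero] at this
    exact zero_ne_one this
  have hc : cst (b • (1 : M3 ℂ)) = cc b • (1 : M3 R) := by
    ext i j : 1
    by_cases hij : i = j
    · subst hij
      simp [cst]
    · simp [cst, Matrix.one_apply_ne hij]
  have key : ∀ x : V3 R, x ⨯₃ ((G - lam • cst A) *ᵥ x) = 0 := by
    intro x
    apply Matrix.eq_zero_of_mulVec_eq_zero hdet
    rw [I2 x, hc, Matrix.smul_mulVec, Matrix.one_mulVec, map_smul, cross_self, smul_zero,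
      smul_zero]
  have hs := scalar_of_cross key
  refine ⟨(G - lam • cst A) 0 0, ?_, ?_⟩
  · have h0 : PowerSeries.constantCoeff (R := ℂ) (G 0 0) = 1 := by
      have := congrFun (congrFun hG 0) 0
      simpa [ev0] using this
    simp [h0]
  · unfold shapeG
    rw [← hs, SideHalf.cst_zero, smul_zero, add_zero]
    abel

namespace SC

/-- `B` axial is not scalar -/
theorem axial_ne_scalar {k : V3 ℂ} (hk : k ≠ 0) {b β : ℂ} (hβ : β ≠ 0) (c : ℂ) :
    b • (1 : M3 ℂ) + β • out k k ≠ c • (1 : M3 ℂ) := by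
  intro h
  have e : ∀ i j, (b • (1 : M3 ℂ) + β • out k k) i j = (c • (1 : M3 ℂ)) i j := fun i j => by rw [h]
  have e00 := e 0 0
  have e01 := e 0 1
  have e02 := e 0 2
  have e11 := e 1 1
  have e12 := e 1 2
  have e22 := e 2 2
  simp [out, Matrix.vecMulVec, hβ] at e00 e01 e02 e11 e12 e22
  apply hk
  have z0 : k 0 = 0 := by
    by_contra h0
    have z1 : k 1 = 0 := by tauto
    rw [z1] at e11
    simp at e11
    rw [← e11] at e00
    simp [hβ] at e00
    exact h0 e00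
  have z1 : k 1 = 0 := by
    by_contra h0
    rw [z0] at e00
    simp at e00
    rw [← e00] at e11
    simp [hβ] at e11
    exact h0 e11
  have z2 : k 2 = 0 := by
    by_contra h0
    rw [z0] at e00
    simp at e00
    rw [← e00] at e22
    simp [hβ] at e22
    exact h0 e22
  ext i
  fin_cases i
  · exact z0
  · exact z1
  · exact z2

theorem exists_test {k : V3 ℂ} (hk : k ≠ 0) :
    ∃ (x : V3 ℂ) (i : Fin 3), (k ⬝ᵥ x) * (x ⨯₃ k) i ≠ 0 := by
  by_contra hcon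
  push Not at hcon
  apply hk
  have a1 := hcon ![1, 0, 0] 2
  have a2 := hcon ![1, 0, 0] 1
  have a3 := hcon ![1, 1, 0] 2
  have a4 := hcon ![1, 0, 1] 1
  simp [cross_apply, dotProduct, Fin.sum_univ_three] at a1 a2 a3 a4
  have z0 : k 0 = 0 := by
    by_contra h0
    have b1 : k 1 = 0 := by tauto
    rw [b1] at a3
    simp [h0] at a3
  have z1 : k 1 = 0 := by
    rw [z0] at a3
    simpa using a3
  have z2 : k 2 = 0 := by
    rw [z0] at a4
    simpa using a4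
  ext i
  fin_cases i
  · exact z0
  · exact z1
  · exact z2

theorem axial_cross (a b : ℂ) (k x : V3 ℂ) :
    x ⨯₃ ((a • (1 : M3 ℂ) + b • out k k) *ᵥ x) = b • ((k ⬝ᵥ x) • (x ⨯₃ k)) := by
  ext i
  fin_cases i <;>
    simp [out, Matrix.vecMulVec, cross_apply, Matrix.mulVec, dotProduct, Fin.sum_univ_three] <;>
    ring

theorem axial_mul (a b c : ℂ) (k x : V3 ℂ) :
    (a • (1 : M3 ℂ) + b • out k k) *ᵥ (c • (x ⨯₃ k)) = a • c • (x ⨯₃ k) := by
  ext i
  fin_cases i <;>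
    simp [out, Matrix.vecMulVec, cross_apply, Matrix.mulVec, dotProduct, Fin.sum_univ_three] <;>
    ring

/-- all coefficients are axial -/
theorem axial_all {A B : M3 ℂ} {G : M3 R} (hG : ev0 G = 1)
    (I2 : ∀ x : V3 R, G *ᵥ (x ⨯₃ ((G - lam • cst A) *ᵥ x)) = lam ^ 2 • (x ⨯₃ (cst B *ᵥ x)))
    {k : V3 ℂ} {a α b β : ℂ} (hA' : A = a • (1 : M3 ℂ) + α • out k k)
    (hB' : B = b • (1 : M3 ℂ) + β • out k k) (n : ℕ) :
    ∃ p q : ℂ, cfM G n = p • (1 : M3 ℂ) + q • out k k := by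
  obtain ⟨⟨a₀, h1⟩, ⟨b₀, h2⟩, -, -⟩ := first hG I2
  induction n using Nat.strong_induction_on with
  | _ n ih =>
    match n, ih with
    | 0, _ => exact ⟨1, 0, by rw [cfM_zero, hG]; simp⟩
    | 1, _ => exact ⟨a₀ + a, α, by
        have : cfM G 1 = a₀ • (1 : M3 ℂ) + A := by rw [← h1]; abel
        rw [this, hA', add_smul]; abel⟩
    | 2, _ => exact ⟨b₀ + b, β, by
        have : cfM G 2 = b₀ • (1 : M3 ℂ) + B := by rw [← h2]; abel
        rw [this, hB', add_smul]; abel⟩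
    | n + 3, ih =>
      have hN : ∀ m, m < n + 3 → ∃ p q : ℂ, cfM (G - lam • cst A) m =
          p • (1 : M3 ℂ) + q • out k k := by
        intro m hm
        match m, hm with
        | 0, _ => exact ⟨1, 0, by rw [cfN_zero, cfM_zero, hG]; simp⟩
        | 1, _ => exact ⟨a₀, 0, by rw [cfN_one, h1]; simp⟩
        | m + 2, hm =>
          rw [cfN_two]
          exact ih (m + 2) hm
      have hterm : ∀ p ∈ Finset.HasAntidiagonal.antidiagonal (n + 2), ∃ γ : ℂ, ∀ x : V3 ℂ,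
          cfM G (p.1 + 1) *ᵥ (x ⨯₃ (cfM (G - lam • cst A) p.2 *ᵥ x)) =
            γ • ((k ⬝ᵥ x) • (x ⨯₃ k)) := by
        rintro ⟨i, j⟩ hp
        rw [Finset.HasAntidiagonal.mem_antidiagonal] at hp
        simp only at hp ⊢
        rcases Nat.eq_zero_or_pos j with hj | hj
        · subst hj
          refine ⟨0, fun x => ?_⟩
          rw [cfN_zero, cfM_zero, hG, Matrix.one_mulVec, cross_self, Matrix.mulVec_zero, zero_smul]
        · obtain ⟨p₁, q₁, e₁⟩ := ih (i + 1) (by omega)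
          obtain ⟨p₂, q₂, e₂⟩ := hN j (by omega)
          refine ⟨q₂ * p₁, fun x => ?_⟩
          rw [e₁, e₂, axial_cross, ← mul_smul, axial_mul]
          simp only [smul_smul]
          congr 1
          ring
      choose! γ hγ using hterm
      set c : ℂ := ∑ p ∈ Finset.HasAntidiagonal.antidiagonal (n + 2), γ p with hc
      have hz : ∀ x : V3 ℂ, x ⨯₃ ((cfM G (n + 3) + c • out k k) *ᵥ x) = 0 := by
        intro x
        have h := coefI2 I2 x (n + 3)
        rw [if_neg (by omega), Finset.Nat.sum_antidiagonal_succ] at h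
        simp only at h
        rw [Finset.sum_congr rfl (fun p hp => hγ p hp x), ← Finset.sum_smul, ← hc, cfM_zero, hG,
          Matrix.one_mulVec, cfN_two] at h
        rw [Matrix.add_mulVec, map_add]
        have e := axial_cross 0 c k x
        rw [zero_smul, zero_add] at e
        rw [e]
        exact h
      refine ⟨(cfM G (n + 3) + c • out k k) 0 0, -c, ?_⟩
      have := scalar_of_cross hz
      rw [neg_smul, ← this]
      abel

end SC

/-- `B` axial -/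
theorem so3_axial {A B : M3 ℂ} {G : M3 R} (hA : Aᵀ = A) (hB : Bᵀ = B) (sG : Gᵀ = G)
    (hG : ev0 G = 1)
    (I2 : ∀ x : V3 R, G *ᵥ (x ⨯₃ ((G - lam • cst A) *ᵥ x)) = lam ^ 2 • (x ⨯₃ (cst B *ᵥ x)))
    {k : V3 ℂ} (hk : k ≠ 0) {b β : ℂ} (hβ : β ≠ 0) (hB' : B = b • (1 : M3 ℂ) + β • out k k) :
    ∃ (w : R) (a α : ℂ), PowerSeries.constantCoeff (R := ℂ) w = 1 ∧
      A = a • (1 : M3 ℂ) + α • out k k ∧ G = shapeG (α • out k k) (β • out k k) w := by
  have hA' : ∃ a α : ℂ, A = a • (1 : M3 ℂ) + α • out k k := by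
    rcases SC.dep hA hB hG I2 with ⟨c, hc⟩ | ⟨a, t, h⟩
    · exact absurd (hB'.symm.trans hc) (SC.axial_ne_scalar hk hβ c)
    · refine ⟨a + t * b, t * β, ?_⟩
      rw [h, hB', smul_add, add_smul, smul_smul, smul_smul]
      abel
  obtain ⟨a, α, hA'⟩ := hA'
  choose p q hpq using SC.axial_all hG I2 hA' hB'
  set W : R := PowerSeries.mk p with hW
  set H : R := PowerSeries.mk q with hH
  have hGW : G = W • (1 : M3 R) + H • cst (out k k) := by
    apply SC.cfM_ext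
    intro n
    rw [hpq n]
    ext i j
    simp only [SC.cfM_apply, Matrix.add_apply, Matrix.smul_apply, smul_eq_mul, map_add, cst,
      Matrix.map_apply, PowerSeries.coeff_mul_C, hH, PowerSeries.coeff_mk, hW]
    congr 1
    by_cases hij : i = j
    · subst hij
      simp
    · simp [Matrix.one_apply_ne hij]
  have hW1 : PowerSeries.constantCoeff (R := ℂ) W = 1 := by
    have h0 := congrFun (congrFun (hpq 0) 0) 1
    obtain ⟨x, i, hx⟩ := SC.exists_test hk
    have hall : ∀ i j, (1 : M3 ℂ) i j = (p 0 • (1 : M3 ℂ) + q 0 • out k k) i j := by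
      intro i j
      rw [← hpq 0, SC.cfM_zero, hG]
    have hq0 : q 0 = 0 := by
      by_contra hq
      exact SC.axial_ne_scalar hk hq 1 (b := p 0) (by
        rw [one_smul]
        ext i j
        rw [← hall])
    have := hall 0 0
    rw [hq0] at this
    simp at this
    simp [hW, ← this]
  have hWi : W * W⁻¹ = 1 := PowerSeries.mul_inv_cancel W (by rw [hW1]; exact one_ne_zero)
  have key : W * (H - lam * cc α) = lam ^ 2 * cc β := by
    obtain ⟨x, i, hx⟩ := SC.exists_test hk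
    have h := congrFun (I2 (vC x)) i
    have hcx : (cc ((k ⬝ᵥ x) * (x ⨯₃ k) i) : R) ≠ 0 := by
      intro h0
      apply hx
      have := congrArg (PowerSeries.constantCoeff (R := ℂ)) h0
      simpa using this
    apply mul_right_cancel₀ hcx
    rw [hGW, hA', hB'] at h
    have hone : ∀ c : ℂ, cst (c • (1 : M3 ℂ) + β • out k k) = cc c • (1 : M3 R) + cc β • cst (out k k) := by
      intro c
      ext i j : 1
      by_cases hij : i = j
      · subst hij
        simp [cst]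
      · simp [cst, Matrix.one_apply_ne hij]
    have hone' : ∀ c : ℂ, cst (c • (1 : M3 ℂ) + α • out k k) = cc c • (1 : M3 R) + cc α • cst (out k k) := by
      intro c
      ext i j : 1
      by_cases hij : i = j
      · subst hij
        simp [cst]
      · simp [cst, Matrix.one_apply_ne hij]
    rw [hone, hone'] at h
    fin_cases i <;>
      simp [-mul_eq_mul_right_iff, -mul_eq_mul_left_iff, cst, out, Matrix.vecMulVec, vC,
        cross_apply, Matrix.mulVec, dotProduct, Fin.sum_univ_three] at h ⊢ <;>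
      linear_combination h
  refine ⟨W, a, α, hW1, hA', ?_⟩
  have hHe : H = lam * cc α + lam ^ 2 * W⁻¹ * cc β := by
    have := congrArg (fun z => W⁻¹ * z) key
    linear_combination this - (H - lam * cc α) * hWi
  rw [hGW, hHe]
  unfold shapeG
  rw [add_smul, add_assoc]
  congr 2
  · ext i j : 1
    simp [cst]
    ring
  · ext i j : 1
    simp [cst]
    ring

/-- `A` scalar -/
theorem so3_elliptic {A B : M3 ℂ} {G : M3 R} (hB : Bᵀ = B) (sG : Gᵀ = G) (hG : ev0 G = 1)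
    (I2 : ∀ x : V3 R, G *ᵥ (x ⨯₃ ((G - lam • cst A) *ᵥ x)) = lam ^ 2 • (x ⨯₃ (cst B *ᵥ x)))
    (hA : ∃ a : ℂ, A = a • (1 : M3 ℂ)) (c : ℂ) :
    ∃ w : R, PowerSeries.constantCoeff (R := ℂ) w = 1 ∧ G = ellG3 (B - c • (1 : M3 ℂ)) w := by
  obtain ⟨a, hAt⟩ := hA
  have hcA : ∀ x : V3 R, x ⨯₃ ((G - lam • cst A) *ᵥ x) = x ⨯₃ (G *ᵥ x) := by
    intro x
    have hc : cst (a • (1 : M3 ℂ)) = cc a • (1 : M3 R) := by
      ext i j : 1
      by_cases hij : i = j
      · subst hij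
        simp [cst]
      · simp [cst, Matrix.one_apply_ne hij]
    rw [hAt, hc, Matrix.sub_mulVec, map_sub, Matrix.smul_mulVec, Matrix.smul_mulVec,
      Matrix.one_mulVec, map_smul, map_smul, cross_self, smul_zero, smul_zero, sub_zero]
  have key : ∀ x : V3 R, x ⨯₃ ((cof G + lam ^ 2 • cst B) *ᵥ x) = 0 := by
    intro x
    have h := I2 x
    rw [hcA, SideHalf.sym_cross sG] at h
    rw [Matrix.add_mulVec, map_add, Matrix.smul_mulVec, map_smul, ← h, ← cross_anticomm,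
      ← sub_eq_neg_add, sub_self]
  have hs := scalar_of_cross key
  set θ : R := (cof G + lam ^ 2 • cst B) 0 0 with hθ
  have hθ1 : PowerSeries.constantCoeff (R := ℂ) θ = 1 := by
    have h0 : ev0 (cof G) = 1 := by rw [SideHalf.ev0_cof, hG, SideHalf.cof_one]
    have := congrFun (congrFun h0 0) 0
    rw [SideHalf.ev0_apply, Matrix.one_apply_eq] at this
    rw [hθ, Matrix.add_apply, map_add, this]
    simp
  obtain ⟨w, ⟨hw2, hw1⟩, -⟩ := exists_sqrtR (θ - lam ^ 2 * cc c) (by simp [hθ1])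
  refine ⟨w, hw1, ?_⟩
  have hcof : w ^ 2 • (1 : M3 R) - lam ^ 2 • cst (B - c • (1 : M3 ℂ)) = cof G := by
    have e : cof G = θ • (1 : M3 R) - lam ^ 2 • cst B := by
      rw [← hs]
      abel
    rw [e, hw2]
    ext i j : 1
    by_cases hij : i = j
    · subst hij
      simp [cst]
      ring
    · simp [cst, Matrix.one_apply_ne hij]
  unfold ellG3
  rw [hcof, SideHalf.cof_cof]
  have hdet : (cof G).det = G.det ^ 2 := by
    rw [Matrix.det_fin_three, Matrix.det_fin_three]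
    simp [cof]
    ring
  have hd1 : PowerSeries.constantCoeff (R := ℂ) G.det = 1 := by
    rw [SideHalf.const_det, hG, Matrix.det_one]
  have hsq : sqrtR (cof G).det = G.det := by
    have hex : ∃ d : R, d ^ 2 = (cof G).det ∧ PowerSeries.constantCoeff (R := ℂ) d = 1 :=
      ⟨G.det, hdet.symm, hd1⟩
    obtain ⟨d, -, huniq⟩ := exists_sqrtR (cof G).det (by rw [hdet]; simp [hd1])
    unfold sqrtR
    rw [dif_pos hex]
    rw [huniq _ (Classical.choose_spec hex), huniq _ ⟨hdet.symm, hd1⟩]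
  rw [hsq, smul_smul, PowerSeries.inv_mul_cancel _ (by rw [hd1]; exact one_ne_zero), one_smul]

/-- trichotomy -/
theorem so3_cases {A B : M3 ℂ} {G : M3 R} (hA : Aᵀ = A) (hB : Bᵀ = B) (sG : Gᵀ = G)
    (hG : ev0 G = 1)
    (I2 : ∀ x : V3 R, G *ᵥ (x ⨯₃ ((G - lam • cst A) *ᵥ x)) = lam ^ 2 • (x ⨯₃ (cst B *ᵥ x))) :
    (∃ b : ℂ, B = b • (1 : M3 ℂ)) ∨
    ((∃ a : ℂ, A = a • (1 : M3 ℂ)) ∧ ∀ c : ℂ, ∃ w : R,
      PowerSeries.constantCoeff (R := ℂ) w = 1 ∧ G = ellG3 (B - c • (1 : M3 ℂ)) w) ∨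
    (∃ (k : V3 ℂ) (b β : ℂ), k ≠ 0 ∧ β ≠ 0 ∧ B = b • (1 : M3 ℂ) + β • out k k) := by
  by_cases hsc : ∃ b : ℂ, B = b • (1 : M3 ℂ)
  · exact Or.inl hsc
  obtain ⟨a, t, hAt⟩ : ∃ a t : ℂ, A = a • (1 : M3 ℂ) + t • B := by
    rcases SC.dep hA hB hG I2 with h | h
    · exact absurd h hsc
    · exact h
  by_cases ht : t = 0
  · right; left
    rw [ht, zero_smul, add_zero] at hAt
    exact ⟨⟨a, hAt⟩, fun c => so3_elliptic hB sG hG I2 ⟨a, hAt⟩ c⟩
  · right; right
    obtain ⟨⟨a₀, h1⟩, ⟨b₀, h2⟩, h3, h4⟩ := SC.first hG I2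
    have e1 : SC.cfM G 1 = (a₀ + a) • (1 : M3 ℂ) + t • B := by
      have : SC.cfM G 1 = a₀ • (1 : M3 ℂ) + A := by rw [← h1]; abel
      rw [this, hAt, add_smul]; abel
    have e2 : SC.cfM G 2 = b₀ • (1 : M3 ℂ) + B := by rw [← h2]; abel
    have hdd : ∀ x : V3 ℂ, x ⬝ᵥ ((B *ᵥ x) ⨯₃ ((B * B) *ᵥ x)) = 0 := by
      intro x
      have s01 : B 1 0 = B 0 1 := congrFun (congrFun hB 0) 1
      have s02 : B 2 0 = B 0 2 := congrFun (congrFun hB 0) 2
      have s12 : B 2 1 = B 1 2 := congrFun (congrFun hB 1) 2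
      -- u = x × g3 x
      set u : V3 ℂ := x ⨯₃ (SC.cfM G 3 *ᵥ x) with hu
      have h3' : u = -(SC.cfM G 1 *ᵥ (x ⨯₃ (SC.cfM G 2 *ᵥ x))) := by
        rw [hu]
        exact eq_neg_of_add_eq_zero_left (h3 x)
      have h4' := congrArg (fun v => x ⬝ᵥ v) (h4 x)
      rw [← hu, h3', e1, e2] at h4'
      have hx0 : x ⬝ᵥ (x ⨯₃ (SC.cfM G 4 *ᵥ x)) = 0 := dot_self_cross _ _
      simp only [dotProduct_add, hx0, zero_add, dotProduct_zero] at h4'
      have ht2 : t ^ 2 * (x ⬝ᵥ ((B *ᵥ x) ⨯₃ ((B * B) *ᵥ x))) = 0 := by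
        simp [-mul_eq_zero, cross_apply, Matrix.mulVec, dotProduct, Fin.sum_univ_three,
          Matrix.add_apply, Matrix.smul_apply, Matrix.mul_apply, s01, s02, s12] at h4' ⊢
        linear_combination (-1 : ℂ) * h4'
      rcases mul_eq_zero.mp ht2 with h | h
      · exact absurd (pow_eq_zero_iff (two_ne_zero) |>.mp h) ht
      · exact h
    have hBB : (B * B)ᵀ = B * B := by rw [Matrix.transpose_mul, hB]
    rcases dependent_of_det hB hBB hdd with h | ⟨q, p, h⟩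
    · exact absurd h hsc
    · obtain ⟨k, b, β, hk, hβ, hh⟩ := axial_of_quadratic hB hsc (p := p) (q := q) (by
        rw [h]; abel)
      exact ⟨k, b, β, hk, hβ, hh⟩

theorem side_of_I2 {A B : M3 ℂ} {G : M3 R} (hA : Aᵀ = A) (hB : Bᵀ = B) (sG : Gᵀ = G)
    (hG : ev0 G = 1)
    (I2 : ∀ x : V3 R, G *ᵥ (x ⨯₃ ((G - lam • cst A) *ᵥ x)) = lam ^ 2 • (x ⨯₃ (cst B *ᵥ x))) :
    ∃ w : R, PowerSeries.constantCoeff (R := ℂ) w = 1 ∧ Side w G := by
  rcases so3_cases hA hB sG hG I2 with h | ⟨-, h⟩ | ⟨k, b, β, hk, hβ, h⟩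
  · obtain ⟨w, hw, rfl⟩ := so3_rational hA sG hG I2 h
    exact ⟨w, hw, Side.rational A hA⟩
  · obtain ⟨w, hw, rfl⟩ := h 0
    refine ⟨w, hw, Side.elliptic _ ?_⟩
    rw [zero_smul, sub_zero, hB]
  · obtain ⟨w, a, α, hw, -, rfl⟩ := so3_axial hA hB sG hG I2 hk hβ h
    exact ⟨w, hw, Side.axial k α β⟩

end
end Pool.Agent.MP_106392_al
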