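import Pool.Agent.MP_106392_al.Series
import Pool.Agent.MP_106392_al.SeriesB
import Pool.Agent.MP_106392_al.LinA
import Pool.Agent.MP_106392_al.LinB


/-!
# Solutions with `r` of rank one
-/

set_option autoImplicit false
namespace Pool.Agent.MP_106392_al
open Matrix
noncomputable section

namespace SD

/-- a functional not vanishing on `n nᵀ` but on the identity -/
theorem exists_L' {n : V3 ℂ} (hn : n ≠ 0) :
    ∃ L' : M3 ℂ, pr L' 1 = 0 ∧ pr L' (out n n) = 1 := by
  obtain ⟨i, hi⟩ : ∃ i, n i ≠ 0 := by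
    by_contra hc
    push Not at hc
    exact hn (funext hc)
  obtain ⟨j, hij⟩ : ∃ j : Fin 3, i ≠ j := ⟨i + 1, by fin_cases i <;> decide⟩
  by_cases hj : n j = 0
  · refine ⟨(n i ^ 2)⁻¹ • (Matrix.single i i 1 - Matrix.single j j 1), ?_, ?_⟩
    · fin_cases i <;> fin_cases j <;>
        simp [pr, Fin.sum_univ_three, Matrix.single_apply] at hij ⊢
    · fin_cases i <;> fin_cases j <;>
        simp [pr, Fin.sum_univ_three, Matrix.single_apply, out, Matrix.vecMulVec_apply]
          at hij hi hj ⊢ <;> simp [hj] <;> field_simp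
  · refine ⟨(n i * n j)⁻¹ • (Matrix.single i j 1), ?_, ?_⟩
    · fin_cases i <;> fin_cases j <;>
        simp [pr, Fin.sum_univ_three, Matrix.single_apply] at hij ⊢
    · fin_cases i <;> fin_cases j <;>
        simp [pr, Fin.sum_univ_three, Matrix.single_apply, out, Matrix.vecMulVec_apply]
          at hij hi hj ⊢ <;> field_simp

theorem exists_L {n v : V3 ℂ} (hn : n ≠ 0) (hv : v ≠ 0) :
    ∃ L : M3 ℂ, pr L (out n v) = 1 := by
  obtain ⟨i, hi⟩ : ∃ i, n i ≠ 0 := by
    by_contra hc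
    push Not at hc
    exact hn (funext hc)
  obtain ⟨j, hj⟩ : ∃ i, v i ≠ 0 := by
    by_contra hc
    push Not at hc
    exact hv (funext hc)
  refine ⟨(n i * v j)⁻¹ • (Matrix.single i j 1), ?_⟩
  fin_cases i <;> fin_cases j <;>
    simp [pr, Fin.sum_univ_three, Matrix.single_apply, out, Matrix.vecMulVec_apply]
      at hi hj ⊢ <;> field_simp

section generic
variable {F : Type*} [CommRing F]

theorem out_mulVec' (a b x : V3 F) : out a b *ᵥ x = (b ⬝ᵥ x) • a := by
  ext i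
  simp [out, Matrix.mulVec, Matrix.vecMulVec_apply, dotProduct, Fin.sum_univ_three]
  ring

theorem rankOne_e1 (w h l : F) (n m x : V3 F) :
    (w • (1 : M3 F) + h • out n n + l • (out n m + out m n)) *ᵥ (n ⨯₃ x) =
      w • (n ⨯₃ x) + (l * ((m ⨯₃ n) ⬝ᵥ x)) • n := by
  ext i
  fin_cases i <;>
  simp [out, Matrix.mulVec, Matrix.vecMulVec_apply, dotProduct, Fin.sum_univ_three,
    crossProduct, Matrix.one_apply] <;> ring

theorem rankOne_I1 {w w' h l : F} (hw : w' * w = 1) {n v m : V3 F} {s : M3 F}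
    (hs : ∀ x, (s *ᵥ x) ⨯₃ v = ((m ⨯₃ n) ⬝ᵥ x) • v) (x y : V3 F) :
    (w • (1 : M3 F) + h • out n n + l • (out n m + out m n)) *ᵥ
      (((w' • out n v) *ᵥ y) ⨯₃ x) =
    (out n v *ᵥ y) ⨯₃ x + l • ((w' • out n v) *ᵥ (y ⨯₃ (s *ᵥ x))) := by
  have h1 : v ⬝ᵥ (y ⨯₃ (s *ᵥ x)) = ((m ⨯₃ n) ⬝ᵥ x) * (v ⬝ᵥ y) := by
    have h2 := hs x
    generalize (m ⨯₃ n) ⬝ᵥ x = c at *
    generalize s *ᵥ x = z at *
    have h3 := congrFun h2 0
    have h4 := congrFun h2 1
    have h5 := congrFun h2 2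
    simp [cross_apply] at h3 h4 h5
    simp [cross_apply, dotProduct, Fin.sum_univ_three]
    linear_combination y 0 * h3 + y 1 * h4 + y 2 * h5
  rw [Matrix.smul_mulVec, out_mulVec', Matrix.smul_mulVec, out_mulVec', h1, smul_smul,
    LinearMap.map_smul₂, LinearMap.map_smul₂, Matrix.mulVec_smul, rankOne_e1, smul_add, smul_smul,
    smul_smul, smul_smul, smul_smul]
  congr 2
  · linear_combination (v ⬝ᵥ y) * hw
  · ring

end generic

theorem lift_hs {n v m : V3 ℂ} {s : M3 ℂ}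
    (hs : ∀ x : V3 ℂ, (s *ᵥ x) ⨯₃ v = ((m ⨯₃ n) ⬝ᵥ x) • v) (x : V3 R) :
    (cst s *ᵥ x) ⨯₃ vC v = ((vC m ⨯₃ vC n) ⬝ᵥ x) • vC v := by
  have h0 := hs (Pi.single 0 1)
  have h1 := hs (Pi.single 1 1)
  have h2 := hs (Pi.single 2 1)
  have g0 := fun i => congrArg (PowerSeries.C (R := ℂ)) (congrFun h0 i)
  have g1 := fun i => congrArg (PowerSeries.C (R := ℂ)) (congrFun h1 i)
  have g2 := fun i => congrArg (PowerSeries.C (R := ℂ)) (congrFun h2 i)
  clear h0 h1 h2
  ext i : 1
  have g0i := g0 i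
  have g1i := g1 i
  have g2i := g2 i
  clear g0 g1 g2
  fin_cases i <;>
  simp [cross_apply, cst, vC, Matrix.mulVec, dotProduct, Fin.sum_univ_three] at g0i g1i g2i ⊢ <;>
  linear_combination x 0 * g0i + x 1 * g1i + x 2 * g2i

theorem cst_out (n v : V3 ℂ) : cst (out n v) = out (vC n) (vC v) := by
  ext i j : 1
  simp [cst, out, vC, Matrix.vecMulVec_apply]

theorem pr_smul_right {F : Type*} [CommRing F] (L Y : M3 F) (c : F) :
    pr L (c • Y) = c * pr L Y := by
  simp [pr, Fin.sum_univ_three]; ring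

theorem pr_add_right {F : Type*} [CommRing F] (L X Y : M3 F) :
    pr L (X + Y) = pr L X + pr L Y := by
  simp [pr, Fin.sum_univ_three]; ring

theorem pr_cst (L Y : M3 ℂ) : pr (cst L) (cst Y) = cc (pr L Y) := by
  simp [pr, Fin.sum_univ_three, cst]

theorem ev0_pr (L : M3 ℂ) (Y : M3 R) :
    PowerSeries.constantCoeff (R := ℂ) (pr (cst L) Y) = pr L (ev0 Y) := by
  simp [pr, Fin.sum_univ_three, cst, ev0]

theorem cst_one : cst (1 : M3 ℂ) = 1 := by
  ext i j : 1
  by_cases h : i = j <;> simp [cst, h, Matrix.one_apply]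

theorem shapeD_zero (r : M3 ℂ) (w : R) : shapeD r 0 0 w = w⁻¹ • cst r := by
  have : cst (0 : M3 ℂ) = 0 := by ext i j : 1; simp [cst]
  rw [shapeD, this, smul_zero, add_zero]

theorem rankOne_form {n v m : V3 ℂ} (hn : n ≠ 0) (hv : v ≠ 0) {s A B A' B' : M3 ℂ} {G D : M3 R}
    (h : Half (out n v) s A B A' B' G D)
    (hs : ∀ x : V3 ℂ, (s *ᵥ x) ⨯₃ v = ((m ⨯₃ n) ⬝ᵥ x) • v) :
    ∃ w h' : R, PowerSeries.constantCoeff (R := ℂ) w = 1 ∧
      PowerSeries.constantCoeff (R := ℂ) h' = 0 ∧ D = shapeD (out n v) 0 0 w ∧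
      G = w • (1 : M3 R) + h' • cst (out n n) + lam • cst (out n m + out m n) := by
  obtain ⟨L, hL⟩ := exists_L hn hv
  obtain ⟨L', hL1, hL2⟩ := exists_L' hn
  set w : R := (pr (cst L) D)⁻¹ with hw
  have hD1 : PowerSeries.constantCoeff (R := ℂ) (pr (cst L) D) = 1 := by
    rw [ev0_pr, h.D0, hL]
  have hD0 : PowerSeries.constantCoeff (R := ℂ) (pr (cst L) D) ≠ 0 := by
    rw [hD1]; exact one_ne_zero
  have hw1 : PowerSeries.constantCoeff (R := ℂ) w = 1 := by
    rw [hw, PowerSeries.constantCoeff_inv, hD1, inv_one]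
  have hw0 : PowerSeries.constantCoeff (R := ℂ) w ≠ 0 := by rw [hw1]; exact one_ne_zero
  have hww : w⁻¹ * w = 1 := PowerSeries.inv_mul_cancel w hw0
  have hwi : w⁻¹ = pr (cst L) D := by
    have h1 : (pr (cst L) D) * w = 1 := PowerSeries.mul_inv_cancel _ hD0
    calc w⁻¹ = w⁻¹ * ((pr (cst L) D) * w) := by rw [h1, mul_one]
      _ = (w⁻¹ * w) * pr (cst L) D := by ring
      _ = _ := by rw [hww, one_mul]
  set h' : R := pr (cst L') G - lam * cc (pr L' (out n m + out m n)) with hh'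
  have hh0 : PowerSeries.constantCoeff (R := ℂ) h' = 0 := by
    rw [hh', map_sub, ev0_pr, h.G0, hL1]; simp
  set G₁ : M3 R := w • (1 : M3 R) + h' • cst (out n n) + lam • cst (out n m + out m n) with hG₁
  have hG₁' : G₁ = w • (1 : M3 R) + h' • out (vC n) (vC n) +
      lam • (out (vC n) (vC m) + out (vC m) (vC n)) := by
    rw [hG₁, cst_out]
    have : cst (out n m + out m n) = out (vC n) (vC m) + out (vC m) (vC n) := by
      rw [← cst_out, ← cst_out]; ext i j : 1; simp [cst]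
    rw [this]
  have key := uniq (r := out n v) (s := s) (G := G) (D := D) (G₁ := G₁)
    (D₁ := w⁻¹ • cst (out n v)) h.symG (by
      rw [hG₁']
      ext i j : 1
      by_cases hij : i = j
      · simp [out, Matrix.vecMulVec_apply, hij]
      · simp [out, Matrix.vecMulVec_apply, hij, Ne.symm hij]
        ring) h.G0 (by
      ext i j
      by_cases hij : i = j
      · subst hij
        simp [ev0, hG₁, hw1, hh0, cst]
      · simp [ev0, hG₁, hh0, cst, hij]) h.D0 (by
      ext i j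
      simp [ev0, cst, PowerSeries.constantCoeff_inv, hw1]) h.I1 (by
      intro x y
      rw [hG₁', cst_out]
      exact rankOne_I1 hww (lift_hs hs) x y) L L'
    (inj_rank_one hn hv (by rw [hL]; exact one_ne_zero) hL1 (by rw [hL2]; exact one_ne_zero))
    (by rw [pr_smul_right, pr_cst, hL, hwi]; simp)
    (by
      rw [hG₁, pr_add_right, pr_add_right, pr_smul_right, pr_smul_right, pr_smul_right, pr_cst,
        pr_cst, hL2]
      have : pr (cst L') (1 : M3 R) = 0 := by
        rw [← cst_one, pr_cst, hL1]; simp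
      rw [this, hh']
      simp)
  exact ⟨w, h', hw1, hh0, by rw [shapeD_zero]; exact key.2, key.1⟩

theorem two_forms {p q : V3 ℂ} (hp : p ≠ 0) (hq : q ≠ 0) :
    ∃ x : V3 ℂ, p ⬝ᵥ x ≠ 0 ∧ q ⬝ᵥ x ≠ 0 := by
  obtain ⟨i, hi⟩ : ∃ i, p i ≠ 0 := by
    by_contra hc
    push Not at hc
    exact hp (funext hc)
  obtain ⟨j, hj⟩ : ∃ i, q i ≠ 0 := by
    by_contra hc
    push Not at hc
    exact hq (funext hc)
  by_cases h1 : q i = 0
  · by_cases h2 : p j = 0
    · refine ⟨Pi.single i 1 + Pi.single j 1, ?_, ?_⟩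
      · rw [dotProduct_add, dotProduct_single_one, dotProduct_single_one, h2, add_zero]
        exact hi
      · rw [dotProduct_add, dotProduct_single_one, dotProduct_single_one, h1, zero_add]
        exact hj
    · exact ⟨Pi.single j 1, by rwa [dotProduct_single_one], by rwa [dotProduct_single_one]⟩
  · exact ⟨Pi.single i 1, by rwa [dotProduct_single_one], by rwa [dotProduct_single_one]⟩

theorem cross_comp {n : V3 ℂ} (hn : n ≠ 0) :
    ∃ (i : Fin 3) (q : V3 ℂ), q ≠ 0 ∧ ∀ x : V3 ℂ, (n ⨯₃ x) i = q ⬝ᵥ x := by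
  by_cases h0 : n 0 = 0
  · by_cases h1 : n 1 = 0
    · have h2 : n 2 ≠ 0 := by
        intro h2
        apply hn
        ext i
        fin_cases i <;> simp [h0, h1, h2]
      refine ⟨0, ![0, -n 2, n 1], ?_, ?_⟩
      · intro h
        have := congrFun h 1
        simp at this
        exact h2 this
      · intro x
        simp [cross_apply, dotProduct, Fin.sum_univ_three]; ring
    · refine ⟨2, ![-n 1, n 0, 0], ?_, ?_⟩
      · intro h
        have := congrFun h 0
        simp at this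
        exact h1 this
      · intro x
        simp [cross_apply, dotProduct, Fin.sum_univ_three]; ring
  · refine ⟨1, ![n 2, 0, -n 0], ?_, ?_⟩
    · intro h
      have := congrFun h 2
      simp at this
      exact h0 this
    · intro x
      simp [cross_apply, dotProduct, Fin.sum_univ_three]; ring

theorem vC_dot (a b : V3 ℂ) : vC a ⬝ᵥ vC b = cc (a ⬝ᵥ b) := by
  simp [vC, dotProduct, Fin.sum_univ_three]

theorem vC_cross (a b : V3 ℂ) : vC a ⨯₃ vC b = vC (a ⨯₃ b) := by
  ext i : 1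
  fin_cases i <;> simp [vC, cross_apply]

theorem cst_mulVec (A : M3 ℂ) (b : V3 ℂ) : cst A *ᵥ vC b = vC (A *ᵥ b) := by
  ext i : 1
  simp [vC, cst, Matrix.mulVec, dotProduct, Fin.sum_univ_three]

theorem cc_inj {a b : ℂ} (h : cc a = cc b) : a = b := by
  have := congrArg (PowerSeries.constantCoeff (R := ℂ)) h
  simpa using this

end SD

open SD in
theorem rankOne_sol {n v m : V3 ℂ} (hn : n ≠ 0) (hv : v ≠ 0) {s A B A' B' : M3 ℂ} {G D : M3 R}
    (h : Half (out n v) s A B A' B' G D)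
    (hs : ∀ x : V3 ℂ, (s *ᵥ x) ⨯₃ v = ((m ⨯₃ n) ⬝ᵥ x) • v) :
    ∃ w : R, PowerSeries.constantCoeff (R := ℂ) w = 1 ∧ D = shapeD (out n v) 0 0 w ∧
      ((m ⨯₃ n ≠ 0 ∧ ∃ α : ℂ, G = shapeG (α • out n n + out n m + out m n) 0 w ∧
          ∃ b : ℂ, B = b • (1 : M3 ℂ)) ∨
       (m ⨯₃ n = 0 ∧ ∃ α β b : ℂ, G = shapeG (α • out n n) (β • out n n) w ∧
          B = b • (1 : M3 ℂ) + β • out n n)) := by
  obtain ⟨w, h', hw1, hh0, hD, hG⟩ := rankOne_form hn hv h hs
  have hw0 : PowerSeries.constantCoeff (R := ℂ) w ≠ 0 := by rw [hw1]; exact one_ne_zero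
  have hww : w * w⁻¹ = 1 := PowerSeries.mul_inv_cancel w hw0
  -- the constant matrix `A`
  have hA1 : ∀ x : V3 ℂ, n ⬝ᵥ (x ⨯₃ (A *ᵥ x)) = (n ⬝ᵥ x) * ((m ⨯₃ n) ⬝ᵥ x) := by
    intro x
    have h1 := half_c1 h x
    have h2 : (out n v)ᵀ = out v n := by
      ext i j; simp [out, Matrix.vecMulVec_apply, mul_comm]
    rw [h2, out_mulVec', out_mulVec', LinearMap.map_smul, hs x, smul_smul] at h1
    exact (smul_left_injective ℂ hv h1).symm
  obtain ⟨a, b, hA⟩ := axial_of_dot' h.symA hn hA1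
  set f : R := h' - lam * cc b with hf
  -- the equation `I2`
  have hE : ∀ (x : V3 ℂ) (i : Fin 3),
      -f * cc (n ⬝ᵥ x) * (w * cc ((n ⨯₃ x) i) + lam * cc ((m ⨯₃ n) ⬝ᵥ x) * cc (n i)) =
        lam ^ 2 * cc ((x ⨯₃ (B *ᵥ x)) i) := by
    intro x i
    have h1 := h.I2 (vC x)
    have h2 : (G - lam • cst A) *ᵥ vC x =
        (w - lam * cc a) • vC x + (f * cc (n ⬝ᵥ x)) • vC n := by
      have h3 : G - lam • cst A = (w - lam * cc a) • (1 : M3 R) + f • cst (out n n) := by
        rw [hG, hA]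
        have h4 : cst (a • (1 : M3 ℂ) + b • out n n + out n m + out m n) =
            cc a • (1 : M3 R) + cc b • cst (out n n) + cst (out n m + out m n) := by
          rw [← cst_one]
          ext i j : 1
          simp only [cst, Matrix.map_apply, Matrix.add_apply, Matrix.smul_apply, smul_eq_mul,
            map_add, map_mul]
          ring
        rw [h4, hf]
        simp only [smul_add, smul_smul, sub_smul]
        abel
      rw [h3, Matrix.add_mulVec, Matrix.smul_mulVec, Matrix.one_mulVec, Matrix.smul_mulVec,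
        cst_out, out_mulVec', vC_dot, smul_smul]
    have h5 : vC x ⨯₃ ((G - lam • cst A) *ᵥ vC x) = (-(f * cc (n ⬝ᵥ x))) • (vC n ⨯₃ vC x) := by
      rw [h2, map_add, LinearMap.map_smul, LinearMap.map_smul, cross_self, smul_zero, zero_add,
        ← cross_anticomm, smul_neg, neg_smul]
    have h6 : G = w • (1 : M3 R) + h' • out (vC n) (vC n) +
        lam • (out (vC n) (vC m) + out (vC m) (vC n)) := by
      rw [hG, cst_out]
      have : cst (out n m + out m n) = out (vC n) (vC m) + out (vC m) (vC n) := by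
        rw [← cst_out, ← cst_out]; ext i j : 1; simp [cst]
      rw [this]
    have h7 : G *ᵥ (vC n ⨯₃ vC x) =
        w • (vC n ⨯₃ vC x) + (lam * ((vC m ⨯₃ vC n) ⬝ᵥ vC x)) • vC n := by
      rw [h6]; exact rankOne_e1 w h' lam (vC n) (vC m) (vC x)
    rw [h5, Matrix.mulVec_smul, h7, cst_mulVec, vC_cross, vC_cross, vC_cross, vC_dot] at h1
    have h8 := congrFun h1 i
    simp only [Pi.smul_apply, Pi.add_apply, smul_eq_mul, vC] at h8
    rw [← h8]; ring
  refine ⟨w, hw1, hD, ?_⟩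
  have hGf : ∀ f' : R, f = f' → G = w • (1 : M3 R) + (lam * cc b + f') • cst (out n n) +
      lam • cst (out n m + out m n) := by
    intro f' hf'
    rw [hG, ← hf', hf]; congr 3; ring
  by_cases hmn : m ⨯₃ n = 0
  · right
    refine ⟨hmn, ?_⟩
    obtain ⟨i₀, q, hq, hqx⟩ := cross_comp hn
    obtain ⟨x₀, hx₀, hx₀'⟩ := two_forms hn hq
    have hc₀ : (n ⬝ᵥ x₀) * (n ⨯₃ x₀) i₀ ≠ 0 := by
      rw [hqx]; exact mul_ne_zero hx₀ hx₀'
    set c₀ := (n ⬝ᵥ x₀) * (n ⨯₃ x₀) i₀ with hc₀d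
    set β : ℂ := -((x₀ ⨯₃ (B *ᵥ x₀)) i₀ / c₀) with hβ
    have hfw : f * w = lam ^ 2 * cc β := by
      have h1 := hE x₀ i₀
      rw [hmn] at h1
      simp only [zero_dotProduct, cc, map_zero, mul_zero, zero_mul, add_zero] at h1
      have h2 : cc c₀ * cc (c₀⁻¹) = 1 := by
        rw [← map_mul, mul_inv_cancel₀ hc₀, map_one]
      have h3 : cc β = -(cc ((x₀ ⨯₃ (B *ᵥ x₀)) i₀) * cc (c₀⁻¹)) := by
        rw [hβ, div_eq_mul_inv]; simp only [cc, map_neg, map_mul]
      have h4 : cc c₀ = cc (n ⬝ᵥ x₀) * cc ((n ⨯₃ x₀) i₀) := by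
        rw [hc₀d]; simp only [cc, map_mul]
      rw [h3]
      linear_combination (-cc (c₀⁻¹)) * h1 + (-f * w) * h2 + (f * w * cc (c₀⁻¹)) * h4
    have hB : ∀ (x : V3 ℂ) (i : Fin 3), -β * (n ⬝ᵥ x) * (n ⨯₃ x) i = (x ⨯₃ (B *ᵥ x)) i := by
      intro x i
      have h1 := hE x i
      rw [hmn] at h1
      simp only [zero_dotProduct, cc, map_zero, mul_zero, zero_mul, add_zero] at h1
      apply cc_inj
      have h2 : (lam : R) ^ 2 ≠ 0 := pow_ne_zero _ PowerSeries.X_ne_zero
      apply mul_left_cancel₀ h2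
      rw [cc, map_mul, map_mul, map_neg]
      linear_combination h1 + (cc (n ⬝ᵥ x) * cc ((n ⨯₃ x) i)) * hfw
    have hB2 : ∀ x : V3 ℂ, x ⨯₃ ((B - β • out n n) *ᵥ x) = 0 := by
      intro x
      rw [Matrix.sub_mulVec, Matrix.smul_mulVec, out_mulVec', map_sub, LinearMap.map_smul,
        LinearMap.map_smul, ← cross_anticomm n x]
      ext i
      simp only [Pi.sub_apply, Pi.smul_apply, Pi.neg_apply, smul_eq_mul, Pi.zero_apply]
      rw [← hB x i]
      ring
    have hB3 := scalar_of_cross hB2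
    obtain ⟨μ, hμ⟩ : ∃ μ : ℂ, m = μ • n :=
      LinBAux.parallel hn (by rw [← cross_anticomm, hmn, neg_zero])
    refine ⟨b + 2 * μ, β, (B - β • out n n) 0 0, ?_, ?_⟩
    · rw [hGf (lam ^ 2 * w⁻¹ * cc β) (by linear_combination w⁻¹ * hfw - f * hww)]
      rw [shapeG]
      have h1 : cst (out n m + out m n) = cc (2 * μ) • cst (out n n) := by
        rw [hμ]
        ext i j : 1
        simp only [cst, Matrix.map_apply, Matrix.add_apply, Matrix.smul_apply, smul_eq_mul,
          out, Matrix.vecMulVec_apply, Pi.smul_apply, ← map_mul]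
        congr 1
        ring
      have h2 : cst ((b + 2 * μ) • out n n) = (cc b + cc (2 * μ)) • cst (out n n) := by
        ext i j : 1
        simp only [cst, Matrix.map_apply, Matrix.smul_apply, smul_eq_mul, cc, map_add, map_mul]
      have h3 : cst (β • out n n) = cc β • cst (out n n) := by
        ext i j : 1
        simp only [cst, Matrix.map_apply, Matrix.smul_apply, smul_eq_mul, cc, map_mul]
      rw [h1, h2, h3]
      simp only [smul_smul, add_assoc, ← add_smul]
      congr 2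
      ring
    · rw [← hB3]; abel
  · left
    refine ⟨hmn, b, ?_⟩
    obtain ⟨x, hx1, hx2⟩ := two_forms hn hmn
    have hf0 : f = 0 := by
      have e0 := hE x 0
      have e1 := hE x 1
      have e2 := hE x 2
      have hd : x 0 * (n ⨯₃ x) 0 + x 1 * (n ⨯₃ x) 1 + x 2 * (n ⨯₃ x) 2 = 0 := by
        simp [cross_apply]; ring
      have hd2 : x 0 * (x ⨯₃ (B *ᵥ x)) 0 + x 1 * (x ⨯₃ (B *ᵥ x)) 1 +
          x 2 * (x ⨯₃ (B *ᵥ x)) 2 = 0 := by
        simp [cross_apply]; ring
      have hd3 : x 0 * n 0 + x 1 * n 1 + x 2 * n 2 = n ⬝ᵥ x := by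
        simp [dotProduct, Fin.sum_univ_three]; ring
      have cd := congrArg (PowerSeries.C (R := ℂ)) hd
      have cd2 := congrArg (PowerSeries.C (R := ℂ)) hd2
      have cd3 := congrArg (PowerSeries.C (R := ℂ)) hd3
      simp only [map_add, map_mul, map_zero] at cd cd2 cd3
      have key : f * (cc (n ⬝ᵥ x) * cc (n ⬝ᵥ x) * lam * cc ((m ⨯₃ n) ⬝ᵥ x)) = 0 := by
        linear_combination (-cc (x 0)) * e0 - cc (x 1) * e1 - cc (x 2) * e2
          - (f * cc (n ⬝ᵥ x) * w) * cd - lam ^ 2 * cd2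
          - (f * cc (n ⬝ᵥ x) * lam * cc ((m ⨯₃ n) ⬝ᵥ x)) * cd3
      rcases mul_eq_zero.mp key with h1 | h1
      · exact h1
      · exfalso
        have hc : ∀ c : ℂ, c ≠ 0 → cc c ≠ 0 := by
          intro c hc h0
          apply hc
          apply cc_inj
          rw [h0]; simp
        exact (mul_ne_zero (mul_ne_zero (mul_ne_zero (hc _ hx1) (hc _ hx1))
          PowerSeries.X_ne_zero) (hc _ hx2)) h1
    have hB2 : ∀ x : V3 ℂ, x ⨯₃ (B *ᵥ x) = 0 := by
      intro x
      ext i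
      have h1 := hE x i
      rw [hf0] at h1
      have h2 : (lam : R) ^ 2 ≠ 0 := pow_ne_zero _ PowerSeries.X_ne_zero
      apply cc_inj
      apply mul_left_cancel₀ h2
      rw [← h1]; simp
    refine ⟨?_, B 0 0, scalar_of_cross hB2⟩
    rw [hGf 0 hf0, shapeG]
    have h1 : cst (b • out n n + out n m + out m n) =
        cc b • cst (out n n) + cst (out n m + out m n) := by
      ext i j : 1
      simp only [cst, Matrix.map_apply, Matrix.add_apply, Matrix.smul_apply, smul_eq_mul,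
        map_add, map_mul]
      ring
    have h2 : cst (0 : M3 ℂ) = 0 := by ext i j : 1; simp [cst]
    rw [h1, h2]
    simp only [smul_add, smul_smul, add_zero, smul_zero, add_assoc]

end
end Pool.Agent.MP_106392_al
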