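import Pool.Agent.MP_106392_al.NId
import Pool.Agent.MP_106392_al.LinB
import Pool.Agent.MP_106392_al.SeriesB
import Pool.Agent.MP_106392_al.SeriesC
import Pool.Agent.MP_106392_al.SeriesD

/-!
# Module Ta: `Listed.swap`, the cases `r = s = 0` and `rank r = rank s = 1`
-/

set_option autoImplicit false

namespace Pool.Agent.MP_106392_al

open Matrix

noncomputable section

theorem Listed.swap {w w' : R} {G D G' D' : M3 R} (h : Listed w w' G D G' D') :
    Listed w' w G' D' G D := by
  cases h with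
  | product h h' => exact Listed.product h' h
  | nonelliptic h => exact Listed.nonelliptic (Consts.swap h)
  | evalL r => exact Listed.evalR r
  | evalR s => exact Listed.evalL s
  | elliptic r₀ t₁ t₂ =>
    have := Listed.elliptic (w := w') (w' := w) r₀ᵀ t₂ t₁
    rwa [transpose_transpose] at this

namespace CasesA

theorem good_swap {G D G' D' : M3 R} (h : Good G D G' D') : Good G' D' G D := by
  obtain ⟨w, w', hw, hw', hL⟩ := h
  exact ⟨w', w, hw', hw, hL.swap⟩

theorem out_mulVec {F : Type*} [CommRing F] (a b y : V3 F) : out a b *ᵥ y = (b ⬝ᵥ y) • a := by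
  ext i
  simp [out, Matrix.mulVec, dotProduct, Matrix.vecMulVec_apply, Fin.sum_univ_three]
  ring

theorem out_transpose {F : Type*} [CommRing F] (a b : V3 F) : (out a b)ᵀ = out b a := by
  ext i j
  simp [out, Matrix.vecMulVec_apply, mul_comm]

theorem out_smul_left {F : Type*} [CommRing F] (c : F) (a b : V3 F) :
    out (c • a) b = c • out a b := by
  ext i j
  simp [out, Matrix.vecMulVec_apply, mul_assoc]

theorem out_smul_right {F : Type*} [CommRing F] (c : F) (a b : V3 F) :
    out a (c • b) = c • out a b := by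
  ext i j
  simp [out, Matrix.vecMulVec_apply]
  ring

theorem out_move {F : Type*} [CommRing F] (c : F) (a b : V3 F) :
    out (c • a) b = out a (c • b) := by
  rw [out_smul_left, out_smul_right]

theorem out_neg_left {F : Type*} [CommRing F] (a b : V3 F) : out (-a) b = -out a b := by
  ext i j
  simp [out, Matrix.vecMulVec_apply]

theorem out_neg_right {F : Type*} [CommRing F] (a b : V3 F) : out a (-b) = -out a b := by
  ext i j
  simp [out, Matrix.vecMulVec_apply]

theorem out_ne_zero {F : Type*} [Field F] {a b : V3 F} (ha : a ≠ 0) (hb : b ≠ 0) :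
    out a b ≠ 0 := by
  intro h
  obtain ⟨i, hi⟩ := Function.ne_iff.1 ha
  obtain ⟨j, hj⟩ := Function.ne_iff.1 hb
  have := congrFun (congrFun h i) j
  simp only [out, Matrix.vecMulVec_apply, Matrix.zero_apply, mul_eq_zero] at this
  rcases this with h | h
  · exact hi (by simpa using h)
  · exact hj (by simpa using h)

theorem cof_out {F : Type*} [CommRing F] (a b : V3 F) : cof (out a b) = 0 := by
  ext i j
  fin_cases i <;> fin_cases j <;> simp [cof, out, Matrix.vecMulVec_apply] <;> ring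

theorem cross_neg_comm {F : Type*} [CommRing F] (a b : V3 F) : a ⨯₃ b = -(b ⨯₃ a) := by
  ext i
  fin_cases i <;> simp [cross_apply] <;> ring

/-- two nonzero linear forms on `ℂ³` have a common nonzero -/
theorem exists_dot_ne {a b : V3 ℂ} (ha : a ≠ 0) (hb : b ≠ 0) :
    ∃ x : V3 ℂ, a ⬝ᵥ x ≠ 0 ∧ b ⬝ᵥ x ≠ 0 := by
  obtain ⟨i, hi⟩ := Function.ne_iff.1 ha
  obtain ⟨j, hj⟩ := Function.ne_iff.1 hb
  simp only [Pi.zero_apply, ne_eq] at hi hj
  by_cases h1 : b i = 0
  · by_cases h2 : a j = 0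
    · refine ⟨Pi.single i 1 + Pi.single j 1, ?_, ?_⟩
      · simp [dotProduct_add, h2, hi]
      · simp [dotProduct_add, h1, hj]
    · exact ⟨Pi.single j 1, by simpa using h2, by simpa using hj⟩
  · exact ⟨Pi.single i 1, by simpa using hi, by simpa using h1⟩

theorem exists_smul {w v : V3 ℂ} (hv : v ≠ 0) (h : w ⨯₃ v = 0) : ∃ μ : ℂ, w = μ • v := by
  have h' : v ⨯₃ w = 0 := by rw [cross_neg_comm, h, neg_zero]
  exact LinBAux.parallel hv h'

/-- the case `w × v = 0` -/
theorem aux {n v w p : V3 ℂ} (hn : n ≠ 0) (hv : v ≠ 0) (hw : w ≠ 0) (hp : p ≠ 0)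
    {A B A' B' : M3 ℂ} {G D G' D' : M3 R}
    (h : Half (out n v) (out w p) A B A' B' G D) (h' : Half (out w p) (out n v) A' B' A B G' D')
    (hwv : w ⨯₃ v = 0) {c' : ℂ} (hnp : n ⨯₃ p = c' • p) : Good G D G' D' := by
  obtain ⟨μ, rfl⟩ := exists_smul hv hwv
  have hμ : μ ≠ 0 := by
    rintro rfl
    exact hw (zero_smul _ _)
  rw [out_move] at h h'
  have hp' : μ • p ≠ 0 := smul_ne_zero hμ hp
  have hnp' : n ⨯₃ (μ • p) = c' • (μ • p) := by
    rw [map_smul, hnp, smul_comm]
  clear hp hnp hw hwv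
  generalize μ • p = p at *
  clear hμ μ
  rename' hp' => hp, hnp' => hnp
  -- first component
  obtain ⟨w, hw0, hD, hG⟩ := rankOne_sol (m := 0) hn hv h (by
    intro x
    rw [out_mulVec]
    simp [map_smul, LinearMap.smul_apply, cross_self])
  have hG1 : ∃ α β b : ℂ, G = shapeG (α • out n n) (β • out n n) w ∧
      B = b • (1 : M3 ℂ) + β • out n n := by
    rcases hG with ⟨h0, _⟩ | ⟨_, h0⟩
    · exact absurd (by simp) h0
    · exact h0
  obtain ⟨α, β, b, hG, hB⟩ := hG1
  by_cases hc : c' = 0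
  · -- `p` is parallel to `n`
    subst hc
    rw [zero_smul] at hnp
    obtain ⟨e, rfl⟩ : ∃ e : ℂ, p = e • n := by
      exact LinBAux.parallel hn hnp
    obtain ⟨w', hw0', hD', hG'⟩ := rankOne_sol (m := 0) hv hp h' (by
      intro x
      rw [out_mulVec]
      simp [map_smul, LinearMap.smul_apply, cross_self])
    have hG1 : ∃ α β b : ℂ, G' = shapeG (α • out v v) (β • out v v) w' ∧
        B' = b • (1 : M3 ℂ) + β • out v v := by
      rcases hG' with ⟨h0, _⟩ | ⟨_, h0⟩
      · exact absurd (by simp) h0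
      · exact h0
    obtain ⟨α', β', b', hG', hB'⟩ := hG1
    refine ⟨w, w', hw0, hw0', ?_⟩
    have := Listed.nonelliptic (w := w) (w' := w') (Consts.one n v 1 e α β α' β')
    rw [hG, hD, hG', hD']
    rw [one_smul, ← out_smul_right e v n] at this
    exact this
  · -- first nilpotent type
    have hvv : v ⬝ᵥ v = 0 := by
      have := half_c1 h' v
      rw [out_mulVec, out_transpose, out_mulVec, out_mulVec] at this
      simp only [map_smul, LinearMap.smul_apply] at this
      rw [hnp] at this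
      have h3 : v ⬝ᵥ (v ⨯₃ (A' *ᵥ v)) = 0 := dot_self_cross _ _
      rw [h3, zero_smul, smul_smul, smul_smul] at this
      have h4 := (smul_eq_zero.1 this).resolve_right hp
      have h5 := mul_eq_zero.1 h4
      rcases h5 with h5 | h5
      · rcases mul_eq_zero.1 h5 with h6 | h6 <;> exact h6
      · exact absurd h5 hc
    obtain ⟨k, hk⟩ := exists_iso_frame hv hvv
    have hm : (-(c' • k)) ⨯₃ v = c' • v := by
      rw [cross_neg_comm, map_neg, map_smul, hk, neg_neg]
    have hmne : (-(c' • k)) ⨯₃ v ≠ 0 := by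
      rw [hm]
      exact smul_ne_zero hc hv
    obtain ⟨w', hw0', hD', hG'⟩ := rankOne_sol (m := -(c' • k)) hv hp h' (by
      intro x
      rw [out_mulVec, hm]
      simp only [map_smul, LinearMap.smul_apply, hnp, smul_dotProduct, smul_eq_mul, smul_smul]
      ring_nf)
    have hG1 : ∃ α : ℂ, G' = shapeG (α • out v v + out v (-(c' • k)) + out (-(c' • k)) v) 0 w' := by
      rcases hG' with ⟨_, α, h0, _⟩ | ⟨h0, _⟩
      · exact ⟨α, h0⟩
      · exact absurd h0 hmne
    obtain ⟨α', hG'⟩ := hG1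
    -- `β = 0`
    have hβ : β = 0 := by
      obtain ⟨y, hy1, hy2⟩ := exists_dot_ne hn hp
      have := half_c3 h' y
      rw [cof_out, zero_mulVec, zero_mulVec, map_zero, sub_zero, out_mulVec] at this
      have h3 := (smul_eq_zero.1 this.symm).resolve_right hv
      rw [hB] at h3
      simp only [add_mulVec, smul_mulVec, one_mulVec, out_mulVec, map_add, map_smul, cross_self,
        smul_zero, zero_add, dotProduct_smul, smul_eq_mul] at h3
      have h4 : p ⬝ᵥ (y ⨯₃ n) = c' * (p ⬝ᵥ y) := by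
        have : p ⬝ᵥ (y ⨯₃ n) = (n ⨯₃ p) ⬝ᵥ y := by
          simp [cross_apply, dotProduct, Fin.sum_univ_three]
          ring
        rw [this, hnp, smul_dotProduct, smul_eq_mul]
      rw [h4] at h3
      have h5 : (n ⬝ᵥ y) * (c' * (p ⬝ᵥ y)) ≠ 0 := mul_ne_zero hy1 (mul_ne_zero hc hy2)
      rcases mul_eq_zero.1 h3 with h6 | h6
      · exact h6
      · exact absurd h6 h5
    subst hβ
    refine ⟨w, w', hw0, hw0', ?_⟩
    have := Listed.nonelliptic (w := w) (w' := w')
      (Consts.nilOne n p v (-(c' • k)) c' hnp hm hc α α')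
    rw [hG, hD, hG', hD', zero_smul]
    exact this

end CasesA

theorem case_zero_zero {A B A' B' : M3 ℂ} {G D G' D' : M3 R}
    (h : Half 0 0 A B A' B' G D) (h' : Half 0 0 A' B' A B G' D') : Good G D G' D' := by
  have hD := half_zero h
  have hD' := half_zero h'
  obtain ⟨w, hw, hG⟩ := side_of_I2 h.symA h.symB h.symG h.G0 h.I2
  obtain ⟨w', hw', hG'⟩ := side_of_I2 h'.symA h'.symB h'.symG h'.G0 h'.I2
  subst hD hD'
  exact ⟨w, w', hw, hw', Listed.product hG hG'⟩

theorem case_one_one {r s A B A' B' : M3 ℂ} {G D G' D' : M3 R} (hr : r ≠ 0) (hs : s ≠ 0)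
    (hr' : cof r = 0) (hs' : cof s = 0)
    (h : Half r s A B A' B' G D) (h' : Half s r A' B' A B G' D') : Good G D G' D' := by
  obtain ⟨n, v, hn, hv, rfl⟩ := rank_one hr' hr
  obtain ⟨w, p, hw, hp, rfl⟩ := rank_one hs' hs
  -- `w × v = c v`
  obtain ⟨c, hc⟩ : ∃ c : ℂ, w ⨯₃ v = c • v := by
    obtain ⟨x, hx1, hx2⟩ := CasesA.exists_dot_ne hn hp
    have := half_c1 h x
    rw [CasesA.out_mulVec, CasesA.out_transpose, CasesA.out_mulVec, CasesA.out_mulVec] at this
    simp only [map_smul, LinearMap.smul_apply, smul_smul] at this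
    refine ⟨((n ⬝ᵥ x) * (p ⬝ᵥ x))⁻¹ * (n ⬝ᵥ (x ⨯₃ (A *ᵥ x))), ?_⟩
    rw [← smul_smul, ← this, smul_smul, inv_mul_cancel₀ (mul_ne_zero hx1 hx2), one_smul]
  obtain ⟨c', hc'⟩ : ∃ c' : ℂ, n ⨯₃ p = c' • p := by
    obtain ⟨x, hx1, hx2⟩ := CasesA.exists_dot_ne hw hv
    have := half_c1 h' x
    rw [CasesA.out_mulVec, CasesA.out_transpose, CasesA.out_mulVec, CasesA.out_mulVec] at this
    simp only [map_smul, LinearMap.smul_apply, smul_smul] at this
    refine ⟨((w ⬝ᵥ x) * (v ⬝ᵥ x))⁻¹ * (w ⬝ᵥ (x ⨯₃ (A' *ᵥ x))), ?_⟩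
    rw [← smul_smul, ← this, smul_smul, inv_mul_cancel₀ (mul_ne_zero hx1 hx2), one_smul]
  by_cases hc0 : c = 0
  · subst hc0
    rw [zero_smul] at hc
    exact CasesA.aux hn hv hw hp h h' hc hc'
  by_cases hc0' : c' = 0
  · subst hc0'
    rw [zero_smul] at hc'
    exact CasesA.good_swap (CasesA.aux hw hp hn hv h' h hc' hc)
  -- second nilpotent type
  have hm : (-(c / c') • p) ⨯₃ n = c • p := by
    rw [CasesA.cross_neg_comm, map_smul, hc', smul_smul, ← neg_smul]
    congr 1
    field_simp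
  have hm' : (-(c' / c) • v) ⨯₃ w = c' • v := by
    rw [CasesA.cross_neg_comm, map_smul, hc, smul_smul, ← neg_smul]
    congr 1
    field_simp
  obtain ⟨u, hu, hD, hG⟩ := rankOne_sol (m := -(c / c') • p) hn hv h (by
    intro x
    rw [CasesA.out_mulVec, hm]
    simp only [map_smul, LinearMap.smul_apply, hc, smul_dotProduct, smul_eq_mul, smul_smul]
    ring_nf)
  obtain ⟨u', hu', hD', hG'⟩ := rankOne_sol (m := -(c' / c) • v) hw hp h' (by
    intro x
    rw [CasesA.out_mulVec, hm']
    simp only [map_smul, LinearMap.smul_apply, hc', smul_dotProduct, smul_eq_mul, smul_smul]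
    ring_nf)
  have hG1 : ∃ α : ℂ, G = shapeG (α • out n n + out n (-(c / c') • p) + out (-(c / c') • p) n) 0 u := by
    rcases hG with ⟨_, α, h0, _⟩ | ⟨h0, _⟩
    · exact ⟨α, h0⟩
    · rw [hm] at h0
      exact absurd h0 (smul_ne_zero hc0 hp)
  have hG1' : ∃ α : ℂ, G' = shapeG (α • out w w + out w (-(c' / c) • v) + out (-(c' / c) • v) w)
      0 u' := by
    rcases hG' with ⟨_, α, h0, _⟩ | ⟨h0, _⟩
    · exact ⟨α, h0⟩
    · rw [hm'] at h0
      exact absurd h0 (smul_ne_zero hc0' hv)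
  obtain ⟨α, hG⟩ := hG1
  obtain ⟨α', hG'⟩ := hG1'
  refine ⟨u, u', hu, hu', ?_⟩
  have := Listed.nonelliptic (w := u) (w' := u')
    (Consts.nilTwo n p w v c c' hc' hc hc0 hc0' α α')
  rw [hG, hD, hG', hD', CasesA.out_smul_right, CasesA.out_smul_left, CasesA.out_smul_right,
    CasesA.out_smul_left]
  convert this using 2 <;> module

end

end Pool.Agent.MP_106392_al
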