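import Pool.Agent.MP_106392_al.NIdDef

/-!
# The constant identities for the constructors swap, one, oneL, pencil, degenerate
-/

set_option autoImplicit false
set_option linter.unusedSimpArgs false
namespace Pool.Agent.MP_106392_al
open Matrix
noncomputable section

namespace NIdA

variable {F : Type*} [Field F]

lemma cof_mulVec_cross (M : M3 F) (a b : V3 F) :
    cof M *ᵥ (a ⨯₃ b) = (M *ᵥ a) ⨯₃ (M *ᵥ b) := by
  ext i
  fin_cases i <;>
  simp [cof, cross_apply, Matrix.mulVec, dotProduct, Fin.sum_univ_three] <;> ring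

lemma tr_mulVec_cross (M : M3 F) (u x : V3 F) :
    Mᵀ *ᵥ ((M *ᵥ u) ⨯₃ x) = u ⨯₃ ((cof M)ᵀ *ᵥ x) := by
  ext i
  fin_cases i <;>
  simp [cof, cross_apply, Matrix.mulVec, dotProduct, Fin.sum_univ_three] <;> ring

lemma tr_mulVec_cross' (M : M3 F) (u x : V3 F) :
    Mᵀ *ᵥ (x ⨯₃ (M *ᵥ u)) = ((cof M)ᵀ *ᵥ x) ⨯₃ u := by
  ext i
  fin_cases i <;>
  simp [cof, cross_apply, Matrix.mulVec, dotProduct, Fin.sum_univ_three] <;> ring

lemma mul_cof_tr (M : M3 F) : M * (cof M)ᵀ = M.det • (1 : M3 F) := by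
  ext i j
  fin_cases i <;> fin_cases j <;>
  simp [cof, Matrix.mul_apply, Fin.sum_univ_three, Matrix.det_fin_three] <;> ring

lemma cof_cof_tr (M : M3 F) : cof ((cof M)ᵀ) = M.det • Mᵀ := by
  ext i j
  fin_cases i <;> fin_cases j <;>
  simp [cof, Matrix.det_fin_three] <;> ring

lemma cof_smul (c : F) (M : M3 F) : cof (c • M) = c ^ 2 • cof M := by
  ext i j
  fin_cases i <;> fin_cases j <;>
  simp [cof] <;> ring

lemma cof_out (a b : V3 F) : cof (out a b) = 0 := by
  ext i j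
  fin_cases i <;> fin_cases j <;>
  simp [cof, out, Matrix.vecMulVec_apply] <;> ring

lemma cof_out_add (a b c d : V3 F) : cof (out a b + out c d) = out (a ⨯₃ c) (b ⨯₃ d) := by
  ext i j
  fin_cases i <;> fin_cases j <;>
  simp [cof, out, Matrix.vecMulVec_apply, cross_apply] <;> ring

lemma cof_zero : cof (0 : M3 F) = 0 := by
  ext i j
  fin_cases i <;> fin_cases j <;> simp [cof]

lemma cof2_zero (M : M3 F) : cof2 M 0 = 0 := by
  simp [cof2, cof_zero]

lemma out_mulVec (a b x : V3 F) : out a b *ᵥ x = (b ⬝ᵥ x) • a := by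
  ext i
  simp only [out, Matrix.mulVec, Matrix.vecMulVec_apply, dotProduct, Pi.smul_apply, smul_eq_mul,
    Fin.sum_univ_three]
  ring

lemma out_transpose (a b : V3 F) : (out a b)ᵀ = out b a := by
  ext i j
  simp [out, Matrix.vecMulVec_apply, mul_comm]

lemma dot_cross_left (a x : V3 F) : a ⬝ᵥ (a ⨯₃ x) = 0 := by
  simp [cross_apply, dotProduct, Fin.sum_univ_three]
  ring

lemma dot_cross_right (a x : V3 F) : a ⬝ᵥ (x ⨯₃ a) = 0 := by
  simp [cross_apply, dotProduct, Fin.sum_univ_three]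
  ring

/-- the conditions in the case `κ = 0`, `Y = 0` -/
lemma mk0 {r s A B A' B' : M3 ℂ} (symA : Aᵀ = A) (symB : Bᵀ = B) (symA' : A'ᵀ = A')
    (symB' : B'ᵀ = B')
    (n1 : ∀ x y : V3 ℂ, A *ᵥ ((r *ᵥ y) ⨯₃ x) = r *ᵥ (y ⨯₃ (s *ᵥ x)))
    (n2 : ∀ x y : V3 ℂ, B *ᵥ ((r *ᵥ y) ⨯₃ x) = 0)
    (n4 : ∀ x : V3 ℂ, A *ᵥ (x ⨯₃ (B *ᵥ x)) = 0)
    (n4' : ∀ x : V3 ℂ, B *ᵥ (x ⨯₃ (B *ᵥ x)) = 0)
    (hq : ∀ y : V3 ℂ, (r *ᵥ y) ⨯₃ (cof r *ᵥ y) = cof r *ᵥ (y ⨯₃ (A' *ᵥ y)))
    (h50 : ∀ y : V3 ℂ, r *ᵥ (y ⨯₃ (B' *ᵥ y)) = 0) :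
    NId r s A B A' B' 0 0 where
  symA := symA
  symB := symB
  symA' := symA'
  symB' := symB'
  n1 := by
    intro x y
    simp [n1]
  n2 := by
    intro x y
    simp [n2]
  n3 := by
    intro x y
    simp
  n4 := n4
  n4' := n4'
  n50 := by
    intro y
    rw [h50, hq, sub_self]
  n51 := by
    intro y
    rw [hq, sub_self, cof2_zero]
    simp
  n52 := by
    intro y
    rw [hq, sub_self, cof2_zero, cof_zero]
    simp
  n53 := by
    intro y
    rw [hq, sub_self, cof2_zero, cof_zero]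
    simp
  n54 := by
    intro y
    rw [hq, sub_self, cof2_zero, cof_zero]
    simp

lemma one_half (n v : V3 ℂ) (e₁ e₂ α β α' β' : ℂ) :
    NId (e₁ • out n v) (e₂ • out v n) (α • out n n) (β • out n n)
        (α' • out v v) (β' • out v v) 0 0 := by
  have hc : cof (e₁ • out n v) = 0 := by rw [cof_smul, cof_out, smul_zero]
  refine mk0 ?_ ?_ ?_ ?_ ?_ ?_ ?_ ?_ ?_ ?_
  · rw [transpose_smul, out_transpose]
  · rw [transpose_smul, out_transpose]
  · rw [transpose_smul, out_transpose]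
  · rw [transpose_smul, out_transpose]
  · intro x y
    simp [Matrix.smul_mulVec, out_mulVec, dot_cross_left, dot_cross_right]
  · intro x y
    simp [Matrix.smul_mulVec, out_mulVec, dot_cross_left, dot_cross_right]
  · intro x
    simp [Matrix.smul_mulVec, out_mulVec, dot_cross_left, dot_cross_right]
  · intro x
    simp [Matrix.smul_mulVec, out_mulVec, dot_cross_left, dot_cross_right]
  · intro y
    simp [hc]
  · intro x
    simp [Matrix.smul_mulVec, out_mulVec, dot_cross_left, dot_cross_right]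

theorem one (n v : V3 ℂ) (e₁ e₂ α β α' β' : ℂ) :
    NId (e₁ • out n v) (e₂ • out v n) (α • out n n) (β • out n n)
        (α' • out v v) (β' • out v v) 0 0 ∧
    NId (e₂ • out v n) (e₁ • out n v) (α' • out v v) (β' • out v v)
        (α • out n n) (β • out n n) 0 0 :=
  ⟨one_half _ _ _ _ _ _ _ _, one_half _ _ _ _ _ _ _ _⟩

theorem oneL (n v : V3 ℂ) (α β : ℂ) (A' : M3 ℂ) (hA' : A'ᵀ = A') :
    NId (out n v) 0 (α • out n n) (β • out n n) A' 0 0 0 ∧
    NId 0 (out n v) A' 0 (α • out n n) (β • out n n) 0 0 := by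
  constructor
  · refine mk0 ?_ ?_ ?_ ?_ ?_ ?_ ?_ ?_ ?_ ?_
    · rw [transpose_smul, out_transpose]
    · rw [transpose_smul, out_transpose]
    · exact hA'
    · simp
    · intro x y
      simp [Matrix.smul_mulVec, out_mulVec, dot_cross_left, dot_cross_right]
    · intro x y
      simp [Matrix.smul_mulVec, out_mulVec, dot_cross_left, dot_cross_right]
    · intro x
      simp [Matrix.smul_mulVec, out_mulVec, dot_cross_left, dot_cross_right]
    · intro x
      simp [Matrix.smul_mulVec, out_mulVec, dot_cross_left, dot_cross_right]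
    · intro y
      simp [cof_out]
    · intro x
      simp
  · refine mk0 ?_ ?_ ?_ ?_ ?_ ?_ ?_ ?_ ?_ ?_
    · exact hA'
    · simp
    · rw [transpose_smul, out_transpose]
    · rw [transpose_smul, out_transpose]
    · intro x y
      simp
    · intro x y
      simp
    · intro x
      simp
    · intro x
      simp
    · intro y
      simp [cof_zero]
    · intro x
      simp

theorem pencil (r₀ : M3 ℂ) (hr : r₀.det ≠ 0) (e₁ e₂ : ℂ) :
    NId (e₁ • r₀) (e₂ • (cof r₀)ᵀ) (e₂ • (r₀ * r₀ᵀ)) 0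
        ((e₁ / r₀.det) • ((cof r₀)ᵀ * cof r₀)) 0 0 0 ∧
    NId (e₂ • (cof r₀)ᵀ) (e₁ • r₀) ((e₁ / r₀.det) • ((cof r₀)ᵀ * cof r₀)) 0
        (e₂ • (r₀ * r₀ᵀ)) 0 0 0 := by
  have s1 : (e₂ • (r₀ * r₀ᵀ))ᵀ = e₂ • (r₀ * r₀ᵀ) := by
    rw [transpose_smul, transpose_mul, transpose_transpose]
  have s2 : ((e₁ / r₀.det) • ((cof r₀)ᵀ * cof r₀))ᵀ = (e₁ / r₀.det) • ((cof r₀)ᵀ * cof r₀) := by
    rw [transpose_smul, transpose_mul, transpose_transpose]
  constructor
  · refine mk0 s1 (by simp) s2 (by simp) ?_ ?_ ?_ ?_ ?_ ?_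
    · intro x y
      simp only [Matrix.smul_mulVec, ← Matrix.mulVec_mulVec, LinearMap.map_smul,
        LinearMap.smul_apply, Matrix.mulVec_smul, tr_mulVec_cross]
      module
    · intro x y
      simp
    · intro x
      simp
    · intro x
      simp
    · intro y
      rw [cof_smul]
      simp only [Matrix.smul_mulVec, LinearMap.map_smul, LinearMap.smul_apply,
        Matrix.mulVec_smul]
      rw [cof_mulVec_cross, Matrix.mulVec_mulVec, ← Matrix.mul_assoc, mul_cof_tr]
      simp only [Matrix.smul_mul, one_mul, Matrix.smul_mulVec, LinearMap.map_smul, smul_smul]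
      congr 1
      field_simp
    · intro y
      simp
  · refine mk0 s2 (by simp) s1 (by simp) ?_ ?_ ?_ ?_ ?_ ?_
    · intro x y
      have h := tr_mulVec_cross (cof r₀)ᵀ y x
      rw [cof_cof_tr, transpose_transpose, transpose_smul, transpose_transpose] at h
      simp only [Matrix.smul_mulVec, ← Matrix.mulVec_mulVec, LinearMap.map_smul,
        LinearMap.smul_apply, Matrix.mulVec_smul] at h ⊢
      rw [h]
      simp only [Matrix.mulVec_smul, smul_smul]
      congr 1
      field_simp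
    · intro x y
      simp
    · intro x
      simp
    · intro x
      simp
    · intro y
      rw [cof_smul, cof_cof_tr]
      simp only [Matrix.smul_mulVec, ← Matrix.mulVec_mulVec, LinearMap.map_smul,
        LinearMap.smul_apply, Matrix.mulVec_smul, tr_mulVec_cross']
    · intro y
      simp

theorem degenerate (n h p q m : V3 ℂ) (hn : n ⨯₃ h = n) (hm0 : m ⬝ᵥ p = 0)
      (hm1 : m ⬝ᵥ q = 1) (α' β : ℂ) :
    NId (out n q + out h p) (β • out (q ⨯₃ p) n)
        (β • ((out n q + out h p) * (out n q + out h p)ᵀ)) 0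
        (α' • out (q ⨯₃ p) (q ⨯₃ p) + out (q ⨯₃ p) m + out m (q ⨯₃ p)) 0 0 0 ∧
    NId (β • out (q ⨯₃ p) n) (out n q + out h p)
        (α' • out (q ⨯₃ p) (q ⨯₃ p) + out (q ⨯₃ p) m + out m (q ⨯₃ p)) 0
        (β • ((out n q + out h p) * (out n q + out h p)ᵀ)) 0 0 0 := by
  set r := out n q + out h p with hr
  set w := q ⨯₃ p with hw
  have hcr : cof r = out n w := by rw [hr, cof_out_add, hn]
  have s1 : (β • (r * rᵀ))ᵀ = β • (r * rᵀ) := by
    rw [transpose_smul, transpose_mul, transpose_transpose]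
  have s2 : (α' • out w w + out w m + out m w)ᵀ = α' • out w w + out w m + out m w := by
    simp only [transpose_add, transpose_smul, out_transpose]
    abel
  have hmw : ∀ x, m ⬝ᵥ (w ⨯₃ x) = - (p ⬝ᵥ x) := by
    intro x
    have e : m ⬝ᵥ (w ⨯₃ x) = (m ⬝ᵥ p) * (q ⬝ᵥ x) - (m ⬝ᵥ q) * (p ⬝ᵥ x) := by
      rw [hw]
      simp [cross_apply, dotProduct, Fin.sum_univ_three]
      ring
    rw [e, hm0, hm1]
    ring
  have hwm : ∀ x, w ⬝ᵥ (x ⨯₃ m) = - (p ⬝ᵥ x) := by
    intro x
    rw [← hmw x]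
    simp [cross_apply, dotProduct, Fin.sum_univ_three]
    ring
  have hhn : h ⨯₃ n = -n := by
    rw [← cross_anticomm, hn]
  have hny : ∀ y, n ⬝ᵥ (y ⨯₃ h) = - (n ⬝ᵥ y) := by
    intro y
    have e : n ⬝ᵥ (y ⨯₃ h) = - ((n ⨯₃ h) ⬝ᵥ y) := by
      simp [cross_apply, dotProduct, Fin.sum_univ_three]
      ring
    rw [e, hn]
  have hrv : ∀ y, r *ᵥ y = (q ⬝ᵥ y) • n + (p ⬝ᵥ y) • h := by
    intro y
    rw [hr, Matrix.add_mulVec, out_mulVec, out_mulVec]
  constructor
  · refine mk0 s1 (by simp) s2 (by simp) ?_ ?_ ?_ ?_ ?_ ?_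
    · intro x y
      have e := tr_mulVec_cross r y x
      rw [hcr, out_transpose, out_mulVec] at e
      simp only [Matrix.smul_mulVec, ← Matrix.mulVec_mulVec, e, out_mulVec, LinearMap.map_smul,
        LinearMap.smul_apply, Matrix.mulVec_smul]
    · intro x y
      simp
    · intro x
      simp
    · intro x
      simp
    · intro y
      rw [hcr, hrv, out_mulVec, out_mulVec]
      simp only [Matrix.add_mulVec, Matrix.smul_mulVec, out_mulVec, map_add, LinearMap.map_smul,
        LinearMap.smul_apply, LinearMap.add_apply, cross_self, hhn, dotProduct_add,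
        dotProduct_smul, dot_cross_right, hwm, smul_eq_mul]
      module
    · intro y
      simp
  · have hc : cof (β • out w n) = 0 := by rw [cof_smul, cof_out, smul_zero]
    refine mk0 s2 (by simp) s1 (by simp) ?_ ?_ ?_ ?_ ?_ ?_
    · intro x y
      rw [hrv]
      simp only [Matrix.add_mulVec, Matrix.smul_mulVec, out_mulVec, map_add, LinearMap.map_smul,
        LinearMap.smul_apply, LinearMap.add_apply, dotProduct_add, Matrix.mulVec_smul,
        dotProduct_smul, dot_cross_right, dot_cross_left, hmw, hny, smul_eq_mul]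
      module
    · intro x y
      simp
    · intro x
      simp
    · intro x
      simp
    · intro y
      simp [hc]
    · intro y
      simp

theorem swap {r s A B A' B' : M3 ℂ} {κ : ℂ} {Y : M3 ℂ} {κ' : ℂ} {Y' : M3 ℂ}
    (h : NId r s A B A' B' κ Y ∧ NId s r A' B' A B κ' Y') :
    NId s r A' B' A B κ' Y' ∧ NId r s A B A' B' κ Y := h.symm

end NIdA

end
end Pool.Agent.MP_106392_al
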