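import Pool.Agent.MP_106392_al.NIdDef

/-!
# Module G2b: the constant identities for the types `nilOne`, `nilTwo`, `axial`, `isotropic`
-/

set_option autoImplicit false
namespace Pool.Agent.MP_106392_al
open Matrix
noncomputable section

namespace NIdB

section general
variable {F : Type*} [CommRing F]

theorem out_mulVec (a b y : V3 F) : out a b *ᵥ y = (b ⬝ᵥ y) • a := by
  ext i
  simp [out, Matrix.mulVec, dotProduct, Matrix.vecMulVec_apply, Fin.sum_univ_three]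
  ring

theorem out_transpose (a b : V3 F) : (out a b)ᵀ = out b a := by
  ext i j
  simp [out, Matrix.vecMulVec_apply, mul_comm]

theorem cof_cross (M : M3 F) (u v : V3 F) : (M *ᵥ u) ⨯₃ (M *ᵥ v) = cof M *ᵥ (u ⨯₃ v) := by
  ext i
  fin_cases i <;>
  simp [cof, cross_apply, Matrix.mulVec, dotProduct, Fin.sum_univ_three] <;> ring

theorem transpose_mul_cof (M : M3 F) : Mᵀ * cof M = M.det • (1 : M3 F) := by
  ext i j
  fin_cases i <;> fin_cases j <;>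
  simp [cof, Matrix.mul_apply, Fin.sum_univ_three, Matrix.det_fin_three] <;> ring

theorem cof_mul (M N : M3 F) : cof (M * N) = cof M * cof N := by
  ext i j
  fin_cases i <;> fin_cases j <;>
  simp [cof, Matrix.mul_apply, Fin.sum_univ_three] <;> ring

theorem cof_transpose (M : M3 F) : cof Mᵀ = (cof M)ᵀ := by
  ext i j
  fin_cases i <;> fin_cases j <;>
  simp [cof] <;> ring

/-- triple product, second argument variable. -/
theorem trip1 (a b x : V3 F) : a ⬝ᵥ (b ⨯₃ x) = (a ⨯₃ b) ⬝ᵥ x := by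
  simp [cross_apply, dotProduct, Fin.sum_univ_three]
  ring

theorem trip2 (a b x : V3 F) : a ⬝ᵥ (x ⨯₃ b) = (b ⨯₃ a) ⬝ᵥ x := by
  simp [cross_apply, dotProduct, Fin.sum_univ_three]
  ring

theorem cross_neg_comm (a b : V3 F) : a ⨯₃ b = -(b ⨯₃ a) := by
  ext i
  fin_cases i <;> simp [cross_apply] <;> ring

end general


theorem cof_zero' : cof (0 : M3 ℂ) = 0 := by
  ext i j
  fin_cases i <;> fin_cases j <;> simp [cof]

theorem cof2_zero' (r : M3 ℂ) : cof2 r 0 = 0 := by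
  simp [cof2, cof_zero']

theorem cof_out (a b : V3 ℂ) : cof (out a b) = 0 := by
  ext i j
  fin_cases i <;> fin_cases j <;> simp [cof, out, Matrix.vecMulVec_apply] <;> ring

/-- the shapes with `B = 0`, `B' = 0`, `κ = 0`, `Y = 0` and `r` of rank one. -/
theorem nid_of_rank_one {r s A A' : M3 ℂ} (hA : Aᵀ = A) (hA' : A'ᵀ = A') (hr : cof r = 0)
    (h1 : ∀ x y : V3 ℂ, A *ᵥ ((r *ᵥ y) ⨯₃ x) = r *ᵥ (y ⨯₃ (s *ᵥ x))) :
    NId r s A 0 A' 0 0 0 where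
  symA := hA
  symB := by simp
  symA' := hA'
  symB' := by simp
  n1 := by
    intro x y
    simp [h1]
  n2 := by
    intro x y
    simp
  n3 := by
    intro x y
    simp
  n4 := by
    intro x
    simp
  n4' := by
    intro x
    simp
  n50 := by
    intro y
    simp [hr]
  n51 := by
    intro y
    simp [hr, cof2_zero']
  n52 := by
    intro y
    simp [hr, cof2_zero', cof_zero']
  n53 := by
    intro y
    simp [hr, cof2_zero', cof_zero']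
  n54 := by
    intro y
    simp

theorem nilOne (n p v m : V3 ℂ) (c : ℂ) (hn : n ⨯₃ p = c • p) (hm : m ⨯₃ v = c • v)
    (α α' : ℂ) :
    NId (out n v) (out v p) (α • out n n) 0 (α' • out v v + out v m + out m v) 0 0 0 ∧
    NId (out v p) (out n v) (α' • out v v + out v m + out m v) 0 (α • out n n) 0 0 0 := by
  have hA : (α • out n n)ᵀ = α • out n n := by
    rw [transpose_smul, out_transpose]
  have hA' : (α' • out v v + out v m + out m v)ᵀ = α' • out v v + out v m + out m v := by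
    rw [transpose_add, transpose_add, transpose_smul, out_transpose, out_transpose,
      out_transpose]
    abel
  refine ⟨nid_of_rank_one hA hA' (cof_out _ _) ?_, nid_of_rank_one hA' hA (cof_out _ _) ?_⟩
  · intro x y
    simp only [smul_mulVec, out_mulVec, map_smul, LinearMap.smul_apply, dotProduct_smul]
    rw [trip1 n, trip2 v, cross_self, cross_self]
    simp only [zero_dotProduct, smul_zero, zero_smul]
  · intro x y
    simp only [smul_mulVec, add_mulVec, out_mulVec, map_smul, LinearMap.smul_apply,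
      dotProduct_smul]
    rw [trip1 v, trip1 m, trip2 p, cross_self, hm, hn]
    simp only [smul_dotProduct, zero_dotProduct, smul_eq_mul]
    module

theorem nilTwo (n p w v : V3 ℂ) (c c' : ℂ) (hn : n ⨯₃ p = c' • p) (hw : w ⨯₃ v = c • v)
      (hc : c ≠ 0) (hc' : c' ≠ 0) (α α' : ℂ) :
    NId (out n v) (out w p) (α • out n n - (c / c') • (out n p + out p n)) 0
        (α' • out w w - (c' / c) • (out w v + out v w)) 0 0 0 ∧
    NId (out w p) (out n v) (α' • out w w - (c' / c) • (out w v + out v w)) 0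
        (α • out n n - (c / c') • (out n p + out p n)) 0 0 0 := by
  have hA : ∀ (n p : V3 ℂ) (α c : ℂ), (α • out n n - c • (out n p + out p n))ᵀ =
      α • out n n - c • (out n p + out p n) := by
    intro n p α c
    rw [transpose_sub, transpose_smul, transpose_smul, transpose_add, out_transpose,
      out_transpose, out_transpose, add_comm (out p n)]
  refine ⟨nid_of_rank_one (hA _ _ _ _) (hA _ _ _ _) (cof_out _ _) ?_,
    nid_of_rank_one (hA _ _ _ _) (hA _ _ _ _) (cof_out _ _) ?_⟩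
  · intro x y
    simp only [smul_mulVec, add_mulVec, sub_mulVec, out_mulVec, map_smul, LinearMap.smul_apply,
      dotProduct_smul]
    rw [trip1 n, trip1 p, trip2 v, cross_self, hw, cross_neg_comm p n, hn]
    simp only [smul_dotProduct, zero_dotProduct, smul_eq_mul, neg_dotProduct]
    match_scalars <;> field_simp <;> ring
  · intro x y
    simp only [smul_mulVec, add_mulVec, sub_mulVec, out_mulVec, map_smul, LinearMap.smul_apply,
      dotProduct_smul]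
    rw [trip1 w, trip1 v, trip2 p, cross_self, hn, cross_neg_comm v w, hw]
    simp only [smul_dotProduct, zero_dotProduct, smul_eq_mul, neg_dotProduct]
    match_scalars <;> field_simp <;> ring


/-! ### Twisting by rotations -/

theorem cof_rot {O : M3 ℂ} (hO : Oᵀ * O = 1) (hO' : O.det = 1) : cof O = O := by
  have h1 : Oᵀ * cof O = 1 := by rw [transpose_mul_cof, hO', one_smul]
  have h2 : O * Oᵀ = 1 := mul_eq_one_comm.mp hO
  calc cof O = (O * Oᵀ) * cof O := by rw [h2, one_mul]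
    _ = O * (Oᵀ * cof O) := by rw [Matrix.mul_assoc]
    _ = O := by rw [h1, Matrix.mul_one]

theorem rot_cross {O : M3 ℂ} (hO : Oᵀ * O = 1) (hO' : O.det = 1) (u v : V3 ℂ) :
    O *ᵥ (u ⨯₃ v) = (O *ᵥ u) ⨯₃ (O *ᵥ v) := by
  rw [cof_cross, cof_rot hO hO']

theorem cof_mul_rot {O : M3 ℂ} (hO : Oᵀ * O = 1) (hO' : O.det = 1) (r : M3 ℂ) :
    cof (r * O) = cof r * O := by rw [cof_mul, cof_rot hO hO']

theorem cof2_mul_rot {O : M3 ℂ} (hO : Oᵀ * O = 1) (hO' : O.det = 1) (r Y : M3 ℂ) :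
    cof2 (r * O) (Y * O) = cof2 r Y * O := by
  simp only [cof2, ← Matrix.add_mul, cof_mul_rot hO hO', ← Matrix.sub_mul]

theorem cof_rot_mul {O : M3 ℂ} (hO : Oᵀ * O = 1) (hO' : O.det = 1) (r : M3 ℂ) :
    cof (O * r) = O * cof r := by rw [cof_mul, cof_rot hO hO']

theorem cof2_rot_mul {O : M3 ℂ} (hO : Oᵀ * O = 1) (hO' : O.det = 1) (r Y : M3 ℂ) :
    cof2 (O * r) (O * Y) = O * cof2 r Y := by
  simp only [cof2, ← Matrix.mul_add, cof_rot_mul hO hO', ← Matrix.mul_sub]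

/-- twisting on the right by a rotation. -/
theorem twistR {r s A B A' B' : M3 ℂ} {κ : ℂ} {Y : M3 ℂ} (h : NId r s A B A' B' κ Y)
    {O : M3 ℂ} (hO : Oᵀ * O = 1) (hO' : O.det = 1) :
    NId (r * O) (Oᵀ * s) A B (Oᵀ * A' * O) (Oᵀ * B' * O) κ (Y * O) := by
  have h2 : O * Oᵀ = 1 := mul_eq_one_comm.mp hO
  have key : ∀ (y w : V3 ℂ), O *ᵥ (y ⨯₃ (Oᵀ *ᵥ w)) = (O *ᵥ y) ⨯₃ w := by
    intro y w
    rw [rot_cross hO hO', mulVec_mulVec, h2, one_mulVec]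
  have key' : ∀ (C : M3 ℂ) (y : V3 ℂ), O *ᵥ (y ⨯₃ ((Oᵀ * C * O) *ᵥ y)) =
      (O *ᵥ y) ⨯₃ (C *ᵥ (O *ᵥ y)) := by
    intro C y
    rw [← mulVec_mulVec, ← mulVec_mulVec, key]
  have key'' : ∀ (M C : M3 ℂ) (y : V3 ℂ), (M * O) *ᵥ (y ⨯₃ ((Oᵀ * C * O) *ᵥ y)) =
      M *ᵥ ((O *ᵥ y) ⨯₃ (C *ᵥ (O *ᵥ y))) := by
    intro M C y
    rw [← mulVec_mulVec _ M, key']
  refine ⟨h.symA, h.symB, ?_, ?_, ?_, ?_, ?_, h.n4, h.n4', ?_, ?_, ?_, ?_, ?_⟩
  · rw [transpose_mul, transpose_mul, transpose_transpose, h.symA', Matrix.mul_assoc]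
  · rw [transpose_mul, transpose_mul, transpose_transpose, h.symB', Matrix.mul_assoc]
  · intro x y
    have := h.n1 x (O *ᵥ y)
    simp only [← mulVec_mulVec, key]
    exact this
  · intro x y
    have := h.n2 x (O *ᵥ y)
    have e : Y * O - κ • (r * O) = (Y - κ • r) * O := by
      rw [Matrix.sub_mul, Matrix.smul_mul]
    rw [e]
    simp only [← mulVec_mulVec, key]
    exact this
  · intro x y
    have := h.n3 x (O *ᵥ y)
    have e : Y * O - κ • (r * O) = (Y - κ • r) * O := by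
      rw [Matrix.sub_mul, Matrix.smul_mul]
    rw [e]
    simp only [← mulVec_mulVec]
    exact this
  · intro y
    have := h.n50 (O *ᵥ y)
    simp only [cof_mul_rot hO hO', key'']
    simp only [← mulVec_mulVec]
    exact this
  · intro y
    have := h.n51 (O *ᵥ y)
    simp only [cof_mul_rot hO hO', cof2_mul_rot hO hO', key'']
    simp only [← mulVec_mulVec]
    exact this
  · intro y
    have := h.n52 (O *ᵥ y)
    simp only [cof_mul_rot hO hO', cof2_mul_rot hO hO', key'']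
    simp only [← mulVec_mulVec]
    exact this
  · intro y
    have := h.n53 (O *ᵥ y)
    simp only [cof_mul_rot hO hO', cof2_mul_rot hO hO', key'']
    simp only [← mulVec_mulVec]
    exact this
  · intro y
    have := h.n54 (O *ᵥ y)
    simp only [cof_mul_rot hO hO', cof2_mul_rot hO hO', key'']
    simp only [← mulVec_mulVec]
    exact this

/-- twisting on the left by a rotation. -/
theorem twistL {r s A B A' B' : M3 ℂ} {κ : ℂ} {Y : M3 ℂ} (h : NId r s A B A' B' κ Y)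
    {O : M3 ℂ} (hO : Oᵀ * O = 1) (hO' : O.det = 1) :
    NId (Oᵀ * r) (s * O) (Oᵀ * A * O) (Oᵀ * B * O) A' B' κ (Oᵀ * Y) := by
  have h2 : O * Oᵀ = 1 := mul_eq_one_comm.mp hO
  have hT : Oᵀᵀ * Oᵀ = 1 := by rw [transpose_transpose, h2]
  have hT' : (Oᵀ).det = 1 := by rw [det_transpose, hO']
  have key : ∀ (y w : V3 ℂ), O *ᵥ ((Oᵀ *ᵥ y) ⨯₃ w) = y ⨯₃ (O *ᵥ w) := by
    intro y w
    rw [rot_cross hO hO', mulVec_mulVec, h2, one_mulVec]
  have keyT : ∀ (y w : V3 ℂ), (Oᵀ *ᵥ y) ⨯₃ (Oᵀ *ᵥ w) = Oᵀ *ᵥ (y ⨯₃ w) := by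
    intro y w
    rw [rot_cross hT hT']
  have cancel : ∀ w : V3 ℂ, O *ᵥ (Oᵀ *ᵥ w) = w := by
    intro w
    rw [mulVec_mulVec, h2, one_mulVec]
  refine ⟨?_, ?_, h.symA', h.symB', ?_, ?_, ?_, ?_, ?_, ?_, ?_, ?_, ?_, ?_⟩
  · rw [transpose_mul, transpose_mul, transpose_transpose, h.symA, Matrix.mul_assoc]
  · rw [transpose_mul, transpose_mul, transpose_transpose, h.symB, Matrix.mul_assoc]
  · intro x y
    have := congrArg (fun z => Oᵀ *ᵥ z) (h.n1 (O *ᵥ x) y)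
    have e : ∀ z : V3 ℂ, (Oᵀ *ᵥ z) ⨯₃ x = Oᵀ *ᵥ (z ⨯₃ (O *ᵥ x)) := by
      intro z
      rw [← keyT, mulVec_mulVec, hO, one_mulVec]
    simp only [← mulVec_mulVec, key, e, cancel]
    simpa only [mulVec_add] using this
  · intro x y
    have := congrArg (fun z => Oᵀ *ᵥ z) (h.n2 (O *ᵥ x) y)
    have e : ∀ z : V3 ℂ, (Oᵀ *ᵥ z) ⨯₃ x = Oᵀ *ᵥ (z ⨯₃ (O *ᵥ x)) := by
      intro z
      rw [← keyT, mulVec_mulVec, hO, one_mulVec]
    have e' : Oᵀ * Y - κ • (Oᵀ * r) = Oᵀ * (Y - κ • r) := by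
      rw [Matrix.mul_sub, Matrix.mul_smul]
    rw [e']
    simp only [← mulVec_mulVec, key, e, cancel]
    simpa only [mulVec_add, mulVec_sub, mulVec_smul] using this
  · intro x y
    have := congrArg (fun z => Oᵀ *ᵥ z) (h.n3 (O *ᵥ x) y)
    have e : ∀ z : V3 ℂ, (Oᵀ *ᵥ z) ⨯₃ x = Oᵀ *ᵥ (z ⨯₃ (O *ᵥ x)) := by
      intro z
      rw [← keyT, mulVec_mulVec, hO, one_mulVec]
    have e' : Oᵀ * Y - κ • (Oᵀ * r) = Oᵀ * (Y - κ • r) := by
      rw [Matrix.mul_sub, Matrix.mul_smul]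
    rw [e']
    simp only [← mulVec_mulVec, key, e, cancel]
    simpa only [mulVec_add, mulVec_sub, mulVec_smul, mulVec_zero] using this
  · intro x
    have := congrArg (fun z => Oᵀ *ᵥ z) (h.n4 (O *ᵥ x))
    simp only [← mulVec_mulVec, rot_cross hO hO', cancel]
    simpa only [mulVec_zero] using this
  · intro x
    have := congrArg (fun z => Oᵀ *ᵥ z) (h.n4' (O *ᵥ x))
    simp only [← mulVec_mulVec, rot_cross hO hO', cancel]
    simpa only [mulVec_zero] using this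
  · intro y
    have := congrArg (fun z => Oᵀ *ᵥ z) (h.n50 y)
    simp only [cof_rot_mul hT hT', cof2_rot_mul hT hT', ← mulVec_mulVec, keyT]
    simpa only [mulVec_add, mulVec_sub, mulVec_smul, mulVec_zero] using this
  · intro y
    have := congrArg (fun z => Oᵀ *ᵥ z) (h.n51 y)
    simp only [cof_rot_mul hT hT', cof2_rot_mul hT hT', ← mulVec_mulVec, keyT, mulVec_sub,
      cancel] at this ⊢
    simpa only [mulVec_add, mulVec_sub, mulVec_smul, mulVec_zero] using this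
  · intro y
    have := congrArg (fun z => Oᵀ *ᵥ z) (h.n52 y)
    simp only [cof_rot_mul hT hT', cof2_rot_mul hT hT', ← mulVec_mulVec, keyT, mulVec_sub,
      mulVec_add, mulVec_smul, mulVec_zero, cancel] at this ⊢
    exact this
  · intro y
    have := congrArg (fun z => Oᵀ *ᵥ z) (h.n53 y)
    simp only [cof_rot_mul hT hT', cof2_rot_mul hT hT', ← mulVec_mulVec, keyT, mulVec_sub,
      mulVec_add, mulVec_smul, mulVec_zero, cancel] at this ⊢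
    exact this
  · intro y
    have := congrArg (fun z => Oᵀ *ᵥ z) (h.n54 y)
    simp only [cof_rot_mul hT hT', cof2_rot_mul hT hT', ← mulVec_mulVec, keyT, mulVec_sub,
      mulVec_add, mulVec_smul, mulVec_zero, cancel] at this ⊢
    exact this


/-! ### The axial type without rotation -/

/-- the matrix `a + b n nᵀ`. -/
def P (n : V3 ℂ) (a b : ℂ) : M3 ℂ := a • (1 : M3 ℂ) + b • out n n

theorem P_mulVec (n : V3 ℂ) (a b : ℂ) (y : V3 ℂ) :
    P n a b *ᵥ y = a • y + (b * (n ⬝ᵥ y)) • n := by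
  rw [P, add_mulVec, smul_mulVec, smul_mulVec, one_mulVec, out_mulVec, smul_smul]

theorem P_transpose (n : V3 ℂ) (a b : ℂ) : (P n a b)ᵀ = P n a b := by
  rw [P, transpose_add, transpose_smul, transpose_smul, transpose_one, out_transpose]

theorem cof_P (n : V3 ℂ) (a b : ℂ) :
    cof (P n a b) = P n (a * (a + b * (n ⬝ᵥ n))) (-(a * b)) := by
  ext i j
  fin_cases i <;> fin_cases j <;>
  simp [cof, P, out, Matrix.vecMulVec_apply, dotProduct, Fin.sum_univ_three] <;> ring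

theorem P_add (n : V3 ℂ) (a b a' b' : ℂ) : P n a b + P n a' b' = P n (a + a') (b + b') := by
  simp only [P]; module

theorem P_sub (n : V3 ℂ) (a b a' b' : ℂ) : P n a b - P n a' b' = P n (a - a') (b - b') := by
  simp only [P]; module

theorem P_smul (n : V3 ℂ) (c a b : ℂ) : c • P n a b = P n (c * a) (c * b) := by
  simp only [P]; module

theorem cof2_P (n : V3 ℂ) (a b a' b' : ℂ) :
    cof2 (P n a b) (P n a' b') =
      P n (2 * a * a' + (a * b' + a' * b) * (n ⬝ᵥ n)) (-(a * b' + a' * b)) := by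
  rw [cof2, P_add, cof_P, cof_P, cof_P, P_sub, P_sub]
  congr 1 <;> ring

theorem cross_PP (n y : V3 ℂ) (a c a' c' : ℂ) :
    (a • y + c • n) ⨯₃ (a' • y + c' • n) = (a * c' - c * a') • (y ⨯₃ n) := by
  ext i
  fin_cases i <;> simp [cross_apply] <;> ring

theorem cross_yP (n y : V3 ℂ) (a c : ℂ) :
    y ⨯₃ (a • y + c • n) = c • (y ⨯₃ n) := by
  ext i
  fin_cases i <;> simp [cross_apply] <;> ring

theorem dot_ncross (n y : V3 ℂ) : n ⬝ᵥ (y ⨯₃ n) = 0 := by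
  simp [cross_apply, dotProduct, Fin.sum_univ_three]
  ring

theorem expand_cross (n y x : V3 ℂ) :
    (n ⬝ᵥ n) • (y ⨯₃ x) = (n ⬝ᵥ (y ⨯₃ x)) • n + (n ⬝ᵥ y) • (n ⨯₃ x) + (n ⬝ᵥ x) • (y ⨯₃ n) := by
  ext i
  simp only [Pi.add_apply, Pi.smul_apply, smul_eq_mul]
  fin_cases i <;> simp [cross_apply, dotProduct, Fin.sum_univ_three] <;> ring

theorem axial_one (n : V3 ℂ) (e₁ e₂ b c : ℂ) :
    NId (P n e₁ (e₁ * b)) (P n e₂ (e₂ * c)) (P n 0 (e₂ * (b - c)))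
      (P n 0 (-(e₂ ^ 2) * ((b - c) * (1 + (n ⬝ᵥ n) * c) + c * (2 + (n ⬝ᵥ n) * c))))
      (P n 0 (e₁ * (c - b)))
      (P n 0 (-(e₁ ^ 2) * ((c - b) * (1 + (n ⬝ᵥ n) * b) + b * (2 + (n ⬝ᵥ n) * b))))
      (e₂ * (1 + (n ⬝ᵥ n) * c))
      (P n ((e₁ * e₂) * (1 + (n ⬝ᵥ n) * c)) (-(e₁ * e₂ * c))) := by
  have d1 : ∀ x : V3 ℂ, n ⬝ᵥ (n ⨯₃ x) = 0 := by
    intro x
    rw [trip1, cross_self, zero_dotProduct]
  have hYr : P n ((e₁ * e₂) * (1 + (n ⬝ᵥ n) * c)) (-(e₁ * e₂ * c)) -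
      (e₂ * (1 + (n ⬝ᵥ n) * c)) • P n e₁ (e₁ * b) =
      P n 0 (-(e₁ * e₂) * (b + c + b * c * (n ⬝ᵥ n))) := by
    rw [P_smul, P_sub]
    congr 1 <;> ring
  have hz : ∀ (a : ℂ) (y : V3 ℂ), P n 0 a *ᵥ (y ⨯₃ n) = 0 := by
    intro a y
    rw [P_mulVec, dot_ncross]
    simp
  refine ⟨P_transpose _ _ _, P_transpose _ _ _, P_transpose _ _ _, P_transpose _ _ _,
    ?_, ?_, ?_, ?_, ?_, ?_, ?_, ?_, ?_, ?_⟩
  · intro x y
    have h := expand_cross n y x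
    simp only [P_mulVec, map_add, map_smul, LinearMap.add_apply, LinearMap.smul_apply,
      dotProduct_add, dotProduct_smul, d1, dot_ncross, smul_eq_mul]
    linear_combination (norm := module) (e₁ * e₂ * c) • h
  · intro x y
    rw [hYr]
    simp only [P_mulVec, map_add, map_smul, LinearMap.add_apply, LinearMap.smul_apply,
      dotProduct_add, dotProduct_smul, d1, dot_ncross, smul_eq_mul]
    module
  · intro x y
    rw [hYr]
    simp only [P_mulVec, map_add, map_smul, LinearMap.add_apply, LinearMap.smul_apply,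
      dotProduct_add, dotProduct_smul, d1, dot_ncross, smul_eq_mul]
    module
  · intro x
    rw [P_mulVec _ _ _ x, cross_yP, mulVec_smul, hz, smul_zero]
  · intro x
    rw [P_mulVec _ _ _ x, cross_yP, mulVec_smul, hz, smul_zero]
  · intro y
    simp only [cof_P, cof2_P, P_mulVec _ _ _ y, cross_PP, cross_yP, mulVec_smul]
    simp only [P_mulVec, dot_ncross]
    module
  · intro y
    simp only [cof_P, cof2_P, P_mulVec _ _ _ y, cross_PP, cross_yP, mulVec_smul, mulVec_sub, hz]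
    simp only [P_mulVec, dot_ncross, dotProduct_add, dotProduct_smul, smul_eq_mul]
    module
  · intro y
    simp only [cof_P, cof2_P, P_mulVec _ _ _ y, cross_PP, cross_yP, mulVec_smul, mulVec_sub, hz]
    simp only [P_mulVec, dot_ncross, mulVec_add, mulVec_smul, hz]
    module
  · intro y
    simp only [cof_P, cof2_P, P_mulVec _ _ _ y, cross_PP, cross_yP, mulVec_smul, mulVec_sub,
      mulVec_add]
    simp only [P_mulVec, dot_ncross, mulVec_add, mulVec_smul, hz]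
    module
  · intro y
    simp only [cof_P, cof2_P, P_mulVec _ _ _ y, cross_PP, cross_yP, mulVec_smul, mulVec_sub,
      mulVec_add]
    simp only [P_mulVec, dot_ncross, mulVec_add, mulVec_smul, hz]
    module


theorem axial (O : M3 ℂ) (hO : Oᵀ * O = 1) (hO' : O.det = 1) (n : V3 ℂ) (e₁ e₂ b c : ℂ) :
    NId (e₁ • ((1 + b • out n n) * O)) (e₂ • (Oᵀ * (1 + c • out n n)))
        ((e₂ * (b - c)) • out n n)
        ((-(e₂ ^ 2) * ((b - c) * (1 + (n ⬝ᵥ n) * c) + c * (2 + (n ⬝ᵥ n) * c))) • out n n)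
        ((e₁ * (c - b)) • out (Oᵀ *ᵥ n) (Oᵀ *ᵥ n))
        ((-(e₁ ^ 2) * ((c - b) * (1 + (n ⬝ᵥ n) * b) + b * (2 + (n ⬝ᵥ n) * b))) •
          out (Oᵀ *ᵥ n) (Oᵀ *ᵥ n))
        (e₂ * (1 + (n ⬝ᵥ n) * c))
        ((e₁ * e₂) • (((1 + (n ⬝ᵥ n) * c) • (1 : M3 ℂ) - c • out n n) * O)) ∧
    NId (e₂ • (Oᵀ * (1 + c • out n n))) (e₁ • ((1 + b • out n n) * O))
        ((e₁ * (c - b)) • out (Oᵀ *ᵥ n) (Oᵀ *ᵥ n))
        ((-(e₁ ^ 2) * ((c - b) * (1 + (n ⬝ᵥ n) * b) + b * (2 + (n ⬝ᵥ n) * b))) •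
          out (Oᵀ *ᵥ n) (Oᵀ *ᵥ n))
        ((e₂ * (b - c)) • out n n)
        ((-(e₂ ^ 2) * ((b - c) * (1 + (n ⬝ᵥ n) * c) + c * (2 + (n ⬝ᵥ n) * c))) • out n n)
        (e₁ * (1 + (n ⬝ᵥ n) * b))
        ((e₁ * e₂) • (Oᵀ * ((1 + (n ⬝ᵥ n) * b) • (1 : M3 ℂ) - b • out n n))) := by
  have e1 : ∀ (e b : ℂ), e • ((1 + b • out n n) * O) = P n e (e * b) * O := by
    intro e b
    rw [P, ← Matrix.smul_mul, smul_add, smul_smul]
  have e2 : ∀ (e b : ℂ), e • (Oᵀ * (1 + b • out n n)) = Oᵀ * P n e (e * b) := by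
    intro e b
    rw [P, ← Matrix.mul_smul, smul_add, smul_smul]
  have e3 : ∀ a : ℂ, a • out n n = P n 0 a := by
    intro a
    rw [P, zero_smul, zero_add]
  have e4 : ∀ a : ℂ, a • out (Oᵀ *ᵥ n) (Oᵀ *ᵥ n) = Oᵀ * P n 0 a * O := by
    intro a
    rw [P, zero_smul, zero_add, Matrix.mul_smul, Matrix.smul_mul, out, out,
      Matrix.mul_vecMulVec, Matrix.vecMulVec_mul, ← Matrix.mulVec_transpose]
  have e5 : ∀ (N c : ℂ), (e₁ * e₂) • (((1 + N * c) • (1 : M3 ℂ) - c • out n n) * O) =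
      P n ((e₁ * e₂) * (1 + N * c)) (-(e₁ * e₂ * c)) * O := by
    intro N c
    rw [P, ← Matrix.smul_mul]
    congr 1
    module
  have e6 : ∀ (N c : ℂ), (e₁ * e₂) • (Oᵀ * ((1 + N * c) • (1 : M3 ℂ) - c • out n n)) =
      Oᵀ * P n ((e₂ * e₁) * (1 + N * c)) (-(e₂ * e₁ * c)) := by
    intro N c
    rw [P, ← Matrix.mul_smul]
    congr 1
    module
  simp only [e1, e2, e4, e5, e6]
  simp only [e3]
  exact ⟨twistR (axial_one n e₁ e₂ b c) hO hO', twistL (axial_one n e₂ e₁ c b) hO hO'⟩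


/-! ### The isotropic type -/

theorem iso_nn {n h : V3 ℂ} (hn : n ⨯₃ h = n) : n ⬝ᵥ n = 0 := by
  have : n ⬝ᵥ (n ⨯₃ h) = 0 := by rw [trip1, cross_self, zero_dotProduct]
  rwa [hn] at this

theorem iso_hn {n h : V3 ℂ} (hn : n ⨯₃ h = n) : h ⬝ᵥ n = 0 := by
  have : h ⬝ᵥ (n ⨯₃ h) = 0 := by rw [trip2, cross_self, zero_dotProduct]
  rwa [hn] at this

theorem iso_hh {n h : V3 ℂ} (hn : n ⨯₃ h = n) (hn0 : n ≠ 0) : h ⬝ᵥ h = -1 := by
  have e : h ⨯₃ (n ⨯₃ h) = (h ⬝ᵥ h) • n - (h ⬝ᵥ n) • h := by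
    ext i
    simp only [Pi.sub_apply, Pi.smul_apply, smul_eq_mul]
    fin_cases i <;> simp [cross_apply, dotProduct, Fin.sum_univ_three] <;> ring
  rw [hn, iso_hn hn, zero_smul, sub_zero, cross_neg_comm, hn] at e
  have e' : (h ⬝ᵥ h + 1) • n = 0 := by
    rw [add_smul, ← e]; module
  rcases smul_eq_zero.mp e' with h1 | h1
  · linear_combination h1
  · exact absurd h1 hn0

theorem iso_cross {n h : V3 ℂ} (hn : n ⨯₃ h = n) (x : V3 ℂ) :
    n ⨯₃ x = (n ⬝ᵥ x) • h - (h ⬝ᵥ x) • n := by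
  have e : (n ⨯₃ h) ⨯₃ x = (n ⬝ᵥ x) • h - (h ⬝ᵥ x) • n := by
    ext i
    simp only [Pi.sub_apply, Pi.smul_apply, smul_eq_mul]
    fin_cases i <;> simp [cross_apply, dotProduct, Fin.sum_univ_three] <;> ring
  rwa [hn] at e

theorem cof_two (n h a b : V3 ℂ) : cof (out n a + out h b) = out (n ⨯₃ h) (a ⨯₃ b) := by
  ext i j
  fin_cases i <;> fin_cases j <;>
  simp [cof, out, Matrix.vecMulVec_apply, cross_apply] <;> ring

/-- the matrix `n (α₁ v + α₂ k)ᵀ + h (β₁ v + β₂ k)ᵀ`. -/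
def Q (n h v k : V3 ℂ) (α₁ α₂ β₁ β₂ : ℂ) : M3 ℂ :=
  out n (α₁ • v + α₂ • k) + out h (β₁ • v + β₂ • k)

theorem Q_mulVec (n h v k : V3 ℂ) (α₁ α₂ β₁ β₂ : ℂ) (y : V3 ℂ) :
    Q n h v k α₁ α₂ β₁ β₂ *ᵥ y =
      (α₁ * (v ⬝ᵥ y) + α₂ * (k ⬝ᵥ y)) • n + (β₁ * (v ⬝ᵥ y) + β₂ * (k ⬝ᵥ y)) • h := by
  rw [Q, add_mulVec, out_mulVec, out_mulVec]
  simp only [add_dotProduct, smul_dotProduct, smul_eq_mul]

theorem Q_add (n h v k : V3 ℂ) (α₁ α₂ β₁ β₂ α₁' α₂' β₁' β₂' : ℂ) :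
    Q n h v k α₁ α₂ β₁ β₂ + Q n h v k α₁' α₂' β₁' β₂' =
      Q n h v k (α₁ + α₁') (α₂ + α₂') (β₁ + β₁') (β₂ + β₂') := by
  ext i j
  simp [Q, out, Matrix.vecMulVec_apply]
  ring

theorem Q_sub (n h v k : V3 ℂ) (α₁ α₂ β₁ β₂ α₁' α₂' β₁' β₂' : ℂ) :
    Q n h v k α₁ α₂ β₁ β₂ - Q n h v k α₁' α₂' β₁' β₂' =
      Q n h v k (α₁ - α₁') (α₂ - α₂') (β₁ - β₁') (β₂ - β₂') := by
  ext i j
  simp [Q, out, Matrix.vecMulVec_apply]
  ring

theorem Q_smul (n h v k : V3 ℂ) (c α₁ α₂ β₁ β₂ : ℂ) :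
    c • Q n h v k α₁ α₂ β₁ β₂ = Q n h v k (c * α₁) (c * α₂) (c * β₁) (c * β₂) := by
  ext i j
  simp [Q, out, Matrix.vecMulVec_apply]
  ring

theorem Q_transpose (n h v k : V3 ℂ) (α₁ α₂ β₁ β₂ : ℂ) :
    (Q n h v k α₁ α₂ β₁ β₂)ᵀ = Q v k n h α₁ β₁ α₂ β₂ := by
  ext i j
  simp [Q, out, Matrix.vecMulVec_apply]
  ring

theorem cof_Q {n h v k : V3 ℂ} (hn : n ⨯₃ h = n) (hv : v ⨯₃ k = v) (α₁ α₂ β₁ β₂ : ℂ) :
    cof (Q n h v k α₁ α₂ β₁ β₂) = Q n h v k (α₁ * β₂ - α₂ * β₁) 0 0 0 := by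
  have e : (α₁ • v + α₂ • k) ⨯₃ (β₁ • v + β₂ • k) = (α₁ * β₂ - α₂ * β₁) • v := by
    have e' : (α₁ • v + α₂ • k) ⨯₃ (β₁ • v + β₂ • k) = (α₁ * β₂ - α₂ * β₁) • (v ⨯₃ k) := by
      ext i
      fin_cases i <;> simp [cross_apply] <;> ring
    rw [e', hv]
  rw [Q, cof_two, hn, e, Q]
  ext i j
  simp [out, Matrix.vecMulVec_apply]
  ring

theorem cof2_Q {n h v k : V3 ℂ} (hn : n ⨯₃ h = n) (hv : v ⨯₃ k = v)
    (α₁ α₂ β₁ β₂ α₁' α₂' β₁' β₂' : ℂ) :
    cof2 (Q n h v k α₁ α₂ β₁ β₂) (Q n h v k α₁' α₂' β₁' β₂') =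
      Q n h v k (α₁ * β₂' + α₁' * β₂ - α₂ * β₁' - α₂' * β₁) 0 0 0 := by
  rw [cof2, Q_add, cof_Q hn hv, cof_Q hn hv, cof_Q hn hv, Q_sub, Q_sub]
  congr 1 <;> ring

/-- `a • g gᵀ` with `g = q n + p h`. -/
def Gm (n h : V3 ℂ) (q p a : ℂ) : M3 ℂ := a • out (q • n + p • h) (q • n + p • h)

theorem Gm_mulVec (n h : V3 ℂ) (q p a : ℂ) (y : V3 ℂ) :
    Gm n h q p a *ᵥ y = (a * (q * (n ⬝ᵥ y) + p * (h ⬝ᵥ y)) * q) • n +
      (a * (q * (n ⬝ᵥ y) + p * (h ⬝ᵥ y)) * p) • h := by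
  rw [Gm, smul_mulVec, out_mulVec]
  simp only [add_dotProduct, smul_dotProduct, smul_eq_mul]
  module

theorem Gm_transpose (n h : V3 ℂ) (q p a : ℂ) : (Gm n h q p a)ᵀ = Gm n h q p a := by
  rw [Gm, transpose_smul, out_transpose]

theorem iso_half {n h v k : V3 ℂ} (hn : n ⨯₃ h = n) (hn0 : n ≠ 0) (hv : v ⨯₃ k = v)
    (q₁ q₂ p₁ p₂ e₁ e₂ y₁ y₂ : ℂ) (x₁ x₂ : ℂ)
    (hx₁ : x₁ = 1 - y₁ * p₂) (hx₂ : x₂ = 1 - y₂ * p₂) :
    NId (Q n h v k (e₁ * (x₁ * q₁ + y₁ * (q₁ * p₂ - q₂ * p₁))) (e₁ * (x₁ * q₂))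
          (e₁ * (x₁ * p₁)) (e₁ * (x₁ * p₂)))
        (Q v k n h (e₂ * (x₂ * q₁ + y₂ * (q₁ * p₂ - q₂ * p₁))) (e₂ * (x₂ * p₁))
          (e₂ * (x₂ * q₂)) (e₂ * (x₂ * p₂)))
        (Gm n h q₂ p₂ (-(e₂ * (y₂ - y₁)))) (Gm n h q₂ p₂ (e₂ ^ 2 * x₁ * x₂))
        (Gm v k p₁ p₂ (-(e₁ * (y₁ - y₂)))) (Gm v k p₁ p₂ (e₁ ^ 2 * x₁ * x₂))
        (e₂ * x₂ * p₂) (Q n h v k (e₁ * e₂ * x₂ * (q₁ * p₂ - q₂ * p₁)) 0 0 0) := by
  subst hx₁ hx₂
  have nn := iso_nn hn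
  have hn' := iso_hn hn
  have nh' : n ⬝ᵥ h = 0 := by rw [dotProduct_comm, hn']
  have hh := iso_hh hn hn0
  have nx := iso_cross hn
  have hxn : h ⨯₃ n = -n := by rw [cross_neg_comm, hn]
  have kxv : k ⨯₃ v = -v := by rw [cross_neg_comm, hv]
  have v1 : ∀ y : V3 ℂ, v ⬝ᵥ (y ⨯₃ v) = 0 := by
    intro y; rw [trip2, cross_self, zero_dotProduct]
  have v2 : ∀ y : V3 ℂ, v ⬝ᵥ (y ⨯₃ k) = -(v ⬝ᵥ y) := by
    intro y; rw [trip2, kxv, neg_dotProduct]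
  have v3 : ∀ y : V3 ℂ, k ⬝ᵥ (y ⨯₃ v) = v ⬝ᵥ y := by
    intro y; rw [trip2, hv]
  have v4 : ∀ y : V3 ℂ, k ⬝ᵥ (y ⨯₃ k) = 0 := by
    intro y; rw [trip2, cross_self, zero_dotProduct]
  have n1 : ∀ y : V3 ℂ, n ⬝ᵥ (n ⨯₃ y) = 0 := by
    intro y; rw [trip1, cross_self, zero_dotProduct]
  have n2 : ∀ y : V3 ℂ, n ⬝ᵥ (h ⨯₃ y) = n ⬝ᵥ y := by
    intro y; rw [trip1, hn]
  have n3 : ∀ y : V3 ℂ, h ⬝ᵥ (n ⨯₃ y) = -(n ⬝ᵥ y) := by
    intro y; rw [trip1, hxn, neg_dotProduct]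
  have n4 : ∀ y : V3 ℂ, h ⬝ᵥ (h ⨯₃ y) = 0 := by
    intro y; rw [trip1, cross_self, zero_dotProduct]
  have m1 : ∀ y : V3 ℂ, n ⬝ᵥ (y ⨯₃ n) = 0 := by
    intro y; rw [trip2, cross_self, zero_dotProduct]
  have m2 : ∀ y : V3 ℂ, n ⬝ᵥ (y ⨯₃ h) = -(n ⬝ᵥ y) := by
    intro y; rw [trip2, hxn, neg_dotProduct]
  have m3 : ∀ y : V3 ℂ, h ⬝ᵥ (y ⨯₃ n) = n ⬝ᵥ y := by
    intro y; rw [trip2, hn]
  have m4 : ∀ y : V3 ℂ, h ⬝ᵥ (y ⨯₃ h) = 0 := by
    intro y; rw [trip2, cross_self, zero_dotProduct]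
  refine ⟨Gm_transpose _ _ _ _ _, Gm_transpose _ _ _ _ _, Gm_transpose _ _ _ _ _,
    Gm_transpose _ _ _ _ _, ?_, ?_, ?_, ?_, ?_, ?_, ?_, ?_, ?_, ?_⟩
  · intro x y
    simp only [Q_mulVec, Gm_mulVec, map_add, map_smul, LinearMap.add_apply, LinearMap.smul_apply,
      dotProduct_add, dotProduct_smul, smul_eq_mul, v1, v2, v3, v4, n1, n2, n3, n4]
    rw [nx]
    match_scalars <;> ring
  · intro x y
    simp only [Q_smul, Q_sub]
    simp only [Q_mulVec, Gm_mulVec, map_add, map_smul, LinearMap.add_apply, LinearMap.smul_apply,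
      dotProduct_add, dotProduct_smul, smul_eq_mul, v1, v2, v3, v4, n1, n2, n3, n4]
    match_scalars <;> ring
  · intro x y
    simp only [Q_smul, Q_sub]
    simp only [Q_mulVec, Gm_mulVec, map_add, map_smul, LinearMap.add_apply, LinearMap.smul_apply,
      dotProduct_add, dotProduct_smul, smul_eq_mul, v1, v2, v3, v4, n1, n2, n3, n4]
    match_scalars <;> ring
  · intro x
    simp only [Gm_mulVec, map_add, map_smul, dotProduct_add, dotProduct_smul, smul_eq_mul,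
      m1, m2, m3, m4]
    match_scalars <;> ring
  · intro x
    simp only [Gm_mulVec, map_add, map_smul, dotProduct_add, dotProduct_smul, smul_eq_mul,
      m1, m2, m3, m4]
    match_scalars <;> ring
  · intro y
    simp only [cof_Q hn hv, cof2_Q hn hv, Q_mulVec, Gm_mulVec, map_add, map_smul,
      LinearMap.add_apply, LinearMap.smul_apply,
      dotProduct_add, dotProduct_smul, smul_eq_mul, v1, v2, v3, v4, cross_self, hn, hxn]
    match_scalars <;> ring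
  · intro y
    simp only [cof_Q hn hv, cof2_Q hn hv, Q_mulVec, Gm_mulVec, map_add, map_smul,
      LinearMap.add_apply, LinearMap.smul_apply, dotProduct_sub, dotProduct_neg, smul_zero,
      dotProduct_zero,
      dotProduct_add, dotProduct_smul, smul_eq_mul, v1, v2, v3, v4, cross_self, hn, hxn,
      nn, hn', nh', hh]
    match_scalars <;> ring
  · intro y
    simp only [cof_Q hn hv, cof2_Q hn hv, Q_mulVec, Gm_mulVec, map_add, map_smul,
      LinearMap.add_apply, LinearMap.smul_apply, dotProduct_sub, dotProduct_neg, smul_zero,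
      dotProduct_zero,
      dotProduct_add, dotProduct_smul, smul_eq_mul, v1, v2, v3, v4, cross_self, hn, hxn,
      nn, hn', nh', hh]
    match_scalars <;> ring
  · intro y
    simp only [cof_Q hn hv, cof2_Q hn hv, Q_mulVec, Gm_mulVec, map_add, map_smul,
      LinearMap.add_apply, LinearMap.smul_apply, dotProduct_sub, dotProduct_neg, smul_zero,
      dotProduct_zero,
      dotProduct_add, dotProduct_smul, smul_eq_mul, v1, v2, v3, v4, cross_self, hn, hxn,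
      nn, hn', nh', hh]
    match_scalars <;> ring
  · intro y
    simp only [cof_Q hn hv, cof2_Q hn hv, Q_mulVec, Gm_mulVec, map_add, map_smul,
      LinearMap.add_apply, LinearMap.smul_apply, dotProduct_sub, dotProduct_neg, smul_zero,
      dotProduct_zero,
      dotProduct_add, dotProduct_smul, smul_eq_mul, v1, v2, v3, v4, cross_self, hn, hxn,
      nn, hn', nh', hh]
    match_scalars <;> ring


theorem iso_mul {n h v k : V3 ℂ} (hv : v ⨯₃ k = v) (hv0 : v ≠ 0) (α₁ α₂ β₁ β₂ c : ℂ) :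
    c • (Q n h v k α₁ α₂ β₁ β₂ * (Q n h v k α₁ α₂ β₁ β₂)ᵀ) = Gm n h α₂ β₂ (-c) := by
  have vv := iso_nn hv
  have kv := iso_hn hv
  have vk : v ⬝ᵥ k = 0 := by rw [dotProduct_comm, kv]
  have kk := iso_hh hv hv0
  have e : ∀ (p q r s : V3 ℂ), out p q * out r s = (q ⬝ᵥ r) • out p s := by
    intro p q r s
    rw [out, out, Matrix.vecMulVec_mul_vecMulVec, out]
    ext i j
    simp [Matrix.vecMulVec_apply]
    ring
  have e' : Q n h v k α₁ α₂ β₁ β₂ * (Q n h v k α₁ α₂ β₁ β₂)ᵀ =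
      (-(α₂ * α₂)) • out n n + (-(α₂ * β₂)) • out n h + (-(β₂ * α₂)) • out h n +
        (-(β₂ * β₂)) • out h h := by
    rw [Q, transpose_add, out_transpose, out_transpose, Matrix.add_mul, Matrix.mul_add,
      Matrix.mul_add, e, e, e, e]
    simp only [add_dotProduct, smul_dotProduct, dotProduct_add, dotProduct_smul, smul_eq_mul,
      vv, kv, vk, kk]
    module
  rw [e', Gm]
  ext i j
  simp [out, Matrix.vecMulVec_apply]
  ring

theorem isotropic {n h v k : V3 ℂ} (hn : n ⨯₃ h = n) (hn0 : n ≠ 0) (hv : v ⨯₃ k = v)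
    (hv0 : v ≠ 0) (q₁ q₂ p₁ p₂ e₁ e₂ y₁ y₂ : ℂ) (r₀ : M3 ℂ)
    (hr₀ : r₀ = out n (q₁ • v + q₂ • k) + out h (p₁ • v + p₂ • k)) (x₁ x₂ : ℂ)
    (hx₁ : x₁ = 1 - y₁ * p₂) (hx₂ : x₂ = 1 - y₂ * p₂) :
    NId (e₁ • (x₁ • r₀ + y₁ • cof r₀)) (e₂ • (x₂ • r₀ + y₂ • cof r₀)ᵀ)
        ((e₂ * (y₂ - y₁)) • (r₀ * r₀ᵀ)) ((-(e₂ ^ 2) * x₁ * x₂) • (r₀ * r₀ᵀ))
        ((e₁ * (y₁ - y₂)) • (r₀ᵀ * r₀)) ((-(e₁ ^ 2) * x₁ * x₂) • (r₀ᵀ * r₀))
        (e₂ * x₂ * p₂) ((e₁ * e₂ * x₂) • cof r₀) ∧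
    NId (e₂ • (x₂ • r₀ + y₂ • cof r₀)ᵀ) (e₁ • (x₁ • r₀ + y₁ • cof r₀))
        ((e₁ * (y₁ - y₂)) • (r₀ᵀ * r₀)) ((-(e₁ ^ 2) * x₁ * x₂) • (r₀ᵀ * r₀))
        ((e₂ * (y₂ - y₁)) • (r₀ * r₀ᵀ)) ((-(e₂ ^ 2) * x₁ * x₂) • (r₀ * r₀ᵀ))
        (e₁ * x₁ * p₂) ((e₁ * e₂ * x₁) • (cof r₀)ᵀ) := by
  have hr : r₀ = Q n h v k q₁ q₂ p₁ p₂ := hr₀
  have hrT : r₀ᵀ = Q v k n h q₁ p₁ q₂ p₂ := by rw [hr, Q_transpose]
  have hc : cof r₀ = Q n h v k (q₁ * p₂ - q₂ * p₁) 0 0 0 := by rw [hr, cof_Q hn hv]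
  have hcT : (cof r₀)ᵀ = Q v k n h (q₁ * p₂ - q₂ * p₁) 0 0 0 := by rw [hc, Q_transpose]
  have hm : ∀ c : ℂ, c • (r₀ * r₀ᵀ) = Gm n h q₂ p₂ (-c) := by
    intro c
    rw [hr, iso_mul hv hv0]
  have hm' : ∀ c : ℂ, c • (r₀ᵀ * r₀) = Gm v k p₁ p₂ (-c) := by
    intro c
    have := iso_mul (n := v) (h := k) hn hn0 q₁ p₁ q₂ p₂ c
    rw [← hrT, transpose_transpose] at this
    exact this
  have er : ∀ e x y : ℂ, e • (x • r₀ + y • cof r₀) =
      Q n h v k (e * (x * q₁ + y * (q₁ * p₂ - q₂ * p₁))) (e * (x * q₂)) (e * (x * p₁))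
        (e * (x * p₂)) := by
    intro e x y
    rw [hc, hr, Q_smul, Q_smul, Q_add, Q_smul]
    congr 1 <;> ring
  have erT : ∀ e x y : ℂ, e • (x • r₀ + y • cof r₀)ᵀ =
      Q v k n h (e * (x * q₁ + y * (q₁ * p₂ - q₂ * p₁))) (e * (x * p₁)) (e * (x * q₂))
        (e * (x * p₂)) := by
    intro e x y
    rw [← transpose_smul, er, Q_transpose]
  have eY : ∀ e : ℂ, e • cof r₀ = Q n h v k (e * (q₁ * p₂ - q₂ * p₁)) 0 0 0 := by
    intro e
    rw [hc, Q_smul]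
    congr 1 <;> ring
  have eYT : ∀ e : ℂ, e • (cof r₀)ᵀ = Q v k n h (e * (q₁ * p₂ - q₂ * p₁)) 0 0 0 := by
    intro e
    rw [hcT, Q_smul]
    congr 1 <;> ring
  rw [er, erT, hm, hm, hm', hm', eY, eYT]
  have s1 : -(-(e₂ ^ 2) * x₁ * x₂) = e₂ ^ 2 * x₁ * x₂ := by ring
  have s2 : -(-(e₁ ^ 2) * x₁ * x₂) = e₁ ^ 2 * x₁ * x₂ := by ring
  rw [s1, s2]
  refine ⟨iso_half hn hn0 hv q₁ q₂ p₁ p₂ e₁ e₂ y₁ y₂ x₁ x₂ hx₁ hx₂, ?_⟩
  have := iso_half hv hv0 hn q₁ p₁ q₂ p₂ e₂ e₁ y₂ y₁ x₂ x₁ hx₂ hx₁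
  convert this using 2 <;> ring

end NIdB

end
end Pool.Agent.MP_106392_al
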