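import Pool.Agent.MP_106392_al.Defs3

/-!
# Fixed points of `λ`-adic contractions, square roots of power series
-/

set_option autoImplicit false
namespace Pool.Agent.MP_106392_al
open Matrix

/-- a `λ`-adic contraction has a fixed point. -/
theorem fix_exists {ι : Type*} (F : (ι → R) → (ι → R))
    (hF : ∀ n (x y : ι → R), (∀ i, (lam : R) ^ n ∣ x i - y i) →
      ∀ i, (lam : R) ^ (n + 1) ∣ F x i - F y i) :
    ∃ x, F x = x := by
  set s : ℕ → (ι → R) := fun n => F^[n] 0 with hs
  have hs' : ∀ n, s (n + 1) = F (s n) := fun n => by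
    simp only [hs, Function.iterate_succ_apply']
  have h1 : ∀ n i, (lam : R) ^ n ∣ s (n + 1) i - s n i := by
    intro n
    induction n with
    | zero => intro i; simp
    | succ n ih =>
      intro i
      have := hF n (s (n + 1)) (s n) ih i
      rwa [← hs', ← hs'] at this
  have h2 : ∀ n m, n ≤ m → ∀ i, (lam : R) ^ n ∣ s m i - s n i := by
    intro n m hnm
    induction m, hnm using Nat.le_induction with
    | base => intro i; simp
    | succ m hm ih =>
      intro i
      have h3 : (lam : R) ^ n ∣ s (m + 1) i - s m i := dvd_trans (pow_dvd_pow _ hm) (h1 m i)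
      have h4 := dvd_add h3 (ih i)
      rwa [sub_add_sub_cancel] at h4
  set A : ι → R := fun i => PowerSeries.mk fun n => PowerSeries.coeff (R := ℂ) n (s (n + 1) i)
    with hA
  have h3 : ∀ n i, (lam : R) ^ n ∣ A i - s n i := by
    intro n i
    rw [PowerSeries.X_pow_dvd_iff]
    intro m hm
    have h4 := h2 (m + 1) n hm i
    rw [PowerSeries.X_pow_dvd_iff] at h4
    have h5 := h4 m (Nat.lt_succ_self m)
    rw [map_sub, sub_eq_zero] at h5
    rw [map_sub, hA, PowerSeries.coeff_mk, h5, sub_self]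
  refine ⟨A, ?_⟩
  funext i
  ext n
  have h6 := hF n A (s n) (h3 n) i
  rw [← hs'] at h6
  have h7 := dvd_sub h6 (h3 (n + 1) i)
  rw [sub_sub_sub_cancel_right] at h7
  rw [PowerSeries.X_pow_dvd_iff] at h7
  have h8 := h7 n (Nat.lt_succ_self n)
  rwa [map_sub, sub_eq_zero] at h8

/-- the matrix version -/
theorem fix_exists_mat (F : M3 R → M3 R)
    (hF : ∀ n (x y : M3 R), (∀ i j, (lam : R) ^ n ∣ x i j - y i j) →
      ∀ i j, (lam : R) ^ (n + 1) ∣ F x i j - F y i j) :
    ∃ x, F x = x := by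
  obtain ⟨x, hx⟩ := fix_exists (ι := Fin 3 × Fin 3)
    (fun x p => F (Matrix.of fun i j => x (i, j)) p.1 p.2) (by
      intro n x y h p
      apply hF n
      intro i j
      exact h (i, j))
  refine ⟨Matrix.of fun i j => x (i, j), ?_⟩
  ext i j : 1
  exact congrFun hx (i, j)

theorem exists_sqrtR' (q : R) (hq : PowerSeries.constantCoeff (R := ℂ) q = 1) :
    ∃! d : R, d ^ 2 = q ∧ PowerSeries.constantCoeff (R := ℂ) d = 1 := by
  have h1 : (lam : R) ∣ q - 1 := by
    rw [PowerSeries.X_dvd_iff]; simp [hq]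
  obtain ⟨q', hq'⟩ := h1
  obtain ⟨e, he⟩ := fix_exists (ι := Unit)
    (fun x _ => cc (1 / 2) * (q' - lam * (x ()) ^ 2)) (by
      intro n x y h i
      obtain ⟨z, hz⟩ := h ()
      refine ⟨cc (1 / 2) * (-(z * (x () + y ()))), ?_⟩
      have : x () = y () + lam ^ n * z := by rw [← hz]; ring
      simp only [this]
      ring)
  have he' : e () = cc (1 / 2) * (q' - lam * (e ()) ^ 2) := (congrFun he ()).symm
  have h2 : (2 : R) * cc (1 / 2) = 1 := by
    have h3 : (2 : R) = cc 2 := (map_ofNat (PowerSeries.C (R := ℂ)) 2).symm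
    rw [h3, ← map_mul]; norm_num
  have h4 : (1 + lam * e ()) ^ 2 = q := by
    have h5 : 2 * e () = q' - lam * (e ()) ^ 2 := by
      calc 2 * e () = 2 * (cc (1 / 2) * (q' - lam * (e ()) ^ 2)) := by rw [← he']
        _ = (2 * cc (1 / 2)) * (q' - lam * (e ()) ^ 2) := by ring
        _ = _ := by rw [h2, one_mul]
    linear_combination lam * h5 - hq'
  refine ⟨1 + lam * e (), ⟨h4, by simp⟩, ?_⟩
  rintro d ⟨hd, hd1⟩
  have h5 : (d - (1 + lam * e ())) * (d + (1 + lam * e ())) = 0 := by
    linear_combination hd - h4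
  rcases mul_eq_zero.mp h5 with h | h
  · exact sub_eq_zero.mp h
  · exfalso
    have := congrArg (PowerSeries.constantCoeff (R := ℂ)) h
    simp [hd1] at this

theorem sqrtR_eq {q d : R} (h : d ^ 2 = q) (h1 : PowerSeries.constantCoeff (R := ℂ) d = 1) :
    sqrtR q = d := by
  have hq : PowerSeries.constantCoeff (R := ℂ) q = 1 := by rw [← h, map_pow, h1, one_pow]
  have hex : ∃ d : R, d ^ 2 = q ∧ PowerSeries.constantCoeff (R := ℂ) d = 1 := ⟨d, h, h1⟩
  have h2 : sqrtR q = Classical.choose hex := by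
    unfold sqrtR; rw [dif_pos hex]
  rw [h2]
  exact (exists_sqrtR' q hq).unique (Classical.choose_spec hex) ⟨h, h1⟩

end Pool.Agent.MP_106392_al
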