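import Pool.Agent.MP_106392_al.EllId2
import Pool.Agent.MP_106392_al.Fix

/-!
# The elliptic shapes
-/

set_option autoImplicit false
namespace Pool.Agent.MP_106392_al
open Matrix

noncomputable section

theorem cof_map {F F' : Type*} [CommRing F] [CommRing F'] (f : F →+* F') (A : M3 F) :
    cof (A.map f) = (cof A).map f := by
  ext i j
  fin_cases i <;> fin_cases j <;> simp [cof]

theorem cof_smul {F : Type*} [CommRing F] (c : F) (A : M3 F) : cof (c • A) = c ^ 2 • cof A := by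
  ext i j
  fin_cases i <;> fin_cases j <;> simp [cof] <;> ring

theorem cst_smul (c : ℂ) (A : M3 ℂ) : cst (c • A) = cc c • cst A := by
  ext i j : 1
  simp only [cst, Matrix.map_apply, Matrix.smul_apply, smul_eq_mul, map_mul]

theorem cc_trace (A : M3 ℂ) : cc A.trace = (cst A).trace := by
  unfold cst cc
  simp only [Matrix.trace, map_sum, Matrix.diag, Matrix.map_apply]

theorem aux8 {F M : Type*} [CommRing F] [AddCommGroup M] [Module F M] (g u d k p : F)
    (I A : M) : ((g * u) ^ 2 + g ^ 2 * d) • I + k ^ 2 • g ^ 2 • ((2 : F) • A - p • I) =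
      g ^ 2 • ((u ^ 2 + d) • I + k ^ 2 • ((2 : F) • A - p • I)) := by
  module

theorem aux9 {F M : Type*} [CommRing F] [AddCommGroup M] [Module F M] (g u k : F)
    (A B : M) : (2 : F) • ((g * u) • g • A + k • g ^ 2 • B) =
      g ^ 2 • (2 : F) • (u • A + k • B) := by
  module

/-- the fixed point equation has a solution -/
theorem ell_exists (r₀ : M3 ℂ) (t : ℂ) (w : R)
    (hw : PowerSeries.constantCoeff (R := ℂ) w = 1) :
    ∃ Θ : M3 R, w • Θ = (1 - (cc t * lam) ^ 3 * Θ.det) • cst r₀ + (w * (cc t * lam)) • cof Θ := by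
  have hw0 : PowerSeries.constantCoeff (R := ℂ) w ≠ 0 := by rw [hw]; exact one_ne_zero
  obtain ⟨Θ, hΘ⟩ := fix_exists_mat
    (fun Θ => w⁻¹ • ((1 - (cc t * lam) ^ 3 * Θ.det) • cst r₀) + (cc t * lam) • cof Θ) (by
      intro n x y h i j
      set I : Ideal R := Ideal.span {(lam : R) ^ n} with hI
      have hxy : x.map (Ideal.Quotient.mk I) = y.map (Ideal.Quotient.mk I) := by
        ext i j
        simp only [Matrix.map_apply]
        rw [Ideal.Quotient.eq, hI, Ideal.mem_span_singleton]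
        exact h i j
      have hcof : (lam : R) ^ n ∣ cof x i j - cof y i j := by
        rw [← Ideal.mem_span_singleton, ← Ideal.Quotient.eq]
        have : (cof x).map (Ideal.Quotient.mk I) = (cof y).map (Ideal.Quotient.mk I) := by
          rw [← cof_map, ← cof_map, hxy]
        exact congrFun (congrFun this i) j
      have hdet : (lam : R) ^ n ∣ x.det - y.det := by
        rw [← Ideal.mem_span_singleton, ← Ideal.Quotient.eq]
        rw [RingHom.map_det, RingHom.map_det]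
        exact congrArg Matrix.det hxy
      obtain ⟨a, ha⟩ := hcof
      obtain ⟨b, hb⟩ := hdet
      have ha' : cof x i j = cof y i j + lam ^ n * a := by rw [← ha]; ring
      have hb' : x.det = y.det + lam ^ n * b := by rw [← hb]; ring
      simp only [Matrix.add_apply, Matrix.smul_apply, smul_eq_mul, ha', hb']
      refine ⟨-(w⁻¹ * (cc t) ^ 3 * lam ^ 2 * b * cst r₀ i j) + cc t * a, ?_⟩
      ring)
  refine ⟨Θ, ?_⟩
  have h1 := congrArg (fun A => w • A) hΘ
  simp only [smul_add, smul_smul] at h1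
  rw [← mul_assoc, PowerSeries.mul_inv_cancel w hw0, one_mul] at h1
  exact h1.symm

theorem ell_unique (r₀ : M3 ℂ) (t : ℂ) (w : R)
    (hw : PowerSeries.constantCoeff (R := ℂ) w = 1) (Θ : M3 R)
    (h : w • Θ = (1 - (cc t * lam) ^ 3 * Θ.det) • cst r₀ + (w * (cc t * lam)) • cof Θ) :
    ∃ g : R, PowerSeries.constantCoeff (R := ℂ) g = 1 ∧ w = g * (1 - (cc t * lam) ^ 3 * Θ.det) ∧
      cst r₀ = g • eR Θ (cc t * lam) ∧ ellRoot r₀ t w = g ^ 2 * (eG Θ (cc t * lam)).det ∧
      Θ = ellTheta r₀ t w := by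
  set k : R := cc t * lam with hk
  have hk0 : PowerSeries.constantCoeff (R := ℂ) k = 0 := by simp [hk]
  set u : R := 1 - k ^ 3 * Θ.det with hu
  have hu1 : PowerSeries.constantCoeff (R := ℂ) u = 1 := by simp [hu, hk0]
  have hu0 : PowerSeries.constantCoeff (R := ℂ) u ≠ 0 := by rw [hu1]; exact one_ne_zero
  have huu : u * u⁻¹ = 1 := PowerSeries.mul_inv_cancel u hu0
  set g : R := w * u⁻¹ with hg
  have hg1 : PowerSeries.constantCoeff (R := ℂ) g = 1 := by
    have := congrArg (PowerSeries.constantCoeff (R := ℂ)) huu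
    rw [map_mul, hu1, one_mul, map_one] at this
    rw [hg, map_mul, hw, this, one_mul]
  have hwg : w = g * u := by rw [hg]; linear_combination (-w) * huu
  have hr : cst r₀ = g • eR Θ k := by
    have h1 := congrArg (fun A => u⁻¹ • A) h
    simp only [smul_add, smul_smul] at h1
    rw [mul_comm u⁻¹ u, huu, one_smul] at h1
    rw [eR, smul_sub, smul_smul]
    rw [hg]
    rw [eq_sub_iff_add_eq, show w * u⁻¹ = u⁻¹ * w by ring,
      show u⁻¹ * w * k = u⁻¹ * (w * k) by ring]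
    exact h1.symm
  have hH : cst (r₀ * r₀ᵀ) = g ^ 2 • (eR Θ k * (eR Θ k)ᵀ) := by
    have h1 : cst (r₀ * r₀ᵀ) = cst r₀ * (cst r₀)ᵀ := by
      unfold cst; rw [Matrix.map_mul, Matrix.transpose_map]
    rw [h1, hr, Matrix.transpose_smul, Matrix.smul_mul, Matrix.mul_smul, smul_smul, sq]
  have htr : cc (r₀ * r₀ᵀ).trace = g ^ 2 * (eR Θ k * (eR Θ k)ᵀ).trace := by
    rw [cc_trace, hH, Matrix.trace_smul, smul_eq_mul]
  have hdet : cc r₀.det = g ^ 3 * (eR Θ k).det := by
    have h1 : cc r₀.det = (cst r₀).det := by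
      unfold cst; exact RingHom.map_det _ _
    rw [h1, hr, Matrix.det_smul]; simp
  have htr2 : cc ((r₀ * r₀ᵀ) * (r₀ * r₀ᵀ)).trace =
      g ^ 4 * ((eR Θ k * (eR Θ k)ᵀ) * (eR Θ k * (eR Θ k)ᵀ)).trace := by
    have h1 : cst ((r₀ * r₀ᵀ) * (r₀ * r₀ᵀ)) = cst (r₀ * r₀ᵀ) * cst (r₀ * r₀ᵀ) := by
      unfold cst; rw [← Matrix.map_mul]
    rw [cc_trace, h1, hH, Matrix.smul_mul, Matrix.mul_smul, smul_smul, Matrix.trace_smul, smul_eq_mul]
    ring
  have hroot : ellRoot r₀ t w = g ^ 2 * (eG Θ k).det := by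
    unfold ellRoot
    apply sqrtR_eq
    · rw [← hk]
      have h2 : cc (2 * ((r₀ * r₀ᵀ) * (r₀ * r₀ᵀ)).trace - (r₀ * r₀ᵀ).trace ^ 2) =
          2 * cc ((r₀ * r₀ᵀ) * (r₀ * r₀ᵀ)).trace - (cc (r₀ * r₀ᵀ).trace) ^ 2 := by
        simp only [cc, map_sub, map_mul, map_pow, map_ofNat]
      rw [h2, htr, hdet, htr2, hwg]
      have h3 := eKey2 Θ k
      rw [← hu] at h3
      linear_combination g ^ 4 * h3
    · rw [map_mul, map_pow, hg1, eDetG]
      simp [hk0]
  refine ⟨g, hg1, hwg, hr, hroot, ?_⟩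
  set P : M3 R := (w ^ 2 + ellRoot r₀ t w) • (1 : M3 R) + k ^ 2 •
    cst (2 • (r₀ * r₀ᵀ) - (r₀ * r₀ᵀ).trace • (1 : M3 ℂ)) with hP
  set Q : M3 R := (2 : R) • (w • cst r₀ + k • cst (cof r₀)) with hQ
  have hPQ : P * Θ = Q := by
    have h4 : cst (2 • (r₀ * r₀ᵀ) - (r₀ * r₀ᵀ).trace • (1 : M3 ℂ)) =
        g ^ 2 • ((2 : R) • (eR Θ k * (eR Θ k)ᵀ) - (eR Θ k * (eR Θ k)ᵀ).trace • (1 : M3 R)) := by
      have h5 : cst (2 • (r₀ * r₀ᵀ) - (r₀ * r₀ᵀ).trace • (1 : M3 ℂ)) =
          (2 : R) • cst (r₀ * r₀ᵀ) - cc (r₀ * r₀ᵀ).trace • (1 : M3 R) := by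
        ext i j : 1
        by_cases hij : i = j
        · simp only [cst, Matrix.map_apply, Matrix.sub_apply, Matrix.smul_apply, smul_eq_mul,
            two_nsmul, Matrix.add_apply, map_add, map_sub, map_mul, Matrix.one_apply, hij, if_true,
            map_one]
          ring
        · simp only [cst, Matrix.map_apply, Matrix.sub_apply, Matrix.smul_apply, smul_eq_mul,
            two_nsmul, Matrix.add_apply, map_add, map_sub, map_mul, Matrix.one_apply, hij, if_false,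
            map_zero]
          ring
      rw [h5, hH, htr]
      rw [smul_sub, smul_smul, smul_smul, smul_smul, mul_comm (2 : R)]
    have h6 : cst (cof r₀) = g ^ 2 • cof (eR Θ k) := by
      have : cst (cof r₀) = cof (cst r₀) := by unfold cst; rw [cof_map]
      rw [this, hr, cof_smul]
    rw [hP, hQ, h4, h6, hr, hroot, hwg]
    have h7 := congrArg (fun A => g ^ 2 • A) (eKey1 Θ k)
    rw [← hu] at h7
    rw [← Matrix.smul_mul] at h7
    rw [aux8, aux9]
    exact h7
  have hPdet : IsUnit P.det := by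
    rw [PowerSeries.isUnit_iff_constantCoeff]
    have h8 : PowerSeries.constantCoeff (R := ℂ) P.det = 8 := by
      have h9 : PowerSeries.constantCoeff (R := ℂ) P.det = (ev0 P).det := by
        unfold ev0; exact RingHom.map_det _ _
      have h10 : ev0 P = (2 : ℂ) • (1 : M3 ℂ) := by
        have h11 : PowerSeries.constantCoeff (R := ℂ) (ellRoot r₀ t w) = 1 := by
          rw [hroot, map_mul, map_pow, hg1, eDetG]
          simp [hk0]
        ext i j
        simp only [hP, ev0, Matrix.map_apply, Matrix.add_apply, Matrix.smul_apply, smul_eq_mul,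
          map_add, map_mul, map_pow, hk0, hw, h11]
        by_cases hij : i = j <;> simp [hij, Matrix.one_apply]
        norm_num
      rw [h9, h10, Matrix.det_smul]
      simp; norm_num
    rw [h8]
    exact isUnit_iff_ne_zero.mpr (by norm_num)
  have h12 : Θ = P⁻¹ * (P * Θ) := by
    rw [← Matrix.mul_assoc, Matrix.nonsing_inv_mul P hPdet, Matrix.one_mul]
  rw [h12, hPQ]
  unfold ellTheta
  rw [← hk]

/-- characterisation of Θ -/
theorem ellTheta_spec (r₀ : M3 ℂ) (t : ℂ) (w : R)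
    (hw : PowerSeries.constantCoeff (R := ℂ) w = 1) (Θ : M3 R) :
    Θ = ellTheta r₀ t w ↔
      w • Θ = (1 - (cc t * lam) ^ 3 * Θ.det) • cst r₀ + (w * (cc t * lam)) • cof Θ := by
  constructor
  · intro h
    obtain ⟨Θ', hΘ'⟩ := ell_exists r₀ t w hw
    obtain ⟨_, _, _, _, _, h1⟩ := ell_unique r₀ t w hw Θ' hΘ'
    rw [h, ← h1]
    exact hΘ'
  · intro h
    obtain ⟨_, _, _, _, _, h1⟩ := ell_unique r₀ t w hw Θ h
    exact h1

/-- the data of an elliptic component -/
theorem ell_data (r₀ : M3 ℂ) (t : ℂ) (w : R)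
    (hw : PowerSeries.constantCoeff (R := ℂ) w = 1) :
    ∃ g : R, PowerSeries.constantCoeff (R := ℂ) g = 1 ∧
      cst r₀ = g • eR (ellTheta r₀ t w) (cc t * lam) ∧
      ellG r₀ t w = g • eG (ellTheta r₀ t w) (cc t * lam) ∧
      ev0 (ellTheta r₀ t w) = r₀ := by
  obtain ⟨g, hg1, hwg, hr, -, -⟩ := ell_unique r₀ t w hw (ellTheta r₀ t w)
    ((ellTheta_spec r₀ t w hw _).mp rfl)
  set Θ := ellTheta r₀ t w with hΘ
  set k : R := cc t * lam with hk
  have hk0 : PowerSeries.constantCoeff (R := ℂ) k = 0 := by simp [hk]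
  refine ⟨g, hg1, hr, ?_, ?_⟩
  · have h1 : ellG r₀ t w = w • (1 : M3 R) - k ^ 2 • (cst r₀ * Θᵀ) := rfl
    rw [h1, hr, hwg]
    have h2 : eR Θ k * Θᵀ = Θ * Θᵀ - (k * Θ.det) • (1 : M3 R) := by
      rw [eR, Matrix.sub_mul, Matrix.smul_mul]
      rw [cof_mul_transpose, smul_smul]
    rw [Matrix.smul_mul, h2, eG]
    generalize (1 : M3 R) = I
    generalize Θ * Θᵀ = A
    generalize Θ.det = d
    clear * -
    have : ∀ {F M : Type} [CommRing F] [AddCommGroup M] [Module F M] (g k d : F) (I A : M),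
        (g * (1 - k ^ 3 * d)) • I - k ^ 2 • g • (A - (k * d) • I) = g • (I - k ^ 2 • A) := by
      intros; module
    exact this g k d I A
  · have h1 := congrArg ev0 hr
    have h2 : ev0 (cst r₀) = r₀ := by
      ext i j; simp [ev0, cst]
    rw [h2] at h1
    rw [h1]
    ext i j
    simp [ev0, eR, hg1, hk0]

theorem half_elliptic (r₀ : M3 ℂ) (t₁ t₂ : ℂ) (w : R)
    (hw : PowerSeries.constantCoeff (R := ℂ) w = 1) :
    Half (t₁ • r₀) (t₂ • r₀ᵀ) 0 (-(t₂ ^ 2) • (r₀ * r₀ᵀ)) 0 (-(t₁ ^ 2) • (r₀ᵀ * r₀))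
      (ellG r₀ t₂ w) (cc t₁ • ellTheta r₀ t₂ w) := by
  obtain ⟨g, hg1, hr, hG, h0⟩ := ell_data r₀ t₂ w hw
  rw [hG]
  set Θ := ellTheta r₀ t₂ w with hΘ
  set k : R := cc t₂ * lam with hk
  have hk0 : PowerSeries.constantCoeff (R := ℂ) k = 0 := by simp [hk]
  refine ⟨?_, ?_, ?_, ?_, ?_, ?_, ?_, ?_, ?_, ?_⟩
  · simp
  · simp [Matrix.transpose_mul]
  · simp
  · simp [Matrix.transpose_mul]
  · simp [eG, Matrix.transpose_mul]
  · ext i j
    by_cases hij : i = j
    · subst hij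
      simp [ev0, eG, hg1, hk0]
    · simp [ev0, eG, hg1, hk0, hij]
  · rw [← h0]
    ext i j
    simp [ev0]
  · intro x y
    have h1 : cst (t₁ • r₀) = cc t₁ • (g • eR Θ k) := by
      rw [← hr]; ext i j : 1; simp [cst]
    have h2 : cst (t₂ • r₀ᵀ) = cc t₂ • (g • eR Θ k)ᵀ := by
      rw [← hr]; ext i j : 1; simp [cst]
    rw [h1, h2]
    exact eI1' Θ (cc t₁) (cc t₂) lam g x y
  · intro x
    have h1 : cst (-(t₂ ^ 2) • (r₀ * r₀ᵀ)) =
        -((cc t₂) ^ 2) • ((g • eR Θ k) * (g • eR Θ k)ᵀ) := by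
      rw [← hr]
      have : cst (r₀ * r₀ᵀ) = cst r₀ * (cst r₀)ᵀ := by
        unfold cst; rw [Matrix.map_mul, Matrix.transpose_map]
      rw [← this, cst_smul]
      simp only [cc, map_neg, map_pow]
    have h2 : cst (0 : M3 ℂ) = 0 := by ext i j : 1; simp [cst]
    rw [h1, h2, smul_zero, sub_zero]
    exact eI2' Θ (cc t₂) lam g x
  · intro y
    have h1 : cst (-(t₁ ^ 2) • (r₀ᵀ * r₀)) =
        -((cc t₁) ^ 2) • ((g • eR Θ k)ᵀ * (g • eR Θ k)) := by
      rw [← hr]
      have : cst (r₀ᵀ * r₀) = (cst r₀)ᵀ * cst r₀ := by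
        unfold cst; rw [Matrix.map_mul, Matrix.transpose_map]
      rw [← this, cst_smul]
      simp only [cc, map_neg, map_pow]
    have h2 : cst (0 : M3 ℂ) = 0 := by ext i j : 1; simp [cst]
    have h3 : cst (t₁ • r₀) = cc t₁ • (g • eR Θ k) := by
      rw [← hr]; ext i j : 1; simp [cst]
    rw [h1, h2, h3, cof_smul, Matrix.zero_mulVec, map_zero, Matrix.mulVec_zero, sub_zero]
    exact eI3' Θ k (cc t₁) g y

end
end Pool.Agent.MP_106392_al
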