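import Pool.Agent.MP_106392_al.NIdDef

set_option autoImplicit false
namespace Pool.Agent.MP_106392_al
open Matrix
noncomputable section
set_option linter.unusedSimpArgs false

namespace HNId

/-! ### constants -/

lemma vC_zero : vC (0 : V3 ℂ) = 0 := by
  ext i; simp [vC]

lemma vC_add (x y : V3 ℂ) : vC (x + y) = vC x + vC y := by
  funext i; simp [vC]

lemma vC_sub (x y : V3 ℂ) : vC (x - y) = vC x - vC y := by
  funext i; simp [vC]

lemma vC_smul (c : ℂ) (x : V3 ℂ) : vC (c • x) = cc c • vC x := by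
  funext i; simp [vC]

lemma cst_mulVec (M : M3 ℂ) (x : V3 ℂ) : cst M *ᵥ vC x = vC (M *ᵥ x) := by
  funext i
  fin_cases i <;> simp [vC, cst, Matrix.mulVec, dotProduct, Fin.sum_univ_three]

lemma vC_cross (x y : V3 ℂ) : vC x ⨯₃ vC y = vC (x ⨯₃ y) := by
  funext i
  fin_cases i <;> simp [vC, cross_apply]

lemma vC_eq_zero {x : V3 ℂ} (h : x = 0) : vC x = 0 := by rw [h, vC_zero]

/-- the bilinear map `(x, y) ↦ L ((M x) × (N y))`. -/
def Bl {F : Type*} [CommRing F] (L M N : M3 F) : V3 F →ₗ[F] V3 F →ₗ[F] V3 F :=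
  (crossProduct.compl₁₂ M.mulVecLin N.mulVecLin).compr₂ L.mulVecLin

lemma Bl_apply {F : Type*} [CommRing F] (L M N : M3 F) (x y : V3 F) :
    Bl L M N x y = L *ᵥ ((M *ᵥ x) ⨯₃ (N *ᵥ y)) := rfl

lemma expand (x : V3 R) : x = x 0 • vC ![1, 0, 0] + x 1 • vC ![0, 1, 0] + x 2 • vC ![0, 0, 1] := by
  funext i
  fin_cases i <;> simp [vC]

lemma bilin_lift (b : V3 R →ₗ[R] V3 R →ₗ[R] V3 R) (h : ∀ x y : V3 ℂ, b (vC x) (vC y) = 0)
    (x y : V3 R) : b x y = 0 := by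
  rw [expand x, expand y]
  simp only [map_add, map_smul, LinearMap.add_apply, LinearMap.smul_apply, h]
  simp

lemma alt_comb {F V : Type*} [CommRing F] [AddCommGroup V] [Module F V] (a b c : F) (u v w : V) :
    a • (a • (0 : V) + b • (-u) + c • (-v)) + b • (a • u + b • 0 + c • (-w)) +
      c • (a • v + b • w + c • 0) = 0 := by
  module

lemma alt_lift (b : V3 R →ₗ[R] V3 R →ₗ[R] V3 R) (h : ∀ x : V3 ℂ, b (vC x) (vC x) = 0)
    (x : V3 R) : b x x = 0 := by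
  have h2 : ∀ x y : V3 ℂ, b (vC x) (vC y) = - b (vC y) (vC x) := by
    intro x y
    have := h (x + y)
    rw [vC_add] at this
    simp only [map_add, LinearMap.add_apply, h] at this
    rw [eq_neg_iff_add_eq_zero]
    simpa [add_comm] using this
  rw [expand x]
  simp only [map_add, map_smul, LinearMap.add_apply, LinearMap.smul_apply, h]
  rw [h2 ![0, 1, 0] ![1, 0, 0], h2 ![0, 0, 1] ![1, 0, 0], h2 ![0, 0, 1] ![0, 1, 0]]
  exact alt_comb (F := R) (V := V3 R) _ _ _ _ _ _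

lemma comb1 {F V : Type*} [CommRing F] [AddCommGroup V] [Module F V] (w l κ : F)
    (P0 P1 AP0 AP1 BP0 BP1 Q0 Q1 : V) (n1 : P1 + AP0 = Q0)
    (n2 : AP1 - κ • AP0 + BP0 = Q1 - κ • Q0) (n3 : BP1 - κ • BP0 = 0) :
    (w ^ 2) • ((w - κ * l) • P0 + l • P1) + (l * w) • ((w - κ * l) • AP0 + l • AP1)
      + (l ^ 2) • ((w - κ * l) • BP0 + l • BP1)
    = (w ^ 2 * (w - κ * l)) • P0 + (l * w) • ((w - κ * l) • Q0 + l • Q1) := by
  linear_combination (norm := module) (w ^ 2 * l) • n1 + (w * l ^ 2) • n2 + (l ^ 3) • n3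

lemma comb3 {F V : Type*} [CommRing F] [AddCommGroup V] [Module F V] (w l κ : F)
    (Z0 Z1 Z2 A0 A1 A2 B0 B1 B2 rT YT : V) (n50 : Z0 = rT) (n51 : Z1 + A0 = YT)
    (n52 : Z2 - κ • A0 + A1 + B0 = 0) (n53 : (κ ^ 2 • A0 - κ • A1 + A2) + (B1 - (2 * κ) • B0) = 0)
    (n54 : κ ^ 2 • B0 - κ • B1 + B2 = 0) :
    (w ^ 2) • ((w - κ * l) ^ 2 • Z0 + ((w - κ * l) * l) • Z1 + l ^ 2 • Z2)
      + (l * w) • ((w - κ * l) ^ 2 • A0 + ((w - κ * l) * l) • A1 + l ^ 2 • A2)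
      + (l ^ 2) • ((w - κ * l) ^ 2 • B0 + ((w - κ * l) * l) • B1 + l ^ 2 • B2)
    = (w ^ 2 * (w - κ * l)) • ((w - κ * l) • rT + l • YT) := by
  linear_combination (norm := module) (w ^ 2 * (w - κ * l) ^ 2) • n50 + (w ^ 2 * (w - κ * l) * l) • n51
    + (w ^ 2 * l ^ 2) • n52 + (w * l ^ 3) • n53 + (l ^ 4) • n54


/-! ### lifting the constant identities -/

lemma cst_cof (M : M3 ℂ) : cof (cst M) = cst (cof M) := by
  ext i j : 2
  fin_cases i <;> fin_cases j <;> simp [cof, cst]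

lemma cof_smul {F : Type*} [CommRing F] (c : F) (M : M3 F) : cof (c • M) = c ^ 2 • cof M := by
  ext i j
  fin_cases i <;> fin_cases j <;> simp [cof] <;> ring

lemma cof_add {F : Type*} [CommRing F] (M N : M3 F) : cof (M + N) = cof M + cof2 M N + cof N := by
  simp only [cof2]; abel

lemma cof2_smul {F : Type*} [CommRing F] (a b : F) (M N : M3 F) :
    cof2 (a • M) (b • N) = (a * b) • cof2 M N := by
  ext i j
  fin_cases i <;> fin_cases j <;> simp [cof, cof2] <;> ring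

lemma cst_add (M N : M3 ℂ) : cst (M + N) = cst M + cst N := by
  ext i j : 2; simp [cst]

lemma cst_sub (M N : M3 ℂ) : cst (M - N) = cst M - cst N := by
  ext i j : 2; simp [cst]

lemma cst_smul (c : ℂ) (M : M3 ℂ) : cst (c • M) = cc c • cst M := by
  ext i j : 2; simp [cst]

lemma cst_cof2 (M N : M3 ℂ) : cof2 (cst M) (cst N) = cst (cof2 M N) := by
  simp only [cof2, cst_sub, ← cst_add, cst_cof]

variable {r s A B A' B' : M3 ℂ} {κ : ℂ} {Y : M3 ℂ}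

lemma L1 (h : NId r s A B A' B' κ Y) (x y : V3 R) :
    (cst Y *ᵥ y) ⨯₃ x + cst A *ᵥ ((cst r *ᵥ y) ⨯₃ x) = cst r *ᵥ (y ⨯₃ (cst s *ᵥ x)) := by
  have := bilin_lift (Bl 1 (cst Y) 1 + Bl (cst A) (cst r) 1 - Bl (cst r) 1 (cst s)) (by
    intro y x
    simp only [LinearMap.sub_apply, LinearMap.add_apply, Bl_apply, Matrix.one_mulVec, cst_mulVec,
      vC_cross, ← vC_add, ← vC_sub]
    exact vC_eq_zero (sub_eq_zero.2 (h.n1 x y))) y x
  simpa only [LinearMap.sub_apply, LinearMap.add_apply, Bl_apply, Matrix.one_mulVec,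
    sub_eq_zero] using this

lemma L2 (h : NId r s A B A' B' κ Y) (x y : V3 R) :
    cst A *ᵥ ((cst Y *ᵥ y) ⨯₃ x) - cc κ • (cst A *ᵥ ((cst r *ᵥ y) ⨯₃ x))
      + cst B *ᵥ ((cst r *ᵥ y) ⨯₃ x)
    = cst Y *ᵥ (y ⨯₃ (cst s *ᵥ x)) - cc κ • (cst r *ᵥ (y ⨯₃ (cst s *ᵥ x))) := by
  have := bilin_lift (Bl (cst A) (cst Y) 1 - cc κ • Bl (cst A) (cst r) 1 + Bl (cst B) (cst r) 1
      - (Bl (cst Y) 1 (cst s) - cc κ • Bl (cst r) 1 (cst s))) (by
    intro y x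
    simp only [LinearMap.sub_apply, LinearMap.add_apply, LinearMap.smul_apply, Bl_apply,
      Matrix.one_mulVec, cst_mulVec, vC_cross, ← vC_add, ← vC_sub, ← vC_smul]
    apply vC_eq_zero
    have := h.n2 x y
    rw [Matrix.sub_mulVec, Matrix.smul_mulVec] at this
    exact sub_eq_zero.2 this) y x
  simpa only [LinearMap.sub_apply, LinearMap.add_apply, LinearMap.smul_apply, Bl_apply,
    Matrix.one_mulVec, sub_eq_zero] using this

lemma L3 (h : NId r s A B A' B' κ Y) (x y : V3 R) :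
    cst B *ᵥ ((cst Y *ᵥ y) ⨯₃ x) - cc κ • (cst B *ᵥ ((cst r *ᵥ y) ⨯₃ x)) = 0 := by
  have := bilin_lift (Bl (cst B) (cst Y) 1 - cc κ • Bl (cst B) (cst r) 1) (by
    intro y x
    simp only [LinearMap.sub_apply, LinearMap.add_apply, LinearMap.smul_apply, Bl_apply,
      Matrix.one_mulVec, cst_mulVec, vC_cross, ← vC_add, ← vC_sub, ← vC_smul]
    apply vC_eq_zero
    have := h.n3 x y
    rw [Matrix.sub_mulVec, Matrix.smul_mulVec, map_sub, LinearMap.sub_apply, map_smul,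
      LinearMap.smul_apply, Matrix.mulVec_sub, Matrix.mulVec_smul] at this
    exact this) y x
  simpa only [LinearMap.sub_apply, LinearMap.add_apply, LinearMap.smul_apply, Bl_apply,
    Matrix.one_mulVec, sub_eq_zero] using this

lemma L4 (h : NId r s A B A' B' κ Y) (x : V3 R) : cst A *ᵥ (x ⨯₃ (cst B *ᵥ x)) = 0 := by
  have := alt_lift (Bl (cst A) 1 (cst B)) (by
    intro x
    simp only [Bl_apply, Matrix.one_mulVec, cst_mulVec, vC_cross]
    exact vC_eq_zero (h.n4 x)) x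
  simpa only [Bl_apply, Matrix.one_mulVec] using this

lemma L4' (h : NId r s A B A' B' κ Y) (x : V3 R) : cst B *ᵥ (x ⨯₃ (cst B *ᵥ x)) = 0 := by
  have := alt_lift (Bl (cst B) 1 (cst B)) (by
    intro x
    simp only [Bl_apply, Matrix.one_mulVec, cst_mulVec, vC_cross]
    exact vC_eq_zero (h.n4' x)) x
  simpa only [Bl_apply, Matrix.one_mulVec] using this

/-- the bilinear form behind `L ((r y) × (C y) - C (y × A' y))`. -/
def ZB {F : Type*} [CommRing F] (r A' L C : M3 F) : V3 F →ₗ[F] V3 F →ₗ[F] V3 F :=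
  Bl L r C - Bl (L * C) 1 A'

lemma ZB_apply {F : Type*} [CommRing F] (r A' L C : M3 F) (y : V3 F) :
    ZB r A' L C y y = L *ᵥ ((r *ᵥ y) ⨯₃ (C *ᵥ y) - C *ᵥ (y ⨯₃ (A' *ᵥ y))) := by
  simp only [ZB, LinearMap.sub_apply, Bl_apply, Matrix.one_mulVec, Matrix.mulVec_sub,
    Matrix.mulVec_mulVec]

lemma ZB_cst (r A' L C : M3 ℂ) (y : V3 ℂ) :
    ZB (cst r) (cst A') (cst L) (cst C) (vC y) (vC y) =
      vC (L *ᵥ ((r *ᵥ y) ⨯₃ (C *ᵥ y) - C *ᵥ (y ⨯₃ (A' *ᵥ y)))) := by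
  simp only [ZB_apply, cst_mulVec, vC_cross, ← vC_sub]

lemma cst_one : cst 1 = 1 := by
  ext i j : 2
  fin_cases i <;> fin_cases j <;> simp [cst]

lemma L50 (h : NId r s A B A' B' κ Y) (y : V3 R) :
    (cst r *ᵥ y) ⨯₃ (cst (cof r) *ᵥ y) - cst (cof r) *ᵥ (y ⨯₃ (cst A' *ᵥ y)) =
    cst r *ᵥ (y ⨯₃ (cst B' *ᵥ y)) := by
  have := alt_lift (ZB (cst r) (cst A') (cst 1) (cst (cof r)) - Bl (cst r) 1 (cst B')) (by
    intro y
    simp only [LinearMap.sub_apply, ZB_cst, Bl_apply, Matrix.one_mulVec, cst_mulVec, vC_cross,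
      ← vC_sub]
    exact vC_eq_zero (sub_eq_zero.2 (h.n50 y))) y
  simpa only [LinearMap.sub_apply, ZB_apply, Bl_apply, Matrix.one_mulVec, cst_one,
    sub_eq_zero (b := cst r *ᵥ (y ⨯₃ (cst B' *ᵥ y)))] using this

lemma L51 (h : NId r s A B A' B' κ Y) (y : V3 R) :
    ((cst r *ᵥ y) ⨯₃ (cst (cof2 r Y) *ᵥ y) - cst (cof2 r Y) *ᵥ (y ⨯₃ (cst A' *ᵥ y))) +
    cst A *ᵥ ((cst r *ᵥ y) ⨯₃ (cst (cof r) *ᵥ y) - cst (cof r) *ᵥ (y ⨯₃ (cst A' *ᵥ y))) =
      cst Y *ᵥ (y ⨯₃ (cst B' *ᵥ y)) := by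
  have := alt_lift (ZB (cst r) (cst A') (cst 1) (cst (cof2 r Y)) +
      ZB (cst r) (cst A') (cst A) (cst (cof r)) - Bl (cst Y) 1 (cst B')) (by
    intro y
    simp only [LinearMap.sub_apply, LinearMap.add_apply, ZB_cst, Bl_apply, Matrix.one_mulVec,
      cst_mulVec, vC_cross, ← vC_sub, ← vC_add]
    exact vC_eq_zero (sub_eq_zero.2 (h.n51 y))) y
  simpa only [LinearMap.sub_apply, LinearMap.add_apply, ZB_apply, Bl_apply, Matrix.one_mulVec,
    cst_one, sub_eq_zero (b := cst Y *ᵥ (y ⨯₃ (cst B' *ᵥ y)))] using this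

lemma L52 (h : NId r s A B A' B' κ Y) (y : V3 R) :
    ((cst r *ᵥ y) ⨯₃ (cst (cof Y) *ᵥ y) - cst (cof Y) *ᵥ (y ⨯₃ (cst A' *ᵥ y)))
    - cc κ • (cst A *ᵥ ((cst r *ᵥ y) ⨯₃ (cst (cof r) *ᵥ y)
        - cst (cof r) *ᵥ (y ⨯₃ (cst A' *ᵥ y))))
    + cst A *ᵥ ((cst r *ᵥ y) ⨯₃ (cst (cof2 r Y) *ᵥ y) - cst (cof2 r Y) *ᵥ (y ⨯₃ (cst A' *ᵥ y)))
    + cst B *ᵥ ((cst r *ᵥ y) ⨯₃ (cst (cof r) *ᵥ y) - cst (cof r) *ᵥ (y ⨯₃ (cst A' *ᵥ y)))
      = 0 := by
  have := alt_lift (ZB (cst r) (cst A') (cst 1) (cst (cof Y))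
      - cc κ • ZB (cst r) (cst A') (cst A) (cst (cof r))
      + ZB (cst r) (cst A') (cst A) (cst (cof2 r Y))
      + ZB (cst r) (cst A') (cst B) (cst (cof r))) (by
    intro y
    simp only [LinearMap.sub_apply, LinearMap.add_apply, LinearMap.smul_apply, ZB_cst, Bl_apply,
      Matrix.one_mulVec, cst_mulVec, vC_cross, ← vC_sub, ← vC_add, ← vC_smul]
    exact vC_eq_zero (h.n52 y)) y
  simpa only [LinearMap.sub_apply, LinearMap.add_apply, LinearMap.smul_apply, ZB_apply, Bl_apply,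
    Matrix.one_mulVec, cst_one] using this

lemma L53 (h : NId r s A B A' B' κ Y) (y : V3 R) :
    ((cc κ) ^ 2 • (cst A *ᵥ ((cst r *ᵥ y) ⨯₃ (cst (cof r) *ᵥ y)
        - cst (cof r) *ᵥ (y ⨯₃ (cst A' *ᵥ y))))
      - cc κ • (cst A *ᵥ ((cst r *ᵥ y) ⨯₃ (cst (cof2 r Y) *ᵥ y)
        - cst (cof2 r Y) *ᵥ (y ⨯₃ (cst A' *ᵥ y))))
      + cst A *ᵥ ((cst r *ᵥ y) ⨯₃ (cst (cof Y) *ᵥ y) - cst (cof Y) *ᵥ (y ⨯₃ (cst A' *ᵥ y))))
    + (cst B *ᵥ ((cst r *ᵥ y) ⨯₃ (cst (cof2 r Y) *ᵥ y)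
        - cst (cof2 r Y) *ᵥ (y ⨯₃ (cst A' *ᵥ y)))
      - (2 * cc κ) • (cst B *ᵥ ((cst r *ᵥ y) ⨯₃ (cst (cof r) *ᵥ y)
        - cst (cof r) *ᵥ (y ⨯₃ (cst A' *ᵥ y))))) = 0 := by
  have := alt_lift (((cc κ) ^ 2 • ZB (cst r) (cst A') (cst A) (cst (cof r))
      - cc κ • ZB (cst r) (cst A') (cst A) (cst (cof2 r Y))
      + ZB (cst r) (cst A') (cst A) (cst (cof Y)))
      + (ZB (cst r) (cst A') (cst B) (cst (cof2 r Y))
        - (2 * cc κ) • ZB (cst r) (cst A') (cst B) (cst (cof r)))) (by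
    intro y
    have e1 : (cc κ) ^ 2 = cc (κ ^ 2) := by simp
    have e2 : (2 * cc κ) = cc (2 * κ) := by
      rw [show cc (2 * κ) = PowerSeries.C (R := ℂ) 2 * PowerSeries.C (R := ℂ) κ from map_mul _ _ _,
        show PowerSeries.C (R := ℂ) 2 = (2 : R) from map_ofNat _ 2]
    rw [e1, e2]
    simp only [LinearMap.sub_apply, LinearMap.add_apply, LinearMap.smul_apply, ZB_cst, Bl_apply,
      Matrix.one_mulVec, cst_mulVec, vC_cross, ← vC_sub, ← vC_add, ← vC_smul]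
    have := h.n53 y
    simp only [Matrix.mulVec_add, Matrix.mulVec_sub, Matrix.mulVec_smul] at this ⊢
    exact vC_eq_zero this) y
  simpa only [LinearMap.sub_apply, LinearMap.add_apply, LinearMap.smul_apply, ZB_apply, Bl_apply,
    Matrix.one_mulVec, cst_one] using this

lemma L54 (h : NId r s A B A' B' κ Y) (y : V3 R) :
    ((cc κ) ^ 2 • (cst B *ᵥ ((cst r *ᵥ y) ⨯₃ (cst (cof r) *ᵥ y)
        - cst (cof r) *ᵥ (y ⨯₃ (cst A' *ᵥ y))))
      - cc κ • (cst B *ᵥ ((cst r *ᵥ y) ⨯₃ (cst (cof2 r Y) *ᵥ y)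
        - cst (cof2 r Y) *ᵥ (y ⨯₃ (cst A' *ᵥ y))))
      + cst B *ᵥ ((cst r *ᵥ y) ⨯₃ (cst (cof Y) *ᵥ y) - cst (cof Y) *ᵥ (y ⨯₃ (cst A' *ᵥ y))))
     = 0 := by
  have := alt_lift (((cc κ) ^ 2 • ZB (cst r) (cst A') (cst B) (cst (cof r))
      - cc κ • ZB (cst r) (cst A') (cst B) (cst (cof2 r Y))
      + ZB (cst r) (cst A') (cst B) (cst (cof Y)))) (by
    intro y
    have e1 : (cc κ) ^ 2 = cc (κ ^ 2) := by simp
    rw [e1]
    simp only [LinearMap.sub_apply, LinearMap.add_apply, LinearMap.smul_apply, ZB_cst, Bl_apply,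
      Matrix.one_mulVec, cst_mulVec, vC_cross, ← vC_sub, ← vC_add, ← vC_smul]
    have := h.n54 y
    simp only [Matrix.mulVec_add, Matrix.mulVec_sub, Matrix.mulVec_smul] at this ⊢
    exact vC_eq_zero this) y
  simpa only [LinearMap.sub_apply, LinearMap.add_apply, LinearMap.smul_apply, ZB_apply, Bl_apply,
    Matrix.one_mulVec, cst_one] using this

/-! ### multiplied shapes -/

lemma inv_mul {w : R} (hw : PowerSeries.constantCoeff (R := ℂ) w ≠ 0) : w * w⁻¹ = 1 :=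
  PowerSeries.mul_inv_cancel w hw

lemma hG (A B : M3 ℂ) {w : R} (hw : PowerSeries.constantCoeff (R := ℂ) w = 1) :
    w • shapeG A B w = (w ^ 2) • (1 : M3 R) + (lam * w) • cst A + lam ^ 2 • cst B := by
  have h1 : w * w⁻¹ = 1 := inv_mul (by rw [hw]; exact one_ne_zero)
  simp only [shapeG, smul_add, smul_smul]
  congr 1
  · congr 1
    · congr 1; ring
    · congr 1; ring
  · congr 1; linear_combination (lam ^ 2) * h1

lemma hD (r : M3 ℂ) (κ : ℂ) (Y : M3 ℂ) {w : R}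
    (hw : PowerSeries.constantCoeff (R := ℂ) w = 1) :
    (w * (w - cc κ * lam)) • shapeD r κ Y w = (w - cc κ * lam) • cst r + lam • cst Y := by
  have h1 : w * w⁻¹ = 1 := inv_mul (by rw [hw]; exact one_ne_zero)
  have h2 : (w - cc κ * lam) * (w - cc κ * lam)⁻¹ = 1 := inv_mul (by simp [hw])
  simp only [shapeD, smul_add, smul_smul]
  congr 1
  · congr 1; linear_combination (w - cc κ * lam) * h1
  · congr 1
    linear_combination ((w - cc κ * lam) * (w - cc κ * lam)⁻¹ * lam) * h1 + lam * h2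


lemma cofD (r : M3 ℂ) (κ : ℂ) (Y : M3 ℂ) {w : R}
    (hw : PowerSeries.constantCoeff (R := ℂ) w = 1) :
    (w * (w - cc κ * lam)) ^ 2 • cof (shapeD r κ Y w) =
      (w - cc κ * lam) ^ 2 • cst (cof r) + ((w - cc κ * lam) * lam) • cst (cof2 r Y)
        + lam ^ 2 • cst (cof Y) := by
  rw [← cof_smul, hD r κ Y hw, cof_add, cof_smul, cof_smul, cof2_smul, cst_cof, cst_cof, cst_cof2]

lemma inner_expand {F : Type*} [CommRing F] (a b c : F) (r A' C0 C1 C2 : M3 F) (y : V3 F) :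
    (r *ᵥ y) ⨯₃ ((a • C0 + b • C1 + c • C2) *ᵥ y) -
      (a • C0 + b • C1 + c • C2) *ᵥ (y ⨯₃ (A' *ᵥ y)) =
    a • ((r *ᵥ y) ⨯₃ (C0 *ᵥ y) - C0 *ᵥ (y ⨯₃ (A' *ᵥ y)))
      + b • ((r *ᵥ y) ⨯₃ (C1 *ᵥ y) - C1 *ᵥ (y ⨯₃ (A' *ᵥ y)))
      + c • ((r *ᵥ y) ⨯₃ (C2 *ᵥ y) - C2 *ᵥ (y ⨯₃ (A' *ᵥ y))) := by
  simp only [Matrix.add_mulVec, Matrix.smul_mulVec, map_add, map_smul, smul_sub]
  abel

lemma outer_expand {F : Type*} [CommRing F] (a b c : F) (A B : M3 F) (v : V3 F) :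
    (a • (1 : M3 F) + b • A + c • B) *ᵥ v = a • v + b • (A *ᵥ v) + c • (B *ᵥ v) := by
  simp only [Matrix.add_mulVec, Matrix.smul_mulVec, Matrix.one_mulVec]

lemma mv3 {F : Type*} [CommRing F] (a b c : F) (A : M3 F) (u v w : V3 F) :
    A *ᵥ (a • u + b • v + c • w) = a • (A *ᵥ u) + b • (A *ᵥ v) + c • (A *ᵥ w) := by
  simp only [Matrix.mulVec_add, Matrix.mulVec_smul]

lemma isUnit_w {w : R} (hw : PowerSeries.constantCoeff (R := ℂ) w = 1) : IsUnit w := by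
  rw [PowerSeries.isUnit_iff_constantCoeff, hw]; exact isUnit_one

lemma isUnit_v {w : R} (κ : ℂ) (hw : PowerSeries.constantCoeff (R := ℂ) w = 1) :
    IsUnit (w - cc κ * lam) := isUnit_w (by simp [hw])

end HNId

open HNId

/- MODULE G1 -/
theorem half_of_NId {r s A B A' B' : M3 ℂ} {κ : ℂ} {Y : M3 ℂ} (h : NId r s A B A' B' κ Y)
    (w : R) (hw : PowerSeries.constantCoeff (R := ℂ) w = 1) :
    Half r s A B A' B' (shapeG A B w) (shapeD r κ Y w) := by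
  have hwi : PowerSeries.constantCoeff (R := ℂ) w⁻¹ = 1 := by
    rw [PowerSeries.constantCoeff_inv, hw, inv_one]
  have hw1 : w * w⁻¹ = 1 := inv_mul (by rw [hw]; exact one_ne_zero)
  refine ⟨h.symA, h.symB, h.symA', h.symB', ?_, ?_, ?_, ?_, ?_, ?_⟩
  · have tc : ∀ M : M3 ℂ, (cst M)ᵀ = cst Mᵀ := fun M => rfl
    simp only [shapeG, transpose_add, transpose_smul, transpose_one, tc, h.symA, h.symB]
  · ext i j
    simp only [ev0, shapeG, Matrix.map_apply, Matrix.add_apply, Matrix.smul_apply, smul_eq_mul,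
      map_add, map_mul, map_pow, PowerSeries.constantCoeff_X, hw]
    fin_cases i <;> fin_cases j <;> simp
  · ext i j
    simp [ev0, shapeD, cst, hwi]
  · intro x y
    have e : IsUnit (w ^ 2 * (w - cc κ * lam)) := ((isUnit_w hw).pow 2).mul (isUnit_v κ hw)
    apply (e.smul_left_cancel).1
    have hl : (w ^ 2 * (w - cc κ * lam)) • (shapeG A B w *ᵥ ((shapeD r κ Y w *ᵥ y) ⨯₃ x)) =
        (w • shapeG A B w) *ᵥ ((((w * (w - cc κ * lam)) • shapeD r κ Y w) *ᵥ y) ⨯₃ x) := by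
      simp only [Matrix.smul_mulVec, map_smul, LinearMap.smul_apply, Matrix.mulVec_smul, smul_smul]
      congr 1; ring
    have hr : (w ^ 2 * (w - cc κ * lam)) • ((cst r *ᵥ y) ⨯₃ x +
        lam • (shapeD r κ Y w *ᵥ (y ⨯₃ (cst s *ᵥ x)))) =
        (w ^ 2 * (w - cc κ * lam)) • ((cst r *ᵥ y) ⨯₃ x) +
        (lam * w) • (((w * (w - cc κ * lam)) • shapeD r κ Y w) *ᵥ (y ⨯₃ (cst s *ᵥ x))) := by
      simp only [Matrix.smul_mulVec, smul_add, smul_smul]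
      congr 2; ring
    rw [hl, hr, hG A B hw, hD r κ Y hw]
    have := comb1 w lam (cc κ) ((cst r *ᵥ y) ⨯₃ x) ((cst Y *ᵥ y) ⨯₃ x)
      (cst A *ᵥ ((cst r *ᵥ y) ⨯₃ x)) (cst A *ᵥ ((cst Y *ᵥ y) ⨯₃ x))
      (cst B *ᵥ ((cst r *ᵥ y) ⨯₃ x)) (cst B *ᵥ ((cst Y *ᵥ y) ⨯₃ x)) _ _
      (L1 h x y) (L2 h x y) (L3 h x y)
    rw [outer_expand]
    simp only [Matrix.add_mulVec, Matrix.smul_mulVec, map_add, map_smul, LinearMap.add_apply,
      LinearMap.smul_apply, Matrix.mulVec_add, Matrix.mulVec_smul]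
    exact this
  · intro x
    have h1 : shapeG A B w - lam • cst A = w • (1 : M3 R) + (lam ^ 2 * w⁻¹) • cst B := by
      simp only [shapeG]; abel
    rw [h1, Matrix.add_mulVec, Matrix.smul_mulVec, Matrix.smul_mulVec, Matrix.one_mulVec, map_add,
      map_smul, map_smul, cross_self, smul_zero, zero_add, Matrix.mulVec_smul]
    simp only [shapeG, Matrix.add_mulVec, Matrix.smul_mulVec, Matrix.one_mulVec, L4 h, L4' h,
      smul_zero, add_zero, smul_smul]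
    congr 1
    linear_combination (lam ^ 2) * hw1
  · intro y
    have e : IsUnit (w ^ 3 * (w - cc κ * lam) ^ 2) :=
      ((isUnit_w hw).pow 3).mul ((isUnit_v κ hw).pow 2)
    apply (e.smul_left_cancel).1
    have hl : (w ^ 3 * (w - cc κ * lam) ^ 2) • (shapeG A B w *ᵥ ((cst r *ᵥ y) ⨯₃
        (cof (shapeD r κ Y w) *ᵥ y) - cof (shapeD r κ Y w) *ᵥ (y ⨯₃ (cst A' *ᵥ y)))) =
        (w • shapeG A B w) *ᵥ ((cst r *ᵥ y) ⨯₃
        (((w * (w - cc κ * lam)) ^ 2 • cof (shapeD r κ Y w)) *ᵥ y) -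
          ((w * (w - cc κ * lam)) ^ 2 • cof (shapeD r κ Y w)) *ᵥ (y ⨯₃ (cst A' *ᵥ y))) := by
      simp only [Matrix.smul_mulVec, map_smul, LinearMap.smul_apply, Matrix.mulVec_smul, smul_smul,
        Matrix.mulVec_sub, smul_sub]
      congr 2 <;> ring
    have hr : (w ^ 3 * (w - cc κ * lam) ^ 2) • (shapeD r κ Y w *ᵥ (y ⨯₃ (cst B' *ᵥ y))) =
        (w ^ 2 * (w - cc κ * lam)) •
          (((w * (w - cc κ * lam)) • shapeD r κ Y w) *ᵥ (y ⨯₃ (cst B' *ᵥ y))) := by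
      simp only [Matrix.smul_mulVec, smul_smul]
      congr 1; ring
    rw [hl, hr, hG A B hw, hD r κ Y hw, cofD r κ Y hw, inner_expand, outer_expand, mv3, mv3,
      Matrix.add_mulVec, Matrix.smul_mulVec, Matrix.smul_mulVec]
    exact comb3 w lam (cc κ) _ _ _ _ _ _ _ _ _ _ _ (L50 h y) (L51 h y) (L52 h y) (L53 h y)
      (L54 h y)

end
end Pool.Agent.MP_106392_al
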