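import Pool.Agent.MP_106392_al.Series
import Pool.Agent.MP_106392_al.SeriesB
import Pool.Agent.MP_106392_al.HalfNId
import Pool.Agent.MP_106392_al.Elliptic

/-!
# Module Se: solutions for `r` of rank at least two
-/

set_option autoImplicit false
namespace Pool.Agent.MP_106392_al
open Matrix
noncomputable section


namespace SeriesE

section general
variable {F : Type*} [CommRing F]

theorem pr_add (L A B : M3 F) : pr L (A + B) = pr L A + pr L B := by
  simp only [pr, Matrix.add_apply, mul_add, Finset.sum_add_distrib]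

theorem pr_sub (L A B : M3 F) : pr L (A - B) = pr L A - pr L B := by
  simp only [pr, Matrix.sub_apply, mul_sub, Finset.sum_sub_distrib]

theorem pr_smul (L : M3 F) (c : F) (A : M3 F) : pr L (c • A) = c * pr L A := by
  simp only [pr, Matrix.smul_apply, smul_eq_mul, Finset.mul_sum]
  refine Finset.sum_congr rfl fun i _ => Finset.sum_congr rfl fun j _ => by ring

theorem pr_zero_left (A : M3 F) : pr 0 A = 0 := by
  simp [pr]

end general

theorem pr_cst (L A : M3 ℂ) : pr (cst L) (cst A) = cc (pr L A) := by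
  simp only [pr, cst, Matrix.map_apply, map_sum, map_mul]

theorem ev_pr (L : M3 ℂ) (A : M3 R) :
    PowerSeries.constantCoeff (R := ℂ) (pr (cst L) A) = pr L (ev0 A) := by
  simp only [pr, cst, ev0, Matrix.map_apply, map_sum, map_mul, PowerSeries.constantCoeff_C]

theorem cc_one' : cc 1 = 1 := map_one (PowerSeries.C (R := ℂ))

theorem cc_zero' : cc 0 = 0 := map_zero (PowerSeries.C (R := ℂ))

theorem cc_mul' (a b : ℂ) : cc a * cc b = cc (a * b) := (map_mul (PowerSeries.C (R := ℂ)) a b).symm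

theorem cst_zero : cst 0 = 0 := by
  ext i j : 1
  simp [cst]

end SeriesE

open SeriesE

theorem rankTwo_sol {r s A B A' B' A₁ B₁ A₁' B₁' Y : M3 ℂ} {κ : ℂ} {G D : M3 R}
    (hr : cof r ≠ 0) (h : Half r s A B A' B' G D) (hN : NId r s A₁ B₁ A₁' B₁' κ Y)
    {L : M3 ℂ} (hL : pr L r = 1) (hLY : pr L Y = 0 ∨ pr L Y = κ) :
    ∃ w : R, PowerSeries.constantCoeff (R := ℂ) w = 1 ∧ G = shapeG A₁ B₁ w ∧
      D = shapeD r κ Y w := by
  have hm : PowerSeries.constantCoeff (R := ℂ) (pr (cst L) D) = 1 := by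
    rw [ev_pr, h.D0, hL]
  have hinv : ∀ u : R, PowerSeries.constantCoeff (R := ℂ) u = 1 → u * u⁻¹ = 1 := by
    intro u hu
    exact PowerSeries.mul_inv_cancel _ (by rw [hu]; exact one_ne_zero)
  -- it is enough to find `w` with the right pairing
  suffices H : ∃ w : R, PowerSeries.constantCoeff (R := ℂ) w = 1 ∧
      pr (cst L) D = pr (cst L) (shapeD r κ Y w) by
    obtain ⟨w, hw, hpr⟩ := H
    have h1 := half_of_NId hN w hw
    obtain ⟨e1, e2⟩ := uniq h.symG h1.symG h.G0 h1.G0 h.D0 h1.D0 h.I1 h1.I1 L 0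
      (inj_rank_two hr (by rw [hL]; exact one_ne_zero) 0) hpr
      (by rw [cst_zero, pr_zero_left, pr_zero_left])
    exact ⟨w, hw, e1, e2⟩
  set μ : R := pr (cst L) D with hμ
  rcases hLY with h0 | h0
  · refine ⟨μ⁻¹, by rw [PowerSeries.constantCoeff_inv, hm, inv_one], ?_⟩
    rw [shapeD, pr_smul, pr_add, pr_smul, pr_cst, pr_cst, hL, h0, cc_one', cc_zero', mul_zero,
      add_zero, mul_one]
    have h1 : PowerSeries.constantCoeff (R := ℂ) μ⁻¹ = 1 := by
      rw [PowerSeries.constantCoeff_inv, hm, inv_one]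
    have h2 := hinv μ hm
    have h3 := hinv μ⁻¹ h1
    calc μ = μ * (μ⁻¹ * μ⁻¹⁻¹) := by rw [h3, mul_one]
      _ = μ⁻¹⁻¹ := by rw [← mul_assoc, h2, one_mul]
  · have hc : PowerSeries.constantCoeff (R := ℂ) (μ⁻¹ + cc κ * lam) = 1 := by
      simp [hm]
    refine ⟨μ⁻¹ + cc κ * lam, hc, ?_⟩
    rw [shapeD, pr_smul, pr_add, pr_smul, pr_cst, pr_cst, hL, h0, cc_one', add_sub_cancel_right]
    have h1 : PowerSeries.constantCoeff (R := ℂ) μ⁻¹ = 1 := by
      rw [PowerSeries.constantCoeff_inv, hm, inv_one]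
    have h2 := hinv μ hm
    have h3 := hinv μ⁻¹ h1
    have h4 := hinv _ hc
    have h5 : μ⁻¹⁻¹ = μ := by
      calc μ⁻¹⁻¹ = (μ * μ⁻¹) * μ⁻¹⁻¹ := by rw [h2, one_mul]
        _ = μ := by rw [mul_assoc, h3, mul_one]
    rw [h5]
    calc μ = ((μ⁻¹ + cc κ * lam) * (μ⁻¹ + cc κ * lam)⁻¹) * μ := by rw [h4, one_mul]
      _ = (μ⁻¹ + cc κ * lam)⁻¹ * (μ * μ⁻¹ + lam * μ * cc κ) := by ring
      _ = (μ⁻¹ + cc κ * lam)⁻¹ * (1 + lam * μ * cc κ) := by rw [h2]

theorem elliptic_sol {r₀ A B A' B' : M3 ℂ} {t₁ t₂ : ℂ} {G D : M3 R} (hr : cof r₀ ≠ 0)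
    (ht : t₁ ≠ 0) (h : Half (t₁ • r₀) (t₂ • r₀ᵀ) A B A' B' G D) :
    ∃ w : R, PowerSeries.constantCoeff (R := ℂ) w = 1 ∧ G = ellG r₀ t₂ w ∧
      D = cc t₁ • ellTheta r₀ t₂ w := by
  -- choose `L`
  obtain ⟨L, hL⟩ : ∃ L : M3 ℂ, pr L r₀ = 1 := by
    have h0 : r₀ ≠ 0 := by
      rintro rfl
      apply hr
      ext i j
      fin_cases i <;> fin_cases j <;> simp [cof]
    obtain ⟨i, j, hij⟩ : ∃ i j, r₀ i j ≠ 0 := by
      by_contra hcon
      push Not at hcon
      exact h0 (by ext i j; simpa using hcon i j)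
    refine ⟨Matrix.of fun i' j' => if i' = i ∧ j' = j then (r₀ i j)⁻¹ else 0, ?_⟩
    rw [pr, Finset.sum_eq_single i, Finset.sum_eq_single j]
    · simp [hij]
    · intro b _ hb
      simp [hb]
    · intro hj; exact absurd (Finset.mem_univ j) hj
    · intro b _ hb
      refine Finset.sum_eq_zero fun j' _ => ?_
      simp [hb]
    · intro hi; exact absurd (Finset.mem_univ i) hi
  set μ : R := cc t₁⁻¹ * pr (cst L) D with hμ
  have hμ0 : PowerSeries.constantCoeff (R := ℂ) μ = 1 := by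
    rw [hμ, map_mul, PowerSeries.constantCoeff_C, ev_pr, h.D0, pr_smul, hL, mul_one,
      inv_mul_cancel₀ ht]
  obtain ⟨Θ, hΘ⟩ := fix_exists_mat
    (fun T => (μ - cc t₂ * lam * pr (cst L) (cof T)) • cst r₀ + (cc t₂ * lam) • cof T) (by
      intro n x y hxy
      choose C hC using hxy
      have hx : x = y + lam ^ n • Matrix.of C := by
        ext i j : 1
        simp only [Matrix.add_apply, Matrix.smul_apply, Matrix.of_apply, smul_eq_mul]
        linear_combination hC i j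
      have hcof : cof x = cof y + lam ^ n • (cof2 y (Matrix.of C) + lam ^ n • cof (Matrix.of C)) := by
        rw [hx]
        generalize Matrix.of C = E
        generalize lam ^ n = u
        ext i j : 1
        fin_cases i <;> fin_cases j <;> simp [cof, cof2] <;> ring
      intro i j
      simp only [hcof, pr_add, pr_smul]
      refine ⟨((-(cc t₂ * (pr (cst L) (cof2 y (Matrix.of C)) +
        lam ^ n * pr (cst L) (cof (Matrix.of C))))) • cst r₀ +
        cc t₂ • (cof2 y (Matrix.of C) + lam ^ n • cof (Matrix.of C))) i j, ?_⟩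
      simp only [Matrix.add_apply, Matrix.smul_apply, smul_eq_mul]
      ring)
  have hΘ' : Θ = (μ - cc t₂ * lam * pr (cst L) (cof Θ)) • cst r₀ + (cc t₂ * lam) • cof Θ :=
    hΘ.symm
  set ν : R := μ - cc t₂ * lam * pr (cst L) (cof Θ) with hν
  have hν0 : PowerSeries.constantCoeff (R := ℂ) ν = 1 := by
    rw [hν, map_sub, hμ0]
    simp
  have hνi : ν * ν⁻¹ = 1 := PowerSeries.mul_inv_cancel _ (by rw [hν0]; exact one_ne_zero)
  set w : R := (1 - (cc t₂ * lam) ^ 3 * Θ.det) * ν⁻¹ with hw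
  have hw0 : PowerSeries.constantCoeff (R := ℂ) w = 1 := by
    rw [hw]
    simp [hν0]
  have hspec : w • Θ = (1 - (cc t₂ * lam) ^ 3 * Θ.det) • cst r₀ + (w * (cc t₂ * lam)) • cof Θ := by
    have e1 : w * ν = 1 - (cc t₂ * lam) ^ 3 * Θ.det := by
      rw [hw, mul_assoc, mul_comm ν⁻¹, hνi, mul_one]
    rw [← e1]
    conv_lhs => rw [hΘ']
    rw [smul_add, smul_smul, smul_smul]
  have hTh : Θ = ellTheta r₀ t₂ w := (ellTheta_spec r₀ t₂ w hw0 Θ).mpr hspec
  have hprΘ : pr (cst L) Θ = μ := by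
    have e1 := congrArg (pr (cst L)) hΘ'
    rw [pr_add, pr_smul, pr_smul, pr_cst, hL, cc_one', mul_one] at e1
    rw [e1, hν]
    ring
  refine ⟨w, hw0, ?_⟩
  have h1 := half_elliptic r₀ t₁ t₂ w hw0
  refine uniq h.symG h1.symG h.G0 h1.G0 h.D0 h1.D0 h.I1 h1.I1 L 0
      (inj_rank_two ?_ ?_ 0) ?_
      (by rw [cst_zero, pr_zero_left, pr_zero_left])
  · rw [cof_smul]
    exact smul_ne_zero (pow_ne_zero 2 ht) hr
  · rw [pr_smul, hL, mul_one]
    exact ht
  · rw [pr_smul, ← hTh, hprΘ, hμ, ← mul_assoc, cc_mul', mul_inv_cancel₀ ht, cc_one', one_mul]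

end
end Pool.Agent.MP_106392_al
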