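import Pool.Agent.MP_106392_al.NId
import Pool.Agent.MP_106392_al.LinA
import Pool.Agent.MP_106392_al.LinB
import Pool.Agent.MP_106392_al.SeriesB
import Pool.Agent.MP_106392_al.SeriesC
import Pool.Agent.MP_106392_al.SeriesD
import Pool.Agent.MP_106392_al.SeriesE
import Pool.Agent.MP_106392_al.NIdA
import Pool.Agent.MP_106392_al.NIdB

/-! Module Tb: the case `s = 0`. -/

set_option autoImplicit false
namespace Pool.Agent.MP_106392_al
open Matrix
noncomputable section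

namespace TbAux

/-- a quadratic expression vanishing outside a hyperplane vanishes -/
theorem dense {u : V3 ℂ} (hu : u ≠ 0) (f : V3 ℂ → ℂ)
    (hf : ∀ y e, f y = f (y + e) + (1 / 3) * f (y - e) - (1 / 3) * f (y + (2 : ℂ) • e))
    (h : ∀ y, (u ⬝ᵥ y) * f y = 0) (y : V3 ℂ) : f y = 0 := by
  by_cases hy : u ⬝ᵥ y = 0
  · obtain ⟨i, hi⟩ := LinBAux.exists_ne hu
    have he : u ⬝ᵥ (Pi.single i 1 : V3 ℂ) = u i := by simp
    have key : ∀ c : ℂ, c ≠ 0 → f (y + c • Pi.single i 1) = 0 := by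
      intro c hc
      have h1 := h (y + c • Pi.single i 1)
      rw [dotProduct_add, dotProduct_smul, he, hy, zero_add, smul_eq_mul] at h1
      exact (mul_eq_zero.mp h1).resolve_left (mul_ne_zero hc hi)
    rw [hf y (Pi.single i 1)]
    have h1 := key 1 one_ne_zero
    have h2 := key (-1) (by norm_num)
    have h3 := key 2 two_ne_zero
    rw [one_smul] at h1
    rw [neg_smul, one_smul, ← sub_eq_add_neg] at h2
    rw [h1, h2, h3]
    ring
  · exact (mul_eq_zero.mp (h y)).resolve_left hy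

theorem exists_pr {r : M3 ℂ} (hr : r ≠ 0) : ∃ L : M3 ℂ, pr L r = 1 := by
  have : ∃ i j, r i j ≠ 0 := by
    by_contra hc
    push Not at hc
    exact hr (by ext i j; exact hc i j)
  obtain ⟨i, j, hij⟩ := this
  refine ⟨Matrix.single i j (r i j)⁻¹, ?_⟩
  unfold pr
  rw [Finset.sum_eq_single i, Finset.sum_eq_single j]
  · simp [hij]
  · intro b _ hb
    simp [Ne.symm hb]
  · simp
  · intro b _ hb
    apply Finset.sum_eq_zero
    intro c _
    simp [Ne.symm hb]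
  · simp

theorem pr_zero (L : M3 ℂ) : pr L 0 = 0 := by simp [pr]

theorem cof_zero : cof (0 : M3 ℂ) = 0 := by
  ext i j; fin_cases i <;> fin_cases j <;> simp [cof]

theorem ne_zero_of_cof {r : M3 ℂ} (hr : cof r ≠ 0) : r ≠ 0 := by
  rintro rfl
  exact hr cof_zero

theorem shapeD_zero (κ : ℂ) (w : R) : shapeD 0 κ 0 w = 0 := by
  simp [shapeD, cst]

/-- the constant identities hold for all listed constants -/
theorem consts_nid {r s A B A' B' : M3 ℂ} {κ : ℂ} {Y : M3 ℂ} {κ' : ℂ} {Y' : M3 ℂ}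
    (h : Consts r s A B A' B' κ Y κ' Y') :
    NId r s A B A' B' κ Y ∧ NId s r A' B' A B κ' Y' := by
  induction h with
  | swap h ih => exact ih.symm
  | one n v e₁ e₂ α β α' β' => exact NIdA.one n v e₁ e₂ α β α' β'
  | oneL n v α β A' hA' => exact NIdA.oneL n v α β A' hA'
  | pencil r₀ hr e₁ e₂ => exact NIdA.pencil r₀ hr e₁ e₂
  | degenerate n h p q m hn hn0 hm0 hm1 α' β => exact NIdA.degenerate n h p q m hn hm0 hm1 α' β
  | nilOne n p v m c hn hm hc α α' => exact NIdB.nilOne n p v m c hn hm α α'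
  | nilTwo n p w v c c' hn hw hc hc' α α' => exact NIdB.nilTwo n p w v c c' hn hw hc hc' α α'
  | axial O hO hO' n e₁ e₂ b c => exact NIdB.axial O hO hO' n e₁ e₂ b c
  | isotropic n h v k hn hn0 hv hv0 q₁ q₂ p₁ p₂ e₁ e₂ y₁ y₂ r₀ hr₀ x₁ x₂ hx₁ hx₂ =>
    exact NIdB.isotropic hn hn0 hv hv0 q₁ q₂ p₁ p₂ e₁ e₂ y₁ y₂ r₀ hr₀ x₁ x₂ hx₁ hx₂

/-- conclusion for rank at least two, non elliptic type -/
theorem finish {r A B A' B' A₁' B₁' : M3 ℂ} {κ' : ℂ} {G D G' D' : M3 R} (hr : cof r ≠ 0)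
    (h : Half r 0 A B A' B' G D) (hD' : D' = 0) (hC : Consts r 0 0 0 A₁' B₁' 0 0 κ' 0)
    {w' : R} (hw' : PowerSeries.constantCoeff (R := ℂ) w' = 1) (hG' : G' = shapeG A₁' B₁' w') :
    Good G D G' D' := by
  obtain ⟨L, hL⟩ := exists_pr (ne_zero_of_cof hr)
  obtain ⟨w, hw, hG, hD⟩ := rankTwo_sol hr h (consts_nid hC).1 hL (Or.inl (pr_zero L))
  refine ⟨w, w', hw, hw', ?_⟩
  have := Listed.nonelliptic (w := w) (w' := w') hC
  rw [shapeD_zero] at this
  rw [hG, hD, hG', hD']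
  exact this

/-- absorbing scalars -/
theorem shapeG_add (A : M3 ℂ) (a : ℂ) (w : R) :
    shapeG (a • (1 : M3 ℂ) + A) 0 w = shapeG A 0 (w + lam * cc a) := by
  ext i j : 1
  simp only [shapeG, cst, Matrix.add_apply, Matrix.smul_apply, Matrix.map_apply,
    smul_eq_mul, map_add, map_mul, Matrix.zero_apply, map_zero, mul_zero, add_zero]
  by_cases hij : i = j
  · subst hij; simp; ring
  · simp [hij]

theorem const_add {w : R} (hw : PowerSeries.constantCoeff (R := ℂ) w = 1) (a : ℂ) :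
    PowerSeries.constantCoeff (R := ℂ) (w + lam * cc a) = 1 := by
  simp [hw]

/-- the basic identity -/
theorem cross_cof (r : M3 ℂ) (y : V3 ℂ) :
    (r *ᵥ y) ⨯₃ (cof r *ᵥ y) = -(r *ᵥ (y ⨯₃ ((rᵀ * r) *ᵥ y))) := by
  ext i
  fin_cases i <;>
    simp [cross_apply, mulVec, dotProduct, Fin.sum_univ_three, cof, Matrix.mul_apply] <;> ring

theorem cross_cof' (r : M3 ℂ) (y : V3 ℂ) :
    r.det • ((r *ᵥ y) ⨯₃ (cof r *ᵥ y)) = cof r *ᵥ (y ⨯₃ (((cof r)ᵀ * cof r) *ᵥ y)) := by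
  have h := cross_cof (cof r) y
  rw [LinBAux.cof_cof, smul_mulVec] at h
  have h2 : (cof r *ᵥ y) ⨯₃ (r.det • (r *ᵥ y)) = -(r.det • ((r *ᵥ y) ⨯₃ (cof r *ᵥ y))) := by
    rw [map_smul, ← cross_anticomm, smul_neg]
  rw [h2] at h
  exact neg_injective h

theorem cof_out' (n v : V3 ℂ) : cof (out n v) = 0 := by
  ext i j; fin_cases i <;> fin_cases j <;> simp [cof, out, vecMulVec_apply] <;> ring

/-- case of rank one -/
theorem rank_one_case {n v : V3 ℂ} (hn : n ≠ 0) (hv : v ≠ 0) {A B A' B' : M3 ℂ}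
    {G D G' D' : M3 R} (h : Half (out n v) 0 A B A' B' G D)
    (h' : Half 0 (out n v) A' B' A B G' D') : Good G D G' D' := by
  have hD' : D' = 0 := half_zero h'
  obtain ⟨w, hw, hD, hG⟩ := rankOne_sol (m := 0) hn hv h (by intro x; simp)
  rcases hG with ⟨h0, _⟩ | ⟨_, α, β, b, hG, hB⟩
  · exact absurd (by simp) h0
  have hc : ∀ y : V3 ℂ, v ⬝ᵥ (y ⨯₃ (B' *ᵥ y)) = 0 := by
    intro y
    have h3 := half_c3 h y
    rw [cof_out'] at h3
    simp only [zero_mulVec, map_zero, sub_zero] at h3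
    have h4 : out n v *ᵥ (y ⨯₃ (B' *ᵥ y)) = (v ⬝ᵥ (y ⨯₃ (B' *ᵥ y))) • n := by
      ext i; simp [out, mulVec, dotProduct, vecMulVec_apply, Fin.sum_univ_three]; ring
    rw [h4] at h3
    exact (smul_eq_zero.mp h3.symm).resolve_right hn
  obtain ⟨b', β', hB'⟩ := axial_of_dot h.symB' hv hc
  by_cases hβ : β' = 0
  · rw [hβ, zero_smul, add_zero] at hB'
    obtain ⟨w', hw', hG'⟩ := so3_rational h'.symA h'.symG h'.G0 h'.I2 ⟨b', hB'⟩
    refine ⟨w, w', hw, hw', ?_⟩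
    have := Listed.nonelliptic (w := w) (w' := w') (Consts.oneL n v α β A' h'.symA)
    rw [shapeD_zero] at this
    rw [hG, hD, hG', hD']
    exact this
  · obtain ⟨w', a, α', hw', hA', hG'⟩ := so3_axial h'.symA h'.symB h'.symG h'.G0 h'.I2 hv hβ hB'
    refine ⟨w, w', hw, hw', ?_⟩
    have := Listed.nonelliptic (w := w) (w' := w') (Consts.one n v 1 0 α β α' β')
    rw [zero_smul, one_smul, shapeD_zero] at this
    rw [hG, hD, hG', hD']
    exact this

/-- the equation `half_c3` in the form used below -/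
theorem c3 {r A B A' B' : M3 ℂ} {G D : M3 R} (h : Half r 0 A B A' B' G D) (y : V3 ℂ) :
    r *ᵥ (y ⨯₃ ((B' + rᵀ * r) *ᵥ y)) + cof r *ᵥ (y ⨯₃ (A' *ᵥ y)) = 0 := by
  have h3 := half_c3 h y
  rw [cross_cof] at h3
  rw [add_mulVec, map_add, mulVec_add, ← h3]
  abel

theorem cof_zero_of_par {r : M3 ℂ} {n : V3 ℂ} (hn : n ≠ 0)
    (h : ∀ y : V3 ℂ, (r *ᵥ y) ⨯₃ n = 0) : cof r = 0 := by
  have h' : ∀ y : V3 ℂ, ∃ a : ℂ, r *ᵥ y = a • n := by
    intro y
    apply LinBAux.parallel hn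
    rw [← cross_anticomm, h, neg_zero]
  choose f hf using h'
  have hr : r = out n (fun j => f (Pi.single j 1)) := by
    ext i j
    have := congrFun (hf (Pi.single j 1)) i
    rw [mulVec_single_one] at this
    simp only [Pi.smul_apply, smul_eq_mul, col_apply] at this
    rw [this]
    simp [out, vecMulVec_apply]
    ring
  rw [hr, cof_out']

theorem out_mulVec (a b y : V3 ℂ) : out a b *ᵥ y = (b ⬝ᵥ y) • a := by
  ext i; simp [out, mulVec, dotProduct, vecMulVec_apply, Fin.sum_univ_three]; ring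

theorem cof_out_add (n h q p : V3 ℂ) :
    cof (out n q + out h p) = out (n ⨯₃ h) (q ⨯₃ p) := by
  ext i j
  fin_cases i <;> fin_cases j <;>
    simp [cof, out, vecMulVec_apply, cross_apply] <;> ring

theorem out_inj {n u u' : V3 ℂ} (hn : n ≠ 0) (h : out n u = out n u') : u = u' := by
  obtain ⟨i, hi⟩ := LinBAux.exists_ne hn
  funext j
  have := congrFun (congrFun h i) j
  simp [out, vecMulVec_apply, hi] at this
  exact this

/-- matrices with isotropic cokernel -/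
theorem iso_coker {r : M3 ℂ} {n u : V3 ℂ} (hn : n ≠ 0) (hc : cof r = out n u)
    (h1 : rᵀ *ᵥ n = 0) (hnn : n ⬝ᵥ n = 0) :
    ∃ h q p : V3 ℂ, n ⨯₃ h = n ∧ r = out n q + out h p ∧ u = q ⨯₃ p := by
  obtain ⟨h, hh⟩ := exists_iso_frame hn hnn
  have hcol : ∀ j, ∃ ab : ℂ × ℂ, (fun i => r i j) = ab.1 • n + ab.2 • h := by
    intro j
    have hx : (fun i => r i j) ⬝ᵥ n = 0 := by
      have := congrFun h1 j
      simpa [mulVec, dotProduct] using this
    obtain ⟨a, b, hab⟩ := mem_iso_plane hn hh hx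
    exact ⟨(a, b), hab⟩
  choose f hf using hcol
  have hr : r = out n (fun j => (f j).1) + out h (fun j => (f j).2) := by
    ext i j
    have := congrFun (hf j) i
    simp only [Pi.add_apply, Pi.smul_apply, smul_eq_mul] at this
    rw [this]
    simp [out, vecMulVec_apply]
    ring
  refine ⟨h, _, _, hh, hr, ?_⟩
  apply out_inj hn
  rw [← hc]
  conv_lhs => rw [hr]
  rw [cof_out_add, hh]

/-- second component rational, `det r ≠ 0` -/
theorem rational_regular {r A B A' B' : M3 ℂ} {G D G' D' : M3 R} (hr : cof r ≠ 0)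
    (hdet : r.det ≠ 0) (h : Half r 0 A B A' B' G D) (h' : Half 0 r A' B' A B G' D')
    (hB : ∃ b : ℂ, B' = b • (1 : M3 ℂ)) : Good G D G' D' := by
  have hD' : D' = 0 := half_zero h'
  obtain ⟨w', hw', hG'⟩ := so3_rational h'.symA h'.symG h'.G0 h'.I2 hB
  obtain ⟨b, hb⟩ := hB
  have hcc : cof (cof r) ≠ 0 := by
    rw [LinBAux.cof_cof]
    exact smul_ne_zero hdet (ne_zero_of_cof hr)
  have key : ∀ y : V3 ℂ, cof r *ᵥ (y ⨯₃ ((A' - r.det⁻¹ • ((cof r)ᵀ * cof r)) *ᵥ y)) = 0 := by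
    intro y
    have h3 := half_c3 h y
    rw [hb] at h3
    have e1 : y ⨯₃ ((b • (1 : M3 ℂ)) *ᵥ y) = 0 := by
      rw [smul_mulVec, one_mulVec, map_smul, cross_self, smul_zero]
    rw [e1, mulVec_zero] at h3
    have h4 := cross_cof' r y
    rw [sub_mulVec, smul_mulVec, map_sub, map_smul, mulVec_sub, mulVec_smul, ← h4, smul_smul,
      inv_mul_cancel₀ hdet, one_smul, ← sub_eq_zero.mp h3, sub_self]
  obtain ⟨a, ha⟩ := scalar_of_mul_cross hcc key
  have hA' : A' = a • (1 : M3 ℂ) + r.det⁻¹ • ((cof r)ᵀ * cof r) := by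
    rw [← ha]; abel
  rw [hA', shapeG_add] at hG'
  have hC := Consts.pencil r hdet 1 0
  rw [one_smul, zero_smul, zero_smul, one_div] at hC
  exact finish hr h hD' hC (const_add hw' a) hG'

/-- second component rational, `det r = 0` -/
theorem rational_singular {r A B A' B' : M3 ℂ} {G D G' D' : M3 R} (hr : cof r ≠ 0)
    (hdet : r.det = 0) (h : Half r 0 A B A' B' G D) (h' : Half 0 r A' B' A B G' D')
    (hB : ∃ b : ℂ, B' = b • (1 : M3 ℂ)) : Good G D G' D' := by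
  have hD' : D' = 0 := half_zero h'
  obtain ⟨w', hw', hG'⟩ := so3_rational h'.symA h'.symG h'.G0 h'.I2 hB
  obtain ⟨b, hb⟩ := hB
  obtain ⟨n, u, hn, hu, hc, h1, h2⟩ := rank_two hdet hr
  have key : ∀ y : V3 ℂ, (u ⬝ᵥ (y ⨯₃ (A' *ᵥ y))) • n = (u ⬝ᵥ y) • ((r *ᵥ y) ⨯₃ n) := by
    intro y
    have h3 := half_c3 h y
    rw [hb] at h3
    have e1 : y ⨯₃ ((b • (1 : M3 ℂ)) *ᵥ y) = 0 := by
      rw [smul_mulVec, one_mulVec, map_smul, cross_self, smul_zero]
    rw [e1, mulVec_zero, hc, out_mulVec, out_mulVec, map_smul] at h3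
    exact (sub_eq_zero.mp h3).symm
  have hnn : n ⬝ᵥ n = 0 := by
    by_contra hnn
    have k1 : ∀ y : V3 ℂ, u ⬝ᵥ (y ⨯₃ (A' *ᵥ y)) = 0 := by
      intro y
      have := congrArg (fun z => n ⬝ᵥ z) (key y)
      simp only [dotProduct_smul, smul_eq_mul] at this
      rw [dot_cross_self, mul_zero] at this
      exact (mul_eq_zero.mp this).resolve_right hnn
    have k2 : ∀ (y : V3 ℂ) (i : Fin 3), ((r *ᵥ y) ⨯₃ n) i = 0 := by
      intro y i
      revert y
      apply dense hu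
      · intro y e
        fin_cases i <;>
          simp [cross_apply, mulVec, dotProduct, Fin.sum_univ_three] <;> ring
      · intro y
        have := congrFun (key y) i
        rw [k1, zero_smul] at this
        simpa using this.symm
    exact hr (cof_zero_of_par hn fun y => funext fun i => k2 y i)
  obtain ⟨h₀, q, p, hh, hrr, hup⟩ := iso_coker hn hc h1 hnn
  have hrn : ∀ y : V3 ℂ, (r *ᵥ y) ⨯₃ n = -((p ⬝ᵥ y) • n) := by
    intro y
    rw [hrr, add_mulVec, out_mulVec, out_mulVec, map_add, LinearMap.add_apply, map_smul,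
      LinearMap.smul_apply, cross_self, smul_zero, zero_add, map_smul, LinearMap.smul_apply,
      ← cross_anticomm, hh, smul_neg]
  have key2 : ∀ y : V3 ℂ, u ⬝ᵥ (y ⨯₃ (A' *ᵥ y)) = -((u ⬝ᵥ y) * (p ⬝ᵥ y)) := by
    intro y
    have h3 := key y
    rw [hrn, smul_neg, smul_smul, ← neg_smul] at h3
    have h4 : (u ⬝ᵥ (y ⨯₃ (A' *ᵥ y)) - -((u ⬝ᵥ y) * (p ⬝ᵥ y))) • n = 0 := by
      rw [sub_smul, h3, sub_self]
    exact sub_eq_zero.mp ((smul_eq_zero.mp h4).resolve_right hn)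
  -- the vector `m`
  obtain ⟨m, hmp, hmq⟩ : ∃ m : V3 ℂ, m ⬝ᵥ p = 0 ∧ m ⬝ᵥ q = 1 := by
    obtain ⟨e, he⟩ : ∃ e : V3 ℂ, u ⬝ᵥ e = 1 := by
      obtain ⟨i, hi⟩ := LinBAux.exists_ne hu
      exact ⟨(u i)⁻¹ • Pi.single i 1, by rw [dotProduct_smul]; simp [hi]⟩
    refine ⟨p ⨯₃ e, ?_, ?_⟩
    · simp [cross_apply, dotProduct, Fin.sum_univ_three]; ring
    · rw [hup] at he
      simp [cross_apply, dotProduct, Fin.sum_univ_three] at he ⊢
      linear_combination he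
  have hmu : m ⨯₃ u = -p := by
    have : m ⨯₃ (q ⨯₃ p) = (m ⬝ᵥ p) • q - (m ⬝ᵥ q) • p := by
      ext i
      fin_cases i <;> simp [cross_apply, dotProduct, Fin.sum_univ_three] <;> ring
    rw [hup, this, hmp, hmq, zero_smul, one_smul, zero_sub]
  obtain ⟨a, α', hA'⟩ := axial_of_dot' (m := m) h'.symA hu (by
    intro x
    rw [key2, hmu, neg_dotProduct, mul_neg])
  have hA'' : A' = a • (1 : M3 ℂ) + (α' • out u u + out u m + out m u) := by
    rw [hA']; abel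
  rw [hA'', shapeG_add] at hG'
  have hC := Consts.degenerate n h₀ p q m hh hn hmp hmq α' 0
  simp only [crs] at hC
  rw [zero_smul, zero_smul, ← hup, ← hrr] at hC
  exact finish hr h hD' hC (const_add hw' a) hG'

/-- second component scalar -/
theorem eval_case {r A B A' B' : M3 ℂ} {G D G' D' : M3 R} (hr : cof r ≠ 0)
    (h : Half r 0 A B A' B' G D) (h' : Half 0 r A' B' A B G' D')
    (hA : ∃ a : ℂ, A' = a • (1 : M3 ℂ)) : Good G D G' D' := by
  have hD' : D' = 0 := half_zero h'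
  have key : ∀ y : V3 ℂ, r *ᵥ (y ⨯₃ ((B' + rᵀ * r) *ᵥ y)) = 0 := by
    intro y
    have h3 := c3 h y
    obtain ⟨a, ha⟩ := hA
    rw [ha] at h3
    have e1 : y ⨯₃ ((a • (1 : M3 ℂ)) *ᵥ y) = 0 := by
      rw [smul_mulVec, one_mulVec, map_smul, cross_self, smul_zero]
    rw [e1, mulVec_zero, add_zero] at h3
    exact h3
  obtain ⟨c, hc⟩ := scalar_of_mul_cross hr key
  obtain ⟨w', hw', hG'⟩ := so3_elliptic h'.symB h'.symG h'.G0 h'.I2 hA c
  have hN : NId r 0 0 0 0 (-(rᵀ * r)) 0 0 := by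
    have hs : (-(rᵀ * r))ᵀ = -(rᵀ * r) := by
      rw [transpose_neg, transpose_mul, transpose_transpose]
    have hc2 : cof2 r 0 = 0 := by
      rw [cof2, add_zero, cof_zero, sub_zero, sub_self]
    have e50 : ∀ y : V3 ℂ, (r *ᵥ y) ⨯₃ (cof r *ᵥ y) = r *ᵥ (y ⨯₃ ((-(rᵀ * r)) *ᵥ y)) := by
      intro y
      rw [cross_cof, neg_mulVec, map_neg, mulVec_neg]
    constructor <;> simp [hs, hc2, cof_zero, e50]
  obtain ⟨L, hL⟩ := exists_pr (ne_zero_of_cof hr)
  obtain ⟨w, hw, hG, hD⟩ := rankTwo_sol hr h hN hL (Or.inl (pr_zero L))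
  refine ⟨w, w', hw, hw', ?_⟩
  have h5 : B' - c • (1 : M3 ℂ) = -(rᵀ * r) := by
    rw [← hc]; abel
  rw [h5] at hG'
  rw [hG, hD, hG', hD']
  exact Listed.evalL r

theorem cross_axial (a α : ℂ) (k y : V3 ℂ) :
    y ⨯₃ ((a • (1 : M3 ℂ) + α • out k k) *ᵥ y) = (α * (k ⬝ᵥ y)) • (y ⨯₃ k) := by
  rw [add_mulVec, smul_mulVec, one_mulVec, smul_mulVec, out_mulVec, map_add, map_smul, cross_self,
    smul_zero, zero_add, map_smul, map_smul, smul_smul]

/-- consequences of the equation `c3` when the second component is axial -/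
theorem axial_facts {r A B A' B' : M3 ℂ} {G D : M3 R} (h : Half r 0 A B A' B' G D)
    {k : V3 ℂ} (hk : k ≠ 0) {a α b β : ℂ} (hβ : β ≠ 0)
    (hA' : A' = a • (1 : M3 ℂ) + α • out k k) (hB' : B' = b • (1 : M3 ℂ) + β • out k k) :
    ∃ h₀ h₁ : ℂ, rᵀ * r = h₀ • (1 : M3 ℂ) + h₁ • out k k ∧
      ∀ y : V3 ℂ, ((h₁ + β) • r + α • cof r) *ᵥ (y ⨯₃ k) = 0 := by
  have key : ∀ y : V3 ℂ, r *ᵥ (y ⨯₃ ((rᵀ * r) *ᵥ y)) +
      (k ⬝ᵥ y) • ((β • r + α • cof r) *ᵥ (y ⨯₃ k)) = 0 := by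
    intro y
    have h3 := c3 h y
    rw [hA', cross_axial, add_mulVec, map_add, hB', cross_axial, mulVec_add, mulVec_smul,
      mulVec_smul] at h3
    rw [add_mulVec, smul_mulVec, smul_mulVec, smul_add, smul_smul, smul_smul, ← h3,
      mul_comm (k ⬝ᵥ y) β, mul_comm (k ⬝ᵥ y) α]
    abel
  have hdot : ∀ y : V3 ℂ, k ⬝ᵥ (y ⨯₃ ((rᵀ * r) *ᵥ y)) = 0 := by
    apply dense hk
    · intro y e
      generalize rᵀ * r = H
      simp [cross_apply, mulVec, dotProduct, Fin.sum_univ_three]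
      ring
    · intro y
      have h1 := congrArg (fun z => (r *ᵥ y) ⬝ᵥ z) (key y)
      simp only [dotProduct_add, dotProduct_smul, dotProduct_zero, smul_eq_mul] at h1
      have e0 : ∀ z : V3 ℂ, (r *ᵥ y) ⬝ᵥ (r *ᵥ z) = ((rᵀ * r) *ᵥ y) ⬝ᵥ z := by
        intro z
        rw [← mulVec_mulVec, dotProduct_mulVec, mulVec_transpose]
      have e1 : (r *ᵥ y) ⬝ᵥ (r *ᵥ (y ⨯₃ ((rᵀ * r) *ᵥ y))) = 0 := by
        rw [e0, dot_cross_self]
      have e3 : ((rᵀ * r) *ᵥ y) ⬝ᵥ (y ⨯₃ k) = -(k ⬝ᵥ (y ⨯₃ ((rᵀ * r) *ᵥ y))) := by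
        generalize (rᵀ * r) *ᵥ y = z
        simp [cross_apply, dotProduct, Fin.sum_univ_three]
        ring
      have e4 : (r *ᵥ y) ⬝ᵥ (cof r *ᵥ (y ⨯₃ k)) = 0 := by
        rw [dotProduct_mulVec, ← mulVec_transpose, mulVec_mulVec]
        have : (cof r)ᵀ * r = r.det • (1 : M3 ℂ) := by
          rw [← transpose_transpose ((cof r)ᵀ * r), transpose_mul, transpose_transpose,
            LinBAux.transpose_mul_cof, transpose_smul, transpose_one]
        rw [this, smul_mulVec, one_mulVec, smul_dotProduct, dot_self_cross, smul_zero]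
      have e2 : (r *ᵥ y) ⬝ᵥ ((β • r + α • cof r) *ᵥ (y ⨯₃ k)) =
          -(β * (k ⬝ᵥ (y ⨯₃ ((rᵀ * r) *ᵥ y)))) := by
        rw [add_mulVec, smul_mulVec, smul_mulVec, dotProduct_add, dotProduct_smul, dotProduct_smul,
          e0, e3, e4, smul_zero, add_zero, smul_eq_mul, mul_neg]
      rw [e1, e2, zero_add] at h1
      have h2 : β * ((k ⬝ᵥ y) * (k ⬝ᵥ (y ⨯₃ ((rᵀ * r) *ᵥ y)))) = 0 := by
        linear_combination -h1
      exact (mul_eq_zero.mp h2).resolve_left hβ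
  have hsym : (rᵀ * r)ᵀ = rᵀ * r := by rw [transpose_mul, transpose_transpose]
  obtain ⟨h₀, h₁, hH⟩ := axial_of_dot hsym hk hdot
  refine ⟨h₀, h₁, hH, ?_⟩
  intro y
  funext i
  revert y
  apply dense hk
  · intro y e
    generalize (h₁ + β) • r + α • cof r = N
    simp [cross_apply, mulVec, dotProduct, Fin.sum_univ_three]
    ring
  · intro y
    have h1 := key y
    rw [hH, cross_axial, mulVec_smul] at h1
    have h2 := congrFun h1 i
    rw [Pi.add_apply, Pi.smul_apply, Pi.smul_apply, smul_eq_mul, smul_eq_mul, Pi.zero_apply] at h2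
    rw [← h2, add_smul, add_assoc, add_mulVec, Pi.add_apply, smul_mulVec, Pi.smul_apply,
      smul_eq_mul]
    ring

/-- second component axial, `rᵀ r` regular on the orthogonal complement -/
theorem axial_case {r A B A' B' : M3 ℂ} {G D G' D' : M3 R} (hr : cof r ≠ 0)
    (h : Half r 0 A B A' B' G D) (hD' : D' = 0) {k : V3 ℂ} (hk : k ≠ 0) {α β h₀ h₁ : ℂ}
    (hh₀ : h₀ ≠ 0) (hH : rᵀ * r = h₀ • (1 : M3 ℂ) + h₁ • out k k)
    (hrel : ∀ y : V3 ℂ, ((h₁ + β) • r + α • cof r) *ᵥ (y ⨯₃ k) = 0)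
    {w' : R} (hw' : PowerSeries.constantCoeff (R := ℂ) w' = 1)
    (hG' : G' = shapeG (α • out k k) (β • out k k) w') : Good G D G' D' := by
  have hH' : rᵀ * rᵀᵀ = h₀ • (1 : M3 ℂ) + h₁ • out k k := by rw [transpose_transpose, hH]
  obtain ⟨O₁, e, c, hO, hOd, he, hr1⟩ := polar hh₀ hH'
  have hO2 : O₁ * O₁ᵀ = 1 := mul_eq_one_comm.mp hO
  have hOt : (O₁ᵀ)ᵀ * O₁ᵀ = 1 := by rw [transpose_transpose, hO2]
  have hOdt : (O₁ᵀ).det = 1 := by rw [det_transpose, hOd]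
  have hcofO : cof O₁ᵀ = O₁ᵀ := by
    have h1 := LinBAux.transpose_mul_cof O₁ᵀ
    rw [hOdt, one_smul, transpose_transpose] at h1
    calc cof O₁ᵀ = (O₁ᵀ * O₁) * cof O₁ᵀ := by rw [hO, one_mul]
      _ = O₁ᵀ * (O₁ * cof O₁ᵀ) := by rw [mul_assoc]
      _ = O₁ᵀ := by rw [h1, mul_one]
  have hr2 : r = e • (O₁ᵀ * (1 + c • out k k)) := by
    rw [← transpose_transpose r, hr1, transpose_smul, transpose_mul, LinBAux.T_transpose]
  have hr3 : r = e • ((1 + c • out (O₁ᵀ *ᵥ k) (O₁ᵀ *ᵥ k)) * O₁ᵀ) := by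
    rw [hr2]
    congr 1
    rw [mul_add, add_mul, mul_one, one_mul, mul_smul_comm, smul_mul_assoc, LinBAux.mul_out,
      LinBAux.out_mul, transpose_transpose, mulVec_mulVec, hO2, one_mulVec]
  -- a vector orthogonal to `k`
  obtain ⟨y, hy⟩ : ∃ y : V3 ℂ, y ⨯₃ k ≠ 0 := by
    by_contra hcon
    push Not at hcon
    apply hk
    apply SerB.eq_zero_of_cross
    intro x
    rw [← cross_anticomm, hcon, neg_zero]
  have hky : k ⬝ᵥ (y ⨯₃ k) = 0 := dot_cross_self _ _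
  have e1 : (1 + c • out k k : M3 ℂ) *ᵥ (y ⨯₃ k) = y ⨯₃ k := by
    rw [add_mulVec, one_mulVec, smul_mulVec, out_mulVec, hky, zero_smul, smul_zero, add_zero]
  have e2 : cof (1 + c • out k k : M3 ℂ) *ᵥ (y ⨯₃ k) = (1 + c * (k ⬝ᵥ k)) • (y ⨯₃ k) := by
    have := LinBAux.cof_one_add 1 c k
    rw [one_smul] at this
    rw [this, sub_mulVec, smul_mulVec, one_mulVec, smul_mulVec, out_mulVec, hky, zero_smul,
      smul_zero, sub_zero, one_mul]
  have e3 : r *ᵥ (y ⨯₃ k) = e • (O₁ᵀ *ᵥ (y ⨯₃ k)) := by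
    rw [hr2, smul_mulVec, ← mulVec_mulVec, e1]
  have e4 : cof r *ᵥ (y ⨯₃ k) = (e ^ 2 * (1 + c * (k ⬝ᵥ k))) • (O₁ᵀ *ᵥ (y ⨯₃ k)) := by
    rw [hr2, NIdA.cof_smul, LinBAux.cof_mul, hcofO, smul_mulVec, ← mulVec_mulVec, e2, mulVec_smul,
      smul_smul]
  have hOz : O₁ᵀ *ᵥ (y ⨯₃ k) ≠ 0 := by
    intro h0
    apply hy
    rw [← one_mulVec (y ⨯₃ k), ← hO2, ← mulVec_mulVec, h0, mulVec_zero]
  -- `h₀` and `h₁`
  have hh : rᵀ * r = (e ^ 2) • (1 : M3 ℂ) + (e ^ 2 * (2 * c + c ^ 2 * (k ⬝ᵥ k))) • out k k := by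
    have : rᵀ * r = (e ^ 2) • ((1 + c • out k k : M3 ℂ) * (1 + c • out k k)) := by
      conv_lhs => rw [hr2]
      rw [transpose_smul, transpose_mul, transpose_transpose, LinBAux.T_transpose,
        smul_mul_assoc, mul_smul_comm, smul_smul, ← sq, mul_assoc, ← mul_assoc O₁, hO2, one_mul]
    rw [this, LinBAux.T_mul_T, smul_add, smul_smul]
    congr 2
    ring
  have hh0 : h₀ = e ^ 2 := by
    have h1 := congrArg (fun M => M *ᵥ (y ⨯₃ k)) (hH.symm.trans hh)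
    simp only [add_mulVec, smul_mulVec, one_mulVec, out_mulVec, hky, zero_smul, smul_zero,
      add_zero] at h1
    have h2 : (h₀ - e ^ 2) • (y ⨯₃ k) = 0 := by rw [sub_smul, h1, sub_self]
    exact sub_eq_zero.mp ((smul_eq_zero.mp h2).resolve_right hy)
  have hh1 : h₁ = e ^ 2 * (2 * c + c ^ 2 * (k ⬝ᵥ k)) := by
    have h1 := hH.symm.trans hh
    rw [hh0] at h1
    have h2 := add_left_cancel h1
    have h3 : (h₁ - e ^ 2 * (2 * c + c ^ 2 * (k ⬝ᵥ k))) • out k k = 0 := by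
      rw [sub_smul, h2, sub_self]
    refine sub_eq_zero.mp ((smul_eq_zero.mp h3).resolve_right ?_)
    intro h4
    exact hk (LinBAux.out_eq_zero hk h4)
  have hβ : β = -(e ^ 2) * ((α / e) * (1 + (k ⬝ᵥ k) * c) + c * (2 + (k ⬝ᵥ k) * c)) := by
    have h1 := hrel y
    rw [add_mulVec, smul_mulVec, smul_mulVec, e3, e4, smul_smul, smul_smul, ← add_smul] at h1
    have h2 := (smul_eq_zero.mp h1).resolve_right hOz
    rw [hh1] at h2
    have h3 : e * (β - -(e ^ 2) * ((α / e) * (1 + (k ⬝ᵥ k) * c) + c * (2 + (k ⬝ᵥ k) * c))) = 0 := by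
      field_simp
      linear_combination h2
    exact sub_eq_zero.mp ((mul_eq_zero.mp h3).resolve_left he)
  have hkk : (O₁ᵀ *ᵥ k) ⬝ᵥ (O₁ᵀ *ᵥ k) = k ⬝ᵥ k := by
    rw [dotProduct_mulVec, ← mulVec_transpose, transpose_transpose, mulVec_mulVec, hO2, one_mulVec]
  have hC := Consts.axial O₁ᵀ hOt hOdt (O₁ᵀ *ᵥ k) e 0 c (c + α / e)
  rw [transpose_transpose, mulVec_mulVec, hO2, one_mulVec, hkk, ← hr3] at hC
  have f1 : e * (c + α / e - c) = α := by field_simp; ring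
  have f2 : -(e ^ 2) * ((c + α / e - c) * (1 + (k ⬝ᵥ k) * c) + c * (2 + (k ⬝ᵥ k) * c)) = β := by
    rw [hβ]; ring
  rw [f1, f2] at hC
  simp only [zero_smul, zero_mul, mul_zero, ne_eq, OfNat.ofNat_ne_zero, not_false_eq_true,
    zero_pow, neg_zero] at hC
  exact finish hr h hD' hC hw' hG'

/-- second component axial, isotropic type -/
theorem isotropic_case {r A B A' B' : M3 ℂ} {G D G' D' : M3 R} (hr : cof r ≠ 0)
    (h : Half r 0 A B A' B' G D) (hD' : D' = 0) {k : V3 ℂ} (hk : k ≠ 0) {α β h₁ : ℂ}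
    (hα : α ≠ 0) (hH : rᵀ * r = h₁ • out k k)
    (hrel : ∀ y : V3 ℂ, ((h₁ + β) • r + α • cof r) *ᵥ (y ⨯₃ k) = 0)
    {w' : R} (hw' : PowerSeries.constantCoeff (R := ℂ) w' = 1)
    (hG' : G' = shapeG (α • out k k) (β • out k k) w') : Good G D G' D' := by
  have hdet : r.det = 0 := by
    have h1 := congrArg Matrix.det hH
    rw [det_mul, det_transpose, det_smul] at h1
    have h2 : (out k k).det = 0 := by
      simp [Matrix.det_fin_three, out, vecMulVec_apply]; ring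
    rw [h2, mul_zero] at h1
    exact mul_self_eq_zero.mp h1
  obtain ⟨n, u, hn, hu, hc, hrn, hru⟩ := rank_two hdet hr
  have hnn : n ⬝ᵥ n = 0 := by
    have h1 := congrArg cof hH
    rw [LinBAux.cof_mul, LinBAux.cof_transpose, hc, NIdA.cof_smul, NIdA.cof_out, smul_zero,
      LinBAux.out_transpose, LinBAux.out_mul_out] at h1
    refine (smul_eq_zero.mp h1).resolve_right ?_
    intro h4
    exact hu (LinBAux.out_eq_zero hu h4)
  obtain ⟨h₀, q, p, hh, hrr, hup⟩ := iso_coker hn hc hrn hnn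
  have hp0 : p ≠ 0 := by
    rintro rfl
    exact hu (by rw [hup]; simp)
  have hnh : n ⬝ᵥ h₀ = 0 := by
    have h1 : h₀ ⬝ᵥ (n ⨯₃ h₀) = 0 := dot_cross_self _ _
    rw [hh, dotProduct_comm] at h1
    exact h1
  have hhh : h₀ ⬝ᵥ h₀ = -1 := NIdB.iso_hh hh hn
  have hpp : rᵀ * r = -(out p p) := by
    rw [hrr, transpose_add, LinBAux.out_transpose, LinBAux.out_transpose, add_mul, mul_add,
      mul_add, LinBAux.out_mul_out, LinBAux.out_mul_out, LinBAux.out_mul_out,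
      LinBAux.out_mul_out, hnn, hnh, dotProduct_comm h₀ n, hnh, hhh]
    simp
  have hpk : -(out p p) = h₁ • out k k := by rw [← hpp, hH]
  -- `p = μ k`
  obtain ⟨μ, hμ⟩ : ∃ μ : ℂ, p = μ • k := by
    obtain ⟨i, hi⟩ := LinBAux.exists_ne hp0
    refine ⟨-(h₁ * k i) / p i, ?_⟩
    funext j
    have h1 := congrFun (congrFun hpk i) j
    simp only [Matrix.neg_apply, Matrix.smul_apply, out, vecMulVec_apply, smul_eq_mul] at h1
    rw [Pi.smul_apply, smul_eq_mul]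
    field_simp
    linear_combination -h1
  have hμ0 : μ ≠ 0 := by
    rintro rfl
    exact hp0 (by rw [hμ, zero_smul])
  have hh1 : h₁ = -(μ ^ 2) := by
    have h1 : (h₁ + μ ^ 2) • out k k = 0 := by
      rw [add_smul, ← hpk, hμ]
      ext i j
      simp [out, vecMulVec_apply]
      ring
    have h2 := (smul_eq_zero.mp h1).resolve_right (fun h4 => hk (LinBAux.out_eq_zero hk h4))
    linear_combination h2
  have hh10 : h₁ ≠ 0 := by
    rw [hh1]
    exact neg_ne_zero.mpr (pow_ne_zero 2 hμ0)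
  -- the relation
  have hpu : α • (p ⨯₃ u) = (h₁ + β) • u := by
    rw [← sub_eq_zero]
    apply SerB.eq_zero_of_dot
    intro y
    have h1 := hrel (μ • y)
    have h2 : (μ • y) ⨯₃ k = y ⨯₃ p := by
      rw [hμ, map_smul, map_smul, LinearMap.smul_apply]
    rw [h2, add_mulVec, smul_mulVec, smul_mulVec, hc, out_mulVec] at h1
    have h3 : r *ᵥ (y ⨯₃ p) = (q ⬝ᵥ (y ⨯₃ p)) • n := by
      rw [hrr, add_mulVec, out_mulVec, out_mulVec, dot_cross_self, zero_smul, add_zero]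
    rw [h3, smul_smul, smul_smul, ← add_smul] at h1
    have h4 := (smul_eq_zero.mp h1).resolve_right hn
    have h5 : q ⬝ᵥ (y ⨯₃ p) = -(y ⬝ᵥ u) := by
      rw [hup]
      simp [cross_apply, dotProduct, Fin.sum_univ_three]
      ring
    have h6 : u ⬝ᵥ (y ⨯₃ p) = y ⬝ᵥ (p ⨯₃ u) := by
      simp [cross_apply, dotProduct, Fin.sum_univ_three]
      ring
    rw [h5, h6] at h4
    rw [dotProduct_sub, dotProduct_smul, dotProduct_smul, smul_eq_mul, smul_eq_mul]
    linear_combination h4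
  have hpu0 : p ⬝ᵥ u = 0 := by rw [hup]; exact dot_cross_self _ _
  have hqu0 : q ⬝ᵥ u = 0 := by rw [hup]; exact dot_self_cross _ _
  have huu : u ⬝ᵥ u = 0 := by
    by_cases hρ : h₁ + β = 0
    · rw [hρ, zero_smul] at hpu
      have h1 := (smul_eq_zero.mp hpu).resolve_left hα
      obtain ⟨t, ht⟩ := LinBAux.parallel (n := u) (y := p) hu (by
        rw [← cross_anticomm, h1, neg_zero])
      have ht0 : t ≠ 0 := by
        rintro rfl
        exact hp0 (by rw [ht, zero_smul])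
      rw [ht, smul_dotProduct, smul_eq_mul] at hpu0
      exact (mul_eq_zero.mp hpu0).resolve_left ht0
    · have h1 := congrArg (fun z => u ⬝ᵥ z) hpu
      simp only [dotProduct_smul, smul_eq_mul] at h1
      rw [dot_cross_self, mul_zero] at h1
      exact (mul_eq_zero.mp h1.symm).resolve_left hρ
  obtain ⟨k₁, hk₁⟩ := exists_iso_frame hu huu
  obtain ⟨p₁, p₂, hp⟩ := mem_iso_plane hu hk₁ hpu0
  obtain ⟨q₁, q₂, hq⟩ := mem_iso_plane hu hk₁ hqu0
  have hρ : h₁ + β = -(α * p₂) := by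
    have h1 : p ⨯₃ u = -(p₂ • u) := by
      rw [hp, map_add, map_smul, map_smul, LinearMap.add_apply, LinearMap.smul_apply,
        LinearMap.smul_apply, cross_self, smul_zero, zero_add, ← cross_anticomm, hk₁, smul_neg]
    rw [h1, smul_neg, smul_smul, ← neg_smul] at hpu
    have h2 : ((h₁ + β) - -(α * p₂)) • u = 0 := by rw [sub_smul, hpu, sub_self]
    exact sub_eq_zero.mp ((smul_eq_zero.mp h2).resolve_right hu)
  have hC := Consts.isotropic n h₀ u k₁ hh hn hk₁ hu q₁ q₂ p₁ p₂ 1 0 0 (-α / h₁) r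
    (by rw [← hp, ← hq]; exact hrr) 1 (1 - -α / h₁ * p₂) (by ring) rfl
  rw [hH, smul_smul, smul_smul] at hC
  have f1 : 1 * (0 - -α / h₁) * h₁ = α := by field_simp; ring
  have f2 : -((1 : ℂ) ^ 2) * 1 * (1 - -α / h₁ * p₂) * h₁ = β := by
    field_simp
    linear_combination -hρ
  rw [f1, f2] at hC
  simp only [zero_smul, zero_mul, mul_zero, ne_eq, OfNat.ofNat_ne_zero, not_false_eq_true,
    zero_pow, neg_zero, one_smul, add_zero] at hC
  exact finish hr h hD' hC hw' hG'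

end TbAux

theorem case_s_zero {r A B A' B' : M3 ℂ} {G D G' D' : M3 R} (hr : r ≠ 0)
    (h : Half r 0 A B A' B' G D) (h' : Half 0 r A' B' A B G' D') : Good G D G' D' := by
  have hD' : D' = 0 := half_zero h'
  by_cases hc : cof r = 0
  · obtain ⟨n, v, hn, hv, rfl⟩ := rank_one hc hr
    exact TbAux.rank_one_case hn hv h h'
  rcases so3_cases h'.symA h'.symB h'.symG h'.G0 h'.I2 with hB | ⟨hA, _⟩ | ⟨k, b, β, hk, hβ, hB⟩
  · by_cases hdet : r.det = 0
    · exact TbAux.rational_singular hc hdet h h' hB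
    · exact TbAux.rational_regular hc hdet h h' hB
  · exact TbAux.eval_case hc h h' hA
  · obtain ⟨w', a, α, hw', hA, hG'⟩ := so3_axial h'.symA h'.symB h'.symG h'.G0 h'.I2 hk hβ hB
    by_cases hα : α = 0
    · exact TbAux.eval_case hc h h' ⟨a, by rw [hA, hα, zero_smul, add_zero]⟩
    obtain ⟨h₀, h₁, hH, hrel⟩ := TbAux.axial_facts h hk hβ hA hB
    by_cases hh₀ : h₀ = 0
    · rw [hh₀, zero_smul, zero_add] at hH
      exact TbAux.isotropic_case hc h hD' hk hα hH hrel hw' hG'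
    · exact TbAux.axial_case hc h hD' hk hh₀ hH hrel hw' hG'

end
end Pool.Agent.MP_106392_al
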