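import Pool.Agent.MP_106392_al.NIdA
import Pool.Agent.MP_106392_al.LinA
import Pool.Agent.MP_106392_al.LinB
import Pool.Agent.MP_106392_al.SeriesB
import Pool.Agent.MP_106392_al.SeriesD
import Pool.Agent.MP_106392_al.SeriesE

/-!
# Classification, the case of ranks two and one
-/

set_option autoImplicit false
set_option linter.unusedSimpArgs false
namespace Pool.Agent.MP_106392_al
open Matrix
noncomputable section

namespace CasesC

/-- a linear form times an additive vector function can vanish only if the latter does -/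
lemma additive_zero {l : V3 ℂ} (hl : l ≠ 0) {f : V3 ℂ → V3 ℂ}
    (hf : ∀ x y, f (x + y) = f x + f y) (h : ∀ x, (l ⬝ᵥ x) • f x = 0) (x : V3 ℂ) :
    f x = 0 := by
  obtain ⟨i, hi⟩ := LinBAux.exists_ne hl
  have h0 : l ⬝ᵥ (Pi.single i 1 : V3 ℂ) ≠ 0 := by simpa using hi
  by_cases hx : l ⬝ᵥ x = 0
  · have h1 := h (x + Pi.single i 1)
    rw [dotProduct_add, hx, zero_add, hf] at h1
    have h2 := h (Pi.single i 1)
    have h3 : f (Pi.single i 1) = 0 := (smul_eq_zero.mp h2).resolve_left h0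
    rw [h3, add_zero] at h1
    exact (smul_eq_zero.mp h1).resolve_left h0
  · exact (smul_eq_zero.mp (h x)).resolve_left hx

lemma pr_inv {r : M3 ℂ} (hr : r ≠ 0) : ∃ L : M3 ℂ, pr L r = 1 := by
  have : ∃ i j, r i j ≠ 0 := by
    by_contra hc
    push Not at hc
    exact hr (by ext i j; simp [hc i j])
  obtain ⟨i, j, hij⟩ := this
  refine ⟨(r i j)⁻¹ • Matrix.single i j 1, ?_⟩
  unfold pr
  rw [Finset.sum_eq_single i, Finset.sum_eq_single j]
  · simp [hij]
  · intro b _ hb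
    simp [Matrix.single_apply_of_col_ne, hb.symm]
  · simp
  · intro b _ hb
    apply Finset.sum_eq_zero
    intro c _
    simp [Matrix.single_apply_of_row_ne, hb.symm]
  · simp

lemma cross_cross_self (a p : V3 ℂ) : (a ⨯₃ p) ⨯₃ p = (a ⬝ᵥ p) • p - (p ⬝ᵥ p) • a := by
  ext i
  fin_cases i <;>
  simp [cross_apply, dotProduct, Fin.sum_univ_three] <;> ring

lemma tr_cross_gram (r : M3 ℂ) (x : V3 ℂ) :
    rᵀ *ᵥ (x ⨯₃ ((r * rᵀ) *ᵥ x)) = ((cof r)ᵀ *ᵥ x) ⨯₃ (rᵀ *ᵥ x) := by
  rw [← Matrix.mulVec_mulVec, NIdA.tr_mulVec_cross']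

end CasesC

open CasesC

theorem case_two_one {r s A B A' B' : M3 ℂ} {G D G' D' : M3 R} (hs : s ≠ 0)
    (hr' : cof r ≠ 0) (hs' : cof s = 0)
    (h : Half r s A B A' B' G D) (h' : Half s r A' B' A B G' D') : Good G D G' D' := by
  obtain ⟨w, n, hw, hn, hs1⟩ := rank_one hs' hs
  have hr0 : r ≠ 0 := by
    rintro rfl
    exact hr' NIdA.cof_zero
  -- first step: n is isotropic and orthogonal to the image of r
  have k1 : ∀ x : V3 ℂ, (w ⬝ᵥ x) • ((((r *ᵥ x) ⬝ᵥ n) • n - (n ⬝ᵥ n) • (r *ᵥ x))) = 0 := by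
    intro x
    have e := half_c1 h' x
    rw [hs1, NIdA.out_transpose, NIdA.out_mulVec, NIdA.out_mulVec] at e
    rw [LinearMap.map_smul] at e
    have e2 := congrArg (fun z => z ⨯₃ n) e
    simp only [LinearMap.map_smul, LinearMap.smul_apply, cross_self, smul_zero] at e2
    rw [← cross_cross_self]
    exact e2
  have k2 : ∀ x : V3 ℂ, ((r *ᵥ x) ⬝ᵥ n) • n - (n ⬝ᵥ n) • (r *ᵥ x) = 0 := by
    refine additive_zero hw ?_ k1
    intro x y
    simp only [Matrix.mulVec_add, add_dotProduct, add_smul, smul_add]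
    abel
  have hnn : n ⬝ᵥ n = 0 := by
    by_contra hc
    apply hr'
    have : r = out n ((n ⬝ᵥ n)⁻¹ • (rᵀ *ᵥ n)) := by
      ext i j
      have e := congrFun (k2 (Pi.single j 1)) i
      simp only [Pi.sub_apply, Pi.smul_apply, smul_eq_mul, Pi.zero_apply,
        Matrix.mulVec_single_one, Matrix.col_apply] at e
      simp only [out, Matrix.vecMulVec_apply, Pi.smul_apply, smul_eq_mul]
      have e3 : (rᵀ *ᵥ n) j = r.col j ⬝ᵥ n := rfl
      rw [e3]
      field_simp
      linear_combination -e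
    rw [this, NIdA.cof_out]
  have hrn : ∀ x : V3 ℂ, (r *ᵥ x) ⬝ᵥ n = 0 := by
    intro x
    have e := k2 x
    rw [hnn, zero_smul, sub_zero] at e
    exact (smul_eq_zero.mp e).resolve_right hn
  obtain ⟨k, hk⟩ := exists_iso_frame hn hnn
  have hcol : ∀ j : Fin 3, ∃ a b : ℂ, r *ᵥ (Pi.single j 1) = a • n + b • k :=
    fun j => mem_iso_plane hn hk (hrn _)
  choose q p hqp using hcol
  have hr1 : r = out n q + out k p := by
    ext i j
    have e := congrFun (hqp j) i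
    simp only [Matrix.mulVec_single_one, Matrix.col_apply, Pi.add_apply, Pi.smul_apply,
      smul_eq_mul] at e
    simp only [Matrix.add_apply, out, Matrix.vecMulVec_apply]
    rw [e]
    ring
  have hcr : cof r = out n (q ⨯₃ p) := by
    rw [hr1, NIdA.cof_out_add, hk]
  have hz : q ⨯₃ p ≠ 0 := by
    intro hc
    apply hr'
    rw [hcr, hc]
    ext i j
    simp [out, Matrix.vecMulVec_apply]
  have hnk : n ⬝ᵥ k = 0 := by
    rw [← hk]
    simp [cross_apply, dotProduct, Fin.sum_univ_three]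
    ring
  have hkk : k ⬝ᵥ k = -1 := by
    have e : (n ⨯₃ k) ⨯₃ k = (n ⬝ᵥ k) • k - (k ⬝ᵥ k) • n := cross_cross_self n k
    rw [hk, hk, hnk, zero_smul, zero_sub] at e
    have e2 : (1 + k ⬝ᵥ k) • n = 0 := by
      rw [add_smul, one_smul]
      nth_rewrite 1 [e]
      simp
    have e3 := (smul_eq_zero.mp e2).resolve_right hn
    linear_combination e3
  -- H = r rᵀ is not scalar
  have hH : ¬ ∃ a : ℂ, r * rᵀ = a • (1 : M3 ℂ) := by
    rintro ⟨a, ha⟩
    have hrn' : rᵀ *ᵥ n = 0 := by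
      ext j
      have e := hrn (Pi.single j 1)
      rw [Matrix.mulVec_single_one] at e
      exact e
    have ha0 : a = 0 := by
      have e := congrArg (fun M => M *ᵥ n) ha
      simp only [← Matrix.mulVec_mulVec, hrn', Matrix.mulVec_zero, Matrix.smul_mulVec,
        Matrix.one_mulVec] at e
      exact (smul_eq_zero.mp e.symm).resolve_right hn
    rw [ha0, zero_smul] at ha
    have hk1 : rᵀ *ᵥ k = -p := by
      rw [hr1, Matrix.transpose_add, NIdA.out_transpose, NIdA.out_transpose, Matrix.add_mulVec,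
        NIdA.out_mulVec, NIdA.out_mulVec, hnk, hkk]
      simp
    have hrp : r *ᵥ p = 0 := by
      have e := congrArg (fun M => M *ᵥ k) ha
      simp only [← Matrix.mulVec_mulVec, hk1, Matrix.mulVec_neg, Matrix.zero_mulVec,
        neg_eq_zero] at e
      exact e
    -- q·p = 0, p·p = 0
    have e1 : (q ⬝ᵥ p) • n + (p ⬝ᵥ p) • k = 0 := by
      rw [← hrp, hr1, Matrix.add_mulVec, NIdA.out_mulVec, NIdA.out_mulVec]
    have hpp : p ⬝ᵥ p = 0 := by
      have e2 := congrArg (fun z => z ⬝ᵥ k) e1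
      simp only [add_dotProduct, smul_dotProduct, hnk, hkk, zero_dotProduct, smul_eq_mul] at e2
      linear_combination -e2
    have hqp' : q ⬝ᵥ p = 0 := by
      rw [hpp, zero_smul, add_zero] at e1
      exact (smul_eq_zero.mp e1).resolve_right hn
    -- q · q = 0: apply H to some vector with n-component
    have hqq : q ⬝ᵥ q = 0 := by
      have e2 : ∀ x : V3 ℂ, r *ᵥ (rᵀ *ᵥ x) = 0 := by
        intro x
        rw [Matrix.mulVec_mulVec, ha, Matrix.zero_mulVec]
      obtain ⟨i, hi⟩ := LinBAux.exists_ne hn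
      have e3 := e2 (Pi.single i 1)
      have e4 : rᵀ *ᵥ (Pi.single i 1) = (n i) • q + (k i) • p := by
        rw [hr1, Matrix.transpose_add, NIdA.out_transpose, NIdA.out_transpose, Matrix.add_mulVec,
          NIdA.out_mulVec, NIdA.out_mulVec]
        simp
      rw [e4, Matrix.mulVec_add, Matrix.mulVec_smul, Matrix.mulVec_smul, hrp, smul_zero, add_zero,
        hr1, Matrix.add_mulVec, NIdA.out_mulVec, NIdA.out_mulVec, dotProduct_comm p q, hqp',
        zero_smul, add_zero, smul_smul] at e3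
      have e5 := (smul_eq_zero.mp e3).resolve_right hn
      exact (mul_eq_zero.mp e5).resolve_left hi
    have z1 : q ⨯₃ (q ⨯₃ p) = 0 := by
      have : q ⨯₃ (q ⨯₃ p) = (q ⬝ᵥ p) • q - (q ⬝ᵥ q) • p := by
        ext i
        fin_cases i <;>
        simp [cross_apply, dotProduct, Fin.sum_univ_three] <;> ring
      rw [this, hqq, hqp']
      simp
    have z2 : p ⨯₃ (q ⨯₃ p) = 0 := by
      have : p ⨯₃ (q ⨯₃ p) = (p ⬝ᵥ p) • q - (q ⬝ᵥ p) • p := by
        ext i
        fin_cases i <;>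
        simp [cross_apply, dotProduct, Fin.sum_univ_three] <;> ring
      rw [this, hpp, hqp']
      simp
    obtain ⟨a1, h1⟩ := LinBAux.parallel hz (y := q) (by rw [← cross_anticomm, z1, neg_zero])
    obtain ⟨a2, h2⟩ := LinBAux.parallel hz (y := p) (by rw [← cross_anticomm, z2, neg_zero])
    apply hz
    have : q ⨯₃ p = (a1 • (q ⨯₃ p)) ⨯₃ (a2 • (q ⨯₃ p)) := by
      rw [← h1, ← h2]
    rw [this]
    simp
  -- A = a + β H
  have hdep : ∀ x : V3 ℂ, x ⬝ᵥ (((r * rᵀ) *ᵥ x) ⨯₃ (A *ᵥ x)) = 0 := by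
    intro x
    have e := half_c1 h x
    have e2 : (rᵀ *ᵥ x) ⬝ᵥ (rᵀ *ᵥ (x ⨯₃ (A *ᵥ x))) = 0 := by
      rw [← e]
      simp [cross_apply, dotProduct, Fin.sum_univ_three]
      ring
    have e3 : (rᵀ *ᵥ x) ⬝ᵥ (rᵀ *ᵥ (x ⨯₃ (A *ᵥ x))) =
        ((r * rᵀ) *ᵥ x) ⬝ᵥ (x ⨯₃ (A *ᵥ x)) := by
      rw [← Matrix.mulVec_mulVec, Matrix.dotProduct_mulVec, Matrix.vecMul_transpose]
    rw [e3] at e2
    have e4 : ∀ a b c : V3 ℂ, b ⬝ᵥ (a ⨯₃ c) = - (a ⬝ᵥ (b ⨯₃ c)) := by
      intro a b c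
      simp [cross_apply, dotProduct, Fin.sum_univ_three]
      ring
    rw [e4] at e2
    exact neg_eq_zero.mp e2
  have symH : (r * rᵀ)ᵀ = r * rᵀ := by rw [transpose_mul, transpose_transpose]
  obtain ⟨a, β, hA⟩ := (dependent_of_det symH h.symA hdep).resolve_left hH
  obtain ⟨τ, hτ⟩ : ∃ τ : ℂ, s - β • (cof r)ᵀ = τ • rᵀ := by
    apply eq_smul_of_cross
    · rw [LinBAux.cof_transpose]
      intro hc
      apply hr'
      rw [← Matrix.transpose_transpose (cof r), hc, Matrix.transpose_zero]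
    · intro x
      have e := half_c1 h x
      rw [hA, Matrix.add_mulVec, Matrix.smul_mulVec, Matrix.smul_mulVec, Matrix.one_mulVec,
        LinearMap.map_add, LinearMap.map_smul, LinearMap.map_smul, cross_self, smul_zero,
        zero_add, Matrix.mulVec_smul, tr_cross_gram] at e
      rw [Matrix.sub_mulVec, Matrix.smul_mulVec, LinearMap.map_sub, LinearMap.sub_apply,
        LinearMap.map_smul, LinearMap.smul_apply, e, sub_self]
  have hτ0 : τ = 0 := by
    have e := congrArg (fun M => M *ᵥ k) hτ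
    simp only [Matrix.sub_mulVec, Matrix.smul_mulVec] at e
    have hp : p ≠ 0 := by
      rintro rfl
      exact hz (by simp)
    have e1 : s *ᵥ k = 0 := by
      rw [hs1, NIdA.out_mulVec, hnk, zero_smul]
    have e2 : (cof r)ᵀ *ᵥ k = 0 := by
      rw [hcr, NIdA.out_transpose, NIdA.out_mulVec, hnk, zero_smul]
    have hk1 : rᵀ *ᵥ k = -p := by
      rw [hr1, Matrix.transpose_add, NIdA.out_transpose, NIdA.out_transpose, Matrix.add_mulVec,
        NIdA.out_mulVec, NIdA.out_mulVec, hnk, hkk]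
      simp
    rw [e1, e2, hk1, smul_zero, sub_zero, smul_neg] at e
    exact (smul_eq_zero.mp (neg_eq_zero.mp e.symm)).resolve_right hp
  have hs2 : s = β • out (q ⨯₃ p) n := by
    rw [hτ0, zero_smul, sub_eq_zero, hcr, NIdA.out_transpose] at hτ
    exact hτ
  have hβ : β ≠ 0 := by
    rintro rfl
    exact hs (by rw [hs2, zero_smul])
  -- the vector m
  obtain ⟨m, hm0, hm1⟩ : ∃ m : V3 ℂ, m ⬝ᵥ p = 0 ∧ m ⬝ᵥ q = 1 := by
    obtain ⟨i, hi⟩ := LinBAux.exists_ne hz
    refine ⟨p ⨯₃ (((q ⨯₃ p) i)⁻¹ • (Pi.single i 1 : V3 ℂ)), ?_, ?_⟩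
    · simp [cross_apply, dotProduct, Fin.sum_univ_three]
      ring
    · have e : ∀ u : V3 ℂ, (p ⨯₃ u) ⬝ᵥ q = u ⬝ᵥ (q ⨯₃ p) := by
        intro u
        simp [cross_apply, dotProduct, Fin.sum_univ_three]
        ring
      rw [e, smul_dotProduct, single_one_dotProduct, smul_eq_mul, inv_mul_cancel₀ hi]
  have hmz : m ⨯₃ (q ⨯₃ p) = -p := by
    have : m ⨯₃ (q ⨯₃ p) = (m ⬝ᵥ p) • q - (m ⬝ᵥ q) • p := by
      ext i
      fin_cases i <;>
      simp [cross_apply, dotProduct, Fin.sum_univ_three] <;> ring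
    rw [this, hm0, hm1]
    simp
  -- first side
  obtain ⟨L, hL⟩ := pr_inv hr0
  have hN := (NIdA.degenerate n k p q m hk hm0 hm1 0 β).1
  rw [← hr1, ← hs2] at hN
  obtain ⟨w₁, hw₁, hG, hD⟩ := rankTwo_sol hr' h hN hL (Or.inl (by simp [pr]))
  -- second side
  have hs3 : s = out (β • (q ⨯₃ p)) n := by
    rw [hs2]
    ext i j
    simp [out, Matrix.vecMulVec_apply, mul_assoc]
  have hbz : β • (q ⨯₃ p) ≠ 0 := smul_ne_zero hβ hz
  have hmm : (β⁻¹ • m) ⨯₃ (β • (q ⨯₃ p)) = -p := by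
    rw [LinearMap.map_smul, LinearMap.map_smul, LinearMap.smul_apply, smul_smul,
      mul_inv_cancel₀ hβ, one_smul, hmz]
  have hp : p ≠ 0 := by
    rintro rfl
    exact hz (by simp)
  have h'' := h'
  rw [hs3] at h''
  obtain ⟨w₂, hw₂, hD', hG'⟩ := rankOne_sol (m := β⁻¹ • m) hbz hn h'' (by
    intro x
    rw [hmm, hr1, Matrix.add_mulVec, NIdA.out_mulVec, NIdA.out_mulVec, LinearMap.map_add,
      LinearMap.map_smul, LinearMap.map_smul, LinearMap.add_apply, LinearMap.smul_apply,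
      LinearMap.smul_apply, cross_self, smul_zero, zero_add]
    have : k ⨯₃ n = -n := by rw [← cross_anticomm, hk]
    rw [this, neg_dotProduct, neg_smul, smul_neg])
  rw [hmm] at hG'
  rcases hG' with ⟨-, α, hG', -⟩ | ⟨hc, -⟩
  swap
  · exact absurd (neg_eq_zero.mp hc) hp
  have e1 : α • out (β • (q ⨯₃ p)) (β • (q ⨯₃ p)) + out (β • (q ⨯₃ p)) (β⁻¹ • m) +
      out (β⁻¹ • m) (β • (q ⨯₃ p)) =
      (α * β ^ 2) • out (q ⨯₃ p) (q ⨯₃ p) + out (q ⨯₃ p) m + out m (q ⨯₃ p) := by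
    ext i j
    simp only [out, Matrix.add_apply, Matrix.smul_apply, Matrix.vecMulVec_apply, Pi.smul_apply,
      smul_eq_mul]
    field_simp
  rw [e1] at hG'
  rw [← hs3] at hD'
  refine ⟨w₁, w₂, hw₁, hw₂, ?_⟩
  rw [hG, hD, hG', hD']
  have hC := Consts.degenerate n k p q m hk hn hm0 hm1 (α * β ^ 2) β
  rw [← hr1, ← hs2] at hC
  exact Listed.nonelliptic hC

end
end Pool.Agent.MP_106392_al
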