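import Pool.Agent.MP_106392_al.CasesD3

/-!
# The case where both cross matrices have rank at least two
-/

set_option autoImplicit false
set_option linter.unusedSimpArgs false

namespace Pool.Agent.MP_106392_al
open Matrix
noncomputable section

namespace CD

variable {F : Type*} [Field F]

lemma cof_mulVec_cross (M : M3 F) (u v : V3 F) :
    cof M *ᵥ (u ⨯₃ v) = (M *ᵥ u) ⨯₃ (M *ᵥ v) := by
  ext i
  fin_cases i <;>
  simp [cof, cross_apply, Matrix.mulVec, dotProduct, Fin.sum_univ_three] <;> ring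

lemma ns_case {r s A B A' B' : M3 ℂ} {G D G' D' : M3 R}
    (hr : cof r ≠ 0) (hs : cof s ≠ 0)
    (h : Half r s A B A' B' G D) (h' : Half s r A' B' A B G' D')
    (hns : ¬ ∃ a : ℂ, r * rᵀ = a • (1 : M3 ℂ)) : Good G D G' D' := by
  obtain ⟨τ, β, e⟩ := structure1 hr hns h.symA (half_c1 h)
  by_cases hβ : β = 0
  · rw [hβ, zero_smul, add_zero] at e
    have hτ : τ ≠ 0 := by
      rintro rfl
      exact ne_zero_of_cof hs (by rw [e, zero_smul])
    exact finish_elliptic hr h h' hτ e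
  by_cases hτ : τ = 0
  · rw [hτ, zero_smul, zero_add] at e
    exact finish_pencil hr hs h h' e
  by_cases hs' : ∃ c : ℂ, s * sᵀ = c • (1 : M3 ℂ)
  · obtain ⟨c, hc⟩ := hs'
    have hc0 : c ≠ 0 := by
      rintro rfl
      exact hs (cof_eq_zero_of_mul_transpose (by rw [hc, zero_smul]))
    have hc' : sᵀ * s = c • (1 : M3 ℂ) := by
      have h1 : s * (c⁻¹ • sᵀ) = 1 := by
        rw [mul_smul_comm, hc, smul_smul, inv_mul_cancel₀ hc0, one_smul]
      have h2 := mul_eq_one_comm.mp h1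
      rw [smul_mul_assoc] at h2
      rw [← h2, smul_smul, mul_inv_cancel₀ hc0, one_smul]
    obtain ⟨p, q, hq⟩ := quadratic_b hβ e hc'
    obtain ⟨k, a, b, hk, hb, hH⟩ := axial_of_quadratic (mul_transpose_symm r) hns hq
    have ha : a ≠ 0 := by
      rintro rfl
      rw [zero_smul, zero_add] at hH
      have hcH : cof r * (cof r)ᵀ = 0 := by
        rw [← cof_transpose, ← cof_mul, hH, cof_smul', cof_out, smul_zero]
      have hd : r.det = 0 := by
        have h1 := mul_cof_transpose (r * rᵀ)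
        rw [cof_mul, cof_transpose, hcH, transpose_zero, mul_zero, Matrix.det_mul,
          Matrix.det_transpose] at h1
        have h2 := congrFun (congrFun h1 0) 0
        simp at h2
        exact h2
      obtain ⟨n, w, hn, hw, hcn, h1, h2⟩ := rank_two hd hr
      have hww : w ⬝ᵥ w = 0 := by
        rw [hcn, out_mul_transpose] at hcH
        exact (smul_eq_zero.mp hcH).resolve_right (out_ne_zero hn hn)
      have hsw : sᵀ *ᵥ w = 0 := by
        rw [e, transpose_add, transpose_smul, transpose_smul, transpose_transpose,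
          transpose_transpose, add_mulVec, smul_mulVec, smul_mulVec, h2, hcn, out_mulVec', hww,
          zero_smul, smul_zero, smul_zero, add_zero]
      have h3 : (s * sᵀ) *ᵥ w = 0 := by rw [← mulVec_mulVec, hsw, mulVec_zero]
      rw [hc, smul_mulVec, one_mulVec] at h3
      exact hw ((smul_eq_zero.mp h3).resolve_left hc0)
    exact ns_axial hr hs h h' e ha hH
  · obtain ⟨τ', β', e'⟩ := structure1 hs hs' h'.symA (half_c1 h')
    obtain ⟨hβ', p, q, hq⟩ := quadratic_a hr hns hτ hβ e e'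
    obtain ⟨k, a, b, hk, hb, hH⟩ := axial_of_quadratic (mul_transpose_symm r) hns hq
    by_cases ha : a = 0
    · rw [ha, zero_smul, zero_add] at hH
      exact ns_iso hr hs h h' hτ hβ hβ' e e' hk hb hH
    · exact ns_axial hr hs h h' e ha hH

lemma sc_case {r s A B A' B' : M3 ℂ} {G D G' D' : M3 R}
    (hr : cof r ≠ 0) (hs : cof s ≠ 0)
    (h : Half r s A B A' B' G D) (h' : Half s r A' B' A B G' D')
    {c : ℂ} (hsc : r * rᵀ = c • (1 : M3 ℂ)) : Good G D G' D' := by
  have hc0 : c ≠ 0 := by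
    rintro rfl
    exact hr (cof_eq_zero_of_mul_transpose (by rw [hsc, zero_smul]))
  obtain ⟨O, e₁, hO, hO', he₁, er⟩ := conformal hc0 hsc
  have hOO : O * Oᵀ = 1 := mul_eq_one_comm.mp hO
  have hcO := cof_rot hO hO'
  have hcross : ∀ u v : V3 ℂ, O *ᵥ (u ⨯₃ v) = (O *ᵥ u) ⨯₃ (O *ᵥ v) := by
    intro u v
    rw [← cof_mulVec_cross, hcO]
  obtain ⟨T, hT⟩ : ∃ T : M3 ℂ, T = O * s := ⟨_, rfl⟩
  have hsT : s = Oᵀ * T := by rw [hT, ← Matrix.mul_assoc, hO, one_mul]
  have hTA : ∀ x : V3 ℂ, x ⨯₃ ((T + A) *ᵥ x) = 0 := by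
    intro x
    have h1 := half_c1 h x
    rw [er, transpose_smul, smul_mulVec, smul_mulVec, map_smul] at h1
    have h2 : (s *ᵥ x) ⨯₃ (Oᵀ *ᵥ x) = Oᵀ *ᵥ (x ⨯₃ (A *ᵥ x)) := by
      have := congrArg (fun v => e₁⁻¹ • v) h1
      simpa only [smul_smul, inv_mul_cancel₀ he₁, one_smul] using this
    have h3 := congrArg (fun v => O *ᵥ v) h2
    simp only [hcross, mulVec_mulVec, hOO, one_mulVec, ← hT] at h3
    rw [add_mulVec, map_add, ← h3, ← cross_anticomm]
    simp
  have hTs := scalar_of_cross hTA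
  have hTsymm : Tᵀ = T := by
    have h1 : T = (T + A) 0 0 • (1 : M3 ℂ) - A := by rw [← hTs, add_sub_cancel_right]
    rw [h1, transpose_sub, transpose_smul, transpose_one, h.symA]
  have hst : sᵀ = T * O := by
    rw [hsT, transpose_mul, transpose_transpose, hTsymm]
  have hAs : (O * A' * Oᵀ)ᵀ = O * A' * Oᵀ := by
    rw [transpose_mul, transpose_mul, transpose_transpose, h'.symA, Matrix.mul_assoc]
  have hz : ∀ z : V3 ℂ, e₁ • (z ⨯₃ (T *ᵥ z)) = T *ᵥ (z ⨯₃ ((O * A' * Oᵀ) *ᵥ z)) := by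
    intro z
    have h1 := half_c1 h' (Oᵀ *ᵥ z)
    rw [er, hst, smul_mulVec, mulVec_mulVec, hOO, one_mulVec, mulVec_mulVec, Matrix.mul_assoc,
      hOO, mul_one, map_smul, LinearMap.smul_apply, ← mulVec_mulVec, hcross, mulVec_mulVec, hOO,
      one_mulVec, mulVec_mulVec, mulVec_mulVec] at h1
    exact h1
  by_cases hTsc : ∃ t : ℂ, T = t • (1 : M3 ℂ)
  · obtain ⟨t, ht⟩ := hTsc
    have hs2 : s = (t / e₁) • rᵀ := by
      rw [hsT, ht, er, mul_smul_comm, mul_one, transpose_smul, smul_smul,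
        div_mul_cancel₀ _ he₁]
    have hτ : t / e₁ ≠ 0 := by
      intro h0
      exact ne_zero_of_cof hs (by rw [hs2, h0, zero_smul])
    exact finish_elliptic hr h h' hτ hs2
  have hdet : ∀ z : V3 ℂ, z ⬝ᵥ ((T *ᵥ z) ⨯₃ ((O * A' * Oᵀ) *ᵥ z)) = 0 := by
    intro z
    have h1 : z ⬝ᵥ (T *ᵥ (z ⨯₃ ((O * A' * Oᵀ) *ᵥ z))) = 0 := by
      rw [← hz z, dotProduct_smul, dot_self_cross, smul_zero]
    have h2 : z ⬝ᵥ (T *ᵥ (z ⨯₃ ((O * A' * Oᵀ) *ᵥ z))) =
        (T *ᵥ z) ⬝ᵥ (z ⨯₃ ((O * A' * Oᵀ) *ᵥ z)) := by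
      rw [dotProduct_mulVec, ← mulVec_transpose, hTsymm]
    rw [h2] at h1
    rw [← neg_eq_zero, ← h1]
    generalize (O * A' * Oᵀ) *ᵥ z = u
    generalize T *ᵥ z = v
    simp [cross_apply, dotProduct, Fin.sum_univ_three]
    ring
  rcases dependent_of_det hTsymm hAs hdet with h1 | ⟨a, μ, h1⟩
  · exact absurd h1 hTsc
  have hq : ∀ z : V3 ℂ, z ⨯₃ ((e₁ • T + μ • cof T) *ᵥ z) = 0 := by
    intro z
    have h2 := hz z
    rw [h1, add_mulVec, smul_mulVec, smul_mulVec, one_mulVec, map_add, map_smul, map_smul,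
      cross_self, smul_zero, zero_add, mulVec_smul, symm_cross hTsymm] at h2
    rw [add_mulVec, smul_mulVec, smul_mulVec, map_add, map_smul, map_smul, h2,
      ← cross_anticomm, smul_neg, neg_add_cancel]
  have hq2 := scalar_of_cross hq
  have hμ : μ ≠ 0 := by
    rintro rfl
    rw [zero_smul, add_zero] at hq2
    refine hTsc ⟨e₁⁻¹ * (e₁ • T) 0 0, ?_⟩
    rw [mul_smul, ← hq2, smul_smul, inv_mul_cancel₀ he₁, one_smul]
  rw [cof_symm_eq hTsymm] at hq2
  generalize (e₁ • T + μ • (T * T - T.trace • T + (cof T).trace • (1 : M3 ℂ))) 0 0 = t₁ at hq2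
  have hquad : T * T = (T.trace - e₁ / μ) • T + (t₁ / μ - (cof T).trace) • (1 : M3 ℂ) := by
    ext i j
    have k := congrFun (congrFun hq2 i) j
    simp only [Matrix.add_apply, Matrix.smul_apply, smul_eq_mul, Matrix.sub_apply] at k ⊢
    field_simp
    linear_combination k
  obtain ⟨k, a', b', hk, hb, hTT⟩ := axial_of_quadratic hTsymm hTsc hquad
  have ha' : a' ≠ 0 := by
    rintro rfl
    rw [zero_smul, zero_add] at hTT
    apply hs
    rw [hsT, hTT, cof_mul, cof_smul', cof_out, smul_zero, mul_zero]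
  refine finish_axial hr hs h h' hO hO' (e₁ := e₁) (e₂ := a') (k := k) (b := 0) (c := b' / a')
    ?_ ?_
  · rw [zero_smul, add_zero, one_mul, er]
  · rw [hsT, hTT, ← mul_smul_comm, smul_add, smul_smul, mul_div_cancel₀ _ ha']

end CD

theorem case_two_two {r s A B A' B' : M3 ℂ} {G D G' D' : M3 R}
    (hr' : cof r ≠ 0) (hs' : cof s ≠ 0)
    (h : Half r s A B A' B' G D) (h' : Half s r A' B' A B G' D') : Good G D G' D' := by
  by_cases hns : ∃ a : ℂ, r * rᵀ = a • (1 : M3 ℂ)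
  · obtain ⟨c, hc⟩ := hns
    exact CD.sc_case hr' hs' h h' hc
  · exact CD.ns_case hr' hs' h h' hns

end
end Pool.Agent.MP_106392_al
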