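import Pool.Agent.MP_106392_al.NId
import Pool.Agent.MP_106392_al.LinA
import Pool.Agent.MP_106392_al.LinB
import Pool.Agent.MP_106392_al.SeriesB

/-!
# The case where both cross matrices have rank at least two
-/

set_option autoImplicit false
set_option linter.unusedSimpArgs false

namespace Pool.Agent.MP_106392_al
open Matrix
noncomputable section

namespace CD

variable {F : Type*} [Field F]

lemma cof_transpose (r : M3 F) : cof rᵀ = (cof r)ᵀ := by
  ext i j
  fin_cases i <;> fin_cases j <;> simp [cof] <;> ring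

lemma cof_smul' (t : F) (r : M3 F) : cof (t • r) = t ^ 2 • cof r := by
  ext i j
  fin_cases i <;> fin_cases j <;> simp [cof] <;> ring

lemma cof_mul (a b : M3 F) : cof (a * b) = cof a * cof b := by
  ext i j
  fin_cases i <;> fin_cases j <;> simp [cof, Matrix.mul_apply, Fin.sum_univ_three] <;> ring

lemma cof_cof (r : M3 F) : cof (cof r) = r.det • r := by
  ext i j
  fin_cases i <;> fin_cases j <;> simp [cof, Matrix.det_fin_three] <;> ring

lemma cof_zero' : cof (0 : M3 F) = 0 := by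
  ext i j
  fin_cases i <;> fin_cases j <;> simp [cof]

lemma cof_one' : cof (1 : M3 F) = 1 := by
  ext i j
  fin_cases i <;> fin_cases j <;> simp [cof]

lemma mul_cof_transpose (r : M3 F) : r * (cof r)ᵀ = r.det • (1 : M3 F) := by
  ext i j
  fin_cases i <;> fin_cases j <;>
    simp [cof, Matrix.mul_apply, Fin.sum_univ_three, Matrix.det_fin_three] <;> ring

lemma cof_mul_transpose (r : M3 F) : cof r * rᵀ = r.det • (1 : M3 F) := by
  ext i j
  fin_cases i <;> fin_cases j <;>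
    simp [cof, Matrix.mul_apply, Fin.sum_univ_three, Matrix.det_fin_three] <;> ring

/-- `cof (x r + y cof r)` -/
lemma cof_comb (r : M3 F) (x y : F) : cof (x • r + y • cof r) =
    x ^ 2 • cof r + (x * y) • (((r * rᵀ).trace • (1 : M3 F) - r * rᵀ) * r) +
      (y ^ 2 * r.det) • r := by
  ext i j
  fin_cases i <;> fin_cases j <;>
    simp [cof, Matrix.mul_apply, Fin.sum_univ_three, Matrix.det_fin_three, Matrix.trace_fin_three]
      <;> ring

/-- Cayley-Hamilton form of the cofactor matrix of a symmetric matrix -/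
lemma cof_symm_eq {H : M3 F} (hH : Hᵀ = H) : cof H = H * H - H.trace • H +
    (cof H).trace • (1 : M3 F) := by
  have h01 : H 1 0 = H 0 1 := congrFun (congrFun hH 0) 1
  have h02 : H 2 0 = H 0 2 := congrFun (congrFun hH 0) 2
  have h12 : H 2 1 = H 1 2 := congrFun (congrFun hH 1) 2
  ext i j
  fin_cases i <;> fin_cases j <;>
    simp [cof, Matrix.mul_apply, Fin.sum_univ_three, Matrix.trace_fin_three, h01, h02, h12]
      <;> ring

lemma id1 (r : M3 F) (x : V3 F) :
    rᵀ *ᵥ (x ⨯₃ ((r * rᵀ) *ᵥ x)) = ((cof r)ᵀ *ᵥ x) ⨯₃ (rᵀ *ᵥ x) := by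
  ext i
  fin_cases i <;>
  simp [cof, cross_apply, Matrix.mulVec, dotProduct, Fin.sum_univ_three, Matrix.mul_apply] <;> ring

lemma symm_cross {H : M3 F} (hH : Hᵀ = H) (x : V3 F) :
    H *ᵥ (x ⨯₃ (H *ᵥ x)) = (cof H *ᵥ x) ⨯₃ x := by
  have h01 : H 1 0 = H 0 1 := congrFun (congrFun hH 0) 1
  have h02 : H 2 0 = H 0 2 := congrFun (congrFun hH 0) 2
  have h12 : H 2 1 = H 1 2 := congrFun (congrFun hH 1) 2
  ext i
  fin_cases i <;>
  simp [cof, cross_apply, Matrix.mulVec, dotProduct, Fin.sum_univ_three, h01, h02, h12] <;> ring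

lemma mul_transpose_symm (r : M3 F) : (r * rᵀ)ᵀ = r * rᵀ := by
  rw [transpose_mul, transpose_transpose]

/-- structure of `s` when `r rᵀ` is not scalar -/
lemma structure1 [CharZero F] {r s A : M3 F} (hr : cof r ≠ 0) (hns : ¬ ∃ a : F, r * rᵀ = a • (1 : M3 F))
    (hA : Aᵀ = A) (c1 : ∀ x : V3 F, (s *ᵥ x) ⨯₃ (rᵀ *ᵥ x) = rᵀ *ᵥ (x ⨯₃ (A *ᵥ x))) :
    ∃ τ β : F, s = τ • rᵀ + β • (cof r)ᵀ := by
  have hdet : ∀ x : V3 F, x ⬝ᵥ (((r * rᵀ) *ᵥ x) ⨯₃ (A *ᵥ x)) = 0 := by
    intro x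
    have e1 : x ⬝ᵥ (((r * rᵀ) *ᵥ x) ⨯₃ (A *ᵥ x)) =
        - ((rᵀ *ᵥ x) ⬝ᵥ (rᵀ *ᵥ (x ⨯₃ (A *ᵥ x)))) := by
      simp [cross_apply, Matrix.mulVec, dotProduct, Fin.sum_univ_three, Matrix.mul_apply]
      ring
    rw [e1, ← c1 x]
    have := dot_cross_self (s *ᵥ x) (rᵀ *ᵥ x)
    rw [this, neg_zero]
  rcases dependent_of_det (mul_transpose_symm r) hA hdet with h | ⟨a, t, h⟩
  · exact absurd h hns
  have hx : ∀ x : V3 F, ((s - t • (cof r)ᵀ) *ᵥ x) ⨯₃ (rᵀ *ᵥ x) = 0 := by
    intro x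
    rw [sub_mulVec, smul_mulVec, map_sub, LinearMap.sub_apply, map_smul, LinearMap.smul_apply,
      c1 x, ← id1, h]
    rw [add_mulVec, smul_mulVec, smul_mulVec, one_mulVec, map_add, map_smul, map_smul,
      cross_self, smul_zero, zero_add, mulVec_smul, sub_self]
  obtain ⟨τ, hτ⟩ := eq_smul_of_cross (ρ := rᵀ) (by
    rw [cof_transpose]
    intro hc
    apply hr
    rw [← transpose_transpose (cof r), hc, transpose_zero]) hx
  exact ⟨τ, t, by rw [← hτ, sub_add_cancel]⟩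

end CD

end
end Pool.Agent.MP_106392_al
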