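import Pool.Agent.MP_106392_al.NIdA
import Pool.Agent.MP_106392_al.NIdB

/-!
# All constants of the list satisfy the constant identities
-/

set_option autoImplicit false
namespace Pool.Agent.MP_106392_al
open Matrix
noncomputable section

theorem Consts.nid {r s A B A' B' : M3 ℂ} {κ : ℂ} {Y : M3 ℂ} {κ' : ℂ} {Y' : M3 ℂ}
    (h : Consts r s A B A' B' κ Y κ' Y') :
    NId r s A B A' B' κ Y ∧ NId s r A' B' A B κ' Y' := by
  induction h with
  | swap _ ih => exact NIdA.swap ih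
  | one n v e₁ e₂ α β α' β' => exact NIdA.one n v e₁ e₂ α β α' β'
  | oneL n v α β A' hA' => exact NIdA.oneL n v α β A' hA'
  | pencil r₀ hr e₁ e₂ => exact NIdA.pencil r₀ hr e₁ e₂
  | degenerate n h p q m hn hn0 hm0 hm1 α' β => exact NIdA.degenerate n h p q m hn hm0 hm1 α' β
  | nilOne n p v m c hn hm hc α α' => exact NIdB.nilOne n p v m c hn hm α α'
  | nilTwo n p w v c c' hn hw hc hc' α α' => exact NIdB.nilTwo n p w v c c' hn hw hc hc' α α'
  | axial O hO hO' n e₁ e₂ b c => exact NIdB.axial O hO hO' n e₁ e₂ b c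
  | isotropic n h v k hn hn0 hv hv0 q₁ q₂ p₁ p₂ e₁ e₂ y₁ y₂ r₀ hr₀ x₁ x₂ hx₁ hx₂ =>
    exact NIdB.isotropic hn hn0 hv hv0 q₁ q₂ p₁ p₂ e₁ e₂ y₁ y₂ r₀ hr₀ x₁ x₂ hx₁ hx₂

end
end Pool.Agent.MP_106392_al
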