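import Pool.Agent.MP_106392_al.CasesD0
import Pool.Agent.MP_106392_al.NIdAll
import Pool.Agent.MP_106392_al.SeriesE

/-!
# The case where both cross matrices have rank at least two: finishing lemmas
-/

set_option autoImplicit false
set_option linter.unusedSimpArgs false

namespace Pool.Agent.MP_106392_al
open Matrix
noncomputable section

namespace CD

variable {F : Type*} [Field F]

lemma pr_smul_left (t : F) (L Y : M3 F) : pr (t • L) Y = t * pr L Y := by
  simp [pr, Fin.sum_univ_three]; ring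

lemma pr_smul_right (t : F) (L Y : M3 F) : pr L (t • Y) = t * pr L Y := by
  simp [pr, Fin.sum_univ_three]; ring

lemma pr_add_right (L Y Z : M3 F) : pr L (Y + Z) = pr L Y + pr L Z := by
  simp [pr, Fin.sum_univ_three]; ring

lemma pr_sub_right (L Y Z : M3 F) : pr L (Y - Z) = pr L Y - pr L Z := by
  simp [pr, Fin.sum_univ_three]; ring

lemma pr_add_left (L Y Z : M3 F) : pr (L + Y) Z = pr L Z + pr Y Z := by
  simp [pr, Fin.sum_univ_three]; ring

lemma pr_zero_right (L : M3 F) : pr L 0 = 0 := by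
  simp [pr]

lemma pr_transpose (L Y : M3 F) : pr Lᵀ Yᵀ = pr L Y := by
  simp [pr, Fin.sum_univ_three]; ring

lemma pr_single (i j : Fin 3) (a : F) (Y : M3 F) : pr (Matrix.single i j a) Y = a * Y i j := by
  fin_cases i <;> fin_cases j <;> simp [pr, Fin.sum_univ_three, Matrix.single]

/-- a functional with prescribed values -/
lemma exists_pair {M₁ M₂ : M3 F} (h1 : M₁ ≠ 0) (h : ∀ t : F, M₂ = t • M₁ → M₂ = 0) :
    ∃ L : M3 F, pr L M₁ = 1 ∧ pr L M₂ = 0 := by
  by_cases h2 : M₂ = 0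
  · have : ∃ i j, M₁ i j ≠ 0 := by
      by_contra hc
      push Not at hc
      exact h1 (by ext i j; exact hc i j)
    obtain ⟨i, j, hij⟩ := this
    refine ⟨Matrix.single i j (M₁ i j)⁻¹, ?_, ?_⟩
    · rw [pr_single, inv_mul_cancel₀ hij]
    · rw [h2, pr_zero_right]
  · have : ∃ i j k l, M₁ i j * M₂ k l - M₁ k l * M₂ i j ≠ 0 := by
      by_contra hc
      push Not at hc
      have : ∃ i j, M₁ i j ≠ 0 := by
        by_contra hc
        push Not at hc
        exact h1 (by ext i j; exact hc i j)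
      obtain ⟨i, j, hij⟩ := this
      refine h2 (h (M₂ i j / M₁ i j) ?_)
      ext k l
      rw [Matrix.smul_apply, smul_eq_mul]
      have := hc i j k l
      field_simp
      linear_combination this
    obtain ⟨i, j, k, l, hΔ⟩ := this
    refine ⟨(M₁ i j * M₂ k l - M₁ k l * M₂ i j)⁻¹ •
      (Matrix.single i j (M₂ k l) + Matrix.single k l (- M₂ i j)), ?_, ?_⟩
    · rw [pr_smul_left, pr_add_left, pr_single, pr_single]
      field_simp
      ring
    · rw [pr_smul_left, pr_add_left, pr_single, pr_single]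
      ring

lemma ne_zero_of_cof {r : M3 F} (h : cof r ≠ 0) : r ≠ 0 := by
  rintro rfl
  exact h cof_zero'

lemma cof_out (a b : V3 F) : cof (out a b) = 0 := by
  ext i j
  fin_cases i <;> fin_cases j <;> simp [cof, out, Matrix.vecMulVec_apply] <;> ring

lemma cof_out_add (a b c d : V3 F) : cof (out a b + out c d) = out (a ⨯₃ c) (b ⨯₃ d) := by
  ext i j
  fin_cases i <;> fin_cases j <;>
    simp [cof, out, Matrix.vecMulVec_apply, cross_apply] <;> ring

lemma cof_cof_eq_zero {r : M3 F} (h : r.det = 0) : cof (cof r) = 0 := by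
  rw [cof_cof, h, zero_smul]

lemma cof_rot {O : M3 ℂ} (hO : Oᵀ * O = 1) (hO' : O.det = 1) : cof O = O := by
  have h1 := mul_cof_transpose Oᵀ
  rw [Matrix.det_transpose, hO', one_smul, cof_transpose, transpose_transpose] at h1
  have h2 : O * Oᵀ = 1 := mul_eq_one_comm.mp hO
  calc cof O = (O * Oᵀ) * cof O := by rw [h2, one_mul]
    _ = O * (Oᵀ * cof O) := by rw [Matrix.mul_assoc]
    _ = O := by rw [h1, mul_one]

lemma finish_elliptic {r s A B A' B' : M3 ℂ} {G D G' D' : M3 R}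
    (hr : cof r ≠ 0) (h : Half r s A B A' B' G D) (h' : Half s r A' B' A B G' D')
    {τ : ℂ} (hτ : τ ≠ 0) (hs : s = τ • rᵀ) : Good G D G' D' := by
  have e1 : Half ((1 : ℂ) • r) (τ • rᵀ) A B A' B' G D := by rw [one_smul, ← hs]; exact h
  have e2 : Half (τ • rᵀ) ((1 : ℂ) • rᵀᵀ) A' B' A B G' D' := by
    rw [one_smul, ← hs, transpose_transpose]; exact h'
  have hrt : cof rᵀ ≠ 0 := by
    rw [cof_transpose]
    intro hc
    apply hr
    rw [← transpose_transpose (cof r), hc, transpose_zero]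
  obtain ⟨w, hw, g1, g2⟩ := elliptic_sol hr one_ne_zero e1
  obtain ⟨w', hw', g1', g2'⟩ := elliptic_sol hrt hτ e2
  refine ⟨w, w', hw, hw', ?_⟩
  rw [g1, g2, g1', g2']
  exact Listed.elliptic r 1 τ

lemma finish_consts {r s A B A' B' A₁ B₁ A₁' B₁' Y Y' : M3 ℂ} {κ κ' : ℂ} {G D G' D' : M3 R}
    (hr : cof r ≠ 0) (hs : cof s ≠ 0)
    (h : Half r s A B A' B' G D) (h' : Half s r A' B' A B G' D')
    (hc : Consts r s A₁ B₁ A₁' B₁' κ Y κ' Y')
    (hL : ∃ L : M3 ℂ, pr L r = 1 ∧ (pr L Y = 0 ∨ pr L Y = κ))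
    (hL' : ∃ L : M3 ℂ, pr L s = 1 ∧ (pr L Y' = 0 ∨ pr L Y' = κ')) : Good G D G' D' := by
  obtain ⟨L, l1, l2⟩ := hL
  obtain ⟨L', l1', l2'⟩ := hL'
  obtain ⟨n1, n2⟩ := Consts.nid hc
  obtain ⟨w, hw, g1, g2⟩ := rankTwo_sol hr h n1 l1 l2
  obtain ⟨w', hw', g1', g2'⟩ := rankTwo_sol hs h' n2 l1' l2'
  refine ⟨w, w', hw, hw', ?_⟩
  rw [g1, g2, g1', g2']
  exact Listed.nonelliptic hc

lemma finish_pencil {r s A B A' B' : M3 ℂ} {G D G' D' : M3 R}
    (hr : cof r ≠ 0) (hs : cof s ≠ 0)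
    (h : Half r s A B A' B' G D) (h' : Half s r A' B' A B G' D')
    {β : ℂ} (e : s = β • (cof r)ᵀ) : Good G D G' D' := by
  have hd : r.det ≠ 0 := by
    intro hd
    apply hs
    rw [e, cof_smul', cof_transpose, cof_cof, hd, zero_smul, transpose_zero, smul_zero]
  have hc := Consts.pencil r hd 1 β
  rw [one_smul, ← e] at hc
  refine finish_consts hr hs h h' hc ?_ ?_
  · obtain ⟨L, l1, l2⟩ := exists_pair (M₂ := 0) (ne_zero_of_cof hr) (fun _ _ => rfl)
    exact ⟨L, l1, Or.inl l2⟩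
  · obtain ⟨L, l1, l2⟩ := exists_pair (M₂ := 0) (ne_zero_of_cof hs) (fun _ _ => rfl)
    exact ⟨L, l1, Or.inl l2⟩

lemma finish_axial {r s A B A' B' O : M3 ℂ} {G D G' D' : M3 R} {k : V3 ℂ} {e₁ e₂ b c : ℂ}
    (hr : cof r ≠ 0) (hs : cof s ≠ 0)
    (h : Half r s A B A' B' G D) (h' : Half s r A' B' A B G' D')
    (hO : Oᵀ * O = 1) (hO' : O.det = 1)
    (er : r = e₁ • ((1 + b • out k k) * O)) (es : s = e₂ • (Oᵀ * (1 + c • out k k))) :
    Good G D G' D' := by
  have he₁ : e₁ ≠ 0 := by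
    rintro rfl
    exact ne_zero_of_cof hr (by rw [er, zero_smul])
  have he₂ : e₂ ≠ 0 := by
    rintro rfl
    exact ne_zero_of_cof hs (by rw [es, zero_smul])
  have hO2 : O ≠ 0 := by
    rintro rfl
    rw [Matrix.det_zero] at hO'
    exact zero_ne_one hO'
  obtain ⟨L, l1, l2⟩ := exists_pair (M₁ := O) (M₂ := out k k * O) hO2 (by
    intro t ht
    by_contra hne
    have ht0 : t ≠ 0 := by
      rintro rfl
      exact hne (by rw [ht, zero_smul])
    have := congrArg cof ht
    rw [cof_mul, cof_out, zero_mul, cof_smul', cof_rot hO hO'] at this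
    have h3 := (smul_eq_zero.mp this.symm).resolve_left (pow_ne_zero 2 ht0)
    exact hO2 h3)
  have hc := Consts.axial O hO hO' k e₁ e₂ b c
  rw [← er, ← es] at hc
  refine finish_consts hr hs h h' hc ?_ ?_
  · refine ⟨e₁⁻¹ • L, ?_, Or.inr ?_⟩
    · rw [er, add_mul, one_mul, smul_mul_assoc, pr_smul_left, pr_smul_right, pr_add_right,
        pr_smul_right, l1, l2]
      field_simp
      ring
    · rw [sub_mul, smul_mul_assoc, smul_mul_assoc, one_mul, pr_smul_left, pr_smul_right,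
        pr_sub_right, pr_smul_right, pr_smul_right, l1, l2]
      field_simp
      ring
  · have l1' : pr Lᵀ Oᵀ = 1 := by rw [pr_transpose, l1]
    have hkk : (out k k)ᵀ = out k k := by
      rw [out, transpose_vecMulVec]
    have l2' : pr Lᵀ (Oᵀ * out k k) = 0 := by
      rw [← l2, ← pr_transpose L, transpose_mul, hkk]
    refine ⟨e₂⁻¹ • Lᵀ, ?_, Or.inr ?_⟩
    · rw [es, mul_add, mul_one, mul_smul_comm, pr_smul_left, pr_smul_right, pr_add_right,
        pr_smul_right, l1', l2']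
      field_simp
      ring
    · rw [mul_sub, mul_smul_comm, mul_smul_comm, mul_one, pr_smul_left, pr_smul_right,
        pr_sub_right, pr_smul_right, pr_smul_right, l1', l2']
      field_simp
      ring

lemma finish_isotropic {r s A B A' B' : M3 ℂ} {G D G' D' : M3 R}
    {n hh w k : V3 ℂ} {q₁ q₂ p₁ p₂ τ β : ℂ}
    (hr : cof r ≠ 0) (hs : cof s ≠ 0)
    (h : Half r s A B A' B' G D) (h' : Half s r A' B' A B G' D')
    (hn0 : n ≠ 0) (hn : n ⨯₃ hh = n) (hw0 : w ≠ 0) (hw : w ⨯₃ k = w)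
    (er : r = out n (q₁ • w + q₂ • k) + out hh (p₁ • w + p₂ • k))
    (es : s = τ • rᵀ + β • (cof r)ᵀ) :
    Good G D G' D' := by
  have hcr : cof r = (q₁ * p₂ - q₂ * p₁) • out n w := by
    rw [er, cof_out_add, hn]
    have : (q₁ • w + q₂ • k) ⨯₃ (p₁ • w + p₂ • k) = (q₁ * p₂ - q₂ * p₁) • (w ⨯₃ k) := by
      ext i
      fin_cases i <;> simp [cross_apply] <;> ring
    rw [this, hw]
    ext i j
    simp [out, Matrix.vecMulVec_apply]
    ring
  have hdet : r.det = 0 := by
    have h1 := cof_cof r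
    rw [hcr, cof_smul', cof_out, smul_zero] at h1
    exact (smul_eq_zero.mp h1.symm).resolve_right (ne_zero_of_cof hr)
  have he : τ + β * p₂ ≠ 0 := by
    intro he
    apply hs
    have hτ : τ = - (β * p₂) := by linear_combination he
    have : s = (β • (cof r - p₂ • r))ᵀ := by
      rw [es, hτ]
      ext i j
      simp
      ring
    rw [this, cof_transpose, cof_smul']
    have h2 : cof r - p₂ • r = - out (q₂ • n + p₂ • hh) (p₁ • w + p₂ • k) := by
      rw [hcr, er]
      ext i j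
      simp [out, Matrix.vecMulVec_apply]
      ring
    have h3 : cof (cof r - p₂ • r) = 0 := by
      rw [h2, ← neg_one_smul ℂ, cof_smul', cof_out, smul_zero]
    rw [h3, smul_zero, transpose_zero]
  have hc := Consts.isotropic n hh w k hn hn0 hw hw0 q₁ q₂ p₁ p₂ 1 (τ + β * p₂) 0
    (β / (τ + β * p₂)) r er 1 (τ / (τ + β * p₂)) (by ring) (by field_simp; ring)
  have e1 : (1 : ℂ) • ((1 : ℂ) • r + (0 : ℂ) • cof r) = r := by simp
  have e2 : (τ + β * p₂) • ((τ / (τ + β * p₂)) • r + (β / (τ + β * p₂)) • cof r)ᵀ = s := by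
    rw [es]
    ext i j
    simp
    field_simp
  rw [e1, e2] at hc
  refine finish_consts hr hs h h' hc ?_ ?_
  · obtain ⟨L, l1, l2⟩ := exists_pair (M₁ := r) (M₂ := cof r) (ne_zero_of_cof hr) (by
      intro t ht
      by_contra hne
      have ht0 : t ≠ 0 := by
        rintro rfl
        exact hne (by rw [ht, zero_smul])
      have := congrArg cof ht
      rw [cof_cof_eq_zero hdet, cof_smul'] at this
      exact hr ((smul_eq_zero.mp this.symm).resolve_left (pow_ne_zero 2 ht0)))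
    exact ⟨L, l1, Or.inl (by rw [pr_smul_right, l2, mul_zero])⟩
  · obtain ⟨L, l1, l2⟩ := exists_pair (M₁ := s) (M₂ := (cof r)ᵀ) (ne_zero_of_cof hs) (by
      intro t ht
      by_contra hne
      have ht0 : t ≠ 0 := by
        rintro rfl
        exact hne (by rw [ht, zero_smul])
      have := congrArg cof ht
      rw [cof_transpose, cof_cof_eq_zero hdet, transpose_zero, cof_smul'] at this
      exact hs ((smul_eq_zero.mp this.symm).resolve_left (pow_ne_zero 2 ht0)))
    exact ⟨L, l1, Or.inl (by rw [pr_smul_right, l2, mul_zero])⟩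

end CD

end
end Pool.Agent.MP_106392_al
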