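import Pool.Agent.MP_106392_al.CasesD1

/-!
# The case where both cross matrices have rank at least two
-/

set_option autoImplicit false
set_option linter.unusedSimpArgs false

namespace Pool.Agent.MP_106392_al
open Matrix
noncomputable section

namespace CD

variable {F : Type*} [Field F]

/-- a matrix of rank at least two is not annihilated by its transpose -/
lemma cof_eq_zero_of_mul_transpose {r : M3 F} (h : r * rᵀ = 0) : cof r = 0 := by
  have key : ∀ a b : V3 F, a ⬝ᵥ a = 0 → b ⬝ᵥ b = 0 → a ⬝ᵥ b = 0 → a ⨯₃ b = 0 := by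
    intro a b ha hb hab
    simp only [dotProduct, Fin.sum_univ_three] at ha hb hab
    have z0 : (a 1 * b 2 - a 2 * b 1) ^ 2 = 0 := by
      linear_combination (b 1 ^ 2 + b 2 ^ 2) * ha - a 0 ^ 2 * hb + a 0 * b 0 * hab
        - (a 1 * b 1 + a 2 * b 2) * hab
    have z1 : (a 2 * b 0 - a 0 * b 2) ^ 2 = 0 := by
      linear_combination (b 2 ^ 2 + b 0 ^ 2) * ha - a 1 ^ 2 * hb + a 1 * b 1 * hab
        - (a 2 * b 2 + a 0 * b 0) * hab
    have z2 : (a 0 * b 1 - a 1 * b 0) ^ 2 = 0 := by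
      linear_combination (b 0 ^ 2 + b 1 ^ 2) * ha - a 2 ^ 2 * hb + a 2 * b 2 * hab
        - (a 0 * b 0 + a 1 * b 1) * hab
    have w0 := pow_eq_zero_iff (two_ne_zero) |>.mp z0
    have w1 := pow_eq_zero_iff (two_ne_zero) |>.mp z1
    have w2 := pow_eq_zero_iff (two_ne_zero) |>.mp z2
    ext i
    fin_cases i
    · simpa [cross_apply] using w0
    · simpa [cross_apply] using w1
    · simpa [cross_apply] using w2
  have hd : ∀ i j, (fun l => r i l) ⬝ᵥ (fun l => r j l) = 0 := by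
    intro i j
    have := congrFun (congrFun h i) j
    simpa [Matrix.mul_apply, dotProduct] using this
  have k12 := key _ _ (hd 1 1) (hd 2 2) (hd 1 2)
  have k20 := key _ _ (hd 2 2) (hd 0 0) (hd 2 0)
  have k01 := key _ _ (hd 0 0) (hd 1 1) (hd 0 1)
  ext i j
  have a0 := congrFun k12 j
  have a1 := congrFun k20 j
  have a2 := congrFun k01 j
  fin_cases i <;> fin_cases j <;> simp [cross_apply] at a0 a1 a2 <;> simp [cof, a0, a1, a2]

/-- quadratic equation for `H = r rᵀ` when `r` and `s` are tied by both structure equations -/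
lemma quadratic_a {r s : M3 F} (hr : cof r ≠ 0) (hns : ¬ ∃ a : F, r * rᵀ = a • (1 : M3 F))
    {τ β τ' β' : F} (hτ : τ ≠ 0) (hβ : β ≠ 0) (e : s = τ • rᵀ + β • (cof r)ᵀ)
    (e' : r = τ' • sᵀ + β' • (cof s)ᵀ) :
    β' ≠ 0 ∧ ∃ p q : F, (r * rᵀ) * (r * rᵀ) = p • (r * rᵀ) + q • (1 : M3 F) := by
  have hst : sᵀ = τ • r + β • cof r := by
    rw [e, transpose_add, transpose_smul, transpose_smul, transpose_transpose,
      transpose_transpose]
  have hcs : (cof s)ᵀ = τ ^ 2 • cof r + (τ * β) • (((r * rᵀ).trace • (1 : M3 F) - r * rᵀ) * r) +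
      (β ^ 2 * r.det) • r := by
    rw [← cof_transpose, hst, cof_comb]
  have key : r * rᵀ = τ' • (τ • (r * rᵀ) + (β * r.det) • (1 : M3 F)) + β' • ((τ ^ 2 * r.det) • (1 : M3 F)
      + (τ * β) • (((r * rᵀ).trace • (1 : M3 F) - r * rᵀ) * (r * rᵀ)) +
      (β ^ 2 * r.det) • (r * rᵀ)) := by
    conv_lhs => rw [show r * rᵀ = (τ' • sᵀ + β' • (cof s)ᵀ) * rᵀ by rw [← e']]
    rw [hst, hcs]
    simp only [add_mul, smul_mul_assoc, cof_mul_transpose, Matrix.mul_assoc, smul_smul]
  have hb : β' ≠ 0 := by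
    rintro rfl
    rw [zero_smul, add_zero] at e'
    have h1 : (1 - τ' * τ) • r = (τ' * β) • cof r := by
      rw [hst] at e'
      rw [sub_smul, one_smul, sub_eq_iff_eq_add]
      nth_rw 1 [e']
      rw [smul_add, smul_smul, smul_smul, add_comm]
    have hτ' : τ' ≠ 0 := by
      rintro rfl
      rw [zero_smul] at e'
      exact ne_zero_of_cof hr e'
    have h2 : cof r = ((1 - τ' * τ) / (τ' * β)) • r := by
      rw [div_eq_inv_mul, mul_smul, h1, smul_smul, inv_mul_cancel₀ (mul_ne_zero hτ' hβ), one_smul]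
    have h3 := cof_mul_transpose r
    rw [h2, smul_mul_assoc] at h3
    have h4 : (1 - τ' * τ) / (τ' * β) ≠ 0 := by
      intro h4
      rw [h4, zero_smul] at h2
      exact hr h2
    exact hns ⟨((1 - τ' * τ) / (τ' * β))⁻¹ * r.det, by
      rw [mul_smul, ← h3, smul_smul, inv_mul_cancel₀ h4, one_smul]⟩
  refine ⟨hb, (τ' * τ + β' * τ * β * (r * rᵀ).trace + β' * β ^ 2 * r.det - 1) / (β' * τ * β),
    (τ' * β * r.det + β' * τ ^ 2 * r.det) / (β' * τ * β), ?_⟩
  have hx : β' * τ * β ≠ 0 := mul_ne_zero (mul_ne_zero hb hτ) hβ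
  ext i j
  have k := congrFun (congrFun key i) j
  simp only [Matrix.add_apply, Matrix.smul_apply, smul_eq_mul, sub_mul, Matrix.sub_apply,
    smul_mul_assoc, one_mul] at k ⊢
  field_simp
  linear_combination k

/-- the same if `sᵀ s` is scalar -/
lemma quadratic_b {r s : M3 F} {τ β c : F} (hβ : β ≠ 0) (e : s = τ • rᵀ + β • (cof r)ᵀ)
    (hc : sᵀ * s = c • (1 : M3 F)) :
    ∃ p q : F, (r * rᵀ) * (r * rᵀ) = p • (r * rᵀ) + q • (1 : M3 F) := by
  have hst : sᵀ = τ • r + β • cof r := by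
    rw [e, transpose_add, transpose_smul, transpose_smul, transpose_transpose,
      transpose_transpose]
  have h1 : sᵀ * s = τ ^ 2 • (r * rᵀ) + (2 * τ * β * r.det) • (1 : M3 F) + β ^ 2 • cof (r * rᵀ) := by
    rw [hst, e, cof_mul, cof_transpose]
    simp only [add_mul, mul_add, smul_mul_assoc, mul_smul_comm, cof_mul_transpose,
      mul_cof_transpose, smul_smul]
    ext i j
    simp only [Matrix.add_apply, Matrix.smul_apply, smul_eq_mul]
    ring
  rw [cof_symm_eq (mul_transpose_symm r), hc] at h1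
  refine ⟨((r * rᵀ).trace * β ^ 2 - τ ^ 2) / β ^ 2,
    (c - 2 * τ * β * r.det - β ^ 2 * (cof (r * rᵀ)).trace) / β ^ 2, ?_⟩
  ext i j
  have k := congrFun (congrFun h1 i) j
  simp only [Matrix.add_apply, Matrix.smul_apply, smul_eq_mul, Matrix.sub_apply] at k ⊢
  field_simp
  linear_combination - k

end CD

end
end Pool.Agent.MP_106392_al
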