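import Pool.Agent.MP_106392_al.CasesD2

/-!
# The case where both cross matrices have rank at least two
-/

set_option autoImplicit false
set_option linter.unusedSimpArgs false

namespace Pool.Agent.MP_106392_al
open Matrix
noncomputable section

namespace CD

variable {F : Type*} [Field F]

lemma cof_ax (k : V3 F) (c : F) : cof ((1 : M3 F) + c • out k k) =
    (1 + c * (k ⬝ᵥ k)) • (1 : M3 F) - c • out k k := by
  ext i j
  fin_cases i <;> fin_cases j <;>
    simp [cof, out, Matrix.vecMulVec_apply, dotProduct, Fin.sum_univ_three] <;> ring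

lemma ns_axial {r s A B A' B' : M3 ℂ} {G D G' D' : M3 R} {k : V3 ℂ} {a b τ β : ℂ}
    (hr : cof r ≠ 0) (hs : cof s ≠ 0)
    (h : Half r s A B A' B' G D) (h' : Half s r A' B' A B G' D')
    (e : s = τ • rᵀ + β • (cof r)ᵀ) (ha : a ≠ 0)
    (hH : r * rᵀ = a • (1 : M3 ℂ) + b • out k k) : Good G D G' D' := by
  obtain ⟨O, e₁, c, hO, hO', he₁, er⟩ := polar ha hH
  have hcr : cof r = e₁ ^ 2 • (((1 + c * (k ⬝ᵥ k)) • (1 : M3 ℂ) - c • out k k) * O) := by
    rw [er, cof_smul', cof_mul, cof_rot hO hO', cof_ax]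
  have hkk : (out k k)ᵀ = out k k := by
    rw [out, transpose_vecMulVec]
  have es : s = Oᵀ * ((τ * e₁ + β * e₁ ^ 2 * (1 + c * (k ⬝ᵥ k))) • (1 : M3 ℂ) +
      (τ * e₁ * c - β * e₁ ^ 2 * c) • out k k) := by
    rw [e, hcr]
    nth_rw 1 [er]
    simp only [transpose_smul, transpose_mul, transpose_add, transpose_sub, transpose_one, hkk]
    simp only [mul_add, mul_sub, mul_smul_comm, mul_one, smul_add, smul_sub, smul_smul]
    ext i j
    simp only [Matrix.add_apply, Matrix.smul_apply, smul_eq_mul, Matrix.sub_apply]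
    ring
  by_cases ha' : τ * e₁ + β * e₁ ^ 2 * (1 + c * (k ⬝ᵥ k)) = 0
  · exfalso
    apply hs
    rw [es, ha', zero_smul, zero_add, cof_mul, cof_smul', cof_out, smul_zero, mul_zero]
  · refine finish_axial hr hs h h' hO hO' er (e₂ := τ * e₁ + β * e₁ ^ 2 * (1 + c * (k ⬝ᵥ k)))
      (c := (τ * e₁ * c - β * e₁ ^ 2 * c) / (τ * e₁ + β * e₁ ^ 2 * (1 + c * (k ⬝ᵥ k)))) ?_
    rw [es, ← mul_smul_comm, smul_add, smul_smul, mul_div_cancel₀ _ ha']

lemma cross_cof_of_ker {r : M3 F} {x : V3 F} (h : rᵀ *ᵥ x = 0) (y : V3 F) :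
    x ⨯₃ (cof r *ᵥ y) = 0 := by
  have h0 := congrFun h 0
  have h1 := congrFun h 1
  have h2 := congrFun h 2
  simp [Matrix.mulVec, dotProduct, Fin.sum_univ_three] at h0 h1 h2
  ext i
  fin_cases i
  · simp [cof, cross_apply, Matrix.mulVec, dotProduct, Fin.sum_univ_three]
    linear_combination (y 1 * r 0 2 - y 2 * r 0 1) * h0 + (y 2 * r 0 0 - y 0 * r 0 2) * h1
      + (y 0 * r 0 1 - y 1 * r 0 0) * h2
  · simp [cof, cross_apply, Matrix.mulVec, dotProduct, Fin.sum_univ_three]
    linear_combination (y 1 * r 1 2 - y 2 * r 1 1) * h0 + (y 2 * r 1 0 - y 0 * r 1 2) * h1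
      + (y 0 * r 1 1 - y 1 * r 1 0) * h2
  · simp [cof, cross_apply, Matrix.mulVec, dotProduct, Fin.sum_univ_three]
    linear_combination (y 1 * r 2 2 - y 2 * r 2 1) * h0 + (y 2 * r 2 0 - y 0 * r 2 2) * h1
      + (y 0 * r 2 1 - y 1 * r 2 0) * h2

lemma out_mulVec' (a b x : V3 F) : out a b *ᵥ x = (b ⬝ᵥ x) • a := by
  ext i
  simp [out, Matrix.mulVec, dotProduct, Fin.sum_univ_three, Matrix.vecMulVec_apply]
  ring

lemma out_mul_transpose (a b : V3 F) : out a b * (out a b)ᵀ = (b ⬝ᵥ b) • out a a := by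
  ext i j
  simp [out, Matrix.mul_apply, dotProduct, Fin.sum_univ_three, Matrix.vecMulVec_apply]
  ring

lemma out_ne_zero {a b : V3 F} (ha : a ≠ 0) (hb : b ≠ 0) : out a b ≠ 0 := by
  intro h
  obtain ⟨i, hi⟩ := Function.ne_iff.mp ha
  obtain ⟨j, hj⟩ := Function.ne_iff.mp hb
  have := congrFun (congrFun h i) j
  simp [out, Matrix.vecMulVec_apply] at this
  rcases this with h | h
  · exact hi h
  · exact hj h

lemma ns_iso {r s A B A' B' : M3 ℂ} {G D G' D' : M3 R} {k : V3 ℂ} {b τ β τ' β' : ℂ}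
    (hr : cof r ≠ 0) (hs : cof s ≠ 0)
    (h : Half r s A B A' B' G D) (h' : Half s r A' B' A B G' D')
    (hτ : τ ≠ 0) (hβ : β ≠ 0) (hβ' : β' ≠ 0)
    (e : s = τ • rᵀ + β • (cof r)ᵀ) (e' : r = τ' • sᵀ + β' • (cof s)ᵀ)
    (hk : k ≠ 0) (hb : b ≠ 0)
    (hH : r * rᵀ = b • out k k) : Good G D G' D' := by
  have hcH : cof r * (cof r)ᵀ = 0 := by
    rw [← cof_transpose, ← cof_mul, hH, cof_smul', cof_out, smul_zero]
  have hd : r.det = 0 := by
    have h1 := mul_cof_transpose (r * rᵀ)
    rw [cof_mul, cof_transpose, hcH, transpose_zero, mul_zero, Matrix.det_mul,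
      Matrix.det_transpose] at h1
    have h2 := congrFun (congrFun h1 0) 0
    simp at h2
    exact h2
  obtain ⟨n, w, hn, hw, hc, h1, h2⟩ := rank_two hd hr
  have hww : w ⬝ᵥ w = 0 := by
    rw [hc, out_mul_transpose] at hcH
    exact (smul_eq_zero.mp hcH).resolve_right (out_ne_zero hn hn)
  have hkn : k ⬝ᵥ n = 0 := by
    have h3 : (r * rᵀ) *ᵥ n = 0 := by rw [← mulVec_mulVec, h1, mulVec_zero]
    rw [hH, smul_mulVec, out_mulVec'] at h3
    exact (smul_eq_zero.mp ((smul_eq_zero.mp h3).resolve_left hb)).resolve_right hk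
  have hnn : n ⬝ᵥ n = 0 := by
    by_contra hnn
    have hst : sᵀ = τ • r + β • cof r := by
      rw [e, transpose_add, transpose_smul, transpose_smul, transpose_transpose,
        transpose_transpose]
    have hcs : (cof s)ᵀ = τ ^ 2 • cof r + (τ * β) • (((r * rᵀ).trace • (1 : M3 ℂ) - r * rᵀ) * r) := by
      rw [← cof_transpose, hst, cof_comb, hd, mul_zero, zero_smul, add_zero]
    have hkr : out k k * r = out k (rᵀ *ᵥ k) := by
      ext i j
      simp [out, Matrix.mul_apply, Fin.sum_univ_three, Matrix.vecMulVec_apply, Matrix.mulVec,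
        dotProduct]
      ring
    have key : r = (τ' * τ) • r + (τ' * β + β' * τ ^ 2) • out n w +
        (β' * τ * β * (r * rᵀ).trace) • r - (β' * τ * β * b) • out k (rᵀ *ᵥ k) := by
      conv_lhs => rw [e', hst, hcs, hc, hH, sub_mul, smul_mul_assoc, smul_mul_assoc, one_mul, hkr]
      rw [hH]
      ext i j
      simp only [Matrix.add_apply, Matrix.smul_apply, smul_eq_mul, Matrix.sub_apply]
      ring
    have z : τ' * β + β' * τ ^ 2 = 0 := by
      obtain ⟨j, hj⟩ := Function.ne_iff.mp hw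
      have hr1 := congrFun h1 j
      have k0 := congrFun (congrFun key 0) j
      have k1 := congrFun (congrFun key 1) j
      have k2 := congrFun (congrFun key 2) j
      simp only [Matrix.add_apply, Matrix.smul_apply, smul_eq_mul, Matrix.sub_apply, out,
        Matrix.vecMulVec_apply] at k0 k1 k2
      simp only [Matrix.mulVec, dotProduct, Fin.sum_univ_three, transpose_apply,
        Pi.zero_apply] at hr1 hkn hnn
      have : (τ' * β + β' * τ ^ 2) * ((n 0 * n 0 + n 1 * n 1 + n 2 * n 2) * w j) = 0 := by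
        linear_combination (-n 0) * k0 - n 1 * k1 - n 2 * k2 +
          (1 - τ' * τ - β' * τ * β * (r * rᵀ).trace) * hr1 + (β' * τ * β * b) *
            ((rᵀ *ᵥ k) j) * hkn
      rcases mul_eq_zero.mp this with h | h
      · exact h
      · rcases mul_eq_zero.mp h with h | h
        · exact absurd h hnn
        · exact absurd h hj
    have key2 : (1 - τ' * τ - β' * τ * β * (r * rᵀ).trace) • r =
        (-(β' * τ * β * b)) • out k (rᵀ *ᵥ k) := by
      rw [z, zero_smul] at key
      ext i j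
      have := congrFun (congrFun key i) j
      simp only [Matrix.add_apply, Matrix.smul_apply, smul_eq_mul, Matrix.sub_apply,
        Matrix.zero_apply] at this ⊢
      linear_combination this
    have μ0 : 1 - τ' * τ - β' * τ * β * (r * rᵀ).trace = 0 := by
      by_contra hμ
      apply hr
      have := congrArg cof key2
      rw [cof_smul', cof_smul', cof_out, smul_zero] at this
      exact (smul_eq_zero.mp this).resolve_left (pow_ne_zero 2 hμ)
    rw [μ0, zero_smul] at key2
    have hc0 : -(β' * τ * β * b) ≠ 0 :=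
      neg_ne_zero.mpr (mul_ne_zero (mul_ne_zero (mul_ne_zero hβ' hτ) hβ) hb)
    have hrk : rᵀ *ᵥ k = 0 := by
      by_contra hrk
      exact out_ne_zero hk hrk ((smul_eq_zero.mp key2.symm).resolve_left hc0)
    obtain ⟨j, hj⟩ := Function.ne_iff.mp hw
    have hx := cross_cof_of_ker hrk (Pi.single j 1)
    rw [hc, out_mulVec', map_smul] at hx
    have hwj : w ⬝ᵥ (Pi.single j (1 : ℂ)) ≠ 0 := by
      rw [dotProduct_single, mul_one]
      exact hj
    have hx' := (smul_eq_zero.mp hx).resolve_left hwj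
    apply hk
    have x0 := congrFun hx' 0
    have x1 := congrFun hx' 1
    have x2 := congrFun hx' 2
    simp [cross_apply] at x0 x1 x2
    simp only [dotProduct, Fin.sum_univ_three] at hkn hnn
    ext i
    fin_cases i
    · have : (n 0 * n 0 + n 1 * n 1 + n 2 * n 2) * k 0 = 0 := by
        linear_combination n 0 * hkn - n 2 * x1 + n 1 * x2
      exact (mul_eq_zero.mp this).resolve_left hnn
    · have : (n 0 * n 0 + n 1 * n 1 + n 2 * n 2) * k 1 = 0 := by
        linear_combination n 1 * hkn + n 2 * x0 - n 0 * x2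
      exact (mul_eq_zero.mp this).resolve_left hnn
    · have : (n 0 * n 0 + n 1 * n 1 + n 2 * n 2) * k 2 = 0 := by
        linear_combination n 2 * hkn - n 1 * x0 + n 0 * x1
      exact (mul_eq_zero.mp this).resolve_left hnn
  obtain ⟨hh, k', q₁, q₂, p₁, p₂, f1, f2, er⟩ := isotropic_form hn hw hc h1 h2 hnn hww
  exact finish_isotropic hr hs h h' hn f1 hw f2 er e

end CD

end
end Pool.Agent.MP_106392_al
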