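import Pool.Agent.MP_106392_al.CasesA
import Pool.Agent.MP_106392_al.CasesB
import Pool.Agent.MP_106392_al.CasesC
import Pool.Agent.MP_106392_al.CasesD

/-!
# The solutions of the coupled system are in the list
-/

set_option autoImplicit false
namespace Pool.Agent.MP_106392_al
open Matrix
noncomputable section

theorem Good.swap {G D G' D' : M3 R} (h : Good G D G' D') : Good G' D' G D := by
  obtain ⟨w, w', hw, hw', hL⟩ := h
  exact ⟨w', w, hw', hw, hL.swap⟩

theorem classify {r s A B A' B' : M3 ℂ} {G D G' D' : M3 R}
    (h : Half r s A B A' B' G D) (h' : Half s r A' B' A B G' D') : Good G D G' D' := by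
  by_cases hr : r = 0
  · by_cases hs : s = 0
    · subst hr hs
      exact case_zero_zero h h'
    · subst hr
      exact (case_s_zero hs h' h).swap
  · by_cases hs : s = 0
    · subst hs
      exact case_s_zero hr h h'
    · by_cases cr : cof r = 0
      · by_cases cs : cof s = 0
        · exact case_one_one hr hs cr cs h h'
        · exact (case_two_one hr cs cr h' h).swap
      · by_cases cs : cof s = 0
        · exact case_two_one hs cr cs h h'
        · exact case_two_two cr cs h h'

end
end Pool.Agent.MP_106392_al
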