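import Pool.Agent.MP_106392_al.Defs0

/-!
# Factoring subalgebras of `so₄((λ))`: the system of equations of one component
-/

set_option autoImplicit false

namespace Pool.Agent.MP_106392_al

open Matrix

noncomputable section

/-- commutator -/
def cm {L : Type*} [Ring L] (X Y : L) : L := X * Y - Y * X

/-- the system of equations for one of the two components.
`r, s, A, B, A', B'` are constant `3×3` matrices, `G, D` are matrices of power series. -/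
structure Half (r s A B A' B' : M3 ℂ) (G D : M3 R) : Prop where
  symA : Aᵀ = A
  symB : Bᵀ = B
  symA' : A'ᵀ = A'
  symB' : B'ᵀ = B'
  symG : Gᵀ = G
  G0 : ev0 G = 1
  D0 : ev0 D = r
  I1 : ∀ x y : V3 R, G *ᵥ ((D *ᵥ y) ⨯₃ x) =
    (cst r *ᵥ y) ⨯₃ x + (PowerSeries.X : R) • (D *ᵥ (y ⨯₃ (cst s *ᵥ x)))
  I2 : ∀ x : V3 R, G *ᵥ (x ⨯₃ ((G - (PowerSeries.X : R) • cst A) *ᵥ x)) =
    ((PowerSeries.X : R) ^ 2) • (x ⨯₃ (cst B *ᵥ x))
  I3 : ∀ y : V3 R, G *ᵥ ((cst r *ᵥ y) ⨯₃ (cof D *ᵥ y) - cof D *ᵥ (y ⨯₃ (cst A' *ᵥ y))) =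
    D *ᵥ (y ⨯₃ (cst B' *ᵥ y))

end

end Pool.Agent.MP_106392_al
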