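import Mathlib

/-!
# Factoring subalgebras of the loop algebra `so₄((λ))`: basic definitions
-/

set_option autoImplicit false

namespace Pool.Agent.MP_106392_al

open Matrix

noncomputable section

/-- `ℂ[[λ]]`. -/
abbrev R := PowerSeries ℂ
/-- `ℂ((λ))`. -/
abbrev K := LaurentSeries ℂ
/-- `3×3` matrices. -/
abbrev M3 (F : Type*) := Matrix (Fin 3) (Fin 3) F
/-- vectors with three entries. -/
abbrev V3 (F : Type*) := Fin 3 → F

/-- the cofactor matrix of a `3×3` matrix (transposed adjugate). -/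
def cof {F : Type*} [CommRing F] (A : M3 F) : M3 F :=
  !![A 1 1 * A 2 2 - A 1 2 * A 2 1, A 1 2 * A 2 0 - A 1 0 * A 2 2, A 1 0 * A 2 1 - A 1 1 * A 2 0;
     A 2 1 * A 0 2 - A 2 2 * A 0 1, A 2 2 * A 0 0 - A 2 0 * A 0 2, A 2 0 * A 0 1 - A 2 1 * A 0 0;
     A 0 1 * A 1 2 - A 0 2 * A 1 1, A 0 2 * A 1 0 - A 0 0 * A 1 2, A 0 0 * A 1 1 - A 0 1 * A 1 0]

/-- constant matrices inside matrices of power series. -/
def cst (A : M3 ℂ) : M3 R := A.map (PowerSeries.C (R := ℂ))

/-- the value at `λ = 0` of a matrix of power series. -/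
def ev0 (A : M3 R) : M3 ℂ := A.map (PowerSeries.constantCoeff (R := ℂ))

/-- power series as Laurent series. -/
def toK : R →+* K := HahnSeries.ofPowerSeries ℤ ℂ

/-- `λ⁻¹` as a Laurent series. -/
def lamInv : K := HahnSeries.single (-1 : ℤ) (1 : ℂ)

/-- a Laurent series is a Taylor series if it has no negative powers. -/
def IsTaylor (a : K) : Prop := ∀ n : ℤ, n < 0 → HahnSeries.coeff a n = 0

/-- the space `so₄((λ))` of skew-symmetric `4×4` matrices of Laurent series. -/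
def soLoop : Submodule ℂ (Matrix (Fin 4) (Fin 4) K) where
  carrier := {X | Xᵀ = -X}
  zero_mem' := by simp
  add_mem' := by
    intro X Y hX hY
    simp only [Set.mem_ofPred_eq] at *
    rw [transpose_add, hX, hY, neg_add]
  smul_mem' := by
    intro c X hX
    simp only [Set.mem_ofPred_eq] at *
    rw [transpose_smul, hX, smul_neg]

/-- the space `so₄[[λ]]` of skew-symmetric matrices of Taylor series. -/
def soTaylor : Submodule ℂ (Matrix (Fin 4) (Fin 4) K) where
  carrier := {X | Xᵀ = -X ∧ ∀ i j, IsTaylor (X i j)}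
  zero_mem' := by
    refine ⟨by simp, fun i j n _ => by simp⟩
  add_mem' := by
    rintro X Y ⟨hX, hX'⟩ ⟨hY, hY'⟩
    refine ⟨by rw [transpose_add, hX, hY, neg_add], fun i j n hn => ?_⟩
    simp [hX' i j n hn, hY' i j n hn]
  smul_mem' := by
    rintro c X ⟨hX, hX'⟩
    refine ⟨by rw [transpose_smul, hX, smul_neg], fun i j n hn => ?_⟩
    simp [hX' i j n hn]

/-- `U` is a factoring subalgebra of `so₄((λ))`. -/
structure IsFactoring (U : Submodule ℂ (Matrix (Fin 4) (Fin 4) K)) : Prop where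
  le : U ≤ soLoop
  lie : ∀ X ∈ U, ∀ Y ∈ U, X * Y - Y * X ∈ U
  inf : U ⊓ soTaylor = ⊥
  sup : U ⊔ soTaylor = soLoop

/-- the isomorphism `so₃ ⊕ so₃ ≃ so₄` over the field of Laurent series. -/
def iota (a b : V3 K) : Matrix (Fin 4) (Fin 4) K :=
  (2 : K)⁻¹ •
  !![0, -(a 2 + b 2), a 1 + b 1, a 0 - b 0;
     a 2 + b 2, 0, -(a 0 + b 0), a 1 - b 1;
     -(a 1 + b 1), a 0 + b 0, 0, a 2 - b 2;
     -(a 0 - b 0), -(a 1 - b 1), -(a 2 - b 2), 0]

/-- a vector of power series as a vector of Laurent series. -/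
def vK (v : V3 R) : V3 K := fun i => toK (v i)

/-- the constant vector `x` as a vector of power series. -/
def vC (x : V3 ℂ) : V3 R := fun i => PowerSeries.C (R := ℂ) (x i)

/-- first family of generators:
`E_x = (λ⁻¹ M x, N D' x)`. -/
def genE (M N D' : M3 R) (x : V3 ℂ) : Matrix (Fin 4) (Fin 4) K :=
  iota (lamInv • vK (M *ᵥ vC x)) (vK ((N * D') *ᵥ vC x))

/-- second family of generators:
`F_y = (M D y, λ⁻¹ N y)`. -/
def genF (M D N : M3 R) (y : V3 ℂ) : Matrix (Fin 4) (Fin 4) K :=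
  iota (vK ((M * D) *ᵥ vC y)) (lamInv • vK (N *ᵥ vC y))

/-- the Lie subalgebra of `so₄((λ))` generated by all `E_x` and `F_y`:
the smallest complex subspace containing them and closed under commutators. -/
def alg (M D N D' : M3 R) : Submodule ℂ (Matrix (Fin 4) (Fin 4) K) :=
  sInf {W | (∀ x, genE M N D' x ∈ W) ∧ (∀ y, genF M D N y ∈ W) ∧
    ∀ X ∈ W, ∀ Y ∈ W, X * Y - Y * X ∈ W}

end

end Pool.Agent.MP_106392_al
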