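import Pool.Agent.MP_106392_al.Defs

/-!
# Equivalences: reparametrisations and inner automorphisms
-/

set_option autoImplicit false

namespace Pool.Agent.MP_106392_al

open Matrix

noncomputable section

/-- `4×4` matrices. -/
abbrev M4 (F : Type*) := Matrix (Fin 4) (Fin 4) F

/-- matrices of power series as matrices of Laurent series. -/
def mK (X : M4 R) : M4 K := X.map toK

/-- The exponential `∑ X^k / k!` of a matrix of power series without constant term
(the coefficient of `λ^n` only involves the summands with `k ≤ n`). -/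
def mexp (X : M4 R) : M4 R :=
  Matrix.of fun i j => PowerSeries.mk fun n =>
    PowerSeries.coeff (R := ℂ) n
      ((∑ k ∈ Finset.range (n + 1), ((k.factorial : ℂ)⁻¹) • X ^ k) i j)

/-- `X ∈ λ so₄[[λ]]`. -/
def IsGauge (X : M4 R) : Prop :=
  Xᵀ = -X ∧ ∀ i j, PowerSeries.constantCoeff (R := ℂ) (X i j) = 0

/-- The automorphism `exp (ad X) : Z ↦ exp(X) Z exp(-X)`. -/
def expAd (X : M4 R) (Z : M4 K) : M4 K := mK (mexp X) * Z * mK (mexp (-X))

/-- `φ = λ + k₂ λ² + k₃ λ³ + …`. -/
def IsParam (φ : R) : Prop :=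
  PowerSeries.constantCoeff (R := ℂ) φ = 0 ∧ PowerSeries.coeff (R := ℂ) 1 φ = 1

/-- The Laurent series `f(φ(λ))`: if `f = λ^n u(λ)` with a power series `u`,
then `f(φ(λ)) = φ(λ)^n u(φ(λ))`. -/
def compK (φ : R) (f : K) : K :=
  (toK φ) ^ f.order * toK (PowerSeries.subst φ (LaurentSeries.powerSeriesPart f))

/-- Equivalence of subspaces of `so₄((λ))`: compositions of reparametrisations
`λ ↦ λ + k₂ λ² + …` and automorphisms `exp (ad X)` with `X ∈ λ so₄[[λ]]`. -/
inductive Equivalent : Submodule ℂ (M4 K) → Submodule ℂ (M4 K) → Prop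
  | refl (U : Submodule ℂ (M4 K)) : Equivalent U U
  | reparam (U U' : Submodule ℂ (M4 K)) (φ : R) (hφ : IsParam φ)
      (h : ∀ X, X ∈ U' ↔ ∃ Y ∈ U, X = Y.map (compK φ)) : Equivalent U U'
  | inner (U U' : Submodule ℂ (M4 K)) (X : M4 R) (hX : IsGauge X)
      (h : ∀ Z, Z ∈ U' ↔ ∃ Y ∈ U, Z = expAd X Y) : Equivalent U U'
  | trans (U U' U'' : Submodule ℂ (M4 K)) :
      Equivalent U U' → Equivalent U' U'' → Equivalent U U''

end

end Pool.Agent.MP_106392_al
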