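import Pool.Agent.MP_106392_al.Defs2

/-!
# The explicit list of factoring subalgebras of `so₄((λ))`
-/

set_option autoImplicit false

namespace Pool.Agent.MP_106392_al

open Matrix

noncomputable section

/-- the series `λ`. -/
abbrev lam : R := PowerSeries.X

/-- constants as power series. -/
abbrev cc (a : ℂ) : R := PowerSeries.C (R := ℂ) a

/-- the cross product of two vectors. -/
abbrev crs (a b : V3 ℂ) : V3 ℂ := a ⨯₃ b

/-- the rank one matrix `a bᵀ`. -/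
def out {F : Type*} [CommRing F] (a b : V3 F) : M3 F := Matrix.vecMulVec a b

/-- the square root with constant term `1` of a power series with constant term `1`. -/
def sqrtR (q : R) : R := by
  classical
  exact if h : ∃ d : R, d ^ 2 = q ∧ PowerSeries.constantCoeff (R := ℂ) d = 1 then
    Classical.choose h else 0

/-- the symmetric square root with value `1` at `λ = 0` of a symmetric matrix `N` with
value `1` at `λ = 0`. -/
def msqrt (N : M3 R) : M3 R := by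
  classical
  exact if h : ∃ M : M3 R, ev0 M = 1 ∧ Mᵀ = M ∧ M * M = N then Classical.choose h else 0

/-- The algebra generated by
`E_x = (λ⁻¹ √(cof G) x, √(cof G') D' x)` and `F_y = (√(cof G) D y, λ⁻¹ √(cof G') y)`. -/
def stdAlg (G D G' D' : M3 R) : Submodule ℂ (M4 K) :=
  alg (msqrt (cof G)) D (msqrt (cof G')) D'

/-! ### Non-elliptic shapes -/

/-- `G = w + λ A + λ² w⁻¹ B`. -/
def shapeG (A B : M3 ℂ) (w : R) : M3 R :=
  w • (1 : M3 R) + lam • cst A + (lam ^ 2 * w⁻¹) • cst B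

/-- `D = w⁻¹ (r + λ (w - κ λ)⁻¹ Y)`. -/
def shapeD (r : M3 ℂ) (κ : ℂ) (Y : M3 ℂ) (w : R) : M3 R :=
  w⁻¹ • (cst r + (lam * (w - cc κ * lam)⁻¹) • cst Y)

/-- The constants of the non-elliptic members `(r, s, A, B, A', B', κ, Y, κ', Y')`
of the list with `(r, s) ≠ (0, 0)` or rational or axial components. -/
inductive Consts : M3 ℂ → M3 ℂ → M3 ℂ → M3 ℂ → M3 ℂ → M3 ℂ → ℂ → M3 ℂ → ℂ → M3 ℂ → Prop
  /-- exchange of the two components -/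
  | swap {r s A B A' B' : M3 ℂ} {κ : ℂ} {Y : M3 ℂ} {κ' : ℂ} {Y' : M3 ℂ}
      (h : Consts r s A B A' B' κ Y κ' Y') : Consts s r A' B' A B κ' Y' κ Y
  /-- rank one -/
  | one (n v : V3 ℂ) (e₁ e₂ α β α' β' : ℂ) :
      Consts (e₁ • out n v) (e₂ • out v n) (α • out n n) (β • out n n)
        (α' • out v v) (β' • out v v) 0 0 0 0
  /-- rank one, arbitrary rational second component -/
  | oneL (n v : V3 ℂ) (α β : ℂ) (A' : M3 ℂ) (hA' : A'ᵀ = A') :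
      Consts (out n v) 0 (α • out n n) (β • out n n) A' 0 0 0 0 0
  /-- pencils of quadratic forms -/
  | pencil (r₀ : M3 ℂ) (hr : r₀.det ≠ 0) (e₁ e₂ : ℂ) :
      Consts (e₁ • r₀) (e₂ • (cof r₀)ᵀ) (e₂ • (r₀ * r₀ᵀ)) 0
        ((e₁ / r₀.det) • ((cof r₀)ᵀ * cof r₀)) 0 0 0 0 0
  /-- degenerate pencils of rank two -/
  | degenerate (n h p q m : V3 ℂ) (hn : crs n h = n) (hn0 : n ≠ 0) (hm0 : m ⬝ᵥ p = 0)
      (hm1 : m ⬝ᵥ q = 1) (α' β : ℂ) :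
      Consts (out n q + out h p) (β • out (crs q p) n)
        (β • ((out n q + out h p) * (out n q + out h p)ᵀ)) 0
        (α' • out (crs q p) (crs q p) + out (crs q p) m + out m (crs q p)) 0 0 0 0 0
  /-- rank one, first nilpotent type -/
  | nilOne (n p v m : V3 ℂ) (c : ℂ) (hn : crs n p = c • p) (hm : crs m v = c • v)
      (hc : c ≠ 0) (α α' : ℂ) :
      Consts (out n v) (out v p) (α • out n n) 0 (α' • out v v + out v m + out m v) 0 0 0 0 0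
  /-- rank one, second nilpotent type -/
  | nilTwo (n p w v : V3 ℂ) (c c' : ℂ) (hn : crs n p = c' • p) (hw : crs w v = c • v)
      (hc : c ≠ 0) (hc' : c' ≠ 0) (α α' : ℂ) :
      Consts (out n v) (out w p) (α • out n n - (c / c') • (out n p + out p n)) 0
        (α' • out w w - (c' / c) • (out w v + out v w)) 0 0 0 0 0
  /-- axially symmetric type -/
  | axial (O : M3 ℂ) (hO : Oᵀ * O = 1) (hO' : O.det = 1) (n : V3 ℂ) (e₁ e₂ b c : ℂ) :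
      Consts (e₁ • ((1 + b • out n n) * O)) (e₂ • (Oᵀ * (1 + c • out n n)))
        ((e₂ * (b - c)) • out n n)
        ((-(e₂ ^ 2) * ((b - c) * (1 + (n ⬝ᵥ n) * c) + c * (2 + (n ⬝ᵥ n) * c))) • out n n)
        ((e₁ * (c - b)) • out (Oᵀ *ᵥ n) (Oᵀ *ᵥ n))
        ((-(e₁ ^ 2) * ((c - b) * (1 + (n ⬝ᵥ n) * b) + b * (2 + (n ⬝ᵥ n) * b))) •
          out (Oᵀ *ᵥ n) (Oᵀ *ᵥ n))
        (e₂ * (1 + (n ⬝ᵥ n) * c))
        ((e₁ * e₂) • (((1 + (n ⬝ᵥ n) * c) • (1 : M3 ℂ) - c • out n n) * O))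
        (e₁ * (1 + (n ⬝ᵥ n) * b))
        ((e₁ * e₂) • (Oᵀ * ((1 + (n ⬝ᵥ n) * b) • (1 : M3 ℂ) - b • out n n)))
  /-- isotropic type of rank two -/
  | isotropic (n h v k : V3 ℂ) (hn : crs n h = n) (hn0 : n ≠ 0) (hv : crs v k = v) (hv0 : v ≠ 0)
      (q₁ q₂ p₁ p₂ e₁ e₂ y₁ y₂ : ℂ) (r₀ : M3 ℂ)
      (hr₀ : r₀ = out n (q₁ • v + q₂ • k) + out h (p₁ • v + p₂ • k)) (x₁ x₂ : ℂ)
      (hx₁ : x₁ = 1 - y₁ * p₂) (hx₂ : x₂ = 1 - y₂ * p₂) :
      Consts (e₁ • (x₁ • r₀ + y₁ • cof r₀)) (e₂ • (x₂ • r₀ + y₂ • cof r₀)ᵀ)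
        ((e₂ * (y₂ - y₁)) • (r₀ * r₀ᵀ)) ((-(e₂ ^ 2) * x₁ * x₂) • (r₀ * r₀ᵀ))
        ((e₁ * (y₁ - y₂)) • (r₀ᵀ * r₀)) ((-(e₁ ^ 2) * x₁ * x₂) • (r₀ᵀ * r₀))
        (e₂ * x₂ * p₂) ((e₁ * e₂ * x₂) • cof r₀)
        (e₁ * x₁ * p₂) ((e₁ * e₂ * x₁) • (cof r₀)ᵀ)

/-! ### Elliptic shapes -/

/-- `√(w⁴ - 2κ² tr(H) w² - 8κ³ det(r₀) w + κ⁴ (2 tr(H²) - tr(H)²))`, `H = r₀ r₀ᵀ`, `κ = tλ`. -/
def ellRoot (r₀ : M3 ℂ) (t : ℂ) (w : R) : R :=
  sqrtR (w ^ 4 - 2 * (cc t * lam) ^ 2 * cc (r₀ * r₀ᵀ).trace * w ^ 2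
    - 8 * (cc t * lam) ^ 3 * cc r₀.det * w
    + (cc t * lam) ^ 4 * cc (2 * ((r₀ * r₀ᵀ) * (r₀ * r₀ᵀ)).trace - (r₀ * r₀ᵀ).trace ^ 2))

/-- `Θ = 2 (w² + √… + κ² (2H - tr H))⁻¹ (w r₀ + κ cof r₀)`. -/
def ellTheta (r₀ : M3 ℂ) (t : ℂ) (w : R) : M3 R :=
  ((w ^ 2 + ellRoot r₀ t w) • (1 : M3 R) + (cc t * lam) ^ 2 •
    cst (2 • (r₀ * r₀ᵀ) - (r₀ * r₀ᵀ).trace • (1 : M3 ℂ)))⁻¹ *
  ((2 : R) • (w • cst r₀ + (cc t * lam) • cst (cof r₀)))

/-- `G = w - κ² r₀ Θᵀ`. -/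
def ellG (r₀ : M3 ℂ) (t : ℂ) (w : R) : M3 R :=
  w • (1 : M3 R) - (cc t * lam) ^ 2 • (cst r₀ * (ellTheta r₀ t w)ᵀ)

/-- the matrix `G` with `cof G = w² - λ² B`. -/
def ellG3 (B : M3 ℂ) (w : R) : M3 R :=
  (sqrtR (w ^ 2 • (1 : M3 R) - lam ^ 2 • cst B).det)⁻¹ •
    cof (w ^ 2 • (1 : M3 R) - lam ^ 2 • cst B)

/-- the possible components of decomposable factoring subalgebras. -/
inductive Side (w : R) : M3 R → Prop
  | rational (A : M3 ℂ) (hA : Aᵀ = A) : Side w (shapeG A 0 w)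
  | axial (n : V3 ℂ) (α β : ℂ) : Side w (shapeG (α • out n n) (β • out n n) w)
  | elliptic (B : M3 ℂ) (hB : Bᵀ = B) : Side w (ellG3 B w)

/-- The list, with uniformising series `w, w'` for the two components. -/
inductive Listed (w w' : R) : M3 R → M3 R → M3 R → M3 R → Prop
  /-- decomposable algebras -/
  | product {G G' : M3 R} (h : Side w G) (h' : Side w' G') : Listed w w' G 0 G' 0
  /-- the indecomposable non-elliptic members -/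
  | nonelliptic {r s A B A' B' : M3 ℂ} {κ : ℂ} {Y : M3 ℂ} {κ' : ℂ} {Y' : M3 ℂ}
      (h : Consts r s A B A' B' κ Y κ' Y') :
      Listed w w' (shapeG A B w) (shapeD r κ Y w) (shapeG A' B' w') (shapeD s κ' Y' w')
  /-- evaluation homomorphisms of elliptic algebras -/
  | evalL (r : M3 ℂ) :
      Listed w w' (shapeG 0 0 w) (shapeD r 0 0 w) (ellG3 (-(rᵀ * r)) w') 0
  /-- evaluation homomorphisms of elliptic algebras, components exchanged -/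
  | evalR (s : M3 ℂ) :
      Listed w w' (ellG3 (-(sᵀ * s)) w) 0 (shapeG 0 0 w') (shapeD s 0 0 w')
  /-- the elliptic members -/
  | elliptic (r₀ : M3 ℂ) (t₁ t₂ : ℂ) :
      Listed w w' (ellG r₀ t₂ w) (cc t₁ • ellTheta r₀ t₂ w)
        (ellG r₀ᵀ t₁ w') (cc t₂ • ellTheta r₀ᵀ t₁ w')

/-- The members of the list. -/
def InList (V : Submodule ℂ (M4 K)) : Prop :=
  ∃ (w' : R) (G D G' D' : M3 R), PowerSeries.constantCoeff (R := ℂ) w' = 1 ∧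
    Listed 1 w' G D G' D' ∧ V = stdAlg G D G' D'

end

end Pool.Agent.MP_106392_al
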