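import Pool.Agent.MP_106392_al.Defs3

/-!
# Polynomial identities behind the elliptic shapes
-/

set_option autoImplicit false
namespace Pool.Agent.MP_106392_al
open Matrix

section
variable {F : Type*} [CommRing F]

/-- `r₀ = Θ - k cof Θ` (without the factor `g`) -/
def eR (T : M3 F) (k : F) : M3 F := T - k • cof T
/-- `1 - k² Θ Θᵀ` -/
def eG (T : M3 F) (k : F) : M3 F := 1 - k ^ 2 • (T * Tᵀ)

theorem eI1 (T : M3 F) (k : F) (x y : V3 F) :
    eG T k *ᵥ ((T *ᵥ y) ⨯₃ x) = (eR T k *ᵥ y) ⨯₃ x + k • (T *ᵥ (y ⨯₃ ((eR T k)ᵀ *ᵥ x))) := by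
  ext i
  fin_cases i <;>
  simp [eG, eR, Matrix.mulVec, dotProduct, Fin.sum_univ_three, crossProduct, cof,
    Matrix.mul_apply, Matrix.one_apply, Matrix.transpose_apply] <;> ring

theorem eI2 (T : M3 F) (k : F) (x : V3 F) :
    eG T k *ᵥ (x ⨯₃ (eG T k *ᵥ x)) = (-k ^ 2) • (x ⨯₃ ((eR T k * (eR T k)ᵀ) *ᵥ x)) := by
  ext i
  fin_cases i <;>
  simp [eG, eR, Matrix.mulVec, dotProduct, Fin.sum_univ_three, crossProduct, cof,
    Matrix.mul_apply, Matrix.one_apply, Matrix.transpose_apply] <;> ring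

theorem eI3 (T : M3 F) (k : F) (y : V3 F) :
    eG T k *ᵥ ((eR T k *ᵥ y) ⨯₃ (cof T *ᵥ y)) =
      -(T *ᵥ (y ⨯₃ (((eR T k)ᵀ * eR T k) *ᵥ y))) := by
  ext i
  fin_cases i <;>
  simp [eG, eR, Matrix.mulVec, dotProduct, Fin.sum_univ_three, crossProduct, cof,
    Matrix.mul_apply, Matrix.one_apply, Matrix.transpose_apply] <;> ring

theorem eKey1 (T : M3 F) (k : F) :
    (((1 - k ^ 3 * T.det) ^ 2 + (eG T k).det) • (1 : M3 F) +
      k ^ 2 • ((2 : F) • (eR T k * (eR T k)ᵀ) - (eR T k * (eR T k)ᵀ).trace • (1 : M3 F))) * T =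
    (2 : F) • ((1 - k ^ 3 * T.det) • eR T k + k • cof (eR T k)) := by
  ext i j
  fin_cases i <;> fin_cases j <;>
  simp [eG, eR, Fin.sum_univ_three, cof, Matrix.det_fin_three, Matrix.trace,
    Matrix.mul_apply, Matrix.one_apply, Matrix.transpose_apply] <;> ring

end
end Pool.Agent.MP_106392_al
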