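import Pool.Agent.MP_106392_al.EllId

set_option autoImplicit false
namespace Pool.Agent.MP_106392_al
open Matrix

section
variable {F : Type*} [CommRing F]

theorem cof_00 (A : M3 F) : cof A 0 0 = A 1 1 * A 2 2 - A 1 2 * A 2 1 := rfl
theorem cof_01 (A : M3 F) : cof A 0 1 = A 1 2 * A 2 0 - A 1 0 * A 2 2 := rfl
theorem cof_02 (A : M3 F) : cof A 0 2 = A 1 0 * A 2 1 - A 1 1 * A 2 0 := rfl
theorem cof_10 (A : M3 F) : cof A 1 0 = A 2 1 * A 0 2 - A 2 2 * A 0 1 := rfl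
theorem cof_11 (A : M3 F) : cof A 1 1 = A 2 2 * A 0 0 - A 2 0 * A 0 2 := rfl
theorem cof_12 (A : M3 F) : cof A 1 2 = A 2 0 * A 0 1 - A 2 1 * A 0 0 := rfl
theorem cof_20 (A : M3 F) : cof A 2 0 = A 0 1 * A 1 2 - A 0 2 * A 1 1 := rfl
theorem cof_21 (A : M3 F) : cof A 2 1 = A 0 2 * A 1 0 - A 0 0 * A 1 2 := rfl
theorem cof_22 (A : M3 F) : cof A 2 2 = A 0 0 * A 1 1 - A 0 1 * A 1 0 := rfl

theorem eTrH (T : M3 F) (k : F) :
    (eR T k * (eR T k)ᵀ).trace = (T * Tᵀ).trace - 6 * k * T.det + k ^ 2 * (cof T * (cof T)ᵀ).trace := by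
  simp only [eR, Fin.sum_univ_three, cof_00, cof_01, cof_02, cof_10, cof_11, cof_12, cof_20,
    cof_21, cof_22, Matrix.det_fin_three, Matrix.trace, Matrix.diag, Matrix.sub_apply,
    Matrix.smul_apply, smul_eq_mul,
    Matrix.mul_apply, Matrix.transpose_apply]; ring

theorem eDetG (T : M3 F) (k : F) :
    (eG T k).det = 1 - k ^ 2 * (T * Tᵀ).trace + k ^ 4 * (cof T * (cof T)ᵀ).trace -
      k ^ 6 * T.det ^ 2 := by
  simp only [eG, Fin.sum_univ_three, cof_00, cof_01, cof_02, cof_10, cof_11, cof_12, cof_20,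
    cof_21, cof_22, Matrix.det_fin_three, Matrix.trace, Matrix.diag, Matrix.sub_apply,
    Matrix.smul_apply, smul_eq_mul,
    Matrix.mul_apply, Matrix.transpose_apply]
  simp; ring

theorem eDetR (T : M3 F) (k : F) :
    (eR T k).det = T.det - k * (cof T * (cof T)ᵀ).trace + k ^ 2 * T.det * (T * Tᵀ).trace -
      k ^ 3 * T.det ^ 2 := by
  simp only [eR, Fin.sum_univ_three, cof_00, cof_01, cof_02, cof_10, cof_11, cof_12, cof_20,
    cof_21, cof_22, Matrix.det_fin_three, Matrix.trace, Matrix.diag, Matrix.sub_apply,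
    Matrix.smul_apply, smul_eq_mul,
    Matrix.mul_apply, Matrix.transpose_apply]; ring

theorem trH2 (H : M3 F) :
    2 * (H * H).trace - H.trace ^ 2 = H.trace ^ 2 - 4 * (cof H).trace := by
  simp only [Fin.sum_univ_three, cof_00, cof_11, cof_22, Matrix.trace, Matrix.diag,
    Matrix.mul_apply]; ring

theorem cof_mul_tr (T : M3 F) : cof (T * Tᵀ) = cof T * (cof T)ᵀ := by
  ext i j
  fin_cases i <;> fin_cases j <;>
  simp [Fin.sum_univ_three, cof, Matrix.mul_apply, Matrix.transpose_apply] <;> ring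

theorem cof_eR (T : M3 F) (k : F) :
    cof (eR T k) = cof T - k • ((T * Tᵀ).trace • T - T * Tᵀ * T) + (k ^ 2 * T.det) • T := by
  ext i j
  fin_cases i <;> fin_cases j <;>
  simp [eR, Fin.sum_univ_three, cof, Matrix.det_fin_three, Matrix.trace,
    Matrix.mul_apply, Matrix.transpose_apply] <;> ring

/-- `tr (cof r₀ (cof r₀)ᵀ)` in terms of invariants -/
theorem eTrC (T : M3 F) (k : F) :
    (cof (eR T k) * (cof (eR T k))ᵀ).trace =
      (cof T * (cof T)ᵀ).trace - 4 * k * T.det * (T * Tᵀ).trace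
      + k ^ 2 * ((T * Tᵀ).trace * (cof T * (cof T)ᵀ).trace + 9 * T.det ^ 2)
      - 4 * k ^ 3 * T.det * (cof T * (cof T)ᵀ).trace
      + k ^ 4 * T.det ^ 2 * (T * Tᵀ).trace := by
  rw [cof_eR]
  simp only [Fin.sum_univ_three, cof_00, cof_01, cof_02, cof_10, cof_11, cof_12, cof_20,
    cof_21, cof_22, Matrix.det_fin_three, Matrix.trace, Matrix.diag, Matrix.sub_apply,
    Matrix.smul_apply, smul_eq_mul, Matrix.add_apply,
    Matrix.mul_apply, Matrix.transpose_apply]; ring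

theorem eKey2 (T : M3 F) (k : F) :
    (eG T k).det ^ 2 = (1 - k ^ 3 * T.det) ^ 4
      - 2 * k ^ 2 * (eR T k * (eR T k)ᵀ).trace * (1 - k ^ 3 * T.det) ^ 2
      - 8 * k ^ 3 * (eR T k).det * (1 - k ^ 3 * T.det)
      + k ^ 4 * (2 * ((eR T k * (eR T k)ᵀ) * (eR T k * (eR T k)ᵀ)).trace
          - (eR T k * (eR T k)ᵀ).trace ^ 2) := by
  rw [trH2, cof_mul_tr, eTrH, eDetG, eDetR, eTrC]
  ring

theorem cof_mul_transpose (T : M3 F) : cof T * Tᵀ = T.det • (1 : M3 F) := by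
  ext i j
  fin_cases i <;> fin_cases j <;>
  simp [Fin.sum_univ_three, cof, Matrix.det_fin_three, Matrix.mul_apply,
    Matrix.transpose_apply] <;> ring

theorem eI1' (T : M3 F) (a b l g : F) (x y : V3 F) :
    (g • eG T (b * l)) *ᵥ (((a • T) *ᵥ y) ⨯₃ x) =
      (((a • (g • eR T (b * l))) *ᵥ y) ⨯₃ x) +
        l • ((a • T) *ᵥ (y ⨯₃ ((b • (g • eR T (b * l))ᵀ) *ᵥ x))) := by
  have h := eI1 T (b * l) x y
  have h1 : (g • eG T (b * l)) *ᵥ (((a • T) *ᵥ y) ⨯₃ x) =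
      (a * g) • (eG T (b * l) *ᵥ ((T *ᵥ y) ⨯₃ x)) := by
    simp only [Matrix.smul_mulVec, LinearMap.map_smul₂, Matrix.mulVec_smul, smul_smul]
  have h2 : (((a • (g • eR T (b * l))) *ᵥ y) ⨯₃ x) = (a * g) • ((eR T (b * l) *ᵥ y) ⨯₃ x) := by
    simp only [Matrix.smul_mulVec, LinearMap.map_smul₂, smul_smul]
  have h3 : l • ((a • T) *ᵥ (y ⨯₃ ((b • (g • eR T (b * l))ᵀ) *ᵥ x))) =
      (a * g) • ((b * l) • (T *ᵥ (y ⨯₃ ((eR T (b * l))ᵀ *ᵥ x)))) := by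
    simp only [Matrix.smul_mulVec, LinearMap.map_smul, Matrix.mulVec_smul, Matrix.transpose_smul,
      smul_smul]
    congr 1; ring
  rw [h1, h2, h3, h, smul_add]

theorem eI2' (T : M3 F) (b l g : F) (x : V3 F) :
    (g • eG T (b * l)) *ᵥ (x ⨯₃ ((g • eG T (b * l)) *ᵥ x)) =
      l ^ 2 • (x ⨯₃ ((-(b ^ 2) • ((g • eR T (b * l)) * (g • eR T (b * l))ᵀ)) *ᵥ x)) := by
  have h := eI2 T (b * l) x
  have h1 : (g • eG T (b * l)) *ᵥ (x ⨯₃ ((g • eG T (b * l)) *ᵥ x)) =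
      (g * g) • (eG T (b * l) *ᵥ (x ⨯₃ (eG T (b * l) *ᵥ x))) := by
    simp only [Matrix.smul_mulVec, LinearMap.map_smul, Matrix.mulVec_smul, smul_smul]
  have h2 : l ^ 2 • (x ⨯₃ ((-(b ^ 2) • ((g • eR T (b * l)) * (g • eR T (b * l))ᵀ)) *ᵥ x)) =
      (g * g) • ((-(b * l) ^ 2) • (x ⨯₃ ((eR T (b * l) * (eR T (b * l))ᵀ) *ᵥ x))) := by
    simp only [Matrix.smul_mulVec, LinearMap.map_smul, Matrix.transpose_smul,
      Matrix.smul_mul, Matrix.mul_smul, smul_smul]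
    congr 1; ring
  rw [h1, h2, h]

theorem eI3' (T : M3 F) (k a g : F) (y : V3 F) :
    (g • eG T k) *ᵥ (((a • (g • eR T k)) *ᵥ y) ⨯₃ ((a ^ 2 • cof T) *ᵥ y)) =
      (a • T) *ᵥ (y ⨯₃ ((-(a ^ 2) • ((g • eR T k)ᵀ * (g • eR T k))) *ᵥ y)) := by
  have h := eI3 T k y
  have h1 : (g • eG T k) *ᵥ (((a • (g • eR T k)) *ᵥ y) ⨯₃ ((a ^ 2 • cof T) *ᵥ y)) =
      (a ^ 3 * (g * g)) • (eG T k *ᵥ ((eR T k *ᵥ y) ⨯₃ (cof T *ᵥ y))) := by
    simp only [Matrix.smul_mulVec, LinearMap.map_smul, LinearMap.smul_apply, Matrix.mulVec_smul,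
      smul_smul]
    congr 1; ring
  have h2 : (a • T) *ᵥ (y ⨯₃ ((-(a ^ 2) • ((g • eR T k)ᵀ * (g • eR T k))) *ᵥ y)) =
      (a ^ 3 * (g * g)) • (-(T *ᵥ (y ⨯₃ (((eR T k)ᵀ * eR T k) *ᵥ y)))) := by
    simp only [Matrix.smul_mulVec, LinearMap.map_smul, Matrix.mulVec_smul, Matrix.transpose_smul,
      Matrix.smul_mul, Matrix.mul_smul, smul_smul, smul_neg]
    rw [← neg_smul]
    congr 1; ring
  rw [h1, h2, h]

end
end Pool.Agent.MP_106392_al
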