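import Pool.Agent.MP_106392_al.Defs2

set_option autoImplicit false
set_option linter.unusedSimpArgs false
namespace Pool.Agent.MP_106392_al
open Matrix
noncomputable section

namespace Ex

section alg
variable {F : Type*} [CommRing F]

theorem cross_mulVec (M : M3 F) (u v : V3 F) :
    (M *ᵥ u) ⨯₃ (M *ᵥ v) = cof M *ᵥ (u ⨯₃ v) := by
  ext i
  fin_cases i <;> simp [cof, cross_apply, Matrix.mulVec, dotProduct, Fin.sum_univ_three] <;> ring

theorem cof_mul (M N : M3 F) : cof (M * N) = cof M * cof N := by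
  ext i j
  fin_cases i <;> fin_cases j <;>
    simp [cof, Matrix.mul_apply, Fin.sum_univ_three] <;> ring

theorem cof_transpose (M : M3 F) : cof Mᵀ = (cof M)ᵀ := by
  ext i j
  fin_cases i <;> fin_cases j <;> simp [cof] <;> ring

theorem transpose_mul_cof (M : M3 F) : Mᵀ * cof M = M.det • (1 : M3 F) := by
  ext i j
  fin_cases i <;> fin_cases j <;>
    simp [cof, Matrix.mul_apply, Fin.sum_univ_three, Matrix.det_fin_three] <;> ring

theorem cof_mul_transpose (M : M3 F) : cof M * Mᵀ = M.det • (1 : M3 F) := by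
  ext i j
  fin_cases i <;> fin_cases j <;>
    simp [cof, Matrix.mul_apply, Fin.sum_univ_three, Matrix.det_fin_three] <;> ring

theorem cof_smul (c : F) (M : M3 F) : cof (c • M) = c ^ 2 • cof M := by
  ext i j
  fin_cases i <;> fin_cases j <;> simp [cof] <;> ring

theorem cof_cof (M : M3 F) : cof (cof M) = M.det • M := by
  ext i j
  fin_cases i <;> fin_cases j <;> simp [cof, Matrix.det_fin_three] <;> ring

theorem dot_mulVec_cross (D : M3 F) (z y x : V3 F) :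
    z ⬝ᵥ (D *ᵥ (y ⨯₃ x)) = x ⬝ᵥ ((Dᵀ *ᵥ z) ⨯₃ y) := by
  simp [cross_apply, Matrix.mulVec, dotProduct, Fin.sum_univ_three, Matrix.transpose_apply]
  ring

theorem det_cof (M : M3 F) : (cof M).det = M.det ^ 2 := by
  simp [cof, Matrix.det_fin_three]; ring

end alg

section ser

/-- `λ⁻ᵏ u`. -/
def lv (k : ℕ) (u : V3 R) : V3 K := lamInv ^ k • vK u

/-- constant coefficients of a vector -/
def c0 (u : V3 R) : V3 ℂ := fun i => PowerSeries.constantCoeff (R := ℂ) (u i)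

theorem toK_injective : Function.Injective toK := HahnSeries.ofPowerSeries_injective

theorem toK_X : toK (PowerSeries.X : R) = HahnSeries.single (1 : ℤ) (1 : ℂ) := by
  simp [toK, HahnSeries.ofPowerSeries_X]

theorem lamInv_toK_X : lamInv * toK (PowerSeries.X : R) = 1 := by
  rw [toK_X, lamInv, HahnSeries.single_mul_single]; simp

theorem toK_C (c : ℂ) : toK (PowerSeries.C (R := ℂ) c) = HahnSeries.C c := by
  simp [toK, HahnSeries.ofPowerSeries_C]

theorem smul_K (c : ℂ) (a : K) : c • a = toK (PowerSeries.C (R := ℂ) c) * a := by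
  rw [toK_C, HahnSeries.C_mul_eq_smul]

theorem vK_add (u v : V3 R) : vK (u + v) = vK u + vK v := by
  ext i; simp [vK]
theorem vK_sub (u v : V3 R) : vK (u - v) = vK u - vK v := by
  ext i; simp [vK]
theorem vK_cross (u v : V3 R) : vK (u ⨯₃ v) = vK u ⨯₃ vK v := by
  ext i; fin_cases i <;> simp [vK, cross_apply]
theorem vK_smul (c : R) (u : V3 R) : vK (c • u) = toK c • vK u := by
  ext i; simp [vK]
theorem vK_zero : vK (0 : V3 R) = 0 := by ext i; simp [vK]
theorem vK_injective : Function.Injective vK := by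
  intro u v h; ext1 i; exact toK_injective (congrFun h i)

theorem lv_add (k : ℕ) (u v : V3 R) : lv k (u + v) = lv k u + lv k v := by
  ext1 i; simp [lv, vK, mul_add]
theorem lv_sub (k : ℕ) (u v : V3 R) : lv k (u - v) = lv k u - lv k v := by
  ext1 i; simp [lv, vK, mul_sub]
theorem lv_zero_right (k : ℕ) : lv k (0 : V3 R) = 0 := by simp [lv, vK_zero]
theorem lv_zero (u : V3 R) : lv 0 u = vK u := by simp [lv]
theorem lv_smul (k : ℕ) (c : R) (u : V3 R) : lv k (c • u) = toK c • lv k u := by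
  simp only [lv, vK_smul, smul_smul]; rw [mul_comm]
theorem lv_X (k : ℕ) (u : V3 R) : lv (k + 1) ((PowerSeries.X : R) • u) = lv k u := by
  simp only [lv, vK_smul, smul_smul, pow_succ, mul_assoc, lamInv_toK_X, mul_one]
theorem lv3_X (u : V3 R) : lv 3 ((PowerSeries.X : R) • (PowerSeries.X : R) •
    (PowerSeries.X : R) • u) = vK u := by
  have h1 := lv_X 2 ((PowerSeries.X : R) • (PowerSeries.X : R) • u)
  have h2 := lv_X 1 ((PowerSeries.X : R) • u)
  have h3 := lv_X 0 u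
  rw [lv_zero] at h3
  rw [← h3]
  exact h1.trans h2
theorem lv_cross (k l : ℕ) (u v : V3 R) : lv k u ⨯₃ lv l v = lv (k + l) (u ⨯₃ v) := by
  simp only [lv, vK_cross, map_smul, LinearMap.smul_apply, smul_smul, pow_add, mul_comm]
theorem smul_lv (k : ℕ) (c : ℂ) (u : V3 R) :
    c • lv k u = lv k (PowerSeries.C (R := ℂ) c • u) := by
  rw [lv_smul]; ext1 i; simp only [Pi.smul_apply, smul_K, smul_eq_mul]

theorem c0_mulVec (M : M3 R) (u : V3 R) : c0 (M *ᵥ u) = ev0 M *ᵥ c0 u := by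
  ext i; simp [c0, ev0, Matrix.mulVec, dotProduct, Fin.sum_univ_three]
theorem c0_cross (u v : V3 R) : c0 (u ⨯₃ v) = c0 u ⨯₃ c0 v := by
  ext i; fin_cases i <;> simp [c0, cross_apply]
theorem c0_add (u v : V3 R) : c0 (u + v) = c0 u + c0 v := by ext i; simp [c0]
theorem c0_sub (u v : V3 R) : c0 (u - v) = c0 u - c0 v := by ext i; simp [c0]
theorem c0_X (u : V3 R) : c0 ((PowerSeries.X : R) • u) = 0 := by ext i; simp [c0]
theorem c0_vC (x : V3 ℂ) : c0 (vC x) = x := by ext i; simp [c0, vC]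
theorem exists_of_c0 {u : V3 R} (h : c0 u = 0) : ∃ v : V3 R, u = (PowerSeries.X : R) • v := by
  have : ∀ i, ∃ a : R, u i = PowerSeries.X * a := by
    intro i
    exact PowerSeries.X_dvd_iff.mpr (congrFun h i)
  choose v hv using this
  exact ⟨v, by ext1 i; simp [hv i]⟩

theorem vC_add (x y : V3 ℂ) : vC (x + y) = vC x + vC y := by ext i; simp [vC]
theorem vC_cross (x y : V3 ℂ) : vC (x ⨯₃ y) = vC x ⨯₃ vC y := by
  ext i; fin_cases i <;> simp [vC, cross_apply]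
theorem vC_mulVec (A : M3 ℂ) (x : V3 ℂ) : vC (A *ᵥ x) = cst A *ᵥ vC x := by
  ext i; simp [vC, cst, Matrix.mulVec, dotProduct, Fin.sum_univ_three]

theorem bilin_ext {f : V3 R → V3 R → V3 R}
    (ha : ∀ x x' y, f (x + x') y = f x y + f x' y) (hs : ∀ (c : R) x y, f (c • x) y = c • f x y)
    (ha' : ∀ x y y', f x (y + y') = f x y + f x y') (hs' : ∀ (c : R) x y, f x (c • y) = c • f x y)
    (h0 : ∀ x y : V3 ℂ, f (vC x) (vC y) = 0) (x y : V3 R) : f x y = 0 := by
  let L : V3 R →ₗ[R] V3 R →ₗ[R] V3 R := LinearMap.mk₂ R f ha hs ha' hs'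
  have hL : L = 0 := by
    apply LinearMap.ext_basis (Pi.basisFun R (Fin 3)) (Pi.basisFun R (Fin 3))
    intro i j
    have hi : ∀ i : Fin 3, (Pi.basisFun R (Fin 3)) i = vC (Pi.single i 1) := by
      intro i
      ext1 k
      simp only [Pi.basisFun_apply, vC]
      by_cases h : k = i
      · subst h; simp
      · simp [Pi.single_eq_of_ne h]
    rw [hi, hi]
    simpa [L] using h0 _ _
  have := congrArg (fun T => T x y) hL
  simpa [L] using this

theorem mem_of_basis {W : Submodule ℂ (V3 K × V3 K)} (k l : ℕ) (P Q : M3 R)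
    (h : ∀ j, (lv k (P *ᵥ vC (Pi.single j 1)), lv l (Q *ᵥ vC (Pi.single j 1))) ∈ W) (x : V3 ℂ) :
    (lv k (P *ᵥ vC x), lv l (Q *ᵥ vC x)) ∈ W := by
  have e : vC x = ∑ j, PowerSeries.C (R := ℂ) (x j) • vC (Pi.single j 1) := by
    ext1 i
    simp only [vC, Finset.sum_apply, Pi.smul_apply, smul_eq_mul]
    rw [Finset.sum_eq_single i]
    · simp
    · intro b _ hb
      simp [Pi.single_eq_of_ne (Ne.symm hb)]
    · simp
  have e2 : (lv k (P *ᵥ vC x), lv l (Q *ᵥ vC x)) =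
      ∑ j, x j • (lv k (P *ᵥ vC (Pi.single j 1)), lv l (Q *ᵥ vC (Pi.single j 1))) := by
    rw [e]
    simp only [Fin.sum_univ_three, Prod.smul_mk, Prod.mk_add_mk, smul_lv, ← lv_add,
      Matrix.mulVec_add, Matrix.mulVec_smul]
  rw [e2]
  exact Submodule.sum_mem _ fun j _ => W.smul_mem _ (h j)


end ser

section core

structure Good (W : Submodule ℂ (V3 K × V3 K)) : Prop where
  lie : ∀ p ∈ W, ∀ q ∈ W, (p.1 ⨯₃ q.1, p.2 ⨯₃ q.2) ∈ W
  inf : ∀ u v : V3 R, (vK u, vK v) ∈ W → u = 0 ∧ v = 0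

theorem Good.van1 {W : Submodule ℂ (V3 K × V3 K)} (hW : Good W) {u v : V3 R}
    (h : (lv 1 u, lv 1 v) ∈ W) (hu : c0 u = 0) (hv : c0 v = 0) : u = 0 ∧ v = 0 := by
  obtain ⟨u', rfl⟩ := exists_of_c0 hu
  obtain ⟨v', rfl⟩ := exists_of_c0 hv
  rw [show (1:ℕ) = 0 + 1 from rfl, lv_X, lv_X, lv_zero, lv_zero] at h
  obtain ⟨h1, h2⟩ := hW.inf _ _ h
  rw [h1, h2]; simp

theorem det_ne_zero_of_ev0 {M : M3 R} (hM : ev0 M = 1) : M.det ≠ 0 := by
  intro h
  have h1 : (ev0 M).det = 0 := by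
    rw [ev0, ← RingHom.mapMatrix_apply, ← RingHom.map_det, h, map_zero]
  rw [hM, Matrix.det_one] at h1
  exact one_ne_zero h1

theorem ev0_cof (M : M3 R) : ev0 (cof M) = cof (ev0 M) := by
  ext i j
  fin_cases i <;> fin_cases j <;> simp [cof, ev0]
theorem cof_one {F : Type*} [CommRing F] : cof (1 : M3 F) = 1 := by
  ext i j
  fin_cases i <;> fin_cases j <;> simp [cof]
theorem ev0_mul (M N : M3 R) : ev0 (M * N) = ev0 M * ev0 N := by
  ext i j
  simp [ev0, Matrix.mul_apply]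

theorem mulVec_inj {M : M3 R} (hM : ev0 M = 1) {u v : V3 R} (h : M *ᵥ u = M *ᵥ v) : u = v := by
  have h1 : M *ᵥ (u - v) = 0 := by rw [Matrix.mulVec_sub, h, sub_self]
  exact sub_eq_zero.mp (Matrix.eq_zero_of_mulVec_eq_zero (det_ne_zero_of_ev0 hM) h1)

variable {W : Submodule ℂ (V3 K × V3 K)} (hW : Good W) {M N D D' : M3 R}
  (hM : ev0 M = 1) (hN : ev0 N = 1)
  (hE : ∀ x : V3 ℂ, (lv 1 (M *ᵥ vC x), lv 0 ((N * D') *ᵥ vC x)) ∈ W)
  (hF : ∀ y : V3 ℂ, (lv 0 ((M * D) *ᵥ vC y), lv 1 (N *ᵥ vC y)) ∈ W)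

include hW hM hN hE hF in
/-- relations from `[E_x, F_y]`. -/
theorem rel1 {G G' : M3 R} (hG : M * G = cof M) (hG' : N * G' = cof N) (x y : V3 ℂ) :
    G *ᵥ ((D *ᵥ vC y) ⨯₃ vC x) = (cst (ev0 D) *ᵥ vC y) ⨯₃ vC x +
      (PowerSeries.X : R) • (D *ᵥ (vC y ⨯₃ (cst (ev0 D') *ᵥ vC x))) ∧
    G' *ᵥ ((D' *ᵥ vC x) ⨯₃ vC y) = (cst (ev0 D') *ᵥ vC x) ⨯₃ vC y +
      (PowerSeries.X : R) • (D' *ᵥ (vC x ⨯₃ (cst (ev0 D) *ᵥ vC y))) := by
  set a : V3 ℂ := x ⨯₃ (ev0 D *ᵥ y) with ha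
  set b : V3 ℂ := (ev0 D' *ᵥ x) ⨯₃ y with hb
  have h1 := hW.lie _ (hE x) _ (hF y)
  have h2 := W.sub_mem (W.sub_mem h1 (hE a)) (hF b)
  simp only [lv_cross, Prod.mk_sub_mk, zero_add, add_zero] at h2
  rw [← lv_X 0 ((N * D') *ᵥ vC a), ← lv_X 0 ((M * D) *ᵥ vC b), zero_add,
    ← lv_sub, ← lv_sub, ← lv_sub, ← lv_sub] at h2
  have hc1 : c0 ((M *ᵥ vC x) ⨯₃ ((M * D) *ᵥ vC y) - M *ᵥ vC a -
      (PowerSeries.X : R) • ((M * D) *ᵥ vC b)) = 0 := by
    simp only [c0_sub, c0_cross, c0_mulVec, c0_X, c0_vC, ev0_mul, hM, Matrix.one_mul,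
      Matrix.one_mulVec, ha, sub_self]
  have hc2 : c0 (((N * D') *ᵥ vC x) ⨯₃ (N *ᵥ vC y) - (PowerSeries.X : R) • ((N * D') *ᵥ vC a) -
      N *ᵥ vC b) = 0 := by
    simp only [c0_sub, c0_cross, c0_mulVec, c0_X, c0_vC, ev0_mul, hN, Matrix.one_mul,
      Matrix.one_mulVec, hb, sub_zero, sub_self]
  obtain ⟨k1, k2⟩ := hW.van1 h2 hc1 hc2
  constructor
  · apply mulVec_inj hM
    rw [Matrix.mulVec_mulVec, hG]
    have e1 : (M *ᵥ vC x) ⨯₃ ((M * D) *ᵥ vC y) = cof M *ᵥ (vC x ⨯₃ (D *ᵥ vC y)) := by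
      rw [← Matrix.mulVec_mulVec, cross_mulVec]
    rw [e1, ha, hb, vC_cross, vC_cross, vC_mulVec, vC_mulVec] at k1
    rw [← cross_anticomm, Matrix.mulVec_neg, ← cross_anticomm (vC x) (cst (ev0 D) *ᵥ vC y),
      ← cross_anticomm (cst (ev0 D') *ᵥ vC x) (vC y)]
    rw [Matrix.mulVec_add, Matrix.mulVec_smul, Matrix.mulVec_mulVec, Matrix.mulVec_neg,
      Matrix.mulVec_neg, smul_neg, ← neg_add, neg_inj]
    rw [sub_sub, sub_eq_zero] at k1
    exact k1
  · apply mulVec_inj hN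
    rw [Matrix.mulVec_mulVec, hG']
    have e1 : ((N * D') *ᵥ vC x) ⨯₃ (N *ᵥ vC y) = cof N *ᵥ ((D' *ᵥ vC x) ⨯₃ vC y) := by
      rw [← Matrix.mulVec_mulVec, cross_mulVec]
    rw [e1, ha, hb, vC_cross, vC_cross, vC_mulVec, vC_mulVec] at k2
    rw [Matrix.mulVec_add, Matrix.mulVec_smul, Matrix.mulVec_mulVec]
    rw [sub_sub, sub_eq_zero] at k2
    rw [k2, add_comm]


include hW hE in
theorem memV (w : V3 ℂ) :
    (lv 2 (cof M *ᵥ vC w), lv 0 ((cof N * cof D') *ᵥ vC w)) ∈ W := by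
  have key : ∀ x y : V3 ℂ, (lv 2 (cof M *ᵥ vC (x ⨯₃ y)), lv 0 ((cof N * cof D') *ᵥ vC (x ⨯₃ y))) ∈ W := by
    intro x y
    have h1 := hW.lie _ (hE x) _ (hE y)
    simp only [lv_cross, cross_mulVec, cof_mul, ← vC_cross] at h1
    exact h1
  refine mem_of_basis 2 0 (cof M) (cof N * cof D') ?_ w
  intro j
  have hj : (Pi.single j 1 : V3 ℂ) = (Pi.single (j + 1) 1 : V3 ℂ) ⨯₃ (Pi.single (j + 2) 1 : V3 ℂ) := by
    fin_cases j <;> ext i <;> fin_cases i <;> simp [cross_apply]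
  rw [hj]
  exact key _ _

include hW hM hN hE in
theorem rel2 {G G' C : M3 R} {A B : M3 ℂ} (hG : M * G = cof M) (hG' : N * G' = cof N)
    (hGe : G = 1 + (PowerSeries.X : R) • cst A + (PowerSeries.X : R) ^ 2 • cst B +
      (PowerSeries.X : R) ^ 3 • C) (x w : V3 ℂ) :
    G *ᵥ (vC x ⨯₃ (G *ᵥ vC w) + vC w ⨯₃ (G *ᵥ vC x) -
      (PowerSeries.X : R) • (vC x ⨯₃ (cst A *ᵥ vC w) + vC w ⨯₃ (cst A *ᵥ vC x))) =
      (PowerSeries.X : R) ^ 2 • (vC x ⨯₃ (cst B *ᵥ vC w) + vC w ⨯₃ (cst B *ᵥ vC x)) ∧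
    G' *ᵥ ((D' *ᵥ vC x) ⨯₃ (G' *ᵥ (cof D' *ᵥ vC w)) + (D' *ᵥ vC w) ⨯₃ (G' *ᵥ (cof D' *ᵥ vC x))) =
      G' *ᵥ (cof D' *ᵥ (vC x ⨯₃ (cst A *ᵥ vC w) + vC w ⨯₃ (cst A *ᵥ vC x))) +
      D' *ᵥ (vC x ⨯₃ (cst B *ᵥ vC w) + vC w ⨯₃ (cst B *ᵥ vC x)) := by
  set a : V3 ℂ := x ⨯₃ (A *ᵥ w) + w ⨯₃ (A *ᵥ x) with ha
  set b : V3 ℂ := x ⨯₃ (B *ᵥ w) + w ⨯₃ (B *ᵥ x) with hb
  have ha' : vC x ⨯₃ (cst A *ᵥ vC w) + vC w ⨯₃ (cst A *ᵥ vC x) = vC a := by
    rw [ha, vC_add, vC_cross, vC_cross, vC_mulVec, vC_mulVec]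
  have hb' : vC x ⨯₃ (cst B *ᵥ vC w) + vC w ⨯₃ (cst B *ᵥ vC x) = vC b := by
    rw [hb, vC_add, vC_cross, vC_cross, vC_mulVec, vC_mulVec]
  rw [ha', hb']
  have m1 := hW.lie _ (hE x) _ (memV hW hE w)
  have m2 := hW.lie _ (hE w) _ (memV hW hE x)
  have m := W.sub_mem (W.sub_mem (W.add_mem m1 m2) (memV hW hE a)) (hE b)
  simp only [lv_cross, Prod.mk_sub_mk, Prod.mk_add_mk, zero_add] at m
  rw [show (1 + 2 : ℕ) = 3 from rfl, ← lv_X 2 (cof M *ᵥ vC a), ← lv_X 1 (M *ᵥ vC b),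
    show (1 + 1 : ℕ) = 2 from rfl, ← lv_X 2 ((PowerSeries.X : R) • (M *ᵥ vC b)),
    show (2 + 1 : ℕ) = 3 from rfl] at m
  simp only [← lv_add, ← lv_sub] at m
  -- first vector
  have e1 : ∀ y z : V3 R, (M *ᵥ y) ⨯₃ (cof M *ᵥ z) = cof M *ᵥ (y ⨯₃ (G *ᵥ z)) := by
    intro y z
    conv_lhs => rw [← hG, ← Matrix.mulVec_mulVec, cross_mulVec]
  have e2 : ∀ y z : V3 R, ((N * D') *ᵥ y) ⨯₃ ((cof N * cof D') *ᵥ z) =
      cof N *ᵥ ((D' *ᵥ y) ⨯₃ (G' *ᵥ (cof D' *ᵥ z))) := by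
    intro y z
    conv_lhs => rw [← hG', ← Matrix.mulVec_mulVec, Matrix.mul_assoc, ← Matrix.mulVec_mulVec,
      cross_mulVec, ← Matrix.mulVec_mulVec]
  rw [e1, e1, e2, e2] at m
  set c : V3 R := vC x ⨯₃ (C *ᵥ vC w) + vC w ⨯₃ (C *ᵥ vC x) with hc
  have e3 : vC x ⨯₃ (G *ᵥ vC w) + vC w ⨯₃ (G *ᵥ vC x) = (PowerSeries.X : R) • vC a +
      (PowerSeries.X : R) ^ 2 • vC b + (PowerSeries.X : R) ^ 3 • c := by
    rw [← ha', ← hb', hc, hGe]
    simp only [Matrix.add_mulVec, Matrix.smul_mulVec, Matrix.one_mulVec, map_add, map_smul]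
    have := cross_anticomm (vC x) (vC w)
    rw [← cross_anticomm (vC w) (vC x)]
    ext1 i
    simp only [Pi.add_apply, Pi.sub_apply, Pi.neg_apply, Pi.smul_apply, smul_eq_mul]
    ring
  obtain ⟨t, ht⟩ : ∃ t : V3 R, (cof M *ᵥ vC b - M *ᵥ vC b) = (PowerSeries.X : R) • t := by
    apply exists_of_c0
    simp only [c0_sub, c0_mulVec, ev0_cof, hM, cof_one, sub_self]
  have e4 : cof M *ᵥ (vC x ⨯₃ (G *ᵥ vC w)) + cof M *ᵥ (vC w ⨯₃ (G *ᵥ vC x)) -
      (PowerSeries.X : R) • (cof M *ᵥ vC a) - (PowerSeries.X : R) • (PowerSeries.X : R) • (M *ᵥ vC b) =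
      (PowerSeries.X : R) • (PowerSeries.X : R) • (PowerSeries.X : R) • (t + cof M *ᵥ c) := by
    rw [← Matrix.mulVec_add, e3, Matrix.mulVec_add, Matrix.mulVec_add, Matrix.mulVec_smul,
      Matrix.mulVec_smul, Matrix.mulVec_smul, smul_add (PowerSeries.X : R) t, ← ht]
    ext1 i
    simp only [Pi.add_apply, Pi.sub_apply, Pi.neg_apply, Pi.smul_apply, smul_eq_mul]
    ring
  rw [e4, lv3_X, lv_zero] at m
  obtain ⟨m3, m4⟩ := hW.inf _ _ m
  rw [m3, smul_zero, smul_zero, smul_zero, sub_sub, sub_eq_zero] at e4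
  rw [sub_sub, sub_eq_zero] at m4
  constructor
  · apply mulVec_inj hM
    rw [Matrix.mulVec_mulVec, hG, Matrix.mulVec_sub, Matrix.mulVec_add, e4, Matrix.mulVec_smul,
      Matrix.mulVec_smul]
    ext1 i
    simp only [Pi.add_apply, Pi.sub_apply, Pi.neg_apply, Pi.smul_apply, smul_eq_mul]
    ring
  · apply mulVec_inj hN
    rw [Matrix.mulVec_mulVec, hG', Matrix.mulVec_add, m4, Matrix.mulVec_add, Matrix.mulVec_mulVec,
      Matrix.mulVec_mulVec, Matrix.mulVec_mulVec, hG']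


theorem I1_ext {G D : M3 R} {r s : M3 ℂ}
    (h : ∀ x y : V3 ℂ, G *ᵥ ((D *ᵥ vC y) ⨯₃ vC x) = (cst r *ᵥ vC y) ⨯₃ vC x +
      (PowerSeries.X : R) • (D *ᵥ (vC y ⨯₃ (cst s *ᵥ vC x)))) (x y : V3 R) :
    G *ᵥ ((D *ᵥ y) ⨯₃ x) = (cst r *ᵥ y) ⨯₃ x +
      (PowerSeries.X : R) • (D *ᵥ (y ⨯₃ (cst s *ᵥ x))) := by
  refine sub_eq_zero.mp (bilin_ext (f := fun x y => G *ᵥ ((D *ᵥ y) ⨯₃ x) - ((cst r *ᵥ y) ⨯₃ x +
      (PowerSeries.X : R) • (D *ᵥ (y ⨯₃ (cst s *ᵥ x))))) ?_ ?_ ?_ ?_ ?_ x y)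
  · intro x x' y
    simp only [map_add, Matrix.mulVec_add, LinearMap.add_apply]
    ext1 i
    simp only [Pi.add_apply, Pi.sub_apply, Pi.smul_apply, smul_eq_mul]
    ring
  · intro c x y
    simp only [map_smul, Matrix.mulVec_smul, LinearMap.smul_apply]
    ext1 i
    simp only [Pi.add_apply, Pi.sub_apply, Pi.smul_apply, smul_eq_mul]
    ring
  · intro x y y'
    simp only [map_add, Matrix.mulVec_add, LinearMap.add_apply]
    ext1 i
    simp only [Pi.add_apply, Pi.sub_apply, Pi.smul_apply, smul_eq_mul]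
    ring
  · intro c x y
    simp only [map_smul, Matrix.mulVec_smul, LinearMap.smul_apply]
    ext1 i
    simp only [Pi.add_apply, Pi.sub_apply, Pi.smul_apply, smul_eq_mul]
    ring
  · intro x y
    exact sub_eq_zero.mpr (h x y)

theorem two_smul_inj {u v : V3 R} (h : u + u = v + v) : u = v := by
  ext1 i
  have h1 := congrFun h i
  simp only [Pi.add_apply] at h1
  have h2 : (2 : R) * (u i) = 2 * (v i) := by rw [two_mul, two_mul]; exact h1
  have h3 : (2 : R) ≠ 0 := by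
    intro h
    have := congrArg (PowerSeries.constantCoeff (R := ℂ)) h
    rw [map_ofNat, map_zero] at this
    norm_num at this
  exact mul_left_cancel₀ h3 h2

theorem I2_ext {G : M3 R} {A B : M3 ℂ}
    (h : ∀ x w : V3 ℂ, G *ᵥ (vC x ⨯₃ (G *ᵥ vC w) + vC w ⨯₃ (G *ᵥ vC x) -
      (PowerSeries.X : R) • (vC x ⨯₃ (cst A *ᵥ vC w) + vC w ⨯₃ (cst A *ᵥ vC x))) =
      (PowerSeries.X : R) ^ 2 • (vC x ⨯₃ (cst B *ᵥ vC w) + vC w ⨯₃ (cst B *ᵥ vC x))) (x : V3 R) :
    G *ᵥ (x ⨯₃ ((G - (PowerSeries.X : R) • cst A) *ᵥ x)) =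
      ((PowerSeries.X : R) ^ 2) • (x ⨯₃ (cst B *ᵥ x)) := by
  have := sub_eq_zero.mp (bilin_ext (f := fun x w => G *ᵥ (x ⨯₃ (G *ᵥ w) + w ⨯₃ (G *ᵥ x) -
      (PowerSeries.X : R) • (x ⨯₃ (cst A *ᵥ w) + w ⨯₃ (cst A *ᵥ x))) -
      (PowerSeries.X : R) ^ 2 • (x ⨯₃ (cst B *ᵥ w) + w ⨯₃ (cst B *ᵥ x))) ?_ ?_ ?_ ?_ ?_ x x)
  · apply two_smul_inj
    rw [← Matrix.mulVec_add, ← smul_add, ← this]
    congr 1
    rw [Matrix.sub_mulVec, Matrix.smul_mulVec, map_sub, map_smul]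
    ext1 i
    simp only [Pi.add_apply, Pi.sub_apply, Pi.smul_apply, smul_eq_mul]
    ring
  · intro x x' y
    simp only [map_add, map_sub, map_smul, Matrix.mulVec_add, Matrix.mulVec_sub,
      Matrix.mulVec_smul, LinearMap.add_apply]
    ext1 i
    simp only [Pi.add_apply, Pi.sub_apply, Pi.smul_apply, smul_eq_mul]
    ring
  · intro c x y
    simp only [map_smul, Matrix.mulVec_smul, LinearMap.smul_apply, Matrix.mulVec_sub,
      Matrix.mulVec_add]
    ext1 i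
    simp only [Pi.add_apply, Pi.sub_apply, Pi.smul_apply, smul_eq_mul]
    ring
  · intro x x' y
    simp only [map_add, map_sub, map_smul, Matrix.mulVec_add, Matrix.mulVec_sub,
      Matrix.mulVec_smul, LinearMap.add_apply]
    ext1 i
    simp only [Pi.add_apply, Pi.sub_apply, Pi.smul_apply, smul_eq_mul]
    ring
  · intro c x y
    simp only [map_smul, Matrix.mulVec_smul, LinearMap.smul_apply, Matrix.mulVec_sub,
      Matrix.mulVec_add]
    ext1 i
    simp only [Pi.add_apply, Pi.sub_apply, Pi.smul_apply, smul_eq_mul]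
    ring
  · intro x y
    exact sub_eq_zero.mpr (h x y)

theorem I3_pre {G D : M3 R} {A B : M3 ℂ}
    (h : ∀ x w : V3 ℂ, G *ᵥ ((D *ᵥ vC x) ⨯₃ (G *ᵥ (cof D *ᵥ vC w)) +
        (D *ᵥ vC w) ⨯₃ (G *ᵥ (cof D *ᵥ vC x))) =
      G *ᵥ (cof D *ᵥ (vC x ⨯₃ (cst A *ᵥ vC w) + vC w ⨯₃ (cst A *ᵥ vC x))) +
      D *ᵥ (vC x ⨯₃ (cst B *ᵥ vC w) + vC w ⨯₃ (cst B *ᵥ vC x))) (x : V3 R) :
    G *ᵥ ((D *ᵥ x) ⨯₃ (G *ᵥ (cof D *ᵥ x)) - cof D *ᵥ (x ⨯₃ (cst A *ᵥ x))) =
      D *ᵥ (x ⨯₃ (cst B *ᵥ x)) := by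
  have := sub_eq_zero.mp (bilin_ext (f := fun x w => G *ᵥ ((D *ᵥ x) ⨯₃ (G *ᵥ (cof D *ᵥ w)) +
        (D *ᵥ w) ⨯₃ (G *ᵥ (cof D *ᵥ x))) -
      (G *ᵥ (cof D *ᵥ (x ⨯₃ (cst A *ᵥ w) + w ⨯₃ (cst A *ᵥ x))) +
      D *ᵥ (x ⨯₃ (cst B *ᵥ w) + w ⨯₃ (cst B *ᵥ x)))) ?_ ?_ ?_ ?_ ?_ x x)
  · apply two_smul_inj
    rw [Matrix.mulVec_add, Matrix.mulVec_add, Matrix.mulVec_add, Matrix.mulVec_add] at this
    rw [Matrix.mulVec_sub]
    ext1 i
    have h1 := congrFun this i
    simp only [Pi.add_apply, Pi.sub_apply] at h1 ⊢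
    linear_combination h1
  · intro x x' y
    simp only [map_add, map_sub, map_smul, Matrix.mulVec_add, Matrix.mulVec_sub,
      Matrix.mulVec_smul, LinearMap.add_apply]
    ext1 i
    simp only [Pi.add_apply, Pi.sub_apply, Pi.smul_apply, smul_eq_mul]
    ring
  · intro c x y
    simp only [map_smul, Matrix.mulVec_smul, LinearMap.smul_apply, Matrix.mulVec_sub,
      Matrix.mulVec_add]
    ext1 i
    simp only [Pi.add_apply, Pi.sub_apply, Pi.smul_apply, smul_eq_mul]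
    ring
  · intro x x' y
    simp only [map_add, map_sub, map_smul, Matrix.mulVec_add, Matrix.mulVec_sub,
      Matrix.mulVec_smul, LinearMap.add_apply]
    ext1 i
    simp only [Pi.add_apply, Pi.sub_apply, Pi.smul_apply, smul_eq_mul]
    ring
  · intro c x y
    simp only [map_smul, Matrix.mulVec_smul, LinearMap.smul_apply, Matrix.mulVec_sub,
      Matrix.mulVec_add]
    ext1 i
    simp only [Pi.add_apply, Pi.sub_apply, Pi.smul_apply, smul_eq_mul]
    ring
  · intro x y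
    exact sub_eq_zero.mpr (h x y)

/-- the transposed form of (I1) -/
theorem I1_transpose {G D : M3 R} {r s : M3 ℂ} (hG : Gᵀ = G)
    (h : ∀ x y : V3 R, G *ᵥ ((D *ᵥ y) ⨯₃ x) = (cst r *ᵥ y) ⨯₃ x +
      (PowerSeries.X : R) • (D *ᵥ (y ⨯₃ (cst s *ᵥ x)))) (y : V3 R) :
    (D *ᵥ y) ⨯₃ (G *ᵥ (cof D *ᵥ y)) = (cst r *ᵥ y) ⨯₃ (cof D *ᵥ y) := by
  -- test against an arbitrary vector `x`
  have key : ∀ x : V3 R, x ⬝ᵥ ((D *ᵥ y) ⨯₃ (G *ᵥ (cof D *ᵥ y))) =
      x ⬝ᵥ ((cst r *ᵥ y) ⨯₃ (cof D *ᵥ y)) := by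
    intro x
    have h1 := congrArg (fun t => (cof D *ᵥ y) ⬝ᵥ t) (h x y)
    have e1 : (cof D *ᵥ y) ⬝ᵥ (G *ᵥ ((D *ᵥ y) ⨯₃ x)) = x ⬝ᵥ ((G *ᵥ (cof D *ᵥ y)) ⨯₃ (D *ᵥ y)) := by
      rw [dot_mulVec_cross, hG]
    have e2 : (cof D *ᵥ y) ⬝ᵥ (D *ᵥ (y ⨯₃ (cst s *ᵥ x))) = 0 := by
      rw [dot_mulVec_cross, Matrix.mulVec_mulVec, transpose_mul_cof, Matrix.smul_mulVec,
        Matrix.one_mulVec, map_smul, LinearMap.smul_apply, cross_self, smul_zero, dotProduct_zero]
    have e3 : (cof D *ᵥ y) ⬝ᵥ ((cst r *ᵥ y) ⨯₃ x) = x ⬝ᵥ ((cof D *ᵥ y) ⨯₃ (cst r *ᵥ y)) := by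
      have := dot_mulVec_cross (1 : M3 R) (cof D *ᵥ y) (cst r *ᵥ y) x
      rwa [Matrix.transpose_one, Matrix.one_mulVec, Matrix.one_mulVec] at this
    rw [dotProduct_add, dotProduct_smul, e1, e2, e3, smul_zero, add_zero,
      ← cross_anticomm, dotProduct_neg, ← cross_anticomm (cst r *ᵥ y), dotProduct_neg,
      neg_inj] at h1
    exact h1
  ext1 i
  have := key (Pi.single i 1)
  simpa using this

end core


section gen

theorem exists_lv1 (f : K) : ∃ (k : ℕ) (a : R), f = lamInv ^ k * toK a := by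
  obtain ⟨⟨a, ⟨s, hs⟩⟩, h⟩ := IsLocalization.surj (Submonoid.powers (PowerSeries.X : R)) f
  obtain ⟨k, rfl⟩ := hs
  refine ⟨k, a, ?_⟩
  simp only [LaurentSeries.coe_algebraMap] at h
  change f * toK (PowerSeries.X ^ k) = toK a at h
  rw [← h, map_pow, mul_comm f, ← mul_assoc, ← mul_pow, lamInv_toK_X, one_pow, one_mul]

theorem lamInv_pow_toK (k l : ℕ) (a : R) :
    lamInv ^ (k + l) * toK ((PowerSeries.X : R) ^ l * a) = lamInv ^ k * toK a := by
  rw [map_mul, map_pow, pow_add]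
  calc lamInv ^ k * lamInv ^ l * (toK PowerSeries.X ^ l * toK a)
      = lamInv ^ k * ((lamInv * toK PowerSeries.X) ^ l * toK a) := by rw [mul_pow]; ring
    _ = _ := by rw [lamInv_toK_X, one_pow, one_mul]

theorem exists_lv (f : V3 K) : ∃ (k : ℕ) (u : V3 R), f = lv k u := by
  choose k a h using fun i => exists_lv1 (f i)
  refine ⟨k 0 + k 1 + k 2, fun i => (PowerSeries.X : R) ^ (k 0 + k 1 + k 2 - k i) * a i, ?_⟩
  ext1 i
  rw [h i]
  simp only [lv, Pi.smul_apply, vK, smul_eq_mul]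
  have hi : k 0 + k 1 + k 2 = k i + (k 0 + k 1 + k 2 - k i) := by
    have : k i ≤ k 0 + k 1 + k 2 := by fin_cases i <;> simp <;> omega
    omega
  conv_rhs => rw [hi]
  rw [show k i + (k 0 + k 1 + k 2 - k i) - k i = (k 0 + k 1 + k 2 - k i) by omega,
    lamInv_pow_toK]

variable {W' : Submodule ℂ (V3 K × V3 K)}
  (hlie : ∀ p ∈ W', ∀ q ∈ W', (p.1 ⨯₃ q.1, p.2 ⨯₃ q.2) ∈ W')
  {M P : M3 R} (hM : ev0 M = 1)
  (hE : ∀ x : V3 ℂ, (lv 1 (M *ᵥ vC x), lv 0 (P *ᵥ vC x)) ∈ W')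

include hlie hM hE in
theorem tower (k : ℕ) (w : V3 ℂ) : ∃ u v : V3 R, c0 u = w ∧ (lv (1 + k) u, lv 0 v) ∈ W' := by
  induction k generalizing w with
  | zero => exact ⟨_, _, by rw [c0_mulVec, hM, Matrix.one_mulVec, c0_vC], hE w⟩
  | succ k ih =>
    have hb : ∀ j : Fin 3, ∃ u v : V3 R, c0 u = Pi.single j 1 ∧
        (lv (1 + (k + 1)) u, lv 0 v) ∈ W' := by
      intro j
      obtain ⟨u, v, hu, hm⟩ := ih (Pi.single (j + 2) 1)
      refine ⟨(M *ᵥ vC (Pi.single (j + 1) 1)) ⨯₃ u, (P *ᵥ vC (Pi.single (j + 1) 1)) ⨯₃ v, ?_, ?_⟩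
      · rw [c0_cross, hu, c0_mulVec, hM, Matrix.one_mulVec, c0_vC]
        fin_cases j <;> ext i <;> fin_cases i <;> simp [cross_apply]
      · have h1 := hlie _ (hE (Pi.single (j + 1) 1)) _ hm
        simp only [lv_cross, zero_add] at h1
        rw [show 1 + (k + 1) = 1 + (1 + k) by ring]
        exact h1
    choose u v hu hm using hb
    refine ⟨∑ j, PowerSeries.C (R := ℂ) (w j) • u j, ∑ j, PowerSeries.C (R := ℂ) (w j) • v j,
      ?_, ?_⟩
    · ext1 i
      have h2 : ∀ j, PowerSeries.constantCoeff (R := ℂ) (u j i) = (Pi.single j 1 : V3 ℂ) i :=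
        fun j => congrFun (hu j) i
      simp only [c0, Finset.sum_apply, Pi.smul_apply, smul_eq_mul, map_sum, map_mul, h2,
        PowerSeries.constantCoeff_C]
      rw [Finset.sum_eq_single i]
      · simp
      · intro b _ hb
        simp [Pi.single_eq_of_ne (Ne.symm hb)]
      · simp
    · have h3 : (lv (1 + (k + 1)) (∑ j, PowerSeries.C (R := ℂ) (w j) • u j),
          lv 0 (∑ j, PowerSeries.C (R := ℂ) (w j) • v j)) =
          ∑ j, w j • (lv (1 + (k + 1)) (u j), lv 0 (v j)) := by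
        simp only [Fin.sum_univ_three, Prod.smul_mk, Prod.mk_add_mk, smul_lv, ← lv_add]
      rw [h3]
      exact Submodule.sum_mem _ fun j _ => W'.smul_mem _ (hm j)

include hlie hM hE in
theorem gen1 (k : ℕ) (u : V3 R) : ∃ p ∈ W', ∃ a b : V3 R, (lv k u, (0 : V3 K)) = p + (vK a, vK b) := by
  induction k generalizing u with
  | zero => exact ⟨0, W'.zero_mem, u, 0, by simp [lv_zero, vK_zero]⟩
  | succ k ih =>
    obtain ⟨u1, v1, h1, h2⟩ := tower hlie hM hE k (c0 u)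
    obtain ⟨u2, hu2⟩ := exists_of_c0 (u := u - u1) (by rw [c0_sub, h1, sub_self])
    obtain ⟨p, hp, a, b, hab⟩ := ih u2
    refine ⟨(lv (1 + k) u1, lv 0 v1) + p, W'.add_mem h2 hp, a, b - v1, ?_⟩
    have e1 : lv (k + 1) u = lv (1 + k) u1 + lv k u2 := by
      rw [← lv_X k, ← hu2, lv_sub, add_comm 1 k]
      ext1 i
      simp
    have e3 : (lv k u2, (0 : V3 K)).1 = (p + (vK a, vK b)).1 := by rw [hab]
    have e4 : (lv k u2, (0 : V3 K)).2 = (p + (vK a, vK b)).2 := by rw [hab]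
    simp only [Prod.fst_add, Prod.snd_add] at e3 e4
    refine Prod.ext ?_ ?_
    · simp only [Prod.fst_add]
      rw [e1, e3]
      ext1 i
      simp only [Pi.add_apply]
      ring
    · simp only [Prod.snd_add]
      rw [e4, vK_sub, lv_zero]
      ext1 i
      simp only [Pi.add_apply, Pi.sub_apply]
      ring

end gen


section fin

theorem exists_of_isTaylor {a : K} (h : IsTaylor a) : ∃ b : R, a = toK b := by
  refine ⟨PowerSeries.mk fun n => HahnSeries.coeff a n, ?_⟩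
  ext n
  rw [toK]
  rcases Int.lt_or_le n 0 with hn | hn
  · rw [h n hn, HahnSeries.ofPowerSeries_apply, HahnSeries.embDomain_of_notMem_range]
    rintro ⟨m, hm⟩
    simp at hm
    omega
  · obtain ⟨m, rfl⟩ := Int.eq_ofNat_of_zero_le hn
    have := HahnSeries.ofPowerSeries_apply_coeff (Γ := ℤ)
      (PowerSeries.mk fun n => HahnSeries.coeff a (n : ℤ)) m
    simp only [PowerSeries.coeff_mk] at this
    exact this.symm

theorem isTaylor_toK (b : R) : IsTaylor (toK b) := by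
  intro n hn
  rw [toK, HahnSeries.ofPowerSeries_apply, HahnSeries.embDomain_of_notMem_range]
  rintro ⟨m, hm⟩
  simp at hm
  omega

/-- `2 • iota` over any ring -/
def iotaJ {F : Type*} [CommRing F] (a b : V3 F) : Matrix (Fin 4) (Fin 4) F :=
  !![0, -(a 2 + b 2), a 1 + b 1, a 0 - b 0;
     a 2 + b 2, 0, -(a 0 + b 0), a 1 - b 1;
     -(a 1 + b 1), a 0 + b 0, 0, a 2 - b 2;
     -(a 0 - b 0), -(a 1 - b 1), -(a 2 - b 2), 0]

theorem iotaJ_comm {F : Type*} [CommRing F] (a b a' b' : V3 F) :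
    iotaJ a b * iotaJ a' b' - iotaJ a' b' * iotaJ a b = (2 : F) • iotaJ (a ⨯₃ a') (b ⨯₃ b') := by
  refine Matrix.ext fun i j => ?_
  simp only [Matrix.mul_apply, Fin.sum_univ_four, Matrix.sub_apply, Matrix.smul_apply, smul_eq_mul]
  fin_cases i <;> fin_cases j <;>
    simp only [iotaJ, cross_apply, Fin.zero_eta, Fin.mk_one, Fin.reduceFinMk,
      Matrix.of_apply, Matrix.cons_val', Matrix.cons_val, Matrix.cons_val_zero,
      Matrix.cons_val_one] <;> ring

theorem iotaJ_add {F : Type*} [CommRing F] (a b a' b' : V3 F) :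
    iotaJ (a + a') (b + b') = iotaJ a b + iotaJ a' b' := by
  refine Matrix.ext fun i j => ?_
  fin_cases i <;> fin_cases j <;> simp [iotaJ] <;> ring

theorem iotaJ_smul {F : Type*} [CommRing F] (c : F) (a b : V3 F) :
    iotaJ (c • a) (c • b) = c • iotaJ a b := by
  refine Matrix.ext fun i j => ?_
  fin_cases i <;> fin_cases j <;> simp [iotaJ] <;> ring

theorem iota_apply (a b : V3 K) (i j : Fin 4) : iota a b i j = (2 : K)⁻¹ * iotaJ a b i j := rfl

theorem iotaJ_transpose {F : Type*} [CommRing F] (a b : V3 F) :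
    (iotaJ a b)ᵀ = - iotaJ a b := by
  refine Matrix.ext fun i j => ?_
  fin_cases i <;> fin_cases j <;> simp [iotaJ]

theorem iota_eq (a b : V3 K) : iota a b = (2 : K)⁻¹ • iotaJ a b := rfl

theorem two_ne : (2 : K) ≠ 0 := by
  intro h
  have h3 := congrArg (fun t : K => HahnSeries.coeff t 0) h
  have h4 : (2 : K) = HahnSeries.C (2 : ℂ) := by rw [map_ofNat]
  rw [h4] at h3
  simp at h3

theorem iota_add (a b a' b' : V3 K) : iota (a + a') (b + b') = iota a b + iota a' b' := by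
  rw [iota_eq, iota_eq, iota_eq, iotaJ_add]
  refine Matrix.ext fun i j => ?_
  simp only [Matrix.smul_apply, Matrix.add_apply, smul_eq_mul]
  ring

theorem iota_smul (c : ℂ) (a b : V3 K) : iota (c • a) (c • b) = c • iota a b := by
  have h1 : ∀ v : V3 K, c • v = toK (PowerSeries.C (R := ℂ) c) • v := by
    intro v; ext1 i; simp only [Pi.smul_apply, smul_K, smul_eq_mul]
  rw [h1, h1, iota_eq, iota_eq, iotaJ_smul]
  refine Matrix.ext fun i j => ?_
  simp only [Matrix.smul_apply, smul_eq_mul, smul_K]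
  ring

/-- `iota` as a linear map -/
def iotaL : (V3 K × V3 K) →ₗ[ℂ] Matrix (Fin 4) (Fin 4) K where
  toFun p := iota p.1 p.2
  map_add' p q := iota_add p.1 p.2 q.1 q.2
  map_smul' c p := iota_smul c p.1 p.2

theorem iotaL_apply (p : V3 K × V3 K) : iotaL p = iota p.1 p.2 := rfl

theorem iota_comm (a b a' b' : V3 K) :
    iota a b * iota a' b' - iota a' b' * iota a b = iota (a ⨯₃ a') (b ⨯₃ b') := by
  have h := iotaJ_comm a b a' b'
  have h2 : (2 : K)⁻¹ * 2 = 1 := inv_mul_cancel₀ two_ne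
  refine Matrix.ext fun i j => ?_
  have h3 := congrFun (congrFun h i) j
  simp only [Matrix.sub_apply, Matrix.smul_apply, smul_eq_mul, Matrix.mul_apply,
    Fin.sum_univ_four, iota_apply] at h3 ⊢
  linear_combination (2 : K)⁻¹ * (2 : K)⁻¹ * h3 +
    (2 : K)⁻¹ * (iotaJ (a ⨯₃ a') (b ⨯₃ b') i j) * h2

theorem iota_mem_soLoop (a b : V3 K) : iota a b ∈ soLoop := by
  change (iota a b)ᵀ = - iota a b
  have h := iotaJ_transpose a b
  refine Matrix.ext fun i j => ?_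
  have h1 := congrFun (congrFun h i) j
  simp only [Matrix.transpose_apply, Matrix.neg_apply, iota_apply] at h1 ⊢
  linear_combination (2 : K)⁻¹ * h1

theorem half_add_half (a : K) : (2 : K)⁻¹ * (a + a) = a := by
  rw [← two_mul, ← mul_assoc, inv_mul_cancel₀ two_ne, one_mul]

theorem exists_iota {X : Matrix (Fin 4) (Fin 4) K} (hX : X ∈ soLoop) :
    X = iota ![X 0 3 - X 1 2, X 0 2 + X 1 3, X 2 3 - X 0 1]
      ![-X 1 2 - X 0 3, X 0 2 - X 1 3, -X 0 1 - X 2 3] := by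
  have hT : Xᵀ = -X := hX
  have h : ∀ i j, X j i = - X i j := fun i j => by
    have := congrFun (congrFun hT i) j
    simpa using this
  have hd : ∀ i, X i i = 0 := by
    intro i
    have h1 := h i i
    have h2 : (2 : K) * X i i = 0 := by linear_combination h1
    rcases mul_eq_zero.mp h2 with h3 | h3
    · exact absurd h3 two_ne
    · exact h3
  have h2 : (2 : K)⁻¹ * 2 = 1 := inv_mul_cancel₀ two_ne
  rw [iota_eq]
  refine Matrix.ext fun i j => ?_
  fin_cases i <;> fin_cases j <;>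
    simp only [iotaJ, Matrix.smul_apply, smul_eq_mul, Fin.zero_eta, Fin.mk_one, Fin.reduceFinMk,
      Matrix.of_apply, Matrix.cons_val', Matrix.cons_val, Matrix.cons_val_zero, Matrix.cons_val_one,
      hd, mul_zero, h 0 1, h 0 2, h 0 3, h 1 2, h 1 3, h 2 3]
  all_goals
    first
    | linear_combination (-X 0 1) * h2
    | linear_combination (-X 0 2) * h2
    | linear_combination (-X 0 3) * h2
    | linear_combination (-X 1 2) * h2
    | linear_combination (-X 1 3) * h2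
    | linear_combination (-X 2 3) * h2
    | linear_combination (X 0 1) * h2
    | linear_combination (X 0 2) * h2
    | linear_combination (X 0 3) * h2
    | linear_combination (X 1 2) * h2
    | linear_combination (X 1 3) * h2
    | linear_combination (X 2 3) * h2

theorem isTaylor_add {a b : K} (ha : IsTaylor a) (hb : IsTaylor b) : IsTaylor (a + b) := by
  obtain ⟨a', rfl⟩ := exists_of_isTaylor ha
  obtain ⟨b', rfl⟩ := exists_of_isTaylor hb
  rw [← map_add]; exact isTaylor_toK _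
theorem isTaylor_neg {a : K} (ha : IsTaylor a) : IsTaylor (-a) := by
  obtain ⟨a', rfl⟩ := exists_of_isTaylor ha
  rw [← map_neg]; exact isTaylor_toK _
theorem isTaylor_sub {a b : K} (ha : IsTaylor a) (hb : IsTaylor b) : IsTaylor (a - b) := by
  rw [sub_eq_add_neg]; exact isTaylor_add ha (isTaylor_neg hb)
theorem isTaylor_mul {a b : K} (ha : IsTaylor a) (hb : IsTaylor b) : IsTaylor (a * b) := by
  obtain ⟨a', rfl⟩ := exists_of_isTaylor ha
  obtain ⟨b', rfl⟩ := exists_of_isTaylor hb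
  rw [← map_mul]; exact isTaylor_toK _

theorem isTaylor_half : IsTaylor ((2 : K)⁻¹) := by
  have : (2 : K)⁻¹ = toK (PowerSeries.C (R := ℂ) (2⁻¹)) := by
    symm
    apply eq_inv_of_mul_eq_one_left
    rw [show (2 : K) = toK (PowerSeries.C (R := ℂ) 2) by rw [map_ofNat, map_ofNat], ← map_mul,
      ← map_mul]
    norm_num
  rw [this]; exact isTaylor_toK _

theorem iota_mem_soTaylor (u v : V3 R) : iota (vK u) (vK v) ∈ soTaylor := by
  refine ⟨iota_mem_soLoop _ _, fun i j => ?_⟩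
  rw [iota_eq, Matrix.smul_apply, smul_eq_mul]
  apply isTaylor_mul isTaylor_half
  have hu : ∀ i, IsTaylor (vK u i) := fun i => isTaylor_toK _
  have hv : ∀ i, IsTaylor (vK v i) := fun i => isTaylor_toK _
  have h0 : IsTaylor 0 := by rw [← map_zero toK]; exact isTaylor_toK _
  fin_cases i <;> fin_cases j <;>
    simp only [iotaJ, Fin.zero_eta, Fin.mk_one, Fin.reduceFinMk,
      Matrix.of_apply, Matrix.cons_val', Matrix.cons_val, Matrix.cons_val_zero, Matrix.cons_val_one]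
  all_goals
    first
    | exact h0
    | exact isTaylor_add (hu _) (hv _)
    | exact isTaylor_sub (hu _) (hv _)
    | exact isTaylor_neg (isTaylor_add (hu _) (hv _))
    | exact isTaylor_neg (isTaylor_sub (hu _) (hv _))

theorem exists_iota_taylor {X : Matrix (Fin 4) (Fin 4) K} (hX : X ∈ soTaylor) :
    ∃ u v : V3 R, X = iota (vK u) (vK v) := by
  obtain ⟨h1, h2⟩ := hX
  have h3 := exists_iota h1
  have hT : ∀ i j, ∃ b : R, X i j = toK b := fun i j => exists_of_isTaylor (h2 i j)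
  choose b hb using hT
  refine ⟨![b 0 3 - b 1 2, b 0 2 + b 1 3, b 2 3 - b 0 1],
    ![-b 1 2 - b 0 3, b 0 2 - b 1 3, -b 0 1 - b 2 3], ?_⟩
  rw [h3]
  congr 1
  · ext1 i
    fin_cases i <;> simp [vK, hb]
  · ext1 i
    fin_cases i <;> simp [vK, hb]

theorem iota_inj {a b a' b' : V3 K} (h : iota a b = iota a' b') : a = a' ∧ b = b' := by
  rw [iota_eq, iota_eq] at h
  have h1 : ∀ i j, iotaJ a b i j = iotaJ a' b' i j := by
    intro i j
    have h2 := congrFun (congrFun h i) j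
    simp only [Matrix.smul_apply, smul_eq_mul] at h2
    exact mul_left_cancel₀ (inv_ne_zero two_ne) h2
  have h01 := h1 1 0
  have h02 := h1 0 2
  have h03 := h1 0 3
  have h12 := h1 2 1
  have h13 := h1 1 3
  have h23 := h1 2 3
  simp only [iotaJ, Matrix.of_apply, Matrix.cons_val', Matrix.cons_val, Matrix.cons_val_zero,
    Matrix.cons_val_one] at h01 h02 h03 h12 h13 h23
  constructor
  · ext1 i
    apply mul_left_cancel₀ two_ne
    fin_cases i <;> simp only [Fin.zero_eta, Fin.mk_one, Fin.reduceFinMk]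
    · linear_combination h03 + h12
    · linear_combination h13 + h02
    · linear_combination h23 + h01
  · ext1 i
    apply mul_left_cancel₀ two_ne
    fin_cases i <;> simp only [Fin.zero_eta, Fin.mk_one, Fin.reduceFinMk]
    · linear_combination h12 - h03
    · linear_combination h02 - h13
    · linear_combination h01 - h23

end fin

section main

/-- the abstract properties of a factoring subalgebra, transported to pairs -/
structure Fac (W : Submodule ℂ (V3 K × V3 K)) : Prop extends Good W where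
  sup : ∀ p : V3 K × V3 K, ∃ w ∈ W, ∃ u v : V3 R, p = w + (vK u, vK v)

theorem fac_of_isFactoring {U : Submodule ℂ (Matrix (Fin 4) (Fin 4) K)} (hU : IsFactoring U) :
    Fac (U.comap iotaL) where
  lie := by
    intro p hp q hq
    rw [Submodule.mem_comap, iotaL_apply] at *
    rw [← iota_comm]
    exact hU.lie _ hp _ hq
  inf := by
    intro u v h
    rw [Submodule.mem_comap, iotaL_apply] at h
    have h1 : iota (vK u) (vK v) ∈ U ⊓ soTaylor := ⟨h, iota_mem_soTaylor u v⟩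
    rw [hU.inf, Submodule.mem_bot] at h1
    have h2 : iota (vK u) (vK v) = iota (vK 0) (vK 0) := by
      rw [h1, vK_zero]
      exact (map_zero iotaL).symm
    obtain ⟨h3, h4⟩ := iota_inj h2
    exact ⟨vK_injective h3, vK_injective h4⟩
  sup := by
    intro p
    have h1 : iota p.1 p.2 ∈ U ⊔ soTaylor := by
      rw [hU.sup]; exact iota_mem_soLoop _ _
    obtain ⟨x, hx, t, ht, hxt⟩ := Submodule.mem_sup.mp h1
    obtain ⟨u, v, rfl⟩ := exists_iota_taylor ht
    have hx' := exists_iota (hU.le hx)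
    set a := ![x 0 3 - x 1 2, x 0 2 + x 1 3, x 2 3 - x 0 1]
    set b := ![-x 1 2 - x 0 3, x 0 2 - x 1 3, -x 0 1 - x 2 3]
    refine ⟨(a, b), ?_, u, v, ?_⟩
    · rw [Submodule.mem_comap, iotaL_apply]
      exact hx' ▸ hx
    · rw [hx', ← iota_add] at hxt
      obtain ⟨h3, h4⟩ := iota_inj hxt
      exact Prod.ext h3.symm h4.symm

/-- exchange of the two components -/
def swp : (V3 K × V3 K) →ₗ[ℂ] (V3 K × V3 K) := (LinearEquiv.prodComm ℂ (V3 K) (V3 K)).toLinearMap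

theorem swp_apply (p : V3 K × V3 K) : swp p = (p.2, p.1) := rfl

theorem mem_swp {W : Submodule ℂ (V3 K × V3 K)} (a b : V3 K) :
    (a, b) ∈ W.comap swp ↔ (b, a) ∈ W := Iff.rfl

theorem Fac.swap {W : Submodule ℂ (V3 K × V3 K)} (hW : Fac W) : Fac (W.comap swp) := by
  refine ⟨⟨?_, ?_⟩, ?_⟩
  · rintro ⟨a, b⟩ hp ⟨a', b'⟩ hq
    rw [mem_swp] at hp hq
    have := hW.lie _ hp _ hq
    simp only at this ⊢
    rw [mem_swp]
    exact this
  · intro u v h
    rw [mem_swp] at h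
    exact (hW.inf _ _ h).symm
  · rintro ⟨a, b⟩
    obtain ⟨⟨w1, w2⟩, hw, u, v, h⟩ := hW.sup (b, a)
    refine ⟨(w2, w1), hw, v, u, ?_⟩
    have h1 := congrArg Prod.fst h
    have h2 := congrArg Prod.snd h
    exact Prod.ext h2 h1

theorem Fac.exists_E {W : Submodule ℂ (V3 K × V3 K)} (hW : Fac W) :
    ∃ M P : M3 R, ev0 M = 1 ∧ ∀ x : V3 ℂ, (lv 1 (M *ᵥ vC x), lv 0 (P *ᵥ vC x)) ∈ W := by
  have h : ∀ j : Fin 3, ∃ m p : V3 R, c0 m = Pi.single j 1 ∧ (lv 1 m, lv 0 p) ∈ W := by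
    intro j
    obtain ⟨w, hw, u, v, h⟩ := hW.sup (lv 1 (vC (Pi.single j 1)), 0)
    refine ⟨vC (Pi.single j 1) - (PowerSeries.X : R) • u, - v, ?_, ?_⟩
    · rw [c0_sub, c0_X, c0_vC, sub_zero]
    · have h1 := congrArg Prod.fst h
      have h2 := congrArg Prod.snd h
      simp only [Prod.fst_add, Prod.snd_add] at h1 h2
      have e1 : lv 1 (vC (Pi.single j 1) - (PowerSeries.X : R) • u) = w.1 := by
        have e2 := lv_X 0 u
        rw [lv_zero] at e2
        rw [lv_sub, h1]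
        ext1 i
        have e3 := congrFun e2 i
        simp only [Pi.sub_apply, Pi.add_apply] at e3 ⊢
        linear_combination - e3
      have e2 : lv 0 (-v) = w.2 := by
        rw [lv_zero]
        ext1 i
        have e3 := congrFun h2 i
        simp only [Pi.add_apply, Pi.zero_apply] at e3
        have e4 : vK (-v) i = - vK v i := by simp [vK]
        rw [e4]
        linear_combination e3
      rw [e1, e2]
      exact hw
  choose m p hm hp using h
  have hM : ∀ (m : Fin 3 → V3 R) (j : Fin 3),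
      (Matrix.of fun i j => m j i) *ᵥ vC (Pi.single j 1) = m j := by
    intro m j
    ext1 i
    simp only [Matrix.mulVec, dotProduct, Matrix.of_apply, vC]
    rw [Finset.sum_eq_single j]
    · simp
    · intro b _ hb
      simp [Pi.single_eq_of_ne hb]
    · simp
  refine ⟨Matrix.of fun i j => m j i, Matrix.of fun i j => p j i, ?_, ?_⟩
  · ext i j
    have := congrFun (hm j) i
    simp only [ev0, Matrix.map_apply, Matrix.of_apply]
    rw [show PowerSeries.constantCoeff (R := ℂ) (m j i) = c0 (m j) i from rfl, this,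
      Matrix.one_apply, Pi.single_apply]
  · apply mem_of_basis
    intro j
    rw [hM, hM]
    exact hp j

/-- inverse of a matrix with `M(0) = 1` -/
theorem exists_mul_eq {M P : M3 R} (hM : ev0 M = 1) : ∃ D : M3 R, M * D = P := by
  have h1 : IsUnit M.det := by
    rw [PowerSeries.isUnit_iff_constantCoeff]
    have h2 : PowerSeries.constantCoeff (R := ℂ) M.det = (ev0 M).det := by
      rw [ev0, ← RingHom.mapMatrix_apply, ← RingHom.map_det]
    rw [h2, hM, Matrix.det_one]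
    exact isUnit_one
  exact ⟨M⁻¹ * P, by rw [← Matrix.mul_assoc, Matrix.mul_nonsing_inv _ h1, Matrix.one_mul]⟩

theorem exists_expansion {G : M3 R} (h0 : ev0 G = 1) (hG : Gᵀ = G) :
    ∃ (C : M3 R) (A B : M3 ℂ), Aᵀ = A ∧ Bᵀ = B ∧
      G = 1 + (PowerSeries.X : R) • cst A + (PowerSeries.X : R) ^ 2 • cst B +
      (PowerSeries.X : R) ^ 3 • C := by
  have hs : ∀ i j, G j i = G i j := fun i j => congrFun (congrFun hG i) j
  have e : ∀ g : R, g = PowerSeries.C (R := ℂ) (PowerSeries.constantCoeff (R := ℂ) g) +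
      PowerSeries.X * PowerSeries.C (R := ℂ) (PowerSeries.coeff (R := ℂ) 1 g) +
      PowerSeries.X ^ 2 * PowerSeries.C (R := ℂ) (PowerSeries.coeff (R := ℂ) 2 g) +
      PowerSeries.X ^ 3 * PowerSeries.mk fun n => PowerSeries.coeff (R := ℂ) (n + 3) g := by
    intro g
    have h1 : PowerSeries.X * PowerSeries.C (R := ℂ) (PowerSeries.coeff (R := ℂ) 1 g) =
      PowerSeries.X ^ 1 * PowerSeries.C (R := ℂ) (PowerSeries.coeff (R := ℂ) 1 g) := by
        rw [pow_one]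
    rw [h1]
    ext n
    simp only [map_add, PowerSeries.coeff_X_pow_mul', PowerSeries.coeff_C, PowerSeries.coeff_mk]
    match n with
    | 0 => simp
    | 1 => simp
    | 2 => simp
    | n + 3 =>
      simp only [show n + 3 ≠ 0 by omega, show 1 ≤ n + 3 by omega, show n + 3 - 1 ≠ 0 by omega,
        show 2 ≤ n + 3 by omega, show n + 3 - 2 ≠ 0 by omega, show 3 ≤ n + 3 by omega,
        if_true, if_false]
      simp
  refine ⟨G.map fun g => PowerSeries.mk fun n => PowerSeries.coeff (R := ℂ) (n + 3) g,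
    G.map (PowerSeries.coeff (R := ℂ) 1), G.map (PowerSeries.coeff (R := ℂ) 2), ?_, ?_, ?_⟩
  · ext i j; simp [hs i j]
  · ext i j; simp [hs i j]
  · refine Matrix.ext fun i j => ?_
    conv_lhs => rw [e (G i j)]
    have h1 : PowerSeries.C (R := ℂ) (PowerSeries.constantCoeff (R := ℂ) (G i j)) =
        (1 : M3 R) i j := by
      have h2 : PowerSeries.constantCoeff (R := ℂ) (G i j) = (1 : M3 ℂ) i j := by
        rw [← h0]; rfl
      rw [h2, Matrix.one_apply, Matrix.one_apply]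
      split_ifs <;> simp
    rw [h1]
    simp [cst]

/-- the matrix `G` with `M G = cof M`. -/
theorem exists_G {M : M3 R} (hM : ev0 M = 1) :
    ∃ (G : M3 R), M * G = cof M ∧ Mᵀ * M = cof G ∧ Gᵀ = G ∧ ev0 G = 1 := by
  obtain ⟨I, hI⟩ := exists_mul_eq (P := 1) hM
  have hI' : Iᵀ * Mᵀ = 1 := by rw [← Matrix.transpose_mul, hI, Matrix.transpose_one]
  have hI2 : I * M = 1 := mul_eq_one_comm.mp hI
  have hI2' : Mᵀ * Iᵀ = 1 := by rw [← Matrix.transpose_mul, hI2, Matrix.transpose_one]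
  have hd : M.det * I.det = 1 := by rw [← Matrix.det_mul, hI, Matrix.det_one]
  have c1 : cof M = M.det • Iᵀ := by
    calc cof M = Iᵀ * (Mᵀ * cof M) := by rw [← Matrix.mul_assoc, hI', Matrix.one_mul]
      _ = M.det • Iᵀ := by rw [transpose_mul_cof, Matrix.mul_smul, Matrix.mul_one]
  have c2 : cof I = I.det • Mᵀ := by
    calc cof I = Mᵀ * (Iᵀ * cof I) := by rw [← Matrix.mul_assoc, hI2', Matrix.one_mul]
      _ = I.det • Mᵀ := by rw [transpose_mul_cof, Matrix.mul_smul, Matrix.mul_one]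
  have g1 : M * (M.det • (I * Iᵀ)) = cof M := by
    rw [Matrix.mul_smul, ← Matrix.mul_assoc, hI, Matrix.one_mul, c1]
  refine ⟨M.det • (I * Iᵀ), g1, ?_, ?_, ?_⟩
  · rw [cof_smul, cof_mul, cof_transpose, c2, Matrix.transpose_smul, Matrix.transpose_transpose,
      Matrix.smul_mul, Matrix.mul_smul, smul_smul, smul_smul]
    rw [show M.det ^ 2 * I.det * I.det = 1 by
      calc M.det ^ 2 * I.det * I.det = (M.det * I.det) ^ 2 := by ring
        _ = 1 := by rw [hd, one_pow], one_smul]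
  · rw [Matrix.transpose_smul, Matrix.transpose_mul, Matrix.transpose_transpose]
  · have h1 := congrArg ev0 g1
    rw [ev0_mul, hM, Matrix.one_mul, ev0_cof, hM, cof_one] at h1
    exact h1

theorem lv_one (u : V3 R) : lv 1 u = lamInv • vK u := by rw [lv, pow_one]

/-- everything is generated by `E` and `F` up to Taylor vectors -/
theorem gen_all {W' : Submodule ℂ (V3 K × V3 K)}
    (hlie : ∀ p ∈ W', ∀ q ∈ W', (p.1 ⨯₃ q.1, p.2 ⨯₃ q.2) ∈ W')
    {M N P Q : M3 R} (hM : ev0 M = 1) (hN : ev0 N = 1)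
    (hE : ∀ x : V3 ℂ, (lv 1 (M *ᵥ vC x), lv 0 (P *ᵥ vC x)) ∈ W')
    (hF : ∀ x : V3 ℂ, (lv 0 (Q *ᵥ vC x), lv 1 (N *ᵥ vC x)) ∈ W') (a b : V3 K) :
    ∃ p ∈ W', ∃ u v : V3 R, (a, b) = p + (vK u, vK v) := by
  obtain ⟨k, u0, rfl⟩ := exists_lv a
  obtain ⟨l, v0, rfl⟩ := exists_lv b
  obtain ⟨p, hp, u, v, h1⟩ := gen1 hlie hM hE k u0
  have hlie' : ∀ p ∈ W'.comap swp, ∀ q ∈ W'.comap swp, (p.1 ⨯₃ q.1, p.2 ⨯₃ q.2) ∈ W'.comap swp := by
    rintro ⟨a, b⟩ hp ⟨a', b'⟩ hq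
    rw [mem_swp] at hp hq
    have := hlie _ hp _ hq
    simp only at this ⊢
    rw [mem_swp]
    exact this
  obtain ⟨⟨q1, q2⟩, hq, u', v', h2⟩ := gen1 hlie' hN
    (fun x => (mem_swp _ _).mpr (hF x)) l v0
  rw [mem_swp] at hq
  refine ⟨p + (q2, q1), W'.add_mem hp hq, u + v', v + u', ?_⟩
  have a1 := congrArg Prod.fst h1
  have a2 := congrArg Prod.snd h1
  have b1 := congrArg Prod.fst h2
  have b2 := congrArg Prod.snd h2
  simp only [Prod.fst_add, Prod.snd_add] at a1 a2 b1 b2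
  refine Prod.ext ?_ ?_
  · simp only [Prod.fst_add]
    rw [a1, vK_add]
    ext1 i
    have := congrFun b2 i
    simp only [Pi.add_apply, Pi.zero_apply] at this ⊢
    linear_combination this
  · simp only [Prod.snd_add]
    rw [b1, vK_add]
    ext1 i
    have := congrFun a2 i
    simp only [Pi.add_apply, Pi.zero_apply] at this ⊢
    linear_combination this

end main

end Ex

open Ex in
/-- MODULE C: every factoring subalgebra is given by the two systems. -/
theorem extract {U : Submodule ℂ (Matrix (Fin 4) (Fin 4) K)} (hU : IsFactoring U) :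
    ∃ (M N D D' G G' : M3 R) (A B A' B' : M3 ℂ),
      ev0 M = 1 ∧ ev0 N = 1 ∧ Mᵀ * M = cof G ∧ Nᵀ * N = cof G' ∧
      Half (ev0 D) (ev0 D') A B A' B' G D ∧ Half (ev0 D') (ev0 D) A' B' A B G' D' ∧
      U = alg M D N D' := by
  have hW := fac_of_isFactoring hU
  obtain ⟨M, P, hM, hE⟩ := hW.exists_E
  obtain ⟨N, Q, hN, hF'⟩ := hW.swap.exists_E
  obtain ⟨D', hD'⟩ := exists_mul_eq (P := P) hN
  obtain ⟨D, hD⟩ := exists_mul_eq (P := Q) hM
  obtain ⟨G, hG, hMG, hGs, hG0⟩ := exists_G hM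
  obtain ⟨G', hG', hNG, hGs', hG0'⟩ := exists_G hN
  obtain ⟨C, A, B, hA, hB, hGe⟩ := exists_expansion hG0 hGs
  obtain ⟨C', A', B', hA', hB', hGe'⟩ := exists_expansion hG0' hGs'
  rw [← hD'] at hE
  rw [← hD] at hF'
  have hF : ∀ y : V3 ℂ, (lv 0 ((M * D) *ᵥ vC y), lv 1 (N *ᵥ vC y)) ∈ U.comap iotaL :=
    fun y => (mem_swp _ _).mp (hF' y)
  have r1 := fun x y => rel1 hW.toGood hM hN hE hF hG hG' x y
  have r2 := fun x w => rel2 hW.toGood hM hN hE hG hG' hGe x w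
  have r2' := fun x w => rel2 hW.swap.toGood hN hM hF' hG' hG hGe' x w
  have i1 := I1_ext (fun x y => (r1 x y).1)
  have i1' := I1_ext (fun x y => (r1 y x).2)
  have i2 := I2_ext (fun x w => (r2 x w).1)
  have i2' := I2_ext (fun x w => (r2' x w).1)
  have i3' := I3_pre (fun x w => (r2 x w).2)
  have i3 := I3_pre (fun x w => (r2' x w).2)
  have i4 := I1_transpose hGs i1
  have i4' := I1_transpose hGs' i1'
  refine ⟨M, N, D, D', G, G', A, B, A', B', hM, hN, hMG, hNG, ?_, ?_, ?_⟩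
  · exact
      { symA := hA, symB := hB, symA' := hA', symB' := hB', symG := hGs, G0 := hG0, D0 := rfl
        I1 := i1
        I2 := i2
        I3 := fun y => by rw [← i4]; exact i3 y }
  · exact
      { symA := hA', symB := hB', symA' := hA, symB' := hB, symG := hGs', G0 := hG0', D0 := rfl
        I1 := i1'
        I2 := i2'
        I3 := fun y => by rw [← i4']; exact i3' y }
  · have hle : alg M D N D' ≤ U := by
      apply sInf_le
      refine ⟨fun x => ?_, fun y => ?_, hU.lie⟩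
      · have := hE x
        rw [Submodule.mem_comap, iotaL_apply, lv_one, lv_zero] at this
        exact this
      · have := hF y
        rw [Submodule.mem_comap, iotaL_apply, lv_one, lv_zero] at this
        exact this
    apply le_antisymm _ hle
    intro X hX
    have algE : ∀ x, genE M N D' x ∈ alg M D N D' := by
      intro x
      rw [alg, Submodule.mem_sInf]
      exact fun W hW => hW.1 x
    have algF : ∀ x, genF M D N x ∈ alg M D N D' := by
      intro x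
      rw [alg, Submodule.mem_sInf]
      exact fun W hW => hW.2.1 x
    have algL : ∀ Y ∈ alg M D N D', ∀ Z ∈ alg M D N D', Y * Z - Z * Y ∈ alg M D N D' := by
      intro Y hY Z hZ
      rw [alg, Submodule.mem_sInf] at *
      exact fun W hW => hW.2.2 _ (hY W hW) _ (hZ W hW)
    have key := gen_all (W' := (alg M D N D').comap iotaL) (M := M) (N := N) (P := N * D')
      (Q := M * D) (by
        intro p hp q hq
        rw [Submodule.mem_comap, iotaL_apply] at *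
        rw [← iota_comm]
        exact algL _ hp _ hq) hM hN
      (fun x => by
        rw [Submodule.mem_comap, iotaL_apply, lv_one, lv_zero]
        exact algE x)
      (fun x => by
        rw [Submodule.mem_comap, iotaL_apply, lv_one, lv_zero]
        exact algF x)
    have hX' := exists_iota (hU.le hX)
    set a := ![X 0 3 - X 1 2, X 0 2 + X 1 3, X 2 3 - X 0 1]
    set b := ![-X 1 2 - X 0 3, X 0 2 - X 1 3, -X 0 1 - X 2 3]
    obtain ⟨p, hp, u, v, h⟩ := key a b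
    have h1 : (a, b) ∈ U.comap iotaL := by
      rw [Submodule.mem_comap, iotaL_apply]
      exact hX' ▸ hX
    have h2 : p ∈ U.comap iotaL := hle hp
    have h3 : (vK u, vK v) ∈ U.comap iotaL := by
      have h4 := Submodule.sub_mem _ h1 h2
      rwa [h, add_sub_cancel_left] at h4
    obtain ⟨h5, h6⟩ := hW.inf _ _ h3
    have h7 : (a, b) = p := by
      rw [h, h5, h6, vK_zero]
      exact add_zero p
    rw [hX']
    have h8 : (a, b) ∈ (alg M D N D').comap iotaL := h7 ▸ hp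
    exact h8

end
end Pool.Agent.MP_106392_al
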