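import Pool.Agent.MP_106392_al.Defs2

/-!
# Module E2: gauge transformations

Two factoring data with the same Gram matrices `MᵀM`, `NᵀN` are conjugate by `exp (ad X)`,
`X ∈ λ so₄[[λ]]`.
-/

set_option autoImplicit false
set_option linter.unusedSectionVars false
set_option linter.unusedVariables false

namespace Pool.Agent.MP_106392_al

open Matrix

noncomputable section

namespace E2

variable {n : Type*} [Fintype n] [DecidableEq n]

/-- all entries divisible by `λ^m`. -/
def Dv (m : ℕ) (Z : Matrix n n R) : Prop := ∀ i j, (PowerSeries.X : R) ^ m ∣ Z i j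

theorem Dv.zero (m : ℕ) : Dv m (0 : Matrix n n R) := fun i j => by simp

theorem Dv.add {m : ℕ} {Z W : Matrix n n R} (h : Dv m Z) (h' : Dv m W) : Dv m (Z + W) :=
  fun i j => by simpa using dvd_add (h i j) (h' i j)

theorem Dv.neg {m : ℕ} {Z : Matrix n n R} (h : Dv m Z) : Dv m (-Z) :=
  fun i j => by simpa using (h i j)

theorem Dv.sub {m : ℕ} {Z W : Matrix n n R} (h : Dv m Z) (h' : Dv m W) : Dv m (Z - W) :=
  fun i j => by simpa using dvd_sub (h i j) (h' i j)

theorem Dv.mul {m k : ℕ} {Z W : Matrix n n R} (h : Dv m Z) (h' : Dv k W) : Dv (m + k) (Z * W) := by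
  intro i j
  rw [Matrix.mul_apply]
  refine Finset.dvd_sum fun l _ => ?_
  rw [pow_add]
  exact mul_dvd_mul (h i l) (h' l j)

theorem Dv.of_zero (Z : Matrix n n R) : Dv 0 Z := fun i j => by simp

theorem Dv.mul_left {m : ℕ} {W : Matrix n n R} (Z : Matrix n n R) (h : Dv m W) : Dv m (Z * W) := by
  have := (Dv.of_zero Z).mul h
  simpa using this

theorem Dv.mul_right {m : ℕ} {Z : Matrix n n R} (h : Dv m Z) (W : Matrix n n R) :
    Dv m (Z * W) := by
  have := h.mul (Dv.of_zero W)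
  simpa using this

theorem Dv.mono {m k : ℕ} (hk : k ≤ m) {Z : Matrix n n R} (h : Dv m Z) : Dv k Z :=
  fun i j => (pow_dvd_pow _ hk).trans (h i j)

theorem Dv.pow {Z : Matrix n n R} (h : Dv 1 Z) (k : ℕ) : Dv k (Z ^ k) := by
  induction k with
  | zero => exact Dv.of_zero _
  | succ k ih => rw [pow_succ]; exact ih.mul h

theorem Dv.smul {m : ℕ} (c : ℂ) {Z : Matrix n n R} (h : Dv m Z) : Dv m (c • Z) := by
  intro i j
  rw [Matrix.smul_apply]
  exact Dvd.dvd.trans (h i j) ⟨PowerSeries.C (R := ℂ) c, by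
    rw [mul_comm, ← PowerSeries.smul_eq_C_mul]⟩

theorem Dv.rsmul {m : ℕ} (c : R) {Z : Matrix n n R} (h : Dv m Z) : Dv m (c • Z) := by
  intro i j
  rw [Matrix.smul_apply, smul_eq_mul]
  exact Dvd.dvd.mul_left (h i j) c

theorem Dv.sum {ι : Type*} {m : ℕ} (s : Finset ι) {Z : ι → Matrix n n R} (h : ∀ i ∈ s, Dv m (Z i)) :
    Dv m (∑ i ∈ s, Z i) := by
  intro i j
  rw [Matrix.sum_apply]
  exact Finset.dvd_sum fun l hl => h l hl i j

theorem Dv.coeff {m : ℕ} {Z : Matrix n n R} (h : Dv m Z) (i j : n) {k : ℕ} (hk : k < m) :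
    PowerSeries.coeff (R := ℂ) k (Z i j) = 0 :=
  PowerSeries.X_pow_dvd_iff.1 (h i j) k hk

theorem dv_iff {m : ℕ} {Z : Matrix n n R} :
    Dv m Z ↔ ∀ i j, ∀ k < m, PowerSeries.coeff (R := ℂ) k (Z i j) = 0 :=
  ⟨fun h i j k hk => h.coeff i j hk, fun h i j => PowerSeries.X_pow_dvd_iff.2 (h i j)⟩

theorem eq_of_dv {Z W : Matrix n n R} (h : ∀ m, Dv m (Z - W)) : Z = W := by
  ext i j k
  have := (h (k + 1)).coeff i j (Nat.lt_succ_self k)
  rw [Matrix.sub_apply, map_sub, sub_eq_zero] at this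
  exact this

/-- exponential of a square matrix of power series. -/
def texp (X : Matrix n n R) : Matrix n n R :=
  Matrix.of fun i j => PowerSeries.mk fun m =>
    PowerSeries.coeff (R := ℂ) m
      ((∑ k ∈ Finset.range (m + 1), ((k.factorial : ℂ)⁻¹) • X ^ k) i j)

theorem mexp_eq (X : M4 R) : mexp X = texp X := rfl

/-- partial sums. -/
def psum (m : ℕ) (X : Matrix n n R) : Matrix n n R :=
  ∑ k ∈ Finset.range m, ((k.factorial : ℂ)⁻¹) • X ^ k

theorem psum_sub {X : Matrix n n R} (hX : Dv 1 X) {m l : ℕ} (h : m ≤ l) :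
    Dv m (psum l X - psum m X) := by
  unfold psum
  rw [← Finset.sum_range_add_sum_Ico _ h, add_sub_cancel_left]
  refine Dv.sum _ fun k hk => ?_
  exact ((hX.pow k).mono (Finset.mem_Ico.1 hk).1).smul _

theorem texp_sub_psum {X : Matrix n n R} (hX : Dv 1 X) (m : ℕ) : Dv m (texp X - psum m X) := by
  rw [dv_iff]
  intro i j k hk
  have h := (psum_sub hX (Nat.succ_le_of_lt hk)).coeff i j (Nat.lt_succ_self k)
  rw [Matrix.sub_apply, map_sub, sub_eq_zero] at h ⊢
  rw [h]
  simp [texp, psum]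

/-- the quotient `ℂ[[λ]]/λ^m`. -/
abbrev Q (m : ℕ) := R ⧸ (Ideal.span {(PowerSeries.X : R) ^ m})

/-- reduction mod `λ^m`. -/
def red (m : ℕ) : Matrix n n R →+* Matrix n n (Q m) :=
  (Ideal.Quotient.mk (Ideal.span {(PowerSeries.X : R) ^ m})).mapMatrix

theorem red_eq_iff {m : ℕ} {Z W : Matrix n n R} : red m Z = red m W ↔ Dv m (Z - W) := by
  unfold red
  constructor
  · intro h i j
    have := congrFun (congrFun h i) j
    simp only [RingHom.mapMatrix_apply, Matrix.map_apply] at this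
    rw [Ideal.Quotient.eq, Ideal.mem_span_singleton] at this
    exact this
  · intro h
    ext i j
    simp only [RingHom.mapMatrix_apply, Matrix.map_apply]
    rw [Ideal.Quotient.eq, Ideal.mem_span_singleton]
    exact h i j

theorem red_nilp {X : Matrix n n R} (hX : Dv 1 X) (m : ℕ) : (red m X) ^ m = 0 := by
  rw [← map_pow, ← map_zero (red m), red_eq_iff, sub_zero]
  exact hX.pow m

theorem red_texp {X : Matrix n n R} (hX : Dv 1 X) (m : ℕ) :
    red m (texp X) = IsNilpotent.exp (red m X) := by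
  rw [red_eq_iff.2 (texp_sub_psum hX m), IsNilpotent.exp_eq_sum (red_nilp hX m), psum, map_sum]
  refine Finset.sum_congr rfl fun k _ => ?_
  rw [← map_pow, ← map_rat_smul (red m)]
  congr 1
  ext i j l
  simp only [Matrix.smul_apply, PowerSeries.coeff_smul, Rat.smul_def]
  simp

theorem texp_congr {X Y : Matrix n n R} (hX : Dv 1 X) (hY : Dv 1 Y) {m : ℕ} (h : Dv m (X - Y)) :
    Dv m (texp X - texp Y) := by
  rw [← red_eq_iff] at h ⊢
  rw [red_texp hX, red_texp hY, h]

theorem texp_mul_neg {X : Matrix n n R} (hX : Dv 1 X) : texp X * texp (-X) = 1 := by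
  refine eq_of_dv fun m => ?_
  rw [← red_eq_iff, map_mul, red_texp hX, red_texp hX.neg, map_neg, map_one]
  exact IsNilpotent.exp_mul_exp_neg_self ⟨m, red_nilp hX m⟩

theorem texp_neg_mul {X : Matrix n n R} (hX : Dv 1 X) : texp (-X) * texp X = 1 := by
  have := texp_mul_neg hX.neg
  rwa [neg_neg] at this

theorem texp_zero : texp (0 : Matrix n n R) = 1 := by
  refine eq_of_dv fun m => ?_
  rw [← red_eq_iff, red_texp (Dv.zero 1), map_zero, IsNilpotent.exp_zero, map_one]

theorem Dv.transpose {m : ℕ} {Z : Matrix n n R} (h : Dv m Z) : Dv m Zᵀ := fun i j => h j i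

theorem texp_transpose (X : Matrix n n R) : (texp X)ᵀ = texp Xᵀ := by
  ext i j k
  simp only [Matrix.transpose_apply, texp, Matrix.of_apply, PowerSeries.coeff_mk,
    Matrix.sum_apply, Matrix.smul_apply, ← Matrix.transpose_pow]

theorem pow_add_sub {X C : Matrix n n R} (hX : Dv 1 X) {m : ℕ} (hm : 1 ≤ m) (hC : Dv m C) (k : ℕ) :
    Dv m ((X + C) ^ (k + 1) - X ^ (k + 1)) ∧ Dv (m + 1) ((X + C) ^ (k + 2) - X ^ (k + 2)) := by
  have hXC : Dv 1 (X + C) := hX.add (hC.mono hm)
  have key : ∀ l, (X + C) ^ (l + 1) - X ^ (l + 1)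
      = ((X + C) ^ l - X ^ l) * (X + C) + X ^ l * C := by
    intro l
    rw [pow_succ, pow_succ]
    noncomm_ring
  have h1 : ∀ l, Dv m ((X + C) ^ (l + 1) - X ^ (l + 1)) := by
    intro l
    induction l with
    | zero => simpa using hC
    | succ l ih =>
      rw [key]
      exact (ih.mul_right _).add (hC.mul_left _)
  refine ⟨h1 k, ?_⟩
  rw [key]
  refine ((h1 k).mul hXC).add ?_
  have := ((hX.pow (k + 1)).mono (show 1 ≤ k + 1 by omega)).mul hC
  rwa [add_comm] at this

theorem texp_add_small {X C : Matrix n n R} (hX : Dv 1 X) {m : ℕ} (hm : 1 ≤ m) (hC : Dv m C) :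
    Dv (m + 1) (texp (X + C) - (texp X + C)) := by
  have hXC : Dv 1 (X + C) := hX.add (hC.mono hm)
  have h1 := texp_sub_psum hXC (m + 1)
  have h2 := texp_sub_psum hX (m + 1)
  have h3 : Dv (m + 1) (psum (m + 1) (X + C) - (psum (m + 1) X + C)) := by
    obtain ⟨l, rfl⟩ : ∃ l, m = l + 1 := ⟨m - 1, by omega⟩
    have e : psum (l + 1 + 1) (X + C) - (psum (l + 1 + 1) X + C)
        = ∑ k ∈ Finset.range l, (((k + 1 + 1).factorial : ℂ)⁻¹) •
          ((X + C) ^ (k + 1 + 1) - X ^ (k + 1 + 1)) := by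
      simp only [psum, Finset.sum_range_succ' _ (l + 1), Finset.sum_range_succ' _ l, smul_sub,
        Finset.sum_sub_distrib]
      simp
      abel
    rw [e]
    exact Dv.sum _ fun k _ => (pow_add_sub hX hm hC k).2.smul _
  have e : texp (X + C) - (texp X + C) = (texp (X + C) - psum (m + 1) (X + C))
      - (texp X - psum (m + 1) X) + (psum (m + 1) (X + C) - (psum (m + 1) X + C)) := by abel
  rw [e]
  exact (h1.sub h2).add h3

/-- the next correction. -/
def corr (m : ℕ) (X g : Matrix n n R) : Matrix n n R :=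
  Matrix.of fun i j => PowerSeries.monomial (R := ℂ) m
    (PowerSeries.coeff (R := ℂ) m ((texp (-X) * g) i j))

/-- approximate logarithms. -/
def logSeq (g : Matrix n n R) : ℕ → Matrix n n R
  | 0 => 0
  | (m + 1) => logSeq g m + corr (m + 1) (logSeq g m) g

theorem corr_dv (m : ℕ) (X g : Matrix n n R) : Dv m (corr m X g) := by
  rw [dv_iff]
  intro i j k hk
  simp only [corr, Matrix.of_apply, PowerSeries.coeff_monomial]
  rw [if_neg (by omega)]

theorem corr_spec {m : ℕ} {X g : Matrix n n R} (h : Dv m (texp (-X) * g - 1)) (hm : 1 ≤ m) :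
    Dv (m + 1) (texp (-X) * g - (1 + corr m X g)) := by
  rw [dv_iff]
  intro i j k hk
  have h1 : ∀ k', k' ≠ 0 → PowerSeries.coeff (R := ℂ) k' ((1 : Matrix n n R) i j) = 0 := by
    intro k' hk'
    by_cases hij : i = j
    · subst hij; simp [PowerSeries.coeff_one, hk']
    · simp [Matrix.one_apply_ne hij]
  rcases Nat.lt_succ_iff_lt_or_eq.1 hk with hk | rfl
  · have h2 := h.coeff i j hk
    rw [Matrix.sub_apply, map_sub] at h2 ⊢
    rw [Matrix.add_apply, map_add, (corr_dv m X g).coeff i j hk, add_zero]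
    exact h2
  · rw [Matrix.sub_apply, map_sub, Matrix.add_apply, map_add, h1 k (by omega), zero_add]
    simp [corr]

theorem logSeq_spec {g : Matrix n n R} (hg : gᵀ * g = 1) (h0 : Dv 1 (g - 1)) (m : ℕ) :
    Dv 1 (logSeq g m) ∧ (logSeq g m)ᵀ = -(logSeq g m) ∧ Dv (m + 1) (texp (logSeq g m) - g) := by
  induction m with
  | zero =>
    refine ⟨Dv.zero 1, by simp [logSeq], ?_⟩
    rw [logSeq, texp_zero]
    have := h0.neg
    rwa [neg_sub] at this
  | succ m ih =>
    obtain ⟨hX, hXt, hXg⟩ := ih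
    set X := logSeq g m with hXdef
    set C := corr (m + 1) X g with hCdef
    set u := texp (-X) * g with hu
    have hC : Dv (m + 1) C := corr_dv _ _ _
    have hu1 : Dv (m + 1) (u - 1) := by
      have e : u - 1 = -(texp (-X) * (texp X - g)) := by
        rw [mul_sub, texp_neg_mul hX, hu]; abel
      rw [e]
      exact (hXg.mul_left _).neg
    have hu2 : Dv (m + 1 + 1) (u - (1 + C)) := corr_spec hu1 (by omega)
    have huu : uᵀ * u = 1 := by
      rw [hu, Matrix.transpose_mul, texp_transpose, Matrix.transpose_neg, hXt, neg_neg,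
        Matrix.mul_assoc, ← Matrix.mul_assoc (texp X), texp_mul_neg hX, Matrix.one_mul, hg]
    have hCt : Cᵀ = -C := by
      have h1 : Dv (m + 1 + 1) (Cᵀ + C) := by
        have e : Cᵀ + C = uᵀ * u - 1 - ((u - (1 + C))ᵀ + (u - (1 + C)) + (u - 1)ᵀ * (u - 1)) := by
          simp only [Matrix.transpose_sub, Matrix.transpose_add, Matrix.transpose_one]
          noncomm_ring
        rw [e, huu, sub_self, zero_sub]
        refine ((hu2.transpose.add hu2).add ?_).neg
        exact (hu1.transpose.mul hu1).mono (by omega)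
      have h2 : Cᵀ + C = 0 := by
        ext i j k
        rcases lt_or_ge k (m + 1 + 1) with hk | hk
        · simpa using h1.coeff i j hk
        · have hz : ∀ a b, PowerSeries.coeff (R := ℂ) k (C a b) = 0 := by
            intro a b
            simp only [hCdef, corr, Matrix.of_apply, PowerSeries.coeff_monomial]
            rw [if_neg (by omega)]
          simp [hz]
      exact eq_neg_of_add_eq_zero_left h2
    refine ⟨hX.add (hC.mono (by omega)), ?_, ?_⟩
    · rw [logSeq, Matrix.transpose_add, ← hXdef, ← hCdef, hXt, hCt, neg_add]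
    · rw [logSeq, ← hXdef, ← hCdef]
      have h1 := texp_add_small hX (show 1 ≤ m + 1 by omega) hC
      have hg' : g = texp X * u := by
        rw [hu, ← Matrix.mul_assoc, texp_mul_neg hX, Matrix.one_mul]
      have h2 : Dv 1 (texp X - 1) := by
        have := texp_congr hX (Dv.zero 1) (m := 1) (by simpa using hX)
        rwa [texp_zero] at this
      have e : texp (X + C) - g = (texp (X + C) - (texp X + C)) - (texp X * (u - (1 + C)))
          - (texp X - 1) * C := by
        conv_lhs => rw [hg']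
        noncomm_ring
      rw [e]
      refine (h1.sub (hu2.mul_left _)).sub ?_
      have := h2.mul hC
      rwa [add_comm] at this

theorem logSeq_stable (g : Matrix n n R) {k m : ℕ} (h : k ≤ m) :
    Dv (k + 1) (logSeq g m - logSeq g k) := by
  induction m, h using Nat.le_induction with
  | base => simpa using Dv.zero _
  | succ m hm ih =>
    have e : logSeq g (m + 1) - logSeq g k
        = (logSeq g m - logSeq g k) + corr (m + 1) (logSeq g m) g := by
      rw [logSeq]; abel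
    rw [e]
    exact ih.add ((corr_dv _ _ _).mono (by omega))

/-- the logarithm of an orthogonal matrix. -/
def logm (g : Matrix n n R) : Matrix n n R :=
  Matrix.of fun i j => PowerSeries.mk fun k => PowerSeries.coeff (R := ℂ) k (logSeq g k i j)

theorem logm_sub (g : Matrix n n R) (m : ℕ) : Dv (m + 1) (logm g - logSeq g m) := by
  rw [dv_iff]
  intro i j k hk
  have := (logSeq_stable g (Nat.lt_succ_iff.1 hk)).coeff i j (Nat.lt_succ_self k)
  rw [Matrix.sub_apply, map_sub, sub_eq_zero] at this ⊢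
  simp [logm, this]

theorem exists_log {g : Matrix n n R} (hg : gᵀ * g = 1) (h0 : Dv 1 (g - 1)) :
    ∃ X : Matrix n n R, Dv 1 X ∧ Xᵀ = -X ∧ texp X = g := by
  have h1 : Dv 1 (logm g) := by simpa [logSeq] using logm_sub g 0
  refine ⟨logm g, h1, ?_, ?_⟩
  · ext i j k
    have := congrFun (congrFun (logSeq_spec hg h0 k).2.1 i) j
    simp only [Matrix.transpose_apply, Matrix.neg_apply] at this
    simp [logm, this]
  · refine eq_of_dv fun m => ?_
    have h2 := texp_congr h1 (logSeq_spec hg h0 m).1 (logm_sub g m)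
    have e : texp (logm g) - g = (texp (logm g) - texp (logSeq g m)) + (texp (logSeq g m) - g) := by
      abel
    rw [e]
    exact (h2.add (logSeq_spec hg h0 m).2.2).mono (by omega)


/-! ### the isomorphism `so₃ ⊕ so₃ ≃ so₄` over a general ring -/

section Iota

variable {S : Type*} [CommRing S] [Algebra ℂ S]

/-- the integral version of `iotaG`. -/
def iotaT (a b : V3 S) : M4 S :=
  !![0, -(a 2 + b 2), a 1 + b 1, a 0 - b 0;
     a 2 + b 2, 0, -(a 0 + b 0), a 1 - b 1;
     -(a 1 + b 1), a 0 + b 0, 0, a 2 - b 2;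
     -(a 0 - b 0), -(a 1 - b 1), -(a 2 - b 2), 0]

/-- one half. -/
def hf (S : Type*) [CommRing S] [Algebra ℂ S] : S := algebraMap ℂ S ((2 : ℂ)⁻¹)

theorem hf_eq : hf S = hf S * hf S * 2 := by
  have h : (2 : ℂ)⁻¹ = (2⁻¹ * 2⁻¹) * (2 : ℂ) := by norm_num
  unfold hf
  conv_lhs => rw [h, map_mul, map_mul, map_ofNat]

/-- `iota` over a general ring. -/
def iotaG (a b : V3 S) : M4 S := hf S • iotaT a b

/-- cross product matrix. -/
def crossM (ξ : V3 S) : M3 S := !![0, -ξ 2, ξ 1; ξ 2, 0, -ξ 0; -ξ 1, ξ 0, 0]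

/-- `iotaG` as a linear map. -/
def iotaL : (V3 S × V3 S) →ₗ[S] M4 S where
  toFun v := iotaG v.1 v.2
  map_add' := by
    rintro ⟨a, b⟩ ⟨c, d⟩
    simp only [iotaG, Prod.fst_add, Prod.snd_add, ← smul_add]
    congr 1
    ext i j
    fin_cases i <;> fin_cases j <;> simp [iotaT] <;> ring
  map_smul' := by
    rintro r ⟨a, b⟩
    simp only [iotaG, Prod.smul_fst, Prod.smul_snd, RingHom.id_apply, smul_comm r]
    congr 1
    ext i j
    fin_cases i <;> fin_cases j <;> simp [iotaT] <;> ring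

set_option maxHeartbeats 2000000 in
theorem iotaT_comm (ξ ξ' a b : V3 S) :
    iotaT ξ ξ' * iotaT a b - iotaT a b * iotaT ξ ξ'
      = iotaT (crossM ξ *ᵥ a) (crossM ξ' *ᵥ b) + iotaT (crossM ξ *ᵥ a) (crossM ξ' *ᵥ b) := by
  have e1 : crossM ξ *ᵥ a = ![ξ 1 * a 2 - ξ 2 * a 1, ξ 2 * a 0 - ξ 0 * a 2,
      ξ 0 * a 1 - ξ 1 * a 0] := by
    ext i
    fin_cases i <;> simp [crossM, Matrix.mulVec, dotProduct, Fin.sum_univ_three] <;> ring
  have e2 : crossM ξ' *ᵥ b = ![ξ' 1 * b 2 - ξ' 2 * b 1, ξ' 2 * b 0 - ξ' 0 * b 2,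
      ξ' 0 * b 1 - ξ' 1 * b 0] := by
    ext i
    fin_cases i <;> simp [crossM, Matrix.mulVec, dotProduct, Fin.sum_univ_three] <;> ring
  rw [e1, e2]
  ext i j
  rw [Matrix.sub_apply, Matrix.mul_apply, Matrix.mul_apply, Fin.sum_univ_four, Fin.sum_univ_four,
    Matrix.add_apply]
  fin_cases i <;> fin_cases j <;> simp [iotaT] <;> ring

theorem iota_comm (ξ ξ' a b : V3 S) :
    iotaG ξ ξ' * iotaG a b - iotaG a b * iotaG ξ ξ' = iotaG (crossM ξ *ᵥ a) (crossM ξ' *ᵥ b) := by
  rw [iotaG, iotaG, iotaG, smul_mul_smul_comm, smul_mul_smul_comm, ← smul_sub, iotaT_comm]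
  conv_rhs => rw [hf_eq, mul_smul, two_smul]

end Iota

section Conj

variable {S : Type*} [CommRing S] [Algebra ℂ S] [Algebra ℚ S]

theorem exp_mulLeft {x : M4 S} (hx : IsNilpotent x) (z : M4 S) :
    IsNilpotent.exp (LinearMap.mulLeft S x) z = IsNilpotent.exp x * z := by
  have := IsNilpotent.map_exp hx (Algebra.lmul S (M4 S))
  have h := congrArg (fun f => f z) this
  exact h.symm

theorem exp_mulRight {x : M4 S} (hx : IsNilpotent x) (z : M4 S) :
    IsNilpotent.exp (LinearMap.mulRight S x) z = z * IsNilpotent.exp x := by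
  obtain ⟨k, hk⟩ := hx
  have hk' : (LinearMap.mulRight S x) ^ k = 0 := by
    rw [LinearMap.pow_mulRight, hk]; ext; simp
  rw [IsNilpotent.exp_eq_sum hk, IsNilpotent.exp_eq_sum hk', Finset.mul_sum,
    LinearMap.sum_apply]
  refine Finset.sum_congr rfl fun i _ => ?_
  rw [LinearMap.smul_apply, LinearMap.pow_mulRight, LinearMap.mulRight_apply, mul_smul_comm]

theorem conj_nil {m : ℕ} {ξ ξ' : V3 S} (h : (crossM ξ) ^ m = 0) (h' : (crossM ξ') ^ m = 0)
    (hx : (iotaG ξ ξ') ^ m = 0) (a b : V3 S) :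
    IsNilpotent.exp (iotaG ξ ξ') * iotaG a b * IsNilpotent.exp (-(iotaG ξ ξ'))
      = iotaG (IsNilpotent.exp (crossM ξ) *ᵥ a) (IsNilpotent.exp (crossM ξ') *ᵥ b) := by
  set x := iotaG ξ ξ' with hxdef
  have nx : IsNilpotent x := ⟨m, hx⟩
  have nL : IsNilpotent (LinearMap.mulLeft S x) := ⟨m, by rw [LinearMap.pow_mulLeft, hx]; ext; simp⟩
  have nR : IsNilpotent (LinearMap.mulRight S (-x)) :=
    ⟨m, by rw [LinearMap.pow_mulRight, neg_pow, hx]; ext; simp⟩
  have hcomm : Commute (LinearMap.mulLeft S x) (LinearMap.mulRight S (-x)) :=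
    LinearMap.commute_mulLeft_right x (-x)
  set adx : Module.End S (M4 S) := LinearMap.mulLeft S x + LinearMap.mulRight S (-x) with hadx
  have nadx : IsNilpotent adx := hcomm.isNilpotent_add nL nR
  have hadx' : ∀ z, IsNilpotent.exp adx z = IsNilpotent.exp x * z * IsNilpotent.exp (-x) := by
    intro z
    rw [hadx, IsNilpotent.exp_add_of_commute hcomm nL nR, Module.End.mul_apply, exp_mulLeft nx,
      exp_mulRight nx.neg, mul_assoc]
  set f1 : Module.End S (V3 S) := Matrix.toLinAlgEquiv' (crossM ξ) with hf1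
  set f2 : Module.End S (V3 S) := Matrix.toLinAlgEquiv' (crossM ξ') with hf2
  have nf1 : f1 ^ m = 0 := by rw [hf1, ← map_pow, h, map_zero]
  have nf2 : f2 ^ m = 0 := by rw [hf2, ← map_pow, h', map_zero]
  set fM : Module.End S (V3 S × V3 S) := LinearMap.prodMap f1 f2 with hfM
  have npow : ∀ k, fM ^ k = LinearMap.prodMap (f1 ^ k) (f2 ^ k) := by
    intro k
    induction k with
    | zero => ext <;> simp
    | succ k ih => rw [pow_succ, ih, hfM, pow_succ, pow_succ]; ext <;> simp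
  have nfM : IsNilpotent fM := ⟨m, by rw [npow, nf1, nf2]; ext <;> simp⟩
  have key : adx ∘ₗ (iotaL (S := S)) = iotaL ∘ₗ fM := by
    refine LinearMap.ext fun v => ?_
    obtain ⟨a, b⟩ := v
    simp only [LinearMap.comp_apply, hadx, LinearMap.add_apply, LinearMap.mulLeft_apply,
      LinearMap.mulRight_apply, iotaL, LinearMap.coe_mk, AddHom.coe_mk, hfM,
      LinearMap.prodMap_apply, hf1, hf2, Matrix.toLinAlgEquiv'_apply]
    rw [← iota_comm, mul_neg, sub_eq_add_neg]
  have key2 := Module.End.commute_exp_left_of_commute nfM nadx key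
  have e1 := Module.End.commute_exp_left_of_commute nfM (⟨m, nf1⟩ : IsNilpotent f1)
    (show f1 ∘ₗ LinearMap.fst S (V3 S) (V3 S) = LinearMap.fst S (V3 S) (V3 S) ∘ₗ fM by
      ext <;> simp [hfM])
  have e2 := Module.End.commute_exp_left_of_commute nfM (⟨m, nf2⟩ : IsNilpotent f2)
    (show f2 ∘ₗ LinearMap.snd S (V3 S) (V3 S) = LinearMap.snd S (V3 S) (V3 S) ∘ₗ fM by
      ext <;> simp [hfM])
  have k2 := LinearMap.congr_fun key2 (a, b)
  have k1 := LinearMap.congr_fun e1 (a, b)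
  have k3 := LinearMap.congr_fun e2 (a, b)
  simp only [LinearMap.comp_apply, LinearMap.fst_apply, LinearMap.snd_apply] at k1 k2 k3
  rw [hadx'] at k2
  have m1 : IsNilpotent.exp f1 = Matrix.toLinAlgEquiv' (IsNilpotent.exp (crossM ξ)) :=
    (IsNilpotent.map_exp ⟨m, h⟩ (Matrix.toLinAlgEquiv' (R := S) (n := Fin 3))).symm
  have m2 : IsNilpotent.exp f2 = Matrix.toLinAlgEquiv' (IsNilpotent.exp (crossM ξ')) :=
    (IsNilpotent.map_exp ⟨m, h'⟩ (Matrix.toLinAlgEquiv' (R := S) (n := Fin 3))).symm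
  rw [m1, Matrix.toLinAlgEquiv'_apply] at k1
  rw [m2, Matrix.toLinAlgEquiv'_apply] at k3
  simp only [iotaL, LinearMap.coe_mk, AddHom.coe_mk] at k2
  rw [k2, ← k1, ← k3]

end Conj


/-! ### transfer to power series and Laurent series -/

theorem red_iota (m : ℕ) (a b : V3 R) :
    red m (iotaG a b) = iotaG (fun i => Ideal.Quotient.mk (Ideal.span {(PowerSeries.X : R) ^ m}) (a i))
      (fun i => Ideal.Quotient.mk (Ideal.span {(PowerSeries.X : R) ^ m}) (b i)) := by
  have hs : Ideal.Quotient.mk (Ideal.span {(PowerSeries.X : R) ^ m}) (hf R) = hf (Q m) := rfl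
  ext i j
  simp only [red, RingHom.mapMatrix_apply, Matrix.map_apply, iotaG, Matrix.smul_apply, smul_eq_mul,
    map_mul, hs]
  congr 1
  fin_cases i <;> fin_cases j <;> simp [iotaT]

theorem red_cross (m : ℕ) (a : V3 R) :
    red m (crossM a) = crossM (fun i => Ideal.Quotient.mk (Ideal.span {(PowerSeries.X : R) ^ m}) (a i)) := by
  ext i j
  simp only [red, RingHom.mapMatrix_apply, Matrix.map_apply, crossM]
  fin_cases i <;> fin_cases j <;> simp

theorem dv_cross {ξ : V3 R} (h : ∀ i, (PowerSeries.X : R) ^ 1 ∣ ξ i) : Dv 1 (crossM ξ) := by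
  intro i j
  fin_cases i <;> fin_cases j <;> simp [crossM] <;> simpa using h _

theorem dv_iota {ξ ξ' : V3 R} (h : ∀ i, (PowerSeries.X : R) ^ 1 ∣ ξ i)
    (h' : ∀ i, (PowerSeries.X : R) ^ 1 ∣ ξ' i) : Dv 1 (iotaG ξ ξ') := by
  have h1 : ∀ i j, (PowerSeries.X : R) ^ 1 ∣ ξ i + ξ' j := fun i j => dvd_add (h i) (h' j)
  have h2 : ∀ i j, (PowerSeries.X : R) ^ 1 ∣ ξ i - ξ' j := fun i j => dvd_sub (h i) (h' j)
  refine Dv.rsmul _ ?_
  intro i j
  fin_cases i <;> fin_cases j <;>
    first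
    | exact dvd_zero _
    | exact h1 _ _
    | exact h2 _ _
    | exact (dvd_neg.2 (h1 _ _))
    | exact (dvd_neg.2 (h2 _ _))

theorem red_mulVec (m : ℕ) (A : M3 R) (a : V3 R) :
    (fun i => Ideal.Quotient.mk (Ideal.span {(PowerSeries.X : R) ^ m}) ((A *ᵥ a) i))
      = (red m A) *ᵥ (fun i => Ideal.Quotient.mk (Ideal.span {(PowerSeries.X : R) ^ m}) (a i)) := by
  ext i
  simp [red, Matrix.mulVec, dotProduct]

theorem conj_R {ξ ξ' : V3 R} (h : ∀ i, (PowerSeries.X : R) ^ 1 ∣ ξ i)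
    (h' : ∀ i, (PowerSeries.X : R) ^ 1 ∣ ξ' i) (a b : V3 R) :
    texp (iotaG ξ ξ') * iotaG a b * texp (-(iotaG ξ ξ'))
      = iotaG (texp (crossM ξ) *ᵥ a) (texp (crossM ξ') *ᵥ b) := by
  refine eq_of_dv fun m => ?_
  rw [← red_eq_iff, map_mul, map_mul, red_texp (dv_iota h h'), red_texp (dv_iota h h').neg,
    map_neg, red_iota, red_iota, red_iota, red_mulVec, red_mulVec, red_texp (dv_cross h),
    red_texp (dv_cross h'), red_cross, red_cross]
  refine conj_nil (m := m) ?_ ?_ ?_ _ _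
  · rw [← red_cross]; exact red_nilp (dv_cross h) m
  · rw [← red_cross]; exact red_nilp (dv_cross h') m
  · rw [← red_iota]; exact red_nilp (dv_iota h h') m

theorem toK_hf : toK (hf R) = hf K := rfl

theorem iota_eq (a b : V3 K) : iota a b = iotaG a b := by
  have h : ((2 : K)⁻¹) = hf K := by
    rw [hf, map_inv₀, map_ofNat]
  have e : iota a b = (2 : K)⁻¹ • iotaT a b := rfl
  rw [e, h, iotaG]

theorem mK_iotaG (a b : V3 R) : mK (iotaG a b) = iota (vK a) (vK b) := by
  rw [iota_eq]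
  ext1 i j
  have h1 : mK (iotaT a b) i j = iotaT (vK a) (vK b) i j := by
    fin_cases i <;> fin_cases j <;> simp [mK, iotaT, vK]
  have h2 : mK (iotaG a b) i j = toK (hf R * iotaT a b i j) := rfl
  have h3 : iotaG (vK a) (vK b) i j = hf K * iotaT (vK a) (vK b) i j := rfl
  rw [h2, map_mul, toK_hf, h3, ← h1]
  rfl

theorem mK_mul (A B : M4 R) : mK (A * B) = mK A * mK B := by
  simp [mK, Matrix.map_mul]

theorem mK_one : mK (1 : M4 R) = 1 := by
  simp [mK]

theorem vK_mulVec (A : M3 R) (a : V3 R) : vK (A *ᵥ a) = (A.map toK) *ᵥ (vK a) := by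
  ext1 i
  simp [vK, Matrix.mulVec, dotProduct]

theorem conj_K {P P' : M4 R} {O O' : M3 R}
    (h : ∀ a b : V3 R, P * iotaG a b * P' = iotaG (O *ᵥ a) (O' *ᵥ b)) (a b : V3 K) :
    mK P * iota a b * mK P' = iota ((O.map toK) *ᵥ a) ((O'.map toK) *ᵥ b) := by
  have key : (LinearMap.mulRight K (mK P')) ∘ₗ (LinearMap.mulLeft K (mK P)) ∘ₗ (iotaL (S := K))
      = iotaL ∘ₗ (LinearMap.prodMap (Matrix.toLin' (O.map toK)) (Matrix.toLin' (O'.map toK))) := by
    have hv : ∀ i : Fin 3, (Pi.single i (1 : K) : V3 K) = vK (Pi.single i 1) := by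
      intro i
      ext1 j
      by_cases hij : j = i
      · subst hij; simp [vK]
      · simp [vK, Pi.single_eq_of_ne hij]
    have h0 : (0 : V3 K) = vK 0 := by ext1 j; simp [vK]
    refine LinearMap.prod_ext ?_ ?_
    · refine LinearMap.pi_ext' fun i => LinearMap.ext_ring ?_
      simp only [LinearMap.comp_apply, LinearMap.coe_single, LinearMap.inl_apply,
        LinearMap.mulLeft_apply, LinearMap.mulRight_apply, LinearMap.prodMap_apply,
        Matrix.toLin'_apply, iotaL, LinearMap.coe_mk, AddHom.coe_mk, Matrix.mulVec_zero]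
      rw [hv, h0, ← vK_mulVec, ← iota_eq, ← iota_eq, ← mK_iotaG, ← mK_iotaG, ← mK_mul, ← mK_mul,
        h, Matrix.mulVec_zero]
    · refine LinearMap.pi_ext' fun i => LinearMap.ext_ring ?_
      simp only [LinearMap.comp_apply, LinearMap.coe_single, LinearMap.inr_apply,
        LinearMap.mulLeft_apply, LinearMap.mulRight_apply, LinearMap.prodMap_apply,
        Matrix.toLin'_apply, iotaL, LinearMap.coe_mk, AddHom.coe_mk, Matrix.mulVec_zero]
      rw [hv, h0, ← vK_mulVec, ← iota_eq, ← iota_eq, ← mK_iotaG, ← mK_iotaG, ← mK_mul, ← mK_mul,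
        h, Matrix.mulVec_zero]
  have := LinearMap.congr_fun key (a, b)
  simpa [iotaL, iota_eq] using this

/-- existence of the gauge matrix for one pair of orthogonal matrices. -/
theorem exists_conj {O O' : M3 R} (hO : Oᵀ * O = 1) (hO' : O'ᵀ * O' = 1) (h0 : Dv 1 (O - 1))
    (h0' : Dv 1 (O' - 1)) :
    ∃ X : M4 R, IsGauge X ∧ mexp X * mexp (-X) = 1 ∧ mexp (-X) * mexp X = 1 ∧
      ∀ a b : V3 K, expAd X (iota a b) = iota ((O.map toK) *ᵥ a) ((O'.map toK) *ᵥ b) := by
  have lift : ∀ Y : M3 R, Dv 1 Y → Yᵀ = -Y → ∃ ξ : V3 R, (∀ i, (PowerSeries.X : R) ^ 1 ∣ ξ i) ∧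
      crossM ξ = Y := by
    intro Y hY hYt
    have hs : ∀ i j, Y j i = -Y i j := fun i j => by
      have := congrFun (congrFun hYt i) j
      simpa using this
    have hd : ∀ i, Y i i = 0 := by
      intro i
      have h1 := hs i i
      ext k
      have h2 := congrArg (PowerSeries.coeff (R := ℂ) k) h1
      rw [map_neg] at h2
      simpa using self_eq_neg.1 h2
    refine ⟨![Y 2 1, Y 0 2, Y 1 0], ?_, ?_⟩
    · intro i
      fin_cases i
      · exact hY 2 1
      · exact hY 0 2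
      · exact hY 1 0
    · ext1 i j
      fin_cases i <;> fin_cases j <;> simp [crossM, hd]
      · exact (hs 1 0).symm
      · exact (hs 2 1).symm
      · exact (hs 0 2).symm
  obtain ⟨Y, hY, hYt, hYO⟩ := exists_log hO h0
  obtain ⟨Y', hY', hYt', hYO'⟩ := exists_log hO' h0'
  obtain ⟨ξ, hξ, rfl⟩ := lift Y hY hYt
  obtain ⟨ξ', hξ', rfl⟩ := lift Y' hY' hYt'
  have hX := dv_iota hξ hξ'
  refine ⟨iotaG ξ ξ', ⟨?_, ?_⟩, ?_, ?_, ?_⟩
  · rw [iotaG, Matrix.transpose_smul, ← smul_neg]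
    congr 1
    ext1 i j
    fin_cases i <;> fin_cases j <;> simp [iotaT]
  · intro i j
    have := hX.coeff i j (k := 0) (by norm_num)
    simpa using this
  · exact texp_mul_neg hX
  · exact texp_neg_mul hX
  · intro a b
    rw [expAd, mexp_eq, mexp_eq]
    refine conj_K (fun a b => ?_) a b
    rw [conj_R hξ hξ', hYO, hYO']

theorem expAd_add (X : M4 R) (Z W : M4 K) : expAd X (Z + W) = expAd X Z + expAd X W := by
  simp [expAd, mul_add, add_mul]

theorem expAd_smul (X : M4 R) (c : ℂ) (Z : M4 K) : expAd X (c • Z) = c • expAd X Z := by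
  have e : ∀ Z : M4 K, c • Z = Matrix.scalar (Fin 4) (HahnSeries.C c : K) * Z := by
    intro Z
    ext1 i j
    rw [Matrix.scalar_apply, Matrix.diagonal_mul]
    exact (HahnSeries.C_mul_eq_smul (Γ := ℤ)).symm
  have hc := Matrix.scalar_commute (n := Fin 4) (HahnSeries.C c : K) (fun r => Commute.all _ _)
    (mK (mexp X))
  rw [e, e, expAd, expAd, ← mul_assoc, ← hc.eq]
  simp only [mul_assoc]

theorem expAd_zero (X : M4 R) : expAd X (0 : M4 K) = 0 := by
  simp [expAd]

theorem expAd_mul {X : M4 R} (h : mexp (-X) * mexp X = 1) (Z W : M4 K) :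
    expAd X (Z * W) = expAd X Z * expAd X W := by
  have h' : mK (mexp (-X)) * mK (mexp X) = 1 := by rw [← mK_mul, h, mK_one]
  simp only [expAd]
  calc mK (mexp X) * (Z * W) * mK (mexp (-X))
      = mK (mexp X) * Z * 1 * W * mK (mexp (-X)) := by noncomm_ring
    _ = mK (mexp X) * Z * (mK (mexp (-X)) * mK (mexp X)) * W * mK (mexp (-X)) := by rw [h']
    _ = _ := by noncomm_ring

theorem expAd_sub (X : M4 R) (Z W : M4 K) : expAd X (Z - W) = expAd X Z - expAd X W := by
  simp [expAd, mul_sub, sub_mul]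

theorem expAd_inv {X : M4 R} (h : mexp (-X) * mexp X = 1) (Z : M4 K) :
    expAd (-X) (expAd X Z) = Z := by
  have h' : mK (mexp (-X)) * mK (mexp X) = 1 := by rw [← mK_mul, h, mK_one]
  simp only [expAd, neg_neg]
  calc mK (mexp (-X)) * (mK (mexp X) * Z * mK (mexp (-X))) * mK (mexp X)
      = (mK (mexp (-X)) * mK (mexp X)) * Z * (mK (mexp (-X)) * mK (mexp X)) := by noncomm_ring
    _ = Z := by rw [h', one_mul, mul_one]

theorem genE_mem (M D N D' : M3 R) (x : V3 ℂ) : genE M N D' x ∈ alg M D N D' := by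
  rw [alg, Submodule.mem_sInf]
  exact fun W hW => hW.1 x

theorem genF_mem (M D N D' : M3 R) (x : V3 ℂ) : genF M D N x ∈ alg M D N D' := by
  rw [alg, Submodule.mem_sInf]
  exact fun W hW => hW.2.1 x

theorem alg_lie (M D N D' : M3 R) {X Y : M4 K} (hX : X ∈ alg M D N D') (hY : Y ∈ alg M D N D') :
    X * Y - Y * X ∈ alg M D N D' := by
  rw [alg, Submodule.mem_sInf] at *
  exact fun W hW => hW.2.2 X (hX W hW) Y (hY W hW)

theorem alg_map {M M₁ N N₁ D D' : M3 R} {X : M4 R} (h : mexp (-X) * mexp X = 1)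
    (hE : ∀ x, expAd X (genE M N D' x) ∈ alg M₁ D N₁ D')
    (hF : ∀ x, expAd X (genF M D N x) ∈ alg M₁ D N₁ D') :
    ∀ Y ∈ alg M D N D', expAd X Y ∈ alg M₁ D N₁ D' := by
  let W : Submodule ℂ (M4 K) :=
    { carrier := {Y | expAd X Y ∈ alg M₁ D N₁ D'}
      zero_mem' := by
        show expAd X 0 ∈ alg M₁ D N₁ D'
        rw [expAd_zero]; exact Submodule.zero_mem _
      add_mem' := by
        intro a b ha hb
        show expAd X (a + b) ∈ alg M₁ D N₁ D'
        rw [expAd_add]; exact Submodule.add_mem _ ha hb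
      smul_mem' := by
        intro c a ha
        show expAd X (c • a) ∈ alg M₁ D N₁ D'
        rw [expAd_smul]; exact Submodule.smul_mem _ _ ha }
  intro Y hY
  rw [alg, Submodule.mem_sInf] at hY
  refine hY W ⟨hE, hF, ?_⟩
  intro A hA B hB
  show expAd X (A * B - B * A) ∈ alg M₁ D N₁ D'
  rw [expAd_sub, expAd_mul h, expAd_mul h]
  exact alg_lie _ _ _ _ hA hB

theorem ortho {M M₁ : M3 R} (hM : ev0 M = 1) (hM₁ : ev0 M₁ = 1) (h : Mᵀ * M = M₁ᵀ * M₁) :
    ∃ O : M3 R, Oᵀ * O = 1 ∧ Dv 1 (O - 1) ∧ M₁ = O * M := by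
  have evr : ∀ A : M3 R, ev0 A = (PowerSeries.constantCoeff (R := ℂ)).mapMatrix A := fun A => rfl
  have hdet : IsUnit M.det := by
    rw [PowerSeries.isUnit_iff_constantCoeff]
    have : PowerSeries.constantCoeff (R := ℂ) M.det = (ev0 M).det := by
      rw [evr, RingHom.map_det]
    rw [this, hM]; simp
  refine ⟨M₁ * M⁻¹, ?_, ?_, ?_⟩
  · rw [Matrix.transpose_mul, Matrix.mul_assoc, ← Matrix.mul_assoc M₁ᵀ, ← h, Matrix.mul_assoc,
      Matrix.mul_nonsing_inv _ hdet, Matrix.mul_one, ← Matrix.transpose_mul,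
      Matrix.mul_nonsing_inv _ hdet, Matrix.transpose_one]
  · have h1 : ev0 (M₁ * M⁻¹) = 1 := by
      have h2 : ev0 (M * M⁻¹) = 1 := by rw [Matrix.mul_nonsing_inv _ hdet, evr, map_one]
      rw [evr, map_mul, ← evr, ← evr, hM, one_mul] at h2
      rw [evr, map_mul, ← evr, ← evr, hM₁, h2, one_mul]
    rw [dv_iff]
    intro i j k hk
    obtain rfl : k = 0 := by omega
    have := congrFun (congrFun h1 i) j
    rw [Matrix.sub_apply, map_sub]
    simp only [PowerSeries.coeff_zero_eq_constantCoeff]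
    have e1 : PowerSeries.constantCoeff (R := ℂ) ((M₁ * M⁻¹) i j) = (1 : M3 ℂ) i j := this
    rw [e1]
    by_cases hij : i = j
    · subst hij; simp
    · simp [Matrix.one_apply_ne hij]
  · rw [Matrix.mul_assoc, Matrix.nonsing_inv_mul _ hdet, Matrix.mul_one]

end E2

open E2 in
theorem exists_gauge {M M₁ N N₁ D D' : M3 R}
    (hM : ev0 M = 1) (hM₁ : ev0 M₁ = 1) (hN : ev0 N = 1) (hN₁ : ev0 N₁ = 1)
    (h : Mᵀ * M = M₁ᵀ * M₁) (h' : Nᵀ * N = N₁ᵀ * N₁) :
    ∃ X : M4 R, IsGauge X ∧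
      ∀ Z, Z ∈ alg M₁ D N₁ D' ↔ ∃ Y ∈ alg M D N D', Z = expAd X Y := by
  obtain ⟨O, hO, hO0, rfl⟩ := ortho hM hM₁ h
  obtain ⟨O', hO', hO0', rfl⟩ := ortho hN hN₁ h'
  obtain ⟨X, hX, hX1, hX2, hconj⟩ := exists_conj hO hO' hO0 hO0'
  have hE : ∀ x, expAd X (genE M N D' x) = genE (O * M) (O' * N) D' x := by
    intro x
    rw [genE, genE, hconj, Matrix.mulVec_smul, ← vK_mulVec, ← vK_mulVec, Matrix.mulVec_mulVec,
      Matrix.mulVec_mulVec, Matrix.mul_assoc]
  have hF : ∀ x, expAd X (genF M D N x) = genF (O * M) D (O' * N) x := by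
    intro x
    rw [genF, genF, hconj, Matrix.mulVec_smul, ← vK_mulVec, ← vK_mulVec, Matrix.mulVec_mulVec,
      Matrix.mulVec_mulVec, Matrix.mul_assoc]
  refine ⟨X, hX, fun Z => ⟨fun hZ => ?_, ?_⟩⟩
  · have hX1' : mexp (- -X) * mexp (-X) = 1 := by rwa [neg_neg]
    refine ⟨expAd (-X) Z, ?_, ?_⟩
    · refine alg_map hX1' (fun x => ?_) (fun x => ?_) Z hZ
      · rw [← hE, expAd_inv hX2]; exact genE_mem _ _ _ _ _
      · rw [← hF, expAd_inv hX2]; exact genF_mem _ _ _ _ _
    · have := expAd_inv hX1' Z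
      rw [neg_neg] at this
      exact this.symm
  · rintro ⟨Y, hY, rfl⟩
    refine alg_map hX2 (fun x => ?_) (fun x => ?_) Y hY
    · rw [hE]; exact genE_mem _ _ _ _ _
    · rw [hF]; exact genF_mem _ _ _ _ _

end

end Pool.Agent.MP_106392_al
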