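import Pool.Agent.MP_106392_al.Defs2

/-!
# Module F: reparametrisations
-/

set_option autoImplicit false

namespace Pool.Agent.MP_106392_al

open Matrix

noncomputable section

namespace Reparam

theorem hasSubst {φ : R} (hφ : IsParam φ) : PowerSeries.HasSubst φ :=
  PowerSeries.HasSubst.of_constantCoeff_zero' hφ.1

/-- Substitution as a ring homomorphism. -/
def sub {φ : R} (hφ : IsParam φ) : R →ₐ[ℂ] R := PowerSeries.substAlgHom (hasSubst hφ)

theorem sub_apply {φ : R} (hφ : IsParam φ) (f : R) : sub hφ f = PowerSeries.subst φ f := by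
  rw [sub, PowerSeries.coe_substAlgHom]

theorem param_ne_zero {φ : R} (hφ : IsParam φ) : φ ≠ 0 := by
  rintro rfl
  have := hφ.2
  simp at this

theorem sub_ne_zero {φ : R} (hφ : IsParam φ) {f : R} (hf : f ≠ 0) : sub hφ f ≠ 0 := by
  obtain ⟨n, g, hg, hfg⟩ : ∃ (n : ℕ) (g : R), IsUnit g ∧ f = PowerSeries.X ^ n * g := by
    refine ⟨f.order.toNat, PowerSeries.divXPowOrder f, ?_, ?_⟩
    · rw [PowerSeries.isUnit_iff_constantCoeff, isUnit_iff_ne_zero,
        PowerSeries.constantCoeff_divXPowOrder]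
      exact PowerSeries.coeff_order hf
    · rw [PowerSeries.X_pow_order_mul_divXPowOrder]
  rw [hfg, map_mul, map_pow, sub_apply, PowerSeries.subst_X (hasSubst hφ)]
  exact mul_ne_zero (pow_ne_zero _ (param_ne_zero hφ)) (hg.map (sub hφ)).ne_zero

theorem toK_injective : Function.Injective toK := HahnSeries.ofPowerSeries_injective

/-- The extension of the substitution to Laurent series. -/
def ext {φ : R} (hφ : IsParam φ) : K →+* K :=
  IsLocalization.lift (M := nonZeroDivisors R) (S := K) (g := toK.comp (sub hφ).toRingHom)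
    (fun y ↦ by
      rw [isUnit_iff_ne_zero]
      change toK (sub hφ y) ≠ 0
      rw [Ne, map_eq_zero_iff _ toK_injective]
      exact sub_ne_zero hφ (nonZeroDivisors.ne_zero y.2))

theorem ext_toK {φ : R} (hφ : IsParam φ) (f : R) :
    ext hφ (toK f) = toK (PowerSeries.subst φ f) := by
  rw [← sub_apply hφ]
  exact IsLocalization.lift_eq (M := nonZeroDivisors R) (S := K) _ f

theorem toK_X : toK PowerSeries.X = HahnSeries.single (1 : ℤ) (1 : ℂ) :=
  HahnSeries.ofPowerSeries_X

theorem toK_X_zpow (n : ℤ) : toK PowerSeries.X ^ n = HahnSeries.single n (1 : ℂ) := by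
  rw [toK_X, ← RatFunc.single_zpow]

theorem compK_eq {φ : R} (hφ : IsParam φ) (f : K) : compK φ f = ext hφ f := by
  conv_rhs => rw [← LaurentSeries.single_order_mul_powerSeriesPart f]
  rw [map_mul, compK, ← toK_X_zpow, map_zpow₀, ext_toK, PowerSeries.subst_X (hasSubst hφ)]
  congr 1
  exact (ext_toK hφ _).symm

theorem smul_eq (c : ℂ) (f : K) : c • f = toK (PowerSeries.C c) * f := by
  rw [toK, HahnSeries.ofPowerSeries_C, HahnSeries.C_mul_eq_smul]

theorem ext_smul {φ : R} (hφ : IsParam φ) (c : ℂ) (f : K) :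
    ext hφ (c • f) = c • ext hφ f := by
  rw [smul_eq, smul_eq, map_mul, ext_toK, ← sub_apply hφ]
  congr 2
  exact (sub hφ).commutes c

/-- `compK φ` on matrices, as a linear map. -/
def rho {φ : R} (hφ : IsParam φ) :
    Matrix (Fin 4) (Fin 4) K →ₗ[ℂ] Matrix (Fin 4) (Fin 4) K where
  toFun Y := Y.map (compK φ)
  map_add' X Y := by
    ext1 i j
    simp only [Matrix.map_apply, Matrix.add_apply, compK_eq hφ, map_add]
  map_smul' c X := by
    ext1 i j
    simp only [Matrix.map_apply, Matrix.smul_apply, compK_eq hφ, ext_smul, RingHom.id_apply]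

theorem rho_apply {φ : R} (hφ : IsParam φ) (Y : Matrix (Fin 4) (Fin 4) K) :
    rho hφ Y = Y.map (compK φ) := rfl

theorem rho_cm {φ : R} (hφ : IsParam φ) (X Y : Matrix (Fin 4) (Fin 4) K) :
    rho hφ (X * Y - Y * X) = rho hφ X * rho hφ Y - rho hφ Y * rho hφ X := by
  ext1 i j
  simp only [rho_apply, Matrix.map_apply, Matrix.sub_apply, Matrix.mul_apply, compK_eq hφ,
    map_sub, map_sum, map_mul]

theorem lamInv_eq : lamInv = (toK PowerSeries.X)⁻¹ := by
  rw [lamInv, toK_X, HahnSeries.inv_single, inv_one]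

theorem const_u {φ u : R} (hφ : IsParam φ) (hu : φ = PowerSeries.X * u) :
    PowerSeries.constantCoeff u = 1 := by
  have := hφ.2
  rw [hu, PowerSeries.coeff_one_mul] at this
  simpa using this

theorem u_mul_inv {φ u : R} (hφ : IsParam φ) (hu : φ = PowerSeries.X * u) : u * u⁻¹ = 1 :=
  PowerSeries.mul_inv_cancel u (by rw [const_u hφ hu]; exact one_ne_zero)

theorem ext_lamInv {φ u : R} (hφ : IsParam φ) (hu : φ = PowerSeries.X * u) :
    ext hφ lamInv = lamInv * toK u⁻¹ := by
  have hX : toK PowerSeries.X ≠ 0 := by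
    rw [Ne, map_eq_zero_iff _ toK_injective]
    exact PowerSeries.X_ne_zero
  have h1 : toK u * toK u⁻¹ = 1 := by rw [← map_mul, u_mul_inv hφ hu, map_one]
  have hu0 : toK u ≠ 0 := left_ne_zero_of_mul_eq_one h1
  rw [lamInv_eq, map_inv₀, ext_toK, PowerSeries.subst_X (hasSubst hφ)]
  nth_rewrite 1 [hu]
  rw [map_mul, mul_inv, ← eq_inv_of_mul_eq_one_right h1]

theorem ext_iota {φ : R} (hφ : IsParam φ) (a b : V3 K) :
    rho hφ (iota a b) = iota (fun i ↦ ext hφ (a i)) (fun i ↦ ext hφ (b i)) := by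
  ext1 i j
  rw [rho_apply, Matrix.map_apply, compK_eq hφ]
  simp only [iota, Matrix.smul_apply, smul_eq_mul, map_mul, map_inv₀, map_ofNat]
  congr 1
  fin_cases i <;> fin_cases j <;> simp

end Reparam

open Reparam in
theorem reparam_alg {M N D D' : M3 R} {φ u : R} (hφ : IsParam φ) (hu : φ = PowerSeries.X * u) :
    ∀ X, X ∈ alg (u⁻¹ • M.map (PowerSeries.subst φ)) (u • D.map (PowerSeries.subst φ))
        (u⁻¹ • N.map (PowerSeries.subst φ)) (u • D'.map (PowerSeries.subst φ)) ↔
      ∃ Y ∈ alg M D N D', X = Y.map (compK φ) := by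
  have huu := u_mul_inv hφ hu
  have huu' : u⁻¹ * u = 1 := by rw [mul_comm, huu]
  -- values on vectors
  have hv1 : ∀ (A : M3 R) (x : V3 ℂ) (i : Fin 3), ext hφ (vK (A *ᵥ vC x) i) =
      vK (A.map (PowerSeries.subst φ) *ᵥ vC x) i := by
    intro A x i
    have h2 : ∀ c : ℂ, sub hφ (PowerSeries.C c) = PowerSeries.C c := fun c ↦ (sub hφ).commutes c
    simp only [vK, vC, Matrix.mulVec, dotProduct, Matrix.map_apply, ext_toK, ← sub_apply hφ,
      map_sum, map_mul, h2]
  have hE : ∀ (A B C : M3 R) (x : V3 ℂ), rho hφ (genE A B C x) =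
      genE (u⁻¹ • A.map (PowerSeries.subst φ)) (u⁻¹ • B.map (PowerSeries.subst φ))
        (u • C.map (PowerSeries.subst φ)) x := by
    intro A B C x
    rw [genE, genE, ext_iota]
    congr 1
    · ext1 i
      simp only [Pi.smul_apply, smul_eq_mul, map_mul, ext_lamInv hφ hu, hv1]
      rw [mul_assoc]
      congr 1
      simp only [vK, Matrix.smul_mulVec, Pi.smul_apply, smul_eq_mul, map_mul]
    · ext1 i
      rw [hv1]
      congr 3
      rw [Matrix.smul_mul, Matrix.mul_smul, smul_smul, huu', one_smul]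
      ext1 i j
      simp only [Matrix.map_apply, Matrix.mul_apply, ← sub_apply hφ, map_sum, map_mul]
  have hF : ∀ (A B C : M3 R) (x : V3 ℂ), rho hφ (genF A B C x) =
      genF (u⁻¹ • A.map (PowerSeries.subst φ)) (u • B.map (PowerSeries.subst φ))
        (u⁻¹ • C.map (PowerSeries.subst φ)) x := by
    intro A B C x
    rw [genF, genF, ext_iota]
    congr 1
    · ext1 i
      rw [hv1]
      congr 3
      rw [Matrix.smul_mul, Matrix.mul_smul, smul_smul, huu', one_smul]
      ext1 i j
      simp only [Matrix.map_apply, Matrix.mul_apply, ← sub_apply hφ, map_sum, map_mul]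
    · ext1 i
      simp only [Pi.smul_apply, smul_eq_mul, map_mul, ext_lamInv hφ hu, hv1]
      rw [mul_assoc]
      congr 1
      simp only [vK, Matrix.smul_mulVec, Pi.smul_apply, smul_eq_mul, map_mul]
  intro X
  constructor
  · intro hX
    have h1 : alg (u⁻¹ • M.map (PowerSeries.subst φ)) (u • D.map (PowerSeries.subst φ))
        (u⁻¹ • N.map (PowerSeries.subst φ)) (u • D'.map (PowerSeries.subst φ)) ≤
        (alg M D N D').map (rho hφ) := by
      apply sInf_le
      refine ⟨fun x ↦ ?_, fun y ↦ ?_, ?_⟩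
      · rw [← hE]
        refine Submodule.mem_map_of_mem ?_
        exact Submodule.mem_sInf.mpr fun W hW ↦ hW.1 x
      · rw [← hF]
        refine Submodule.mem_map_of_mem ?_
        exact Submodule.mem_sInf.mpr fun W hW ↦ hW.2.1 y
      · rintro _ ⟨Y, hY, rfl⟩ _ ⟨Z, hZ, rfl⟩
        rw [← rho_cm]
        refine Submodule.mem_map_of_mem ?_
        exact Submodule.mem_sInf.mpr fun W hW ↦ hW.2.2 Y (Submodule.mem_sInf.mp hY W hW) Z
          (Submodule.mem_sInf.mp hZ W hW)
    obtain ⟨Y, hY, rfl⟩ := h1 hX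
    exact ⟨Y, hY, rfl⟩
  · rintro ⟨Y, hY, rfl⟩
    have h1 : alg M D N D' ≤ (alg (u⁻¹ • M.map (PowerSeries.subst φ))
        (u • D.map (PowerSeries.subst φ)) (u⁻¹ • N.map (PowerSeries.subst φ))
        (u • D'.map (PowerSeries.subst φ))).comap (rho hφ) := by
      apply sInf_le
      refine ⟨fun x ↦ ?_, fun y ↦ ?_, ?_⟩
      · rw [Submodule.mem_comap, hE]
        exact Submodule.mem_sInf.mpr fun W hW ↦ hW.1 x
      · rw [Submodule.mem_comap, hF]
        exact Submodule.mem_sInf.mpr fun W hW ↦ hW.2.1 y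
      · intro Y hY Z hZ
        rw [Submodule.mem_comap, rho_cm]
        exact Submodule.mem_sInf.mpr fun W hW ↦ hW.2.2 _ (Submodule.mem_sInf.mp hY W hW) _
          (Submodule.mem_sInf.mp hZ W hW)
    exact h1 hY

open Reparam in
theorem exists_param (g : R) (hg : PowerSeries.constantCoeff (R := ℂ) g = 1) :
    ∃ φ : R, IsParam φ ∧ φ = PowerSeries.X * PowerSeries.subst φ g := by
  have hg0 : PowerSeries.constantCoeff (R := ℂ) g ≠ 0 := by rw [hg]; exact one_ne_zero
  set ψ : R := PowerSeries.X * g⁻¹ with hψ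
  have h0 : PowerSeries.constantCoeff (R := ℂ) ψ = 0 := by rw [hψ]; simp
  have h1 : PowerSeries.coeff (R := ℂ) 1 ψ = 1 := by
    rw [hψ, PowerSeries.coeff_one_mul]
    simp [hg]
  have h1' : IsUnit (PowerSeries.coeff (R := ℂ) 1 ψ) := by rw [h1]; exact isUnit_one
  set φ := ψ.substInvOfIsUnit h1' with hφd
  have hφ : IsParam φ := by
    refine ⟨PowerSeries.constantCoeff_substInvOfIsUnit _ _, ?_⟩
    rw [hφd, PowerSeries.coeff_one_substInvOfIsUnit]
    have h2 : (h1'.unit : ℂ) = 1 := by rw [IsUnit.unit_spec, h1]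
    have h3 : h1'.unit = 1 := Units.ext h2
    rw [h3]
    simp
  refine ⟨φ, hφ, ?_⟩
  have h2 : PowerSeries.subst φ ψ = PowerSeries.X := ψ.subst_substInvOfIsUnit_right h0 h1'
  rw [← sub_apply hφ, hψ, map_mul, sub_apply hφ PowerSeries.X,
    PowerSeries.subst_X (hasSubst hφ)] at h2
  rw [← sub_apply hφ, ← h2, mul_assoc, ← map_mul, PowerSeries.inv_mul_cancel _ hg0, map_one,
    mul_one]

namespace Reparam

/-- a vector with entries mapped by `S` -/
def mv {φ : R} (hφ : IsParam φ) (v : V3 R) : V3 R := fun i ↦ sub hφ (v i)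

theorem mv_apply {φ : R} (hφ : IsParam φ) (v : V3 R) (i : Fin 3) :
    mv hφ v i = sub hφ (v i) := rfl

/-- a matrix with entries mapped by `S` -/
def mm {φ : R} (hφ : IsParam φ) (A : M3 R) : M3 R := A.map (sub hφ)

theorem mm_apply {φ : R} (hφ : IsParam φ) (A : M3 R) (i j : Fin 3) :
    mm hφ A i j = sub hφ (A i j) := rfl

theorem mm_mulVec {φ : R} (hφ : IsParam φ) (A : M3 R) (v : V3 R) :
    mm hφ A *ᵥ mv hφ v = mv hφ (A *ᵥ v) := by
  ext1 i
  simp only [Matrix.mulVec, dotProduct, mm_apply, mv_apply, map_sum, map_mul]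

theorem mv_cross {φ : R} (hφ : IsParam φ) (a b : V3 R) :
    mv hφ a ⨯₃ mv hφ b = mv hφ (a ⨯₃ b) := by
  ext1 i
  fin_cases i <;> simp [cross_apply, mv_apply]

theorem mm_cst {φ : R} (hφ : IsParam φ) (A : M3 ℂ) : mm hφ (cst A) = cst A := by
  ext1 i j
  simp only [cst, Matrix.map_apply, mm_apply]
  exact (sub hφ).commutes (A i j)

theorem mm_cof {φ : R} (hφ : IsParam φ) (A : M3 R) : cof (mm hφ A) = mm hφ (cof A) := by
  ext1 i j
  fin_cases i <;> fin_cases j <;> simp [cof, mm_apply]

theorem mv_single {φ : R} (hφ : IsParam φ) (i : Fin 3) :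
    mv hφ (Pi.single i 1) = Pi.single i 1 := by
  ext1 j
  rw [mv_apply]
  by_cases h : j = i
  · subst h
    simp
  · simp [Pi.single_eq_of_ne h]

theorem mv_add {φ : R} (hφ : IsParam φ) (a b : V3 R) :
    mv hφ (a + b) = mv hφ a + mv hφ b := by
  ext1 j
  simp [mv_apply]

theorem mv_sub {φ : R} (hφ : IsParam φ) (a b : V3 R) :
    mv hφ (a - b) = mv hφ a - mv hφ b := by
  ext1 j
  simp [mv_apply]

theorem mv_smul {φ : R} (hφ : IsParam φ) (c : R) (a : V3 R) :
    mv hφ (c • a) = sub hφ c • mv hφ a := by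
  ext1 j
  simp [mv_apply]

theorem quad_zero (F : V3 R →ₗ[R] V3 R →ₗ[R] V3 R)
    (h1 : ∀ i, F (Pi.single i 1) (Pi.single i 1) = 0)
    (h2 : ∀ i j, F (Pi.single i 1 + Pi.single j 1) (Pi.single i 1 + Pi.single j 1) = 0)
    (x : V3 R) : F x x = 0 := by
  have h3 : ∀ i j, F (Pi.single i 1) (Pi.single j 1) + F (Pi.single j 1) (Pi.single i 1) = 0 := by
    intro i j
    have := h2 i j
    simp only [map_add, LinearMap.add_apply] at this
    rw [h1, h1, zero_add, add_zero] at this
    rw [← this, add_comm]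
  have hx : x = x 0 • (Pi.single 0 1 : V3 R) + x 1 • (Pi.single 1 1 : V3 R) +
      x 2 • (Pi.single 2 1 : V3 R) := by
    ext1 i
    fin_cases i <;> simp
  rw [hx]
  simp only [map_add, map_smul, LinearMap.add_apply, LinearMap.smul_apply, smul_add]
  ext1 k
  have e0 := congrFun (h1 0) k
  have e1 := congrFun (h1 1) k
  have e2 := congrFun (h1 2) k
  have f0 := congrFun (h3 0 1) k
  have f1 := congrFun (h3 0 2) k
  have f2 := congrFun (h3 1 2) k
  simp only [Pi.add_apply, Pi.smul_apply, smul_eq_mul, Pi.zero_apply] at *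
  linear_combination (x 0 * x 0) * e0 + (x 1 * x 1) * e1 + (x 2 * x 2) * e2 +
    (x 0 * x 1) * f0 + (x 0 * x 2) * f1 + (x 1 * x 2) * f2

/-- The bilinear map of the second identity. -/
def quadF (G A B : M3 R) (a b : R) : V3 R →ₗ[R] V3 R →ₗ[R] V3 R :=
  LinearMap.mk₂ R (fun x y ↦ G *ᵥ (x ⨯₃ ((G - a • A) *ᵥ y)) - b • (x ⨯₃ (B *ᵥ y)))
    (fun x x' y ↦ by
      simp only [map_add, LinearMap.add_apply, Matrix.mulVec_add, smul_add]
      abel)
    (fun c x y ↦ by
      simp only [map_smul, LinearMap.smul_apply, Matrix.mulVec_smul, smul_sub]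
      rw [smul_comm b c])
    (fun x y y' ↦ by
      simp only [map_add, Matrix.mulVec_add, smul_add]
      abel)
    (fun c x y ↦ by
      simp only [map_smul, Matrix.mulVec_smul, smul_sub]
      rw [smul_comm b c])

/-- The bilinear map of the third identity. -/
def cubF (G r C A D B : M3 R) : V3 R →ₗ[R] V3 R →ₗ[R] V3 R :=
  LinearMap.mk₂ R (fun x y ↦ G *ᵥ ((r *ᵥ x) ⨯₃ (C *ᵥ y) - C *ᵥ (x ⨯₃ (A *ᵥ y))) -
      D *ᵥ (x ⨯₃ (B *ᵥ y)))
    (fun x x' y ↦ by
      simp only [map_add, LinearMap.add_apply, Matrix.mulVec_add, Matrix.mulVec_sub]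
      abel)
    (fun c x y ↦ by
      simp only [map_smul, LinearMap.smul_apply, Matrix.mulVec_smul, smul_sub, Matrix.mulVec_sub])
    (fun x y y' ↦ by
      simp only [map_add, Matrix.mulVec_add, Matrix.mulVec_sub]
      abel)
    (fun c x y ↦ by
      simp only [map_smul, Matrix.mulVec_smul, smul_sub, Matrix.mulVec_sub])

/-- The bilinear map of the first identity. -/
def bilF (G D r s : M3 R) (a : R) : V3 R →ₗ[R] V3 R →ₗ[R] V3 R :=
  LinearMap.mk₂ R (fun x y ↦ G *ᵥ ((D *ᵥ y) ⨯₃ x) - (r *ᵥ y) ⨯₃ x -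
      a • (D *ᵥ (y ⨯₃ (s *ᵥ x))))
    (fun x x' y ↦ by
      simp only [map_add, Matrix.mulVec_add, smul_add]
      abel)
    (fun c x y ↦ by
      simp only [map_smul, Matrix.mulVec_smul, smul_sub]
      rw [smul_comm a c])
    (fun x y y' ↦ by
      simp only [map_add, LinearMap.add_apply, Matrix.mulVec_add, smul_add]
      abel)
    (fun c x y ↦ by
      simp only [map_smul, LinearMap.smul_apply, Matrix.mulVec_smul, smul_sub]
      rw [smul_comm a c])

theorem bil_zero (F : V3 R →ₗ[R] V3 R →ₗ[R] V3 R)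
    (h1 : ∀ i j, F (Pi.single i 1) (Pi.single j 1) = 0) (x y : V3 R) : F x y = 0 := by
  have : F = 0 := by
    refine (Pi.basisFun R (Fin 3)).ext fun i ↦ (Pi.basisFun R (Fin 3)).ext fun j ↦ ?_
    simp only [Pi.basisFun_apply, LinearMap.zero_apply]
    exact h1 i j
  rw [this]
  rfl

end Reparam

open Reparam in
theorem Half.reparam {r s A B A' B' : M3 ℂ} {G D : M3 R} (h : Half r s A B A' B' G D)
    {φ u : R} (hφ : IsParam φ) (hu : φ = PowerSeries.X * u) :
    Half r s A B A' B' (u⁻¹ • G.map (PowerSeries.subst φ)) (u • D.map (PowerSeries.subst φ)) := by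
  have huu := u_mul_inv hφ hu
  have huu' : u⁻¹ * u = 1 := by rw [mul_comm, huu]
  have hu1 := const_u hφ hu
  have hG : G.map (PowerSeries.subst φ) = mm hφ G := by
    ext1 i j
    rw [mm_apply, sub_apply, Matrix.map_apply]
  have hD : D.map (PowerSeries.subst φ) = mm hφ D := by
    ext1 i j
    rw [mm_apply, sub_apply, Matrix.map_apply]
  have hX : sub hφ PowerSeries.X = PowerSeries.X * u := by
    rw [sub_apply, PowerSeries.subst_X (hasSubst hφ), hu]
  have hc : ∀ f : R, PowerSeries.constantCoeff (sub hφ f) = PowerSeries.constantCoeff f := by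
    intro f
    have h1 : sub hφ (f - PowerSeries.C (PowerSeries.constantCoeff f)) =
        sub hφ f - PowerSeries.C (PowerSeries.constantCoeff f) := by
      rw [map_sub]
      congr 1
      exact (sub hφ).commutes _
    have h2 : ∃ g, f - PowerSeries.C (PowerSeries.constantCoeff f) = PowerSeries.X * g := by
      rw [← dvd_def, PowerSeries.X_dvd_iff]
      simp
    obtain ⟨g, hg⟩ := h2
    rw [hg, map_mul, hX] at h1
    have h3 := congrArg PowerSeries.constantCoeff h1
    simp only [map_mul, PowerSeries.constantCoeff_X, zero_mul, map_sub,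
      PowerSeries.constantCoeff_C] at h3
    rw [eq_comm, sub_eq_zero] at h3
    exact h3
  have hui : PowerSeries.constantCoeff (u⁻¹ : R) = 1 := by
    rw [PowerSeries.constantCoeff_inv, hu1, inv_one]
  rw [hG, hD]
  -- the three identities with `φ` in place of `X`
  have J1 : ∀ x y : V3 R, bilF (mm hφ G) (mm hφ D) (cst r) (cst s) (PowerSeries.X * u) x y = 0 := by
    refine bil_zero _ fun i j ↦ ?_
    have e := congrArg (mv hφ) (h.I1 (Pi.single i 1) (Pi.single j 1))
    simp only [mv_add, mv_smul, ← mm_mulVec, ← mv_cross, mv_single, mm_cst, hX] at e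
    simp only [bilF, LinearMap.mk₂_apply]
    rw [e]
    abel
  have J2 : ∀ x : V3 R, quadF (mm hφ G) (cst A) (cst B) (PowerSeries.X * u)
      ((PowerSeries.X * u) ^ 2) x x = 0 := by
    have key : ∀ z : V3 R, quadF (mm hφ G) (cst A) (cst B) (PowerSeries.X * u)
        ((PowerSeries.X * u) ^ 2) (mv hφ z) (mv hφ z) = 0 := by
      intro z
      have e := congrArg (mv hφ) (h.I2 z)
      have e1 : mm hφ (G - (PowerSeries.X : R) • cst A) =
          mm hφ G - (PowerSeries.X * u) • cst A := by
        ext1 a b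
        have e2 := congrFun (congrFun (mm_cst hφ A) a) b
        rw [mm_apply] at e2
        simp only [mm_apply, Matrix.sub_apply, Matrix.smul_apply, smul_eq_mul, map_sub, map_mul,
          hX, e2]
      simp only [mv_smul, ← mm_mulVec, ← mv_cross, mm_cst, e1, map_pow, hX] at e
      simp only [quadF, LinearMap.mk₂_apply]
      rw [e, sub_self]
    intro x
    refine quad_zero _ (fun i ↦ ?_) (fun i j ↦ ?_) x
    · have := key (Pi.single i 1)
      rwa [mv_single] at this
    · have := key (Pi.single i 1 + Pi.single j 1)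
      rwa [mv_add, mv_single, mv_single] at this
  have J3 : ∀ y : V3 R, cubF (mm hφ G) (cst r) (cof (mm hφ D)) (cst A') (mm hφ D) (cst B') y y
      = 0 := by
    have key : ∀ z : V3 R, cubF (mm hφ G) (cst r) (cof (mm hφ D)) (cst A') (mm hφ D) (cst B')
        (mv hφ z) (mv hφ z) = 0 := by
      intro z
      have e := congrArg (mv hφ) (h.I3 z)
      simp only [mv_sub, ← mm_mulVec, ← mv_cross, mm_cst, ← mm_cof] at e
      simp only [cubF, LinearMap.mk₂_apply]
      rw [e, sub_self]
    intro x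
    refine quad_zero _ (fun i ↦ ?_) (fun i j ↦ ?_) x
    · have := key (Pi.single i 1)
      rwa [mv_single] at this
    · have := key (Pi.single i 1 + Pi.single j 1)
      rwa [mv_add, mv_single, mv_single] at this
  refine ⟨h.symA, h.symB, h.symA', h.symB', ?_, ?_, ?_, ?_, ?_, ?_⟩
  · rw [Matrix.transpose_smul]
    congr 1
    ext1 i j
    rw [Matrix.transpose_apply, mm_apply, mm_apply]
    congr 1
    exact congrFun (congrFun h.symG i) j
  · have := h.G0
    ext1 i j
    have h1 := congrFun (congrFun this i) j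
    simp only [ev0, Matrix.map_apply, Matrix.smul_apply, smul_eq_mul, map_mul, hui, one_mul,
      mm_apply, hc] at h1 ⊢
    exact h1
  · have := h.D0
    ext1 i j
    have h1 := congrFun (congrFun this i) j
    simp only [ev0, Matrix.map_apply, Matrix.smul_apply, smul_eq_mul, map_mul, hu1, one_mul,
      mm_apply, hc] at h1 ⊢
    exact h1
  · intro x y
    have e := J1 x y
    simp only [bilF, LinearMap.mk₂_apply] at e
    simp only [Matrix.smul_mulVec, map_smul, LinearMap.smul_apply, Matrix.mulVec_smul, smul_smul]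
    rw [huu, one_smul]
    rw [sub_sub, sub_eq_zero] at e
    exact e
  · intro x
    have e := J2 x
    simp only [quadF, LinearMap.mk₂_apply, sub_eq_zero] at e
    have e1 : (u⁻¹ • mm hφ G - (PowerSeries.X : R) • cst A) =
        u⁻¹ • (mm hφ G - (PowerSeries.X * u) • cst A) := by
      rw [smul_sub, smul_smul]
      congr 2
      linear_combination -(PowerSeries.X : R) * huu'
    rw [e1]
    simp only [Matrix.smul_mulVec, map_smul, Matrix.mulVec_smul, smul_smul]
    rw [e, smul_smul]
    congr 1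
    linear_combination (PowerSeries.X : R) ^ 2 * (u⁻¹ * u + 1) * huu'
  · intro y
    have e := J3 y
    simp only [cubF, LinearMap.mk₂_apply, sub_eq_zero] at e
    have e1 : cof (u • mm hφ D) = (u * u) • cof (mm hφ D) := by
      ext1 i j
      fin_cases i <;> fin_cases j <;>
        simp only [cof, Matrix.smul_apply, smul_eq_mul] <;> simp <;> ring
    rw [e1]
    simp only [Matrix.smul_mulVec, map_smul, ← smul_sub, Matrix.mulVec_smul, smul_smul]
    rw [e]
    congr 1
    linear_combination u * huu'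

end

end Pool.Agent.MP_106392_al
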