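import Pool.Agent.MP_106392_al.Defs2

/-!
# Square roots of matrices of power series with constant term `1`
-/

set_option autoImplicit false
namespace Pool.Agent.MP_106392_al
open Matrix
noncomputable section

/-- the coefficients of the square root, by recursion. -/
private def rootCoeff {A : Type*} [Ring A] [Algebra ℂ A] (c : ℕ → A) : ℕ → A
  | 0 => 1
  | (n + 1) => (2⁻¹ : ℂ) • (c (n + 1) - ∑ i : Fin n,
      rootCoeff c (i.1 + 1) * rootCoeff c (n - i.1))
  decreasing_by
    all_goals omega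

private lemma sum_anti_succ {A : Type*} [Ring A] (a : ℕ → A) (h0 : a 0 = 1) (n : ℕ) :
    ∑ p ∈ Finset.HasAntidiagonal.antidiagonal (n + 1), a p.1 * a p.2 =
      a (n + 1) + a (n + 1) + ∑ i ∈ Finset.range n, a (i + 1) * a (n - i) := by
  rw [Finset.Nat.sum_antidiagonal_eq_sum_range_succ (fun i j => a i * a j),
    Finset.sum_range_succ, Finset.sum_range_succ']
  simp only [Nat.sub_self, Nat.sub_zero, h0, one_mul, mul_one]
  have : ∀ i ∈ Finset.range n, a (i + 1) * a (n + 1 - (i + 1)) = a (i + 1) * a (n - i) := by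
    intro i _
    congr 2
    omega
  rw [Finset.sum_congr rfl this]
  abel

private lemma root_exists {A : Type*} [Ring A] [Algebra ℂ A] (c : ℕ → A) (hc : c 0 = 1) :
    ∃ a : ℕ → A, a 0 = 1 ∧ ∀ n, ∑ p ∈ Finset.HasAntidiagonal.antidiagonal n, a p.1 * a p.2 = c n := by
  refine ⟨rootCoeff c, by rw [rootCoeff], ?_⟩
  intro n
  cases n with
  | zero => simp [rootCoeff, hc]
  | succ n =>
    rw [sum_anti_succ _ (by rw [rootCoeff])]
    have h : rootCoeff c (n + 1) = (2⁻¹ : ℂ) • (c (n + 1) - ∑ i : Fin n,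
      rootCoeff c (i.1 + 1) * rootCoeff c (n - i.1)) := by
      rw [rootCoeff]
    rw [h, ← add_smul]
    rw [Fin.sum_univ_eq_sum_range (fun i => rootCoeff c (i + 1) * rootCoeff c (n - i)) n]
    norm_num

private lemma root_unique {A : Type*} [Ring A] [Algebra ℂ A] (a b : ℕ → A)
    (ha : a 0 = 1) (hb : b 0 = 1)
    (h : ∀ n, ∑ p ∈ Finset.HasAntidiagonal.antidiagonal n, a p.1 * a p.2 =
      ∑ p ∈ Finset.HasAntidiagonal.antidiagonal n, b p.1 * b p.2) : a = b := by
  funext n
  induction n using Nat.strong_induction_on with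
  | _ n ih =>
    cases n with
    | zero => rw [ha, hb]
    | succ n =>
      have h1 := h (n + 1)
      rw [sum_anti_succ a ha, sum_anti_succ b hb] at h1
      have h2 : ∑ i ∈ Finset.range n, a (i + 1) * a (n - i) =
          ∑ i ∈ Finset.range n, b (i + 1) * b (n - i) := by
        refine Finset.sum_congr rfl ?_
        intro i hi
        rw [Finset.mem_range] at hi
        rw [ih (i + 1) (by omega), ih (n - i) (by omega)]
      rw [h2] at h1
      have h3 : a (n + 1) + a (n + 1) = b (n + 1) + b (n + 1) := add_right_cancel h1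
      have h4 : (2⁻¹ : ℂ) • (a (n + 1) + a (n + 1)) = (2⁻¹ : ℂ) • (b (n + 1) + b (n + 1)) := by
        rw [h3]
      have h5 : ∀ x : A, (2⁻¹ : ℂ) • (x + x) = x := by
        intro x
        rw [smul_add, ← add_smul]
        norm_num
      rwa [h5, h5] at h4

/-- the matrix of `n`-th coefficients. -/
private def cfm (M : M3 R) (n : ℕ) : M3 ℂ := M.map (PowerSeries.coeff (R := ℂ) n)

private lemma cfm_mul (M N : M3 R) (n : ℕ) :
    cfm (M * N) n = ∑ p ∈ Finset.HasAntidiagonal.antidiagonal n, cfm M p.1 * cfm N p.2 := by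
  ext i j
  simp only [cfm, Matrix.map_apply, Matrix.mul_apply, Matrix.sum_apply, map_sum,
    PowerSeries.coeff_mul]
  rw [Finset.sum_comm]

private lemma cfm_ext {M N : M3 R} (h : ∀ n, cfm M n = cfm N n) : M = N := by
  ext i j n
  have := congrFun (congrFun (h n) i) j
  simpa [cfm] using this

private lemma cfm_zero (M : M3 R) : cfm M 0 = ev0 M := by
  ext i j
  simp [cfm, ev0]

private lemma cfm_transpose (M : M3 R) (n : ℕ) : cfm Mᵀ n = (cfm M n)ᵀ := by
  ext i j
  simp [cfm]

theorem exists_root (N : M3 R) (hN : Nᵀ = N) (h0 : ev0 N = 1) :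
    ∃! M : M3 R, ev0 M = 1 ∧ Mᵀ = M ∧ M * M = N := by
  have key : ∀ M M' : M3 R, ev0 M = 1 → ev0 M' = 1 → M * M = M' * M' → M = M' := by
    intro M M' h h' hh
    apply cfm_ext
    have := root_unique (cfm M) (cfm M') (by rw [cfm_zero, h]) (by rw [cfm_zero, h']) (by
      intro n
      rw [← cfm_mul, ← cfm_mul, hh])
    intro n
    rw [this]
  obtain ⟨a, ha, hs⟩ := root_exists (cfm N) (by rw [cfm_zero, h0])
  set M : M3 R := Matrix.of fun i j => PowerSeries.mk fun n => a n i j with hM
  have hcM : cfm M = a := by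
    funext n
    ext i j
    simp [cfm, hM]
  have hM0 : ev0 M = 1 := by rw [← cfm_zero, hcM, ha]
  have hMM : M * M = N := by
    apply cfm_ext
    intro n
    rw [cfm_mul, hcM, hs]
  have hMt : Mᵀ = M := by
    apply key
    · rw [← cfm_zero, cfm_transpose, cfm_zero, hM0, transpose_one]
    · exact hM0
    · rw [← transpose_mul, hMM, hN]
  refine ⟨M, ⟨hM0, hMt, hMM⟩, ?_⟩
  rintro M' ⟨h1, _, h3⟩
  exact key M' M h1 hM0 (by rw [h3, hMM])

/-- the square root is unique even without symmetry. -/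
theorem root_unique_mat {M M' : M3 R} (h : ev0 M = 1) (h' : ev0 M' = 1)
    (hh : M * M = M' * M') : M = M' := by
  apply cfm_ext
  have := root_unique (cfm M) (cfm M') (by rw [cfm_zero, h]) (by rw [cfm_zero, h']) (by
    intro n
    rw [← cfm_mul, ← cfm_mul, hh])
  intro n
  rw [this]

theorem exists_sqrtR (q : R) (hq : PowerSeries.constantCoeff (R := ℂ) q = 1) :
    ∃! d : R, d ^ 2 = q ∧ PowerSeries.constantCoeff (R := ℂ) d = 1 := by
  obtain ⟨a, ha, hs⟩ := root_exists (fun n => PowerSeries.coeff (R := ℂ) n q) (by simpa using hq)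
  refine ⟨PowerSeries.mk a, ⟨?_, ?_⟩, ?_⟩
  · ext n
    rw [pow_two, PowerSeries.coeff_mul]
    simpa using hs n
  · simp [ha]
  · rintro d ⟨h1, h2⟩
    have := root_unique (fun n => PowerSeries.coeff (R := ℂ) n d) a (by simpa using h2) ha (by
      intro n
      rw [hs n, ← PowerSeries.coeff_mul, ← pow_two, h1])
    ext n
    rw [← this]
    simp

end
end Pool.Agent.MP_106392_al
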