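import Pool.Agent.MP_106392_al.Defs3
import Pool.Agent.MP_106392_al.Reparam
import Pool.Agent.MP_106392_al.Root

/-!
# Module F2: the list is stable under reparametrisations
-/

set_option autoImplicit false

namespace Pool.Agent.MP_106392_al

open Matrix

noncomputable section

namespace ListedReparam

open Reparam

theorem sqrtR_spec {q : R} (hq : PowerSeries.constantCoeff (R := ℂ) q = 1) :
    sqrtR q ^ 2 = q ∧ PowerSeries.constantCoeff (R := ℂ) (sqrtR q) = 1 := by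
  have h : ∃ d : R, d ^ 2 = q ∧ PowerSeries.constantCoeff (R := ℂ) d = 1 :=
    (exists_sqrtR q hq).exists
  rw [sqrtR, dif_pos h]
  exact Classical.choose_spec h

theorem sqrtR_eq {q d : R} (hd : d ^ 2 = q) (hd1 : PowerSeries.constantCoeff (R := ℂ) d = 1) :
    sqrtR q = d := by
  have hq : PowerSeries.constantCoeff (R := ℂ) q = 1 := by
    rw [← hd, map_pow, hd1, one_pow]
  exact (exists_sqrtR q hq).unique (sqrtR_spec hq) ⟨hd, hd1⟩

variable {φ u : R}

theorem sub_lam (hφ : IsParam φ) (hu : φ = PowerSeries.X * u) : sub hφ lam = lam * u := by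
  rw [sub_apply, PowerSeries.subst_X (hasSubst hφ), hu]

theorem sub_cc (hφ : IsParam φ) (c : ℂ) : sub hφ (cc c) = cc c := (sub hφ).commutes c

theorem const_sub (hφ : IsParam φ) (hu : φ = PowerSeries.X * u) (f : R) :
    PowerSeries.constantCoeff (sub hφ f) = PowerSeries.constantCoeff f := by
  have h1 : sub hφ (f - PowerSeries.C (PowerSeries.constantCoeff f)) =
      sub hφ f - PowerSeries.C (PowerSeries.constantCoeff f) := by
    rw [map_sub]
    congr 1
    exact (sub hφ).commutes _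
  have h2 : ∃ g, f - PowerSeries.C (PowerSeries.constantCoeff f) = PowerSeries.X * g := by
    rw [← dvd_def, PowerSeries.X_dvd_iff]
    simp
  obtain ⟨g, hg⟩ := h2
  rw [hg, map_mul, sub_lam hφ hu] at h1
  have h3 := congrArg PowerSeries.constantCoeff h1
  simp only [map_mul, PowerSeries.constantCoeff_X, zero_mul, map_sub,
    PowerSeries.constantCoeff_C] at h3
  rw [eq_comm, sub_eq_zero] at h3
  exact h3

theorem sub_inv (hφ : IsParam φ) {f : R}
    (hf : PowerSeries.constantCoeff (R := ℂ) f ≠ 0) : sub hφ f⁻¹ = (sub hφ f)⁻¹ := by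
  have h1 : sub hφ f⁻¹ * sub hφ f = 1 := by
    rw [← map_mul, PowerSeries.inv_mul_cancel _ hf, map_one]
  have h2 : PowerSeries.constantCoeff (R := ℂ) (sub hφ f) ≠ 0 := by
    intro h0
    have := congrArg PowerSeries.constantCoeff h1
    rw [map_mul, h0, mul_zero, map_one] at this
    exact zero_ne_one this
  rw [PowerSeries.eq_inv_iff_mul_eq_one h2, h1]

theorem mm_smul (hφ : IsParam φ) (c : R) (A : M3 R) :
    mm hφ (c • A) = sub hφ c • mm hφ A := by
  ext1 i j
  simp only [mm_apply, Matrix.smul_apply, smul_eq_mul, map_mul]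

theorem mm_add (hφ : IsParam φ) (A B : M3 R) : mm hφ (A + B) = mm hφ A + mm hφ B := by
  ext1 i j
  simp only [mm_apply, Matrix.add_apply, map_add]

theorem mm_sub (hφ : IsParam φ) (A B : M3 R) : mm hφ (A - B) = mm hφ A - mm hφ B := by
  ext1 i j
  simp only [mm_apply, Matrix.sub_apply, map_sub]

theorem mm_mul (hφ : IsParam φ) (A B : M3 R) : mm hφ (A * B) = mm hφ A * mm hφ B := by
  ext1 i j
  simp only [mm_apply, Matrix.mul_apply, map_sum, map_mul]

theorem mm_one (hφ : IsParam φ) : mm hφ (1 : M3 R) = 1 := by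
  ext1 i j
  rw [mm_apply]
  by_cases h : i = j
  · subst h; simp
  · simp [Matrix.one_apply_ne h]

theorem mm_transpose (hφ : IsParam φ) (A : M3 R) : mm hφ Aᵀ = (mm hφ A)ᵀ := by
  ext1 i j
  simp only [mm_apply, Matrix.transpose_apply]

theorem mm_det (hφ : IsParam φ) (A : M3 R) : (mm hφ A).det = sub hφ A.det := by
  rw [Matrix.det_fin_three, Matrix.det_fin_three]
  simp only [mm_apply, map_add, map_sub, map_mul]

theorem mm_eq (hφ : IsParam φ) (A : M3 R) : A.map (PowerSeries.subst φ) = mm hφ A := by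
  ext1 i j
  rw [mm_apply, sub_apply, Matrix.map_apply]

theorem mm_zero (hφ : IsParam φ) : mm hφ (0 : M3 R) = 0 := by
  ext1 i j
  simp only [mm_apply, Matrix.zero_apply, map_zero]

/-- inverse of a product of power series with constant terms `1` -/
theorem inv_mul_one {a b : R} : (a * b)⁻¹ = a⁻¹ * b⁻¹ := by
  rw [PowerSeries.mul_inv_rev, mul_comm]

theorem inv_inv_of {a b : R} (h : a * b = 1) : a⁻¹ = b := by
  have h2 : PowerSeries.constantCoeff (R := ℂ) a ≠ 0 := by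
    intro h0
    have := congrArg PowerSeries.constantCoeff h
    rw [map_mul, h0, zero_mul, map_one] at this
    exact zero_ne_one this
  rw [PowerSeries.inv_eq_iff_mul_eq_one h2, mul_comm, h]

section
variable (hφ : IsParam φ) (hu : φ = PowerSeries.X * u) {w : R}
  (hw : PowerSeries.constantCoeff (R := ℂ) w = 1)
include hu hw

theorem shapeG_reparam (A B : M3 ℂ) :
    u⁻¹ • mm hφ (shapeG A B w) = shapeG A B (u⁻¹ * sub hφ w) := by
  have huu := u_mul_inv hφ hu
  have hinv : (u⁻¹ : R)⁻¹ = u := inv_inv_of (by rw [mul_comm, huu])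
  have e1 : u⁻¹ * (lam * u) = lam := by linear_combination lam * huu
  have e2 : u⁻¹ * ((lam * u) ^ 2 * (sub hφ w)⁻¹) = lam ^ 2 * (u * (sub hφ w)⁻¹) := by
    linear_combination lam ^ 2 * u * (sub hφ w)⁻¹ * huu
  rw [shapeG, shapeG, mm_add, mm_add, mm_smul, mm_smul, mm_smul, mm_one, mm_cst, mm_cst,
    sub_lam hφ hu, map_mul, map_pow, sub_lam hφ hu,
    sub_inv hφ (by rw [hw]; exact one_ne_zero), inv_mul_one, hinv, smul_add, smul_add, smul_smul,
    smul_smul, smul_smul, e1, e2]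

theorem shapeD_reparam (r Y : M3 ℂ) (κ : ℂ) :
    u • mm hφ (shapeD r κ Y w) = shapeD r κ Y (u⁻¹ * sub hφ w) := by
  have huu := u_mul_inv hφ hu
  have hinv : (u⁻¹ : R)⁻¹ = u := inv_inv_of (by rw [mul_comm, huu])
  have h1 : PowerSeries.constantCoeff (R := ℂ) (w - cc κ * lam) ≠ 0 := by
    simp [hw]
  have h2 : u⁻¹ * sub hφ w - cc κ * lam = u⁻¹ * (sub hφ w - cc κ * (lam * u)) := by
    linear_combination (cc κ * lam) * huu
  rw [shapeD, shapeD, mm_smul, mm_add, mm_smul, mm_cst, mm_cst, map_mul, sub_lam hφ hu,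
    sub_inv hφ (by rw [hw]; exact one_ne_zero), sub_inv hφ h1, map_sub, map_mul, sub_cc,
    sub_lam hφ hu, inv_mul_one, hinv, h2, inv_mul_one, hinv, smul_smul]
  congr 2
  congr 1
  ring

theorem ellG3_reparam (B : M3 ℂ) :
    u⁻¹ • mm hφ (ellG3 B w) = ellG3 B (u⁻¹ * sub hφ w) := by
  have huu := u_mul_inv hφ hu
  have huu' : u⁻¹ * u = 1 := by rw [mul_comm, huu]
  have hu1 := const_u hφ hu
  have hinv : (u⁻¹ : R)⁻¹ = u := inv_inv_of huu'
  set W := u⁻¹ * sub hφ w with hW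
  have hW1 : PowerSeries.constantCoeff (R := ℂ) W = 1 := by
    rw [hW, map_mul, const_sub hφ hu, hw, mul_one, PowerSeries.constantCoeff_inv, hu1, inv_one]
  have hwW : sub hφ w = u * W := by
    rw [hW, ← mul_assoc, huu, one_mul]
  have hN : mm hφ (w ^ 2 • (1 : M3 R) - lam ^ 2 • cst B) =
      u ^ 2 • (W ^ 2 • (1 : M3 R) - lam ^ 2 • cst B) := by
    rw [mm_sub, mm_smul, mm_smul, mm_one, mm_cst, map_pow, map_pow, sub_lam hφ hu, hwW, smul_sub,
      smul_smul, smul_smul]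
    congr 2 <;> ring
  have hd : ∀ v : R, PowerSeries.constantCoeff (R := ℂ) v = 1 →
      PowerSeries.constantCoeff (R := ℂ) (v ^ 2 • (1 : M3 R) - lam ^ 2 • cst B).det = 1 := by
    intro v hv
    rw [Matrix.det_fin_three]
    simp [hv]
  have hs := sqrtR_spec (hd w hw)
  have hs' := sqrtR_spec (hd W hW1)
  have h3 : sub hφ (sqrtR (w ^ 2 • (1 : M3 R) - lam ^ 2 • cst B).det) =
      u ^ 3 * sqrtR (W ^ 2 • (1 : M3 R) - lam ^ 2 • cst B).det := by
    have e1 := sqrtR_eq (d := sub hφ (sqrtR (w ^ 2 • (1 : M3 R) - lam ^ 2 • cst B).det))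
      (q := sub hφ (w ^ 2 • (1 : M3 R) - lam ^ 2 • cst B).det)
      (by rw [← map_pow, hs.1]) (by rw [const_sub hφ hu, hs.2])
    have e2 := sqrtR_eq (d := u ^ 3 * sqrtR (W ^ 2 • (1 : M3 R) - lam ^ 2 • cst B).det)
      (q := sub hφ (w ^ 2 • (1 : M3 R) - lam ^ 2 • cst B).det)
      (by
        rw [← mm_det, hN, Matrix.det_smul, Fintype.card_fin, mul_pow, hs'.1]
        ring)
      (by rw [map_mul, map_pow, hu1, hs'.2]; norm_num)
    rw [← e1, e2]
  have hcof : ∀ (c : R) (A : M3 R), cof (c • A) = (c * c) • cof A := by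
    intro c A
    ext1 i j
    fin_cases i <;> fin_cases j <;>
      simp only [cof, Matrix.smul_apply, smul_eq_mul] <;> simp <;> ring
  rw [ellG3, ellG3, mm_smul, ← mm_cof, hN, sub_inv hφ (by rw [hs.2]; exact one_ne_zero), h3,
    hcof, smul_smul, smul_smul, inv_mul_one]
  congr 1
  have h4 : (u ^ 3 : R)⁻¹ * u ^ 3 = 1 :=
    PowerSeries.inv_mul_cancel _ (by rw [map_pow, hu1]; norm_num)
  linear_combination (u⁻¹ * u * (sqrtR (W ^ 2 • (1 : M3 R) - lam ^ 2 • cst B).det)⁻¹) * h4 +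
    (sqrtR (W ^ 2 • (1 : M3 R) - lam ^ 2 • cst B).det)⁻¹ * huu'

omit hu hw in
theorem ellRoot_const (r₀ : M3 ℂ) (t : ℂ) {v : R}
    (hv : PowerSeries.constantCoeff (R := ℂ) v = 1) :
    ellRoot r₀ t v ^ 2 = (v ^ 4 - 2 * (cc t * lam) ^ 2 * cc (r₀ * r₀ᵀ).trace * v ^ 2
    - 8 * (cc t * lam) ^ 3 * cc r₀.det * v
    + (cc t * lam) ^ 4 * cc (2 * ((r₀ * r₀ᵀ) * (r₀ * r₀ᵀ)).trace - (r₀ * r₀ᵀ).trace ^ 2)) ∧
    PowerSeries.constantCoeff (R := ℂ) (ellRoot r₀ t v) = 1 :=
  sqrtR_spec (by simp [hv])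

theorem ellRoot_reparam (r₀ : M3 ℂ) (t : ℂ) :
    sub hφ (ellRoot r₀ t w) = u ^ 2 * ellRoot r₀ t (u⁻¹ * sub hφ w) := by
  have huu := u_mul_inv hφ hu
  have hu1 := const_u hφ hu
  set W := u⁻¹ * sub hφ w with hW
  have hW1 : PowerSeries.constantCoeff (R := ℂ) W = 1 := by
    rw [hW, map_mul, const_sub hφ hu, hw, mul_one, PowerSeries.constantCoeff_inv, hu1, inv_one]
  have hwW : sub hφ w = u * W := by
    rw [hW, ← mul_assoc, huu, one_mul]
  have hs := ellRoot_const r₀ t hw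
  have hs' := ellRoot_const r₀ t hW1
  have e1 := sqrtR_eq (d := sub hφ (ellRoot r₀ t w)) (q := sub hφ (ellRoot r₀ t w ^ 2))
      (by rw [← map_pow]) (by rw [const_sub hφ hu, hs.2])
  have e2 := sqrtR_eq (d := u ^ 2 * ellRoot r₀ t W) (q := sub hφ (ellRoot r₀ t w ^ 2))
      (by
        rw [mul_pow, hs'.1, hs.1]
        simp only [map_add, map_sub, map_mul, map_pow, sub_lam hφ hu, sub_cc, hwW, map_ofNat]
        ring)
      (by rw [map_mul, map_pow, hu1, hs'.2]; norm_num)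
  rw [← e1, e2]

theorem ellTheta_reparam (r₀ : M3 ℂ) (t : ℂ) :
    mm hφ (ellTheta r₀ t w) = u⁻¹ • ellTheta r₀ t (u⁻¹ * sub hφ w) := by
  have huu := u_mul_inv hφ hu
  have huu' : u⁻¹ * u = 1 := by rw [mul_comm, huu]
  have hu1 := const_u hφ hu
  have hroot := ellRoot_reparam hφ hu hw r₀ t
  set W := u⁻¹ * sub hφ w with hW
  have hW1 : PowerSeries.constantCoeff (R := ℂ) W = 1 := by
    rw [hW, map_mul, const_sub hφ hu, hw, mul_one, PowerSeries.constantCoeff_inv, hu1, inv_one]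
  have hwW : sub hφ w = u * W := by
    rw [hW, ← mul_assoc, huu, one_mul]
  have hunit : ∀ v : R, PowerSeries.constantCoeff (R := ℂ) v = 1 →
      IsUnit ((v ^ 2 + ellRoot r₀ t v) • (1 : M3 R) + (cc t * lam) ^ 2 •
        cst (2 • (r₀ * r₀ᵀ) - (r₀ * r₀ᵀ).trace • (1 : M3 ℂ))).det := by
    intro v hv
    rw [PowerSeries.isUnit_iff_constantCoeff, isUnit_iff_ne_zero, Matrix.det_fin_three]
    have h0 := (ellRoot_const r₀ t hv).2
    simp [hv, h0]
  have h1 := hunit w hw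
  have h2 := hunit W hW1
  set P := (w ^ 2 + ellRoot r₀ t w) • (1 : M3 R) + (cc t * lam) ^ 2 •
        cst (2 • (r₀ * r₀ᵀ) - (r₀ * r₀ᵀ).trace • (1 : M3 ℂ)) with hP
  set P' := (W ^ 2 + ellRoot r₀ t W) • (1 : M3 R) + (cc t * lam) ^ 2 •
        cst (2 • (r₀ * r₀ᵀ) - (r₀ * r₀ᵀ).trace • (1 : M3 ℂ)) with hP'
  have h3 : mm hφ P = u ^ 2 • P' := by
    rw [hP, hP', mm_add, mm_smul, mm_smul, mm_one, mm_cst, map_add, map_pow, map_pow, map_mul,
      sub_lam hφ hu, sub_cc, hroot, hwW, smul_add, smul_smul, smul_smul]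
    congr 2 <;> ring
  have h4 : mm hφ P⁻¹ = (u⁻¹ ^ 2) • P'⁻¹ := by
    have e1 : mm hφ P⁻¹ * mm hφ P = 1 := by
      rw [← mm_mul, Matrix.nonsing_inv_mul _ h1, mm_one]
    have e2 : mm hφ P * ((u⁻¹ ^ 2) • P'⁻¹) = 1 := by
      rw [h3, Matrix.smul_mul, Matrix.mul_smul, Matrix.mul_nonsing_inv _ h2, smul_smul]
      have : u ^ 2 * u⁻¹ ^ 2 = 1 := by rw [← mul_pow, huu, one_pow]
      rw [this, one_smul]
    calc mm hφ P⁻¹ = mm hφ P⁻¹ * (mm hφ P * ((u⁻¹ ^ 2) • P'⁻¹)) := by rw [e2, mul_one]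
      _ = (u⁻¹ ^ 2) • P'⁻¹ := by rw [← mul_assoc, e1, one_mul]
  have h5 : mm hφ ((2 : R) • (w • cst r₀ + (cc t * lam) • cst (cof r₀))) =
      u • ((2 : R) • (W • cst r₀ + (cc t * lam) • cst (cof r₀))) := by
    rw [mm_smul, mm_add, mm_smul, mm_smul, mm_cst, mm_cst, map_mul, sub_lam hφ hu, sub_cc, hwW,
      map_ofNat, smul_comm u (2 : R)]
    congr 1
    rw [smul_add, smul_smul, smul_smul]
    congr 2
    ring
  rw [ellTheta, ellTheta, ← hP, ← hP', mm_mul, h4, h5, Matrix.smul_mul, Matrix.mul_smul,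
    smul_smul]
  congr 1
  linear_combination u⁻¹ * huu'

theorem ellG_reparam (r₀ : M3 ℂ) (t : ℂ) :
    u⁻¹ • mm hφ (ellG r₀ t w) = ellG r₀ t (u⁻¹ * sub hφ w) := by
  have huu := u_mul_inv hφ hu
  rw [ellG, ellG, mm_sub, mm_smul, mm_smul, mm_one, mm_mul, mm_transpose, mm_cst,
    ellTheta_reparam hφ hu hw, map_pow, map_mul, sub_lam hφ hu, sub_cc, Matrix.transpose_smul,
    Matrix.mul_smul, smul_sub, smul_smul, smul_smul, smul_smul]
  congr 2
  linear_combination (cc t ^ 2 * lam ^ 2 * (u * u⁻¹ + 1)) * huu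

end

theorem side_reparam (hφ : IsParam φ) (hu : φ = PowerSeries.X * u) {w : R} {G : M3 R}
    (hw : PowerSeries.constantCoeff (R := ℂ) w = 1) (h : Side w G) :
    Side (u⁻¹ * sub hφ w) (u⁻¹ • mm hφ G) := by
  cases h with
  | rational A hA =>
    rw [shapeG_reparam hφ hu hw]
    exact Side.rational A hA
  | axial n α β =>
    rw [shapeG_reparam hφ hu hw]
    exact Side.axial n α β
  | elliptic B hB =>
    rw [ellG3_reparam hφ hu hw]
    exact Side.elliptic B hB

end ListedReparam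

open Reparam ListedReparam in
theorem Listed.reparam {w w' : R} {G D G' D' : M3 R} (h : Listed w w' G D G' D')
    (hw : PowerSeries.constantCoeff (R := ℂ) w = 1)
    (hw' : PowerSeries.constantCoeff (R := ℂ) w' = 1)
    {φ u : R} (hφ : IsParam φ) (hu : φ = PowerSeries.X * u) :
    Listed (u⁻¹ * PowerSeries.subst φ w) (u⁻¹ * PowerSeries.subst φ w')
      (u⁻¹ • G.map (PowerSeries.subst φ)) (u • D.map (PowerSeries.subst φ))
      (u⁻¹ • G'.map (PowerSeries.subst φ)) (u • D'.map (PowerSeries.subst φ)) := by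
  rw [mm_eq hφ, mm_eq hφ, mm_eq hφ, mm_eq hφ, ← sub_apply hφ, ← sub_apply hφ]
  have huu := u_mul_inv hφ hu
  cases h with
  | product h h' =>
    rw [mm_zero, smul_zero]
    exact Listed.product (side_reparam hφ hu hw h) (side_reparam hφ hu hw' h')
  | nonelliptic h =>
    rw [shapeG_reparam hφ hu hw, shapeG_reparam hφ hu hw', shapeD_reparam hφ hu hw,
      shapeD_reparam hφ hu hw']
    exact Listed.nonelliptic h
  | evalL r =>
    rw [mm_zero, smul_zero, shapeG_reparam hφ hu hw, shapeD_reparam hφ hu hw,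
      ellG3_reparam hφ hu hw']
    exact Listed.evalL r
  | evalR s =>
    rw [mm_zero, smul_zero, shapeG_reparam hφ hu hw', shapeD_reparam hφ hu hw',
      ellG3_reparam hφ hu hw]
    exact Listed.evalR s
  | elliptic r₀ t₁ t₂ =>
    have hT : ∀ (t s : ℂ) (r₁ : M3 ℂ) (v : R), PowerSeries.constantCoeff (R := ℂ) v = 1 →
        u • mm hφ (cc t • ellTheta r₁ s v) = cc t • ellTheta r₁ s (u⁻¹ * sub hφ v) := by
      intro t s r₁ v hv
      rw [mm_smul, ellTheta_reparam hφ hu hv, sub_cc, smul_smul, smul_smul]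
      congr 1
      linear_combination cc t * huu
    rw [ellG_reparam hφ hu hw, ellG_reparam hφ hu hw', hT _ _ _ _ hw, hT _ _ _ _ hw']
    exact Listed.elliptic r₀ t₁ t₂

end

end Pool.Agent.MP_106392_al
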