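import Pool.Agent.MP_106392_al.Growth

/-!
Two commuting-up-to-generators families: closure of `F + F'`, and complement criterion.
-/

namespace Pool.Agent.MP_106392_al

open Matrix

section Main

variable {K L : Type*} [Field K] [CharZero K] [LieRing L] [LieAlgebra K L]

/-- The hypotheses of the growth lemma. -/
structure GrowthHyp (E H : (Fin 3 → K) →ₗ[K] L) : Prop where
  hEE : ∀ u w, ⁅E u, E w⁆ = H (u ⨯₃ w)
  hEH : ∀ u, ⁅E u, H u⁆ ∈ LinearMap.range E ⊔ LinearMap.range H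

theorem GrowthHyp.XX_XX {E H : (Fin 3 → K) →ₗ[K] L} (h : GrowthHyp E H) (a b : ℕ) (ha : 1 ≤ a)
    (hb : 1 ≤ b) (u w : Fin 3 → K) : ⁅XX E a u, XX E b w⁆ ∈ FF E (a + b) := by
  have h1 := growth E H h.hEE h.hEH (a + b) a b ha hb rfl u w
  have h2 := FF_mono E (Nat.sub_le (a + b) 1) h1
  have h3 := add_mem h2 (XX_mem E (a + b) (u ⨯₃ w))
  simpa using h3

theorem GrowthHyp.XX_FF {E H : (Fin 3 → K) →ₗ[K] L} (h : GrowthHyp E H) (a m : ℕ) (ha : 1 ≤ a)
    (u : Fin 3 → K) : ∀ x ∈ FF E m, ⁅XX E a u, x⁆ ∈ FF E (a + m) := by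
  apply FF_induction
  · simp
  · intro x y hx hy; rw [lie_add]; exact add_mem hx hy
  · intro k hk hkm w
    exact FF_mono E (by omega : a + k ≤ a + m) (h.XX_XX a k ha hk u w)

theorem GrowthHyp.FF_FF {E H : (Fin 3 → K) →ₗ[K] L} (h : GrowthHyp E H) (m n : ℕ) :
    ∀ x ∈ FF E m, ∀ y ∈ FF E n, ⁅x, y⁆ ∈ FF E (m + n) := by
  intro x hx y hy
  revert x
  apply FF_induction
  · simp
  · intro x y hx hy; rw [add_lie]; exact add_mem hx hy
  · intro k hk hkm w
    exact FF_mono E (by omega : k + n ≤ m + n) (h.XX_FF k n hk w y hy)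

/-- Mixed brackets. -/
theorem mixed_bracket {E H E' H' : (Fin 3 → K) →ₗ[K] L} (h : GrowthHyp E H) (h' : GrowthHyp E' H')
    (hm : ∀ u v, ⁅E u, E' v⁆ ∈ LinearMap.range E ⊔ LinearMap.range E') :
    ∀ N m n, 1 ≤ m → 1 ≤ n → m + n = N → ∀ u v : Fin 3 → K,
      ⁅XX E m u, XX E' n v⁆ ∈ FF E (N - 1) ⊔ FF E' (N - 1) := by
  intro N
  induction N using Nat.strong_induction_on with
  | _ N ih =>
  intro m n hm1 hn1 hmn u v
  -- general consequences of ih
  have mono : ∀ j k, j ≤ k → FF E j ⊔ FF E' j ≤ FF E k ⊔ FF E' k := fun j k hjk =>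
    sup_le_sup (FF_mono E hjk) (FF_mono E' hjk)
  have L1 : ∀ a k, 1 ≤ a → a + k < N → ∀ u, ∀ z ∈ FF E k ⊔ FF E' k,
      ⁅XX E a u, z⁆ ∈ FF E (a + k) ⊔ FF E' (a + k) := by
    intro a k ha hak u z hz
    obtain ⟨y, hy, y', hy', rfl⟩ := Submodule.mem_sup.mp hz
    rw [lie_add]
    refine add_mem (Submodule.mem_sup_left (h.XX_FF a k ha u y hy)) ?_
    revert y'
    have : ∀ y' ∈ FF E' k, ⁅XX E a u, y'⁆ ∈ FF E (a + k) ⊔ FF E' (a + k) := by
      apply FF_induction
      · simp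
      · intro x y hx hy; rw [lie_add]; exact add_mem hx hy
      · intro j hj hjk w
        exact mono (a + j - 1) (a + k) (by omega) (ih (a + j) (by omega) a j ha hj rfl u w)
    intro y' hy' _
    exact this y' hy'
  have L2 : ∀ a k, 1 ≤ a → a + k < N → ∀ v, ∀ z ∈ FF E k ⊔ FF E' k,
      ⁅XX E' a v, z⁆ ∈ FF E (a + k) ⊔ FF E' (a + k) := by
    intro a k ha hak v z hz
    obtain ⟨y, hy, y', hy', rfl⟩ := Submodule.mem_sup.mp hz
    rw [lie_add]
    refine add_mem ?_ (Submodule.mem_sup_right (h'.XX_FF a k ha v y' hy'))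
    have : ∀ y ∈ FF E k, ⁅XX E' a v, y⁆ ∈ FF E (a + k) ⊔ FF E' (a + k) := by
      apply FF_induction
      · simp
      · intro x y hx hy; rw [lie_add]; exact add_mem hx hy
      · intro j hj hjk w
        rw [← lie_skew]
        refine neg_mem (mono (j + a - 1) (a + k) (by omega) (ih (j + a) (by omega) j a hj ha rfl w v))
    exact this y hy
  rcases Nat.lt_or_ge 1 m with hm2 | hm2
  · -- m ≥ 2
    obtain ⟨m', rfl⟩ : ∃ m', m = m' + 1 := ⟨m - 1, by omega⟩
    have hm' : 1 ≤ m' := by omega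
    have key : ∀ a b : Fin 3 → K, ⁅⁅E a, XX E m' b⁆, XX E' n v⁆ ∈ FF E (N - 1) ⊔ FF E' (N - 1) := by
      intro a b
      have h1 := ih (m' + n) (by omega) m' n hm' hn1 rfl b v
      have h2 := L1 1 (m' + n - 1) le_rfl (by omega) a _ h1
      have h3 := ih (1 + n) (by omega) 1 n le_rfl hn1 rfl a v
      have h4 := L1 m' (1 + n - 1) hm' (by omega) b _ h3
      have e1 : 1 + (m' + n - 1) = N - 1 := by omega
      have e2 : m' + (1 + n - 1) = N - 1 := by omega
      rw [e1] at h2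
      rw [e2] at h4
      rw [lie_lie]
      exact sub_mem h2 h4
    rw [XX_succ_apply E m' hm']
    simp only [add_lie, smul_lie]
    exact add_mem (add_mem (Submodule.smul_mem _ _ (key _ _)) (Submodule.smul_mem _ _ (key _ _)))
      (Submodule.smul_mem _ _ (key _ _))
  · obtain rfl : m = 1 := by omega
    rcases Nat.lt_or_ge 1 n with hn2 | hn2
    · obtain ⟨n', rfl⟩ : ∃ n', n = n' + 1 := ⟨n - 1, by omega⟩
      have hn' : 1 ≤ n' := by omega
      have key : ∀ a b : Fin 3 → K, ⁅XX E 1 u, ⁅E' a, XX E' n' b⁆⁆ ∈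
          FF E (N - 1) ⊔ FF E' (N - 1) := by
        intro a b
        have h1 := ih (1 + n') (by omega) 1 n' le_rfl hn' rfl u b
        have h2 := L2 1 (1 + n' - 1) le_rfl (by omega) a _ h1
        have h3 : ⁅XX E 1 u, E' a⁆ ∈ FF E 1 ⊔ FF E' 1 := by
          have := hm u a
          refine (sup_le_sup ?_ ?_ : LinearMap.range E ⊔ LinearMap.range E' ≤ _) this
          · exact fun x hx => by simp only [FF]; exact Submodule.mem_sup_right hx
          · exact fun x hx => by simp only [FF]; exact Submodule.mem_sup_right hx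
        have h4 := L2 n' 1 hn' (by omega) b _ h3
        have e1 : 1 + (1 + n' - 1) = N - 1 := by omega
        have e2 : n' + 1 = N - 1 := by omega
        rw [e1] at h2
        rw [e2] at h4
        rw [leibniz_lie]
        refine add_mem ?_ h2
        rw [← lie_skew]
        exact neg_mem h4
      rw [XX_succ_apply E' n' hn']
      simp only [lie_add, lie_smul]
      exact add_mem (add_mem (Submodule.smul_mem _ _ (key _ _)) (Submodule.smul_mem _ _ (key _ _)))
        (Submodule.smul_mem _ _ (key _ _))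
    · obtain rfl : n = 1 := by omega
      obtain rfl : N = 2 := by omega
      have := hm u v
      refine (sup_le_sup ?_ ?_ : LinearMap.range E ⊔ LinearMap.range E' ≤ _) this
      · exact fun x hx => by simp only [FF]; exact Submodule.mem_sup_right hx
      · exact fun x hx => by simp only [FF]; exact Submodule.mem_sup_right hx

/-- `GG n = F n + F' n`. -/
noncomputable def GG (E E' : (Fin 3 → K) →ₗ[K] L) (n : ℕ) : Submodule K L := FF E n ⊔ FF E' n

omit [CharZero K] in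
theorem GG_mono (E E' : (Fin 3 → K) →ₗ[K] L) : Monotone (GG E E') := fun _ _ h =>
  sup_le_sup (FF_mono E h) (FF_mono E' h)

theorem GG_GG {E H E' H' : (Fin 3 → K) →ₗ[K] L} (h : GrowthHyp E H) (h' : GrowthHyp E' H')
    (hm : ∀ u v, ⁅E u, E' v⁆ ∈ LinearMap.range E ⊔ LinearMap.range E') (m n : ℕ) :
    ∀ x ∈ GG E E' m, ∀ y ∈ GG E E' n, ⁅x, y⁆ ∈ GG E E' (m + n) := by
  have mix : ∀ m n, ∀ x ∈ FF E m, ∀ y ∈ FF E' n, ⁅x, y⁆ ∈ GG E E' (m + n) := by
    intro m n x hx y hy
    revert x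
    apply FF_induction
    · simp
    · intro x y hx hy; rw [add_lie]; exact add_mem hx hy
    · intro k hk hkm w
      revert y
      apply FF_induction
      · simp
      · intro x y hx hy; rw [lie_add]; exact add_mem hx hy
      · intro j hj hjn v
        exact GG_mono E E' (by omega : k + j - 1 ≤ m + n)
          (mixed_bracket h h' hm (k + j) k j hk hj rfl w v)
  intro x hx y hy
  obtain ⟨x1, hx1, x2, hx2, rfl⟩ := Submodule.mem_sup.mp hx
  obtain ⟨y1, hy1, y2, hy2, rfl⟩ := Submodule.mem_sup.mp hy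
  simp only [add_lie, lie_add]
  refine add_mem (add_mem ?_ ?_) (add_mem ?_ ?_)
  · exact Submodule.mem_sup_left (h.FF_FF m n x1 hx1 y1 hy1)
  · rw [← lie_skew]
    have := mix n m y1 hy1 x2 hx2
    rw [add_comm] at this
    exact neg_mem this
  · exact mix m n x1 hx1 y2 hy2
  · exact Submodule.mem_sup_right (h'.FF_FF m n x2 hx2 y2 hy2)

/-- The Lie subalgebra `⋃ GG n`. -/
noncomputable def genAlg {E H E' H' : (Fin 3 → K) →ₗ[K] L} (h : GrowthHyp E H)
    (h' : GrowthHyp E' H')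
    (hm : ∀ u v, ⁅E u, E' v⁆ ∈ LinearMap.range E ⊔ LinearMap.range E') : LieSubalgebra K L where
  carrier := {x | ∃ n, x ∈ GG E E' n}
  add_mem' := by
    rintro x y ⟨m, hx⟩ ⟨n, hy⟩
    exact ⟨max m n, add_mem (GG_mono E E' (le_max_left _ _) hx) (GG_mono E E' (le_max_right _ _) hy)⟩
  zero_mem' := ⟨0, zero_mem _⟩
  smul_mem' := by
    rintro c x ⟨m, hx⟩
    exact ⟨m, Submodule.smul_mem _ c hx⟩
  lie_mem' := by
    rintro x y ⟨m, hx⟩ ⟨n, hy⟩
    exact ⟨m + n, GG_GG h h' hm m n x hx y hy⟩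

omit [CharZero K] in
theorem XX_mem_lieSpan {E : (Fin 3 → K) →ₗ[K] L} {U : LieSubalgebra K L} (hU : ∀ u, E u ∈ U) :
    ∀ n, 1 ≤ n → ∀ u, XX E n u ∈ U := by
  intro n hn
  induction n, hn using Nat.le_induction with
  | base => exact hU
  | succ n hn ih =>
    intro u
    rw [XX_succ_apply E n hn]
    exact add_mem (add_mem (U.smul_mem _ (U.lie_mem (hU _) (ih _)))
      (U.smul_mem _ (U.lie_mem (hU _) (ih _)))) (U.smul_mem _ (U.lie_mem (hU _) (ih _)))

omit [CharZero K] in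
theorem FF_le_lieSpan {E : (Fin 3 → K) →ₗ[K] L} {U : LieSubalgebra K L} (hU : ∀ u, E u ∈ U)
    (n : ℕ) : ∀ x ∈ FF E n, x ∈ U := by
  apply FF_induction
  · exact U.zero_mem
  · intro x y hx hy; exact U.add_mem hx hy
  · intro k hk _ u; exact XX_mem_lieSpan hU k hk u

theorem genAlg_eq_lieSpan {E H E' H' : (Fin 3 → K) →ₗ[K] L} (h : GrowthHyp E H)
    (h' : GrowthHyp E' H')
    (hm : ∀ u v, ⁅E u, E' v⁆ ∈ LinearMap.range E ⊔ LinearMap.range E') :
    genAlg h h' hm = LieSubalgebra.lieSpan K L (Set.range E ∪ Set.range E') := by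
  apply le_antisymm
  · rintro x ⟨n, hx⟩
    obtain ⟨x1, hx1, x2, hx2, rfl⟩ := Submodule.mem_sup.mp hx
    refine add_mem (FF_le_lieSpan (fun u => ?_) n x1 hx1) (FF_le_lieSpan (fun u => ?_) n x2 hx2)
    · exact LieSubalgebra.subset_lieSpan (Or.inl ⟨u, rfl⟩)
    · exact LieSubalgebra.subset_lieSpan (Or.inr ⟨u, rfl⟩)
  · rw [LieSubalgebra.lieSpan_le]
    rintro x (⟨u, rfl⟩ | ⟨u, rfl⟩)
    · exact ⟨1, Submodule.mem_sup_left (XX_mem E 1 u)⟩
    · exact ⟨1, Submodule.mem_sup_right (XX_mem E' 1 u)⟩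

end Main

section Compl

variable {K L : Type*} [Field K] [LieRing L] [LieAlgebra K L]

/-- Complement criterion through leading coefficients, inside a subspace `S`. -/
theorem compl_of_leading (E E' : (Fin 3 → K) →ₗ[K] L)
    (cf : ℤ → L →ₗ[K] (Fin 3 → K) × (Fin 3 → K)) (S T : Submodule K L) (hTS : T ≤ S)
    (hT : ∀ x ∈ T, ∀ k < 0, cf k x = 0)
    (hT' : ∀ x ∈ S, (∀ k < 0, cf k x = 0) → x ∈ T)
    (hbd : ∀ x, ∃ n : ℕ, ∀ k < -(n : ℤ), cf k x = 0)
    (hE : ∀ n u, XX E n u ∈ S) (hE' : ∀ n u, XX E' n u ∈ S)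
    (h1 : ∀ n : ℕ, 1 ≤ n → ∀ u, (∀ k < -(n : ℤ), cf k (XX E n u) = 0) ∧
      cf (-(n : ℤ)) (XX E n u) = (u, 0))
    (h2 : ∀ n : ℕ, 1 ≤ n → ∀ u, (∀ k < -(n : ℤ), cf k (XX E' n u) = 0) ∧
      cf (-(n : ℤ)) (XX E' n u) = (0, u))
    (U : Submodule K L) (hU : ∀ x, x ∈ U ↔ ∃ n, x ∈ GG E E' n) : U ⊓ T = ⊥ ∧ U ⊔ T = S := by
  -- elements of `GG n` have no coefficient below `-n`
  have hF : ∀ n : ℕ, ∀ x ∈ FF E n, ∀ k < -(n : ℤ), cf k x = 0 := by
    intro n
    apply FF_induction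
    · intro k _; simp
    · intro x y hx hy k hk; rw [map_add, hx k hk, hy k hk, add_zero]
    · intro j hj hjn u k hk
      exact (h1 j hj u).1 k (by omega)
  have hF' : ∀ n : ℕ, ∀ x ∈ FF E' n, ∀ k < -(n : ℤ), cf k x = 0 := by
    intro n
    apply FF_induction
    · intro k _; simp
    · intro x y hx hy k hk; rw [map_add, hx k hk, hy k hk, add_zero]
    · intro j hj hjn u k hk
      exact (h2 j hj u).1 k (by omega)
  have hG : ∀ n : ℕ, ∀ x ∈ GG E E' n, ∀ k < -(n : ℤ), cf k x = 0 := by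
    intro n x hx k hk
    obtain ⟨y, hy, z, hz, rfl⟩ := Submodule.mem_sup.mp hx
    rw [map_add, hF n y hy k hk, hF' n z hz k hk, add_zero]
  have hFS : ∀ n : ℕ, ∀ x ∈ FF E n, x ∈ S := by
    intro n
    apply FF_induction
    · exact zero_mem _
    · intro x y hx hy; exact add_mem hx hy
    · intro j _ _ u; exact hE j u
  have hFS' : ∀ n : ℕ, ∀ x ∈ FF E' n, x ∈ S := by
    intro n
    apply FF_induction
    · exact zero_mem _
    · intro x y hx hy; exact add_mem hx hy
    · intro j _ _ u; exact hE' j u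
  have hUS : U ≤ S := by
    intro x hx
    obtain ⟨n, hn⟩ := (hU x).mp hx
    obtain ⟨y, hy, z, hz, rfl⟩ := Submodule.mem_sup.mp hn
    exact add_mem (hFS n y hy) (hFS' n z hz)
  constructor
  · rw [Submodule.eq_bot_iff]
    intro x hx'
    obtain ⟨hxU, hxT⟩ := Submodule.mem_inf.mp hx'
    obtain ⟨n, hn⟩ := (hU x).mp hxU
    have key : ∀ n : ℕ, x ∈ GG E E' n → x = 0 := by
      intro n
      induction n with
      | zero =>
        intro h
        simpa [GG, FF] using h
      | succ n ih =>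
        intro h
        apply ih
        obtain ⟨y, hy, z, hz, rfl⟩ := Submodule.mem_sup.mp h
        simp only [FF] at hy hz
        obtain ⟨y1, hy1, y2, ⟨u, rfl⟩, rfl⟩ := Submodule.mem_sup.mp hy
        obtain ⟨z1, hz1, z2, ⟨v, rfl⟩, rfl⟩ := Submodule.mem_sup.mp hz
        have h0 := hT _ hxT (-((n + 1 : ℕ) : ℤ)) (by push_cast; omega)
        simp only [map_add] at h0
        rw [hF n y1 hy1 _ (by push_cast; omega), hF' n z1 hz1 _ (by push_cast; omega),
          (h1 (n + 1) (by omega) u).2, (h2 (n + 1) (by omega) v).2] at h0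
        simp only [zero_add, Prod.mk_add_mk, add_zero, Prod.mk_eq_zero] at h0
        obtain ⟨rfl, rfl⟩ := h0
        simp only [map_zero, add_zero]
        exact Submodule.add_mem_sup hy1 hz1
    exact key n hn
  · apply le_antisymm (sup_le hUS hTS)
    have key : ∀ n : ℕ, ∀ x ∈ S, (∀ k < -(n : ℤ), cf k x = 0) → x ∈ U ⊔ T := by
      intro n
      induction n with
      | zero =>
        intro x hxS hx
        exact Submodule.mem_sup_right (hT' x hxS (by simpa using hx))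
      | succ n ih =>
        intro x hxS hx
        set c := cf (-((n + 1 : ℕ) : ℤ)) x with hc
        set y := XX E (n + 1) c.1 + XX E' (n + 1) c.2 with hy
        have hyG : y ∈ GG E E' (n + 1) := Submodule.add_mem_sup (XX_mem E _ _) (XX_mem E' _ _)
        have hyU : y ∈ U := (hU y).mpr ⟨n + 1, hyG⟩
        have h3 : x - y ∈ U ⊔ T := by
          apply ih _ (sub_mem hxS (hUS hyU))
          intro k hk
          rw [map_sub]
          rcases lt_or_eq_of_le (by push_cast; omega : k ≤ -((n + 1 : ℕ) : ℤ)) with h | h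
          · rw [hx k h, hG _ y hyG k h, sub_zero]
          · rw [h, ← hc, hy, map_add, (h1 (n + 1) (by omega) _).2, (h2 (n + 1) (by omega) _).2]
            simp
        have := add_mem h3 (Submodule.mem_sup_left hyU : y ∈ U ⊔ T)
        simpa using this
    intro x hxS
    obtain ⟨n, hn⟩ := hbd x
    exact key n x hxS hn

end Compl

end Pool.Agent.MP_106392_al
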