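import Pool.Agent.MP_106392_al.Iota
import Pool.Agent.MP_106392_al.Growth2

/-!
Module D: the algebra generated by `E_x`, `F_y` is factoring if the two `Half` systems hold.
-/

set_option autoImplicit false

namespace Pool.Agent.MP_106392_al

open Matrix

noncomputable section

/-! ### Consequences of `Mᵀ M = cof G` -/

theorem isUnit_det_of_ev0 {M : M3 R} (hM : ev0 M = 1) :
    PowerSeries.constantCoeff (R := ℂ) M.det = 1 := by
  rw [RingHom.map_det]
  have : (PowerSeries.constantCoeff (R := ℂ)).mapMatrix M = ev0 M := rfl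
  rw [this, hM, det_one]

theorem det_ne_zero_of_ev0 {M : M3 R} (hM : ev0 M = 1) : M.det ≠ 0 := by
  intro h
  have := isUnit_det_of_ev0 hM
  rw [h, map_zero] at this
  exact zero_ne_one this

/-- cancellation on the left by a matrix with nonzero determinant over a domain -/
theorem mul_left_cancel_det {M A B : M3 R} (hM : M.det ≠ 0) (h : M * A = M * B) : A = B := by
  have h1 : M.adjugate * (M * A) = M.adjugate * (M * B) := by rw [h]
  rw [← Matrix.mul_assoc, ← Matrix.mul_assoc, adjugate_mul, Matrix.smul_mul, Matrix.smul_mul,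
    Matrix.one_mul, Matrix.one_mul] at h1
  refine Matrix.ext fun i j => ?_
  have h2 := congrFun (congrFun h1 i) j
  simp only [Matrix.smul_apply, smul_eq_mul] at h2
  exact mul_left_cancel₀ hM h2

theorem cof_eq_mul {M G : M3 R} (hM : ev0 M = 1) (hG : ev0 G = 1) (hsym : Gᵀ = G)
    (h : Mᵀ * M = cof G) : cof M = M * G := by
  have hdM := det_ne_zero_of_ev0 hM
  have hd : M.det = G.det := by
    have h1 : M.det ^ 2 = G.det ^ 2 := by
      have := congrArg det h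
      rw [det_mul, det_transpose, det_cof] at this
      rw [sq, this]
    have h2 : (M.det - G.det) * (M.det + G.det) = 0 := by linear_combination h1
    rcases mul_eq_zero.mp h2 with h3 | h3
    · exact sub_eq_zero.mp h3
    · exfalso
      have h4 := congrArg (PowerSeries.constantCoeff (R := ℂ)) h3
      rw [map_add, isUnit_det_of_ev0 hM, isUnit_det_of_ev0 hG, map_zero] at h4
      norm_num at h4
  have hMT : (Mᵀ).det ≠ 0 := by rwa [det_transpose]
  apply mul_left_cancel_det hMT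
  rw [T_mul_cof, ← Matrix.mul_assoc, h, hd]
  have h5 := T_mul_cof G
  rw [hsym] at h5
  have h6 := congrArg transpose h5
  rw [transpose_mul, hsym, transpose_smul, transpose_one, ← cof_transpose, hsym] at h6
  exact h6.symm

/-- `M u × cof(M) w = cof(M) (u × G w)`. -/
theorem mul_cross_cof {M G : M3 R} (h : cof M = M * G) (u w : V3 R) :
    (M *ᵥ u) ⨯₃ (cof M *ᵥ w) = cof M *ᵥ (u ⨯₃ (G *ᵥ w)) := by
  rw [cof_mulVec_cross, mulVec_mulVec, ← h]

/-! ### The three relations at the level of power series -/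

section rels

variable {M N D D' G G' : M3 R} {r s A B A' B' : M3 ℂ}

/-- first component of `[E_x, V_x]`. -/
theorem rel_EV_fst (hc : cof M = M * G) (h : Half r s A B A' B' G D) (x : V3 R) :
    (M *ᵥ x) ⨯₃ (cof M *ᵥ x) = (PowerSeries.X : R) • (cof M *ᵥ (x ⨯₃ (cst A *ᵥ x))) +
      ((PowerSeries.X : R) ^ 2) • (M *ᵥ (x ⨯₃ (cst B *ᵥ x))) := by
  rw [mul_cross_cof hc]
  have h2 := congrArg (fun v => M *ᵥ v) (h.I2 x)
  simp only [mulVec_mulVec, ← hc, mulVec_smul] at h2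
  rw [← h2]
  have e : x ⨯₃ (G *ᵥ x) = (PowerSeries.X : R) • (x ⨯₃ (cst A *ᵥ x)) +
      x ⨯₃ ((G - (PowerSeries.X : R) • cst A) *ᵥ x) := by
    rw [Matrix.sub_mulVec, Matrix.smul_mulVec, map_sub, map_smul]
    abel
  rw [e, mulVec_add, mulVec_smul]

/-- second component of `[E_x, V_x]`; here `G', D'` belong to the second component. -/
theorem rel_EV_snd (hc : cof N = N * G') (h : Half s r A' B' A B G' D') (x : V3 R) :
    ((N * D') *ᵥ x) ⨯₃ ((cof N * cof D') *ᵥ x) = (cof N * cof D') *ᵥ (x ⨯₃ (cst A *ᵥ x)) +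
      (N * D') *ᵥ (x ⨯₃ (cst B *ᵥ x)) := by
  have h1 : ((N * D') *ᵥ x) ⨯₃ ((cof N * cof D') *ᵥ x) =
      cof N *ᵥ ((D' *ᵥ x) ⨯₃ (G' *ᵥ (cof D' *ᵥ x))) := by
    rw [← mulVec_mulVec, ← mulVec_mulVec, mul_cross_cof hc]
  -- `D'x × G' z = s x × z` for `z = cof(D') x`
  have h2 : (D' *ᵥ x) ⨯₃ (G' *ᵥ (cof D' *ᵥ x)) = (cst s *ᵥ x) ⨯₃ (cof D' *ᵥ x) := by
    set z := cof D' *ᵥ x with hz
    have hDz : D'ᵀ *ᵥ z = D'.det • x := by
      rw [hz, mulVec_mulVec, T_mul_cof, Matrix.smul_mulVec, one_mulVec]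
    -- test against every vector `y`
    have key : ∀ y : V3 R, y ⬝ᵥ ((D' *ᵥ x) ⨯₃ (G' *ᵥ z)) = y ⬝ᵥ ((cst s *ᵥ x) ⨯₃ z) := by
      intro y
      have h3 := congrArg (fun v => z ⬝ᵥ v) (h.I1 y x)
      simp only [dotProduct_add, dotProduct_smul, cross_mulVec_T] at h3
      rw [h.symG, hDz] at h3
      have h4 : (D'.det • x) ⬝ᵥ (x ⨯₃ (cst r *ᵥ y)) = 0 := by
        rw [smul_dotProduct, dot_self_cross, smul_zero]
      rw [h4, smul_zero, add_zero] at h3
      rw [triple_product_permutation y, triple_product_permutation (D' *ᵥ x)]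
      rw [triple_product_permutation y (cst s *ᵥ x) z, triple_product_permutation (cst s *ᵥ x) z y]
      rw [← neg_cross (D' *ᵥ x) y, ← neg_cross (cst s *ᵥ x) y, dotProduct_neg, dotProduct_neg, h3]
    funext i
    have := key (Pi.single i 1)
    simpa using this
  rw [h1, h2]
  have h5 := congrArg (fun v => N *ᵥ v) (h.I3 x)
  simp only [mulVec_mulVec, ← hc] at h5
  rw [mulVec_sub, mulVec_mulVec] at h5
  rw [← h5]
  abel

/-- first component of `[E_x, F_y]`. -/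
theorem rel_EF_fst (hc : cof M = M * G) (h : Half r s A B A' B' G D) (x y : V3 R) :
    (M *ᵥ x) ⨯₃ ((M * D) *ᵥ y) = M *ᵥ (x ⨯₃ (cst r *ᵥ y)) +
      (PowerSeries.X : R) • ((M * D) *ᵥ ((cst s *ᵥ x) ⨯₃ y)) := by
  rw [← mulVec_mulVec, ← cof_mulVec_cross, hc, ← mulVec_mulVec]
  have h1 := h.I1 x y
  have e1 : x ⨯₃ (D *ᵥ y) = - ((D *ᵥ y) ⨯₃ x) := by rw [neg_cross]
  rw [e1, mulVec_neg, h1, mulVec_neg, mulVec_add, mulVec_smul, mulVec_mulVec]
  have e2 : x ⨯₃ (cst r *ᵥ y) = - ((cst r *ᵥ y) ⨯₃ x) := by rw [neg_cross]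
  have e3 : (cst s *ᵥ x) ⨯₃ y = - (y ⨯₃ (cst s *ᵥ x)) := by rw [neg_cross]
  rw [e2, e3, mulVec_neg, mulVec_neg, smul_neg]
  abel

/-- second component of `[E_x, F_y]`. -/
theorem rel_EF_snd (hc : cof N = N * G') (h : Half s r A' B' A B G' D') (x y : V3 R) :
    ((N * D') *ᵥ x) ⨯₃ (N *ᵥ y) = N *ᵥ ((cst s *ᵥ x) ⨯₃ y) +
      (PowerSeries.X : R) • ((N * D') *ᵥ (x ⨯₃ (cst r *ᵥ y))) := by
  rw [← mulVec_mulVec, ← cof_mulVec_cross, hc, ← mulVec_mulVec, h.I1 y x, mulVec_add,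
    mulVec_smul, mulVec_mulVec]

end rels

/-! ### The linear maps -/

theorem sK_add (c : K) (a b : V3 K) : c • (a + b) = c • a + c • b := smul_add c a b

theorem sK_sK (c d : K) (a : V3 K) : c • d • a = (c * d) • a := smul_smul c d a

theorem sK_comm (c d : K) (a : V3 K) : c • d • a = d • c • a := by
  rw [sK_sK, sK_sK, mul_comm]

theorem pair_comm (a b c d : V3 K) : iota (a + b) (c + d) = iota b d + iota a c := by
  rw [iota_add]; exact add_comm _ _

/-- `w ↦ iota (λ^{-m} P w, λ^{-n} Q w)`. -/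
def linG (P Q : M3 R) (m n : ℕ) : V3 ℂ →ₗ[ℂ] Matrix (Fin 4) (Fin 4) K where
  toFun w := iota (lamInv ^ m • vK (P *ᵥ vC w)) (lamInv ^ n • vK (Q *ᵥ vC w))
  map_add' x y := by
    rw [vC_add, mulVec_add, mulVec_add, vK_add, vK_add, sK_add, sK_add, iota_add]
  map_smul' c x := by
    rw [vC_smul, mulVec_smul, mulVec_smul, vK_smul, vK_smul, toK_C, sK_comm,
      sK_comm _ _ (vK (Q *ᵥ vC x)), iota_smul, C_smul_eq]
    rfl

theorem linG_apply (P Q : M3 R) (m n : ℕ) (w : V3 ℂ) :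
    linG P Q m n w = iota (lamInv ^ m • vK (P *ᵥ vC w)) (lamInv ^ n • vK (Q *ᵥ vC w)) := rfl

theorem linG_E (M N D' : M3 R) (x : V3 ℂ) : linG M (N * D') 1 0 x = genE M N D' x := by
  simp [linG_apply, genE]

theorem linG_F (M D N : M3 R) (x : V3 ℂ) : linG (M * D) N 0 1 x = genF M D N x := by
  simp [linG_apply, genF]

/-- commutator of `4×4` matrices -/
def brM (X Y : Matrix (Fin 4) (Fin 4) K) : Matrix (Fin 4) (Fin 4) K := X * Y - Y * X

theorem bracket_iota (a b c d : V3 K) : brM (iota a b) (iota c d) = iota (a ⨯₃ c) (b ⨯₃ d) :=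
  iota_comm a b c d

theorem smul_cross_smul_gen {F : Type*} [CommRing F] (s t : F) (a b : V3 F) :
    (s • a) ⨯₃ (t • b) = (s * t) • (a ⨯₃ b) := by
  ext i; fin_cases i <;> simp [cross_apply] <;> ring

theorem smul_cross_smul (s t : K) (a b : V3 K) : (s • a) ⨯₃ (t • b) = (s * t) • (a ⨯₃ b) :=
  smul_cross_smul_gen s t a b

theorem bracket_linG (P Q P₁ Q₁ : M3 R) (m n m₁ n₁ : ℕ) (x y : V3 ℂ) :
    brM (linG P Q m n x) (linG P₁ Q₁ m₁ n₁ y) =
      iota (lamInv ^ (m + m₁) • vK ((P *ᵥ vC x) ⨯₃ (P₁ *ᵥ vC y)))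
        (lamInv ^ (n + n₁) • vK ((Q *ᵥ vC x) ⨯₃ (Q₁ *ᵥ vC y))) := by
  rw [linG_apply, linG_apply, bracket_iota, smul_cross_smul, smul_cross_smul, vK_cross, vK_cross,
    pow_add, pow_add]

theorem lam_shift (n : ℕ) (v : V3 R) :
    lamInv ^ (n + 1) • vK ((PowerSeries.X : R) • v) = lamInv ^ n • vK v := by
  rw [vK_smul, sK_sK, pow_succ, mul_assoc, lamInv_X, mul_one]

theorem lam_shift2 (n : ℕ) (v : V3 R) :
    lamInv ^ (n + 2) • vK (((PowerSeries.X : R) ^ 2) • v) = lamInv ^ n • vK v := by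
  rw [sq, ← smul_smul, lam_shift (n + 1), lam_shift n]

section brackets

variable {M N D D' G G' : M3 R} {r s A B A' B' : M3 ℂ}

theorem br_EE (M N D' : M3 R) (x y : V3 ℂ) :
    brM (linG M (N * D') 1 0 x) (linG M (N * D') 1 0 y) =
      linG (cof M) (cof N * cof D') 2 0 (x ⨯₃ y) := by
  rw [bracket_linG, linG_apply, vC_cross, ← cof_mulVec_cross, ← cof_mul, ← cof_mulVec_cross]

theorem br_EV (hcM : cof M = M * G) (hcN : cof N = N * G') (h : Half r s A B A' B' G D)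
    (h' : Half s r A' B' A B G' D') (x : V3 ℂ) :
    brM (linG M (N * D') 1 0 x) (linG (cof M) (cof N * cof D') 2 0 x) =
      linG M (N * D') 1 0 (x ⨯₃ (B *ᵥ x)) + linG (cof M) (cof N * cof D') 2 0 (x ⨯₃ (A *ᵥ x)) := by
  rw [bracket_linG, rel_EV_fst hcM h, rel_EV_snd hcN h', vK_add, vK_add, sK_add, sK_add,
    show (1 + 2 : ℕ) = 2 + 1 from rfl, lam_shift 2, show (2 + 1 : ℕ) = 1 + 2 from rfl, lam_shift2 1,
    linG_apply, linG_apply, vC_cross, vC_cross, vC_cst, vC_cst]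
  exact pair_comm _ _ _ _

theorem br_EF (hcM : cof M = M * G) (hcN : cof N = N * G') (h : Half r s A B A' B' G D)
    (h' : Half s r A' B' A B G' D') (x y : V3 ℂ) :
    brM (linG M (N * D') 1 0 x) (linG (M * D) N 0 1 y) =
      linG M (N * D') 1 0 (x ⨯₃ (r *ᵥ y)) + linG (M * D) N 0 1 ((s *ᵥ x) ⨯₃ y) := by
  have e1 := lam_shift 0 ((M * D) *ᵥ ((cst s *ᵥ vC x) ⨯₃ vC y))
  have e2 := lam_shift 0 ((N * D') *ᵥ (vC x ⨯₃ (cst r *ᵥ vC y)))
  rw [bracket_linG, rel_EF_fst hcM h, rel_EF_snd hcN h', vK_add, vK_add, sK_add, sK_add,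
    linG_apply, linG_apply, vC_cross, vC_cross, vC_cst, vC_cst, ← iota_add]
  rw [show (1 + 0 : ℕ) = 0 + 1 from rfl, e1, e2]
  rw [add_comm (lamInv ^ (0 + 1) • vK (N *ᵥ _))]

end brackets

/-! ### Leading terms -/

/-- `X = iota (λ^{-n} a, b)` with `a(0) = u`. -/
def Lead1 (n : ℕ) (u : V3 ℂ) (X : Matrix (Fin 4) (Fin 4) K) : Prop :=
  ∃ a b : V3 R, X = iota (lamInv ^ n • vK a) (vK b) ∧
    ∀ i, PowerSeries.constantCoeff (R := ℂ) (a i) = u i

/-- `X = iota (a, λ^{-n} b)` with `b(0) = u`. -/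
def Lead2 (n : ℕ) (u : V3 ℂ) (X : Matrix (Fin 4) (Fin 4) K) : Prop :=
  ∃ a b : V3 R, X = iota (vK a) (lamInv ^ n • vK b) ∧
    ∀ i, PowerSeries.constantCoeff (R := ℂ) (b i) = u i

theorem Lead1.add {n : ℕ} {u w : V3 ℂ} {X Y : Matrix (Fin 4) (Fin 4) K} (hX : Lead1 n u X)
    (hY : Lead1 n w Y) : Lead1 n (u + w) (X + Y) := by
  obtain ⟨a, b, rfl, ha⟩ := hX
  obtain ⟨c, d, rfl, hc⟩ := hY
  refine ⟨a + c, b + d, ?_, fun i => ?_⟩
  · rw [vK_add, vK_add, sK_add, iota_add]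
  · rw [Pi.add_apply, map_add, ha, hc, Pi.add_apply]

theorem Lead2.add {n : ℕ} {u w : V3 ℂ} {X Y : Matrix (Fin 4) (Fin 4) K} (hX : Lead2 n u X)
    (hY : Lead2 n w Y) : Lead2 n (u + w) (X + Y) := by
  obtain ⟨a, b, rfl, ha⟩ := hX
  obtain ⟨c, d, rfl, hc⟩ := hY
  refine ⟨a + c, b + d, ?_, fun i => ?_⟩
  · rw [vK_add, vK_add, sK_add, iota_add]
  · rw [Pi.add_apply, map_add, ha, hc, Pi.add_apply]

theorem Lead1.smul {n : ℕ} {u : V3 ℂ} {X : Matrix (Fin 4) (Fin 4) K} (c : ℂ) (hX : Lead1 n u X) :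
    Lead1 n (c • u) (c • X) := by
  obtain ⟨a, b, rfl, ha⟩ := hX
  refine ⟨PowerSeries.C (R := ℂ) c • a, PowerSeries.C (R := ℂ) c • b, ?_, fun i => ?_⟩
  · rw [vK_smul, vK_smul, toK_C, sK_comm, iota_smul, C_smul_eq]
  · simp [ha]

theorem Lead2.smul {n : ℕ} {u : V3 ℂ} {X : Matrix (Fin 4) (Fin 4) K} (c : ℂ) (hX : Lead2 n u X) :
    Lead2 n (c • u) (c • X) := by
  obtain ⟨a, b, rfl, ha⟩ := hX
  refine ⟨PowerSeries.C (R := ℂ) c • a, PowerSeries.C (R := ℂ) c • b, ?_, fun i => ?_⟩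
  · rw [vK_smul, vK_smul, toK_C, sK_comm, iota_smul, C_smul_eq]
  · simp [ha]

theorem Lead1.bracket {m n : ℕ} {u w : V3 ℂ} {X Y : Matrix (Fin 4) (Fin 4) K} (hX : Lead1 m u X)
    (hY : Lead1 n w Y) : Lead1 (m + n) (u ⨯₃ w) (brM X Y) := by
  obtain ⟨a, b, rfl, ha⟩ := hX
  obtain ⟨c, d, rfl, hc⟩ := hY
  refine ⟨a ⨯₃ c, b ⨯₃ d, ?_, fun i => ?_⟩
  · rw [bracket_iota, smul_cross_smul, ← vK_cross, ← vK_cross, pow_add]
  · fin_cases i <;> simp [cross_apply, ha, hc]

theorem Lead2.bracket {m n : ℕ} {u w : V3 ℂ} {X Y : Matrix (Fin 4) (Fin 4) K} (hX : Lead2 m u X)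
    (hY : Lead2 n w Y) : Lead2 (m + n) (u ⨯₃ w) (brM X Y) := by
  obtain ⟨a, b, rfl, ha⟩ := hX
  obtain ⟨c, d, rfl, hc⟩ := hY
  refine ⟨a ⨯₃ c, b ⨯₃ d, ?_, fun i => ?_⟩
  · rw [bracket_iota, smul_cross_smul, ← vK_cross, ← vK_cross, pow_add]
  · fin_cases i <;> simp [cross_apply, ha, hc]

theorem comm_smul_gen {F : Type*} [CommRing F] (t : F) (x y : Matrix (Fin 4) (Fin 4) F) :
    x * (t • y) - (t • y) * x = t • (x * y - y * x) := by
  rw [Matrix.mul_smul, Matrix.smul_mul, smul_sub]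

/-- commutator Lie ring structure -/
@[reducible] def lieRingM : LieRing (Matrix (Fin 4) (Fin 4) K) :=
  { (inferInstance : AddCommGroup (Matrix (Fin 4) (Fin 4) K)) with
    bracket := fun X Y => X * Y - Y * X
    add_lie := fun x y z => by
      change (x + y) * z - z * (x + y) = (x * z - z * x) + (y * z - z * y)
      rw [add_mul, mul_add]; abel
    lie_add := fun x y z => by
      change x * (y + z) - (y + z) * x = (x * y - y * x) + (x * z - z * x)
      rw [add_mul, mul_add]; abel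
    lie_self := fun x => sub_self _
    leibniz_lie := fun x y z => by
      change x * (y * z - z * y) - (y * z - z * y) * x =
        ((x * y - y * x) * z - z * (x * y - y * x)) + (y * (x * z - z * x) - (x * z - z * x) * y)
      simp only [mul_sub, sub_mul, mul_assoc]; abel }

attribute [local instance] lieRingM

/-- commutator Lie algebra structure -/
@[reducible] def lieAlgM : LieAlgebra ℂ (Matrix (Fin 4) (Fin 4) K) :=
  { (inferInstance : Module ℂ (Matrix (Fin 4) (Fin 4) K)) with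
    lie_smul := fun t x y => by
      change x * (t • y) - (t • y) * x = t • (x * y - y * x)
      rw [← C_smul_eq, ← C_smul_eq]
      exact comm_smul_gen _ _ _ }

attribute [local instance] lieAlgM

/-- Leading terms of the whole system `XX`. -/
theorem lead_XX (P : ℕ → V3 ℂ → Matrix (Fin 4) (Fin 4) K → Prop)
    (hadd : ∀ n u w X Y, P n u X → P n w Y → P n (u + w) (X + Y))
    (hsmul : ∀ n u X (c : ℂ), P n u X → P n (c • u) (c • X))
    (hbr : ∀ m n u w X Y, P m u X → P n w Y → P (m + n) (u ⨯₃ w) (brM X Y))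
    (E : V3 ℂ →ₗ[ℂ] Matrix (Fin 4) (Fin 4) K) (hE : ∀ u, P 1 u (E u)) :
    ∀ n, 1 ≤ n → ∀ u, P n u (XX E n u) := by
  intro n hn
  induction n, hn using Nat.le_induction with
  | base => exact hE
  | succ n hn ih =>
    intro u
    rw [XX_succ_apply E n hn]
    have c01 : (![1, 0, 0] : V3 ℂ) ⨯₃ ![0, 1, 0] = ![0, 0, 1] := by simp [cross_apply]
    have c12 : (![0, 1, 0] : V3 ℂ) ⨯₃ ![0, 0, 1] = ![1, 0, 0] := by simp [cross_apply]
    have c20 : (![0, 0, 1] : V3 ℂ) ⨯₃ ![1, 0, 0] = ![0, 1, 0] := by simp [cross_apply]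
    have h0 := hbr 1 n _ _ _ _ (hE ![0, 1, 0]) (ih ![0, 0, 1])
    have h1 := hbr 1 n _ _ _ _ (hE ![0, 0, 1]) (ih ![1, 0, 0])
    have h2 := hbr 1 n _ _ _ _ (hE ![1, 0, 0]) (ih ![0, 1, 0])
    rw [c12] at h0
    rw [c20] at h1
    rw [c01] at h2
    have hu : u = u 0 • ![1, 0, 0] + u 1 • ![0, 1, 0] + u 2 • ![0, 0, 1] := by
      ext k; fin_cases k <;> simp
    have := hadd _ _ _ _ _ (hadd _ _ _ _ _ (hsmul _ _ _ (u 0) h0) (hsmul _ _ _ (u 1) h1))
      (hsmul _ _ _ (u 2) h2)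
    rw [← hu, add_comm 1 n] at this
    exact this

/-- coefficients of both components -/
def cfM (k : ℤ) : Matrix (Fin 4) (Fin 4) K →ₗ[ℂ] V3 ℂ × V3 ℂ where
  toFun X := (fun i => (getAF X i).coeff k, fun i => (getBF X i).coeff k)
  map_add' X Y := by
    refine Prod.ext (funext fun i => ?_) (funext fun i => ?_)
    · fin_cases i <;> simp [getAF] <;> ring
    · fin_cases i <;> simp [getBF] <;> ring
  map_smul' c X := by
    refine Prod.ext (funext fun i => ?_) (funext fun i => ?_)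
    · fin_cases i <;> simp [getAF] <;> ring
    · fin_cases i <;> simp [getBF] <;> ring

theorem cfM_iota (k : ℤ) (a b : V3 K) :
    cfM k (iota a b) = (fun i => (a i).coeff k, fun i => (b i).coeff k) := by
  show (fun i => (getAF (iota a b) i).coeff k, fun i => (getBF (iota a b) i).coeff k) = _
  rw [getA_iota, getB_iota]

theorem lamInv_pow (n : ℕ) : lamInv ^ n = HahnSeries.single (-(n : ℤ)) (1 : ℂ) := by
  rw [lamInv, HahnSeries.single_pow]
  simp

theorem coeff_lam_toK (n : ℕ) (a : R) (k : ℤ) (hk : k < -(n : ℤ)) :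
    (lamInv ^ n * toK a).coeff k = 0 := by
  rw [lamInv_pow]
  have h : ((HahnSeries.single (-(n : ℤ)) (1 : ℂ)) * toK a).coeff ((k + n : ℤ) + -(n : ℤ)) =
      1 * (toK a).coeff (k + n) := HahnSeries.coeff_single_mul_add
  rw [one_mul, add_neg_cancel_right] at h
  rw [h]
  exact (PowerSeries.coeff_coe a (k + n)).trans (if_pos (by omega))

theorem coeff_lam_toK' (n : ℕ) (a : R) :
    (lamInv ^ n * toK a).coeff (-(n : ℤ)) = PowerSeries.constantCoeff (R := ℂ) a := by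
  rw [lamInv_pow]
  have h : ((HahnSeries.single (-(n : ℤ)) (1 : ℂ)) * toK a).coeff ((0 : ℤ) + -(n : ℤ)) =
      1 * (toK a).coeff 0 := HahnSeries.coeff_single_mul_add
  rw [one_mul, zero_add] at h
  rw [h]
  exact (PowerSeries.coeff_coe a 0).trans (by simp)

theorem coeff_toK_neg (a : R) (k : ℤ) (hk : k < 0) : (toK a).coeff k = 0 :=
  (PowerSeries.coeff_coe a k).trans (if_pos hk)

theorem Lead1.cf {n : ℕ} (hn : 1 ≤ n) {u : V3 ℂ} {X : Matrix (Fin 4) (Fin 4) K}
    (h : Lead1 n u X) : (∀ k < -(n : ℤ), cfM k X = 0) ∧ cfM (-(n : ℤ)) X = (u, 0) := by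
  obtain ⟨a, b, rfl, ha⟩ := h
  refine ⟨fun k hk => ?_, ?_⟩
  · rw [cfM_iota]
    refine Prod.ext (funext fun i => ?_) (funext fun i => ?_)
    · exact coeff_lam_toK n (a i) k hk
    · exact coeff_toK_neg (b i) k (by omega)
  · rw [cfM_iota]
    refine Prod.ext (funext fun i => ?_) (funext fun i => ?_)
    · exact (coeff_lam_toK' n (a i)).trans (ha i)
    · exact coeff_toK_neg (b i) _ (by omega)

theorem Lead2.cf {n : ℕ} (hn : 1 ≤ n) {u : V3 ℂ} {X : Matrix (Fin 4) (Fin 4) K}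
    (h : Lead2 n u X) : (∀ k < -(n : ℤ), cfM k X = 0) ∧ cfM (-(n : ℤ)) X = (0, u) := by
  obtain ⟨a, b, rfl, ha⟩ := h
  refine ⟨fun k hk => ?_, ?_⟩
  · rw [cfM_iota]
    refine Prod.ext (funext fun i => ?_) (funext fun i => ?_)
    · exact coeff_toK_neg (a i) k (by omega)
    · exact coeff_lam_toK n (b i) k hk
  · rw [cfM_iota]
    refine Prod.ext (funext fun i => ?_) (funext fun i => ?_)
    · exact coeff_toK_neg (a i) _ (by omega)
    · exact (coeff_lam_toK' n (b i)).trans (ha i)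

theorem lamInv_pow_zero_smul (a : V3 K) : lamInv ^ 0 • a = a := by
  rw [pow_zero]; exact one_smul K a

theorem const_mulVec {M : M3 R} (hM : ev0 M = 1) (u : V3 ℂ) (i : Fin 3) :
    PowerSeries.constantCoeff (R := ℂ) ((M *ᵥ vC u) i) = u i := by
  have h : ∀ i j, PowerSeries.constantCoeff (R := ℂ) (M i j) = (1 : M3 ℂ) i j := fun i j => by
    rw [← hM]; rfl
  rw [mulVec3]
  fin_cases i <;> simp [vC, h]

theorem lead_E {M : M3 R} (hM : ev0 M = 1) (Q : M3 R) (u : V3 ℂ) :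
    Lead1 1 u (linG M Q 1 0 u) :=
  ⟨M *ᵥ vC u, Q *ᵥ vC u, by rw [linG_apply, lamInv_pow_zero_smul], const_mulVec hM u⟩

theorem lead_F {N : M3 R} (hN : ev0 N = 1) (P : M3 R) (u : V3 ℂ) :
    Lead2 1 u (linG P N 0 1 u) :=
  ⟨P *ᵥ vC u, N *ᵥ vC u, by rw [linG_apply, lamInv_pow_zero_smul], const_mulVec hN u⟩

theorem exists_bound (X : Matrix (Fin 4) (Fin 4) K) :
    ∃ n : ℕ, ∀ k < -(n : ℤ), ∀ i j, (X i j).coeff k = 0 := by
  refine ⟨∑ i, ∑ j, (X i j).order.natAbs, fun k hk i j => ?_⟩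
  apply HahnSeries.coeff_eq_zero_of_lt_order
  have h1 : (X i j).order.natAbs ≤ ∑ j, (X i j).order.natAbs :=
    Finset.single_le_sum (f := fun j => (X i j).order.natAbs) (fun _ _ => Nat.zero_le _)
      (Finset.mem_univ j)
  have h2 : ∑ j, (X i j).order.natAbs ≤ ∑ i, ∑ j, (X i j).order.natAbs :=
    Finset.single_le_sum (f := fun i => ∑ j, (X i j).order.natAbs) (fun _ _ => Nat.zero_le _)
      (Finset.mem_univ i)
  have h3 : ((X i j).order.natAbs : ℤ) ≤ ((∑ i, ∑ j, (X i j).order.natAbs : ℕ) : ℤ) := by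
    exact_mod_cast h1.trans h2
  omega

theorem cfM_eq_zero {X : Matrix (Fin 4) (Fin 4) K} {k : ℤ} (h : ∀ i j, (X i j).coeff k = 0) :
    cfM k X = 0 := by
  refine Prod.ext (funext fun i => ?_) (funext fun i => ?_)
  · show (getAF X i).coeff k = 0
    fin_cases i <;> simp [getAF, h]
  · show (getBF X i).coeff k = 0
    fin_cases i <;> simp [getBF, h]

theorem entries_of_cfM {X : Matrix (Fin 4) (Fin 4) K} (hX : Xᵀ = -X) {k : ℤ}
    (h : cfM k X = 0) : ∀ i j, (X i j).coeff k = 0 := by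
  have hs : ∀ i j, (X j i).coeff k = - (X i j).coeff k := fun i j => by
    have := congrArg (fun x : K => x.coeff k) (congrFun (congrFun hX i) j)
    simpa using this
  have hd : ∀ i, (X i i).coeff k = 0 := fun i => by
    have := hs i i
    linear_combination (1 / 2 : ℂ) * this
  have hA : ∀ i, (getAF X i).coeff k = 0 := fun i => congrFun (congrArg Prod.fst h) i
  have hB : ∀ i, (getBF X i).coeff k = 0 := fun i => congrFun (congrArg Prod.snd h) i
  have a0 := hA 0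
  have a1 := hA 1
  have a2 := hA 2
  have b0 := hB 0
  have b1 := hB 1
  have b2 := hB 2
  simp [getAF] at a0 a1 a2
  simp [getBF] at b0 b1 b2
  have x21 : (X 2 1).coeff k = 0 := by linear_combination (1 / 2 : ℂ) * a0 + (1 / 2 : ℂ) * b0
  have x03 : (X 0 3).coeff k = 0 := by linear_combination (1 / 2 : ℂ) * a0 - (1 / 2 : ℂ) * b0
  have x02 : (X 0 2).coeff k = 0 := by linear_combination (1 / 2 : ℂ) * a1 + (1 / 2 : ℂ) * b1
  have x13 : (X 1 3).coeff k = 0 := by linear_combination (1 / 2 : ℂ) * a1 - (1 / 2 : ℂ) * b1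
  have x10 : (X 1 0).coeff k = 0 := by linear_combination (1 / 2 : ℂ) * a2 + (1 / 2 : ℂ) * b2
  have x23 : (X 2 3).coeff k = 0 := by linear_combination (1 / 2 : ℂ) * a2 - (1 / 2 : ℂ) * b2
  have x12 : (X 1 2).coeff k = 0 := by rw [hs 2 1, x21, neg_zero]
  have x30 : (X 3 0).coeff k = 0 := by rw [hs 0 3, x03, neg_zero]
  have x20 : (X 2 0).coeff k = 0 := by rw [hs 0 2, x02, neg_zero]
  have x31 : (X 3 1).coeff k = 0 := by rw [hs 1 3, x13, neg_zero]
  have x01 : (X 0 1).coeff k = 0 := by rw [hs 1 0, x10, neg_zero]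
  have x32 : (X 3 2).coeff k = 0 := by rw [hs 2 3, x23, neg_zero]
  intro i j
  fin_cases i <;> fin_cases j
  · exact hd 0
  · exact x01
  · exact x02
  · exact x03
  · exact x10
  · exact hd 1
  · exact x12
  · exact x13
  · exact x20
  · exact x21
  · exact hd 2
  · exact x23
  · exact x30
  · exact x31
  · exact x32
  · exact hd 3

/-- Module D. -/
theorem recon {M N D D' G G' : M3 R} {r s A B A' B' : M3 ℂ}
    (hM : ev0 M = 1) (hN : ev0 N = 1) (hMG : Mᵀ * M = cof G) (hNG : Nᵀ * N = cof G')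
    (h : Half r s A B A' B' G D) (h' : Half s r A' B' A B G' D') :
    IsFactoring (alg M D N D') := by
  have hcM : cof M = M * G := cof_eq_mul hM h.G0 h.symG hMG
  have hcN : cof N = N * G' := cof_eq_mul hN h'.G0 h'.symG hNG
  set E := linG M (N * D') 1 0 with hE
  set V := linG (cof M) (cof N * cof D') 2 0 with hV
  set F := linG (M * D) N 0 1 with hF
  set V' := linG (cof M * cof D) (cof N) 0 2 with hV'
  have hg : GrowthHyp E V :=
    { hEE := fun u w => br_EE M N D' u w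
      hEH := fun u => by
        have := br_EV hcM hcN h h' u
        have h2 : ⁅E u, V u⁆ = E (u ⨯₃ (B *ᵥ u)) + V (u ⨯₃ (A *ᵥ u)) := this
        rw [h2]
        exact Submodule.add_mem_sup ⟨_, rfl⟩ ⟨_, rfl⟩ }
  have hg' : GrowthHyp F V' :=
    { hEE := fun u w => by
        show brM (F u) (F w) = V' (u ⨯₃ w)
        rw [hF, hV', bracket_linG, linG_apply, vC_cross, ← cof_mulVec_cross, ← cof_mul,
          ← cof_mulVec_cross]
      hEH := fun u => by
        have h2 : ⁅F u, V' u⁆ = F (u ⨯₃ (B' *ᵥ u)) + V' (u ⨯₃ (A' *ᵥ u)) := by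
          show brM (F u) (V' u) = _
          rw [hF, hV', bracket_linG, rel_EV_fst hcN h', rel_EV_snd hcM h, vK_add, vK_add, sK_add,
            sK_add, show (1 + 2 : ℕ) = 2 + 1 from rfl, lam_shift 2,
            show (2 + 1 : ℕ) = 1 + 2 from rfl, lam_shift2 1, linG_apply, linG_apply, vC_cross,
            vC_cross, vC_cst, vC_cst]
          exact pair_comm _ _ _ _
        rw [h2]
        exact Submodule.add_mem_sup ⟨_, rfl⟩ ⟨_, rfl⟩ }
  have hm : ∀ u v, ⁅E u, F v⁆ ∈ LinearMap.range E ⊔ LinearMap.range F := by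
    intro u v
    have h2 : ⁅E u, F v⁆ = E (u ⨯₃ (r *ᵥ v)) + F ((s *ᵥ u) ⨯₃ v) := br_EF hcM hcN h h' u v
    rw [h2]
    exact Submodule.add_mem_sup ⟨_, rfl⟩ ⟨_, rfl⟩
  have hL1 : ∀ n, 1 ≤ n → ∀ u, Lead1 n u (XX E n u) :=
    lead_XX Lead1 (fun n u w X Y => Lead1.add) (fun n u X c => Lead1.smul c)
      (fun m n u w X Y => Lead1.bracket) E (fun u => lead_E hM _ u)
  have hL2 : ∀ n, 1 ≤ n → ∀ u, Lead2 n u (XX F n u) :=
    lead_XX Lead2 (fun n u w X Y => Lead2.add) (fun n u X c => Lead2.smul c)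
      (fun m n u w X Y => Lead2.bracket) F (fun u => lead_F hN _ u)
  set U : Submodule ℂ (Matrix (Fin 4) (Fin 4) K) := (genAlg hg hg' hm).toSubmodule with hU
  have hUmem : ∀ x, x ∈ U ↔ ∃ n, x ∈ GG E F n := fun x => Iff.rfl
  have halg : alg M D N D' = U := by
    apply le_antisymm
    · apply sInf_le
      refine ⟨fun x => ?_, fun y => ?_, fun X hX Y hY => ?_⟩
      · rw [← linG_E]
        exact ⟨1, Submodule.mem_sup_left (XX_mem E 1 x)⟩
      · rw [← linG_F]
        exact ⟨1, Submodule.mem_sup_right (XX_mem F 1 y)⟩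
      · exact (genAlg hg hg' hm).lie_mem hX hY
    · apply le_sInf
      rintro W ⟨hW1, hW2, hW3⟩
      let WL : LieSubalgebra ℂ (Matrix (Fin 4) (Fin 4) K) :=
        { W with lie_mem' := fun {x y} hx hy => hW3 x hx y hy }
      rintro x ⟨n, hx⟩
      obtain ⟨x1, hx1, x2, hx2, rfl⟩ := Submodule.mem_sup.mp hx
      refine add_mem ?_ ?_
      · exact FF_le_lieSpan (U := WL) (fun u => by
          show E u ∈ W
          rw [hE, linG_E]; exact hW1 u) n x1 hx1
      · exact FF_le_lieSpan (U := WL) (fun u => by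
          show F u ∈ W
          rw [hF, linG_F]; exact hW2 u) n x2 hx2
  have hcompl := compl_of_leading E F cfM soLoop soTaylor (fun X hX => hX.1)
    (fun X hX k hk => cfM_eq_zero fun i j => hX.2 i j k hk)
    (fun X hX hk => ⟨hX, fun i j k hk' => entries_of_cfM hX (hk k hk') i j⟩)
    (fun X => by
      obtain ⟨n, hn⟩ := exists_bound X
      exact ⟨n, fun k hk => cfM_eq_zero (hn k hk)⟩)
    (fun n u => by
      rcases Nat.eq_zero_or_pos n with rfl | hn
      · exact zero_mem _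
      · obtain ⟨a, b, hab, -⟩ := hL1 n hn u
        rw [hab]; exact iota_skew _ _)
    (fun n u => by
      rcases Nat.eq_zero_or_pos n with rfl | hn
      · exact zero_mem _
      · obtain ⟨a, b, hab, -⟩ := hL2 n hn u
        rw [hab]; exact iota_skew _ _)
    (fun n hn u => (hL1 n hn u).cf hn) (fun n hn u => (hL2 n hn u).cf hn) U hUmem
  refine ⟨?_, ?_, ?_, ?_⟩
  · rw [halg, ← hcompl.2]; exact le_sup_left
  · rw [halg]
    intro X hX Y hY
    exact (genAlg hg hg' hm).lie_mem hX hY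
  · rw [halg]; exact hcompl.1
  · rw [halg]; exact hcompl.2

end

end Pool.Agent.MP_106392_al
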