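import Pool.Agent.MP_106392_al.ListedHalf
import Pool.Agent.MP_106392_al.ListedReparam
import Pool.Agent.MP_106392_al.Extract
import Pool.Agent.MP_106392_al.Gauge
import Pool.Agent.MP_106392_al.Recon
import Pool.Agent.MP_106392_al.Classify

/-!
# The classification theorem
-/

set_option autoImplicit false
set_option linter.unusedSimpArgs false

namespace Pool.Agent.MP_106392_al
open Matrix
noncomputable section

open LH SideHalf Reparam ListedReparam

theorem stdAlg_isFactoring {w w' : R} {G D G' D' : M3 R}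
    (hw : PowerSeries.constantCoeff (R := ℂ) w = 1)
    (hw' : PowerSeries.constantCoeff (R := ℂ) w' = 1)
    (h : Listed w w' G D G' D') : IsFactoring (stdAlg G D G' D') := by
  obtain ⟨r, s, A, B, A', B', H, H'⟩ := listed_half h hw hw'
  have sG : (cof G)ᵀ = cof G := by rw [SideHalf.cof_transpose, H.symG]
  have sG' : (cof G')ᵀ = cof G' := by rw [SideHalf.cof_transpose, H'.symG]
  have eG : ev0 (cof G) = 1 := by rw [ev0_cof, H.G0, cof_one]
  have eG' : ev0 (cof G') = 1 := by rw [ev0_cof, H'.G0, cof_one]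
  obtain ⟨m1, m2⟩ := msqrt_spec sG eG
  obtain ⟨m1', m2'⟩ := msqrt_spec sG' eG'
  exact recon m1 m1' m2 m2' H H'

theorem complete {U : Submodule ℂ (M4 K)} (hU : IsFactoring U) :
    ∃ (w' : R) (G D G' D' : M3 R),
      PowerSeries.constantCoeff (R := ℂ) w' = 1 ∧ Listed 1 w' G D G' D' ∧
      Equivalent U (stdAlg G D G' D') := by
  obtain ⟨M, N, D, D', G, G', A, B, A', B', hM, hN, hMG, hNG, H, H', hUe⟩ := extract hU
  obtain ⟨w, w', hw, hw', hL⟩ := classify H H'
  obtain ⟨φ, hφ, hφw⟩ := exists_param w hw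
  set u : R := PowerSeries.subst φ w with hu
  have hu1 : PowerSeries.constantCoeff (R := ℂ) u = 1 := const_u hφ hφw
  have huu : u⁻¹ * u = 1 := PowerSeries.inv_mul_cancel u (by rw [hu1]; exact one_ne_zero)
  have hL' := Listed.reparam hL hw hw' hφ hφw
  have hw1 : u⁻¹ * PowerSeries.subst φ w = 1 := huu
  rw [hw1] at hL'
  have hui : PowerSeries.constantCoeff (R := ℂ) u⁻¹ = 1 := by
    rw [PowerSeries.constantCoeff_inv, hu1, inv_one]
  have hw2 : PowerSeries.constantCoeff (R := ℂ) (u⁻¹ * PowerSeries.subst φ w') = 1 := by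
    rw [map_mul, hui, ← sub_apply hφ, const_sub hφ hφw, hw', one_mul]
  refine ⟨_, _, _, _, _, hw2, hL', ?_⟩
  have h1 : Equivalent U (alg (u⁻¹ • M.map (PowerSeries.subst φ)) (u • D.map (PowerSeries.subst φ))
      (u⁻¹ • N.map (PowerSeries.subst φ)) (u • D'.map (PowerSeries.subst φ))) := by
    refine Equivalent.reparam _ _ φ hφ ?_
    rw [hUe]
    exact reparam_alg hφ hφw
  refine Equivalent.trans _ _ _ h1 ?_
  obtain ⟨r₁, s₁, A₁, B₁, A₁', B₁', K1, K2⟩ := listed_half hL' (map_one _) hw2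
  have hev : ∀ Z : M3 R, ev0 (u⁻¹ • Z.map (PowerSeries.subst φ)) = ev0 Z := by
    intro Z
    rw [ev0_smul, hui, one_smul]
    ext i j
    rw [ev0_apply, ev0_apply, Matrix.map_apply, ← sub_apply hφ, const_sub hφ hφw]
  have hcofm : ∀ Z Y : M3 R, Zᵀ * Z = cof Y →
      (u⁻¹ • Z.map (PowerSeries.subst φ))ᵀ * (u⁻¹ • Z.map (PowerSeries.subst φ)) =
        cof (u⁻¹ • Y.map (PowerSeries.subst φ)) := by
    intro Z Y hZ
    rw [SideHalf.cof_smul, mm_eq hφ, mm_eq hφ, mm_cof, ← hZ, mm_mul, mm_transpose,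
      transpose_smul, smul_mul_assoc, mul_smul_comm, smul_smul, pow_two]
  have sG : (cof (u⁻¹ • G.map (PowerSeries.subst φ)))ᵀ =
      cof (u⁻¹ • G.map (PowerSeries.subst φ)) := by
    rw [SideHalf.cof_transpose, K1.symG]
  have sG' : (cof (u⁻¹ • G'.map (PowerSeries.subst φ)))ᵀ =
      cof (u⁻¹ • G'.map (PowerSeries.subst φ)) := by
    rw [SideHalf.cof_transpose, K2.symG]
  have eG : ev0 (cof (u⁻¹ • G.map (PowerSeries.subst φ))) = 1 := by
    rw [ev0_cof, K1.G0, cof_one]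
  have eG' : ev0 (cof (u⁻¹ • G'.map (PowerSeries.subst φ))) = 1 := by
    rw [ev0_cof, K2.G0, cof_one]
  obtain ⟨m1, m2⟩ := msqrt_spec sG eG
  obtain ⟨m1', m2'⟩ := msqrt_spec sG' eG'
  obtain ⟨X, hX, hXU⟩ := exists_gauge (M := u⁻¹ • M.map (PowerSeries.subst φ))
    (M₁ := msqrt (cof (u⁻¹ • G.map (PowerSeries.subst φ))))
    (N := u⁻¹ • N.map (PowerSeries.subst φ))
    (N₁ := msqrt (cof (u⁻¹ • G'.map (PowerSeries.subst φ))))
    (D := u • D.map (PowerSeries.subst φ)) (D' := u • D'.map (PowerSeries.subst φ))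
    (by rw [hev, hM]) m1 (by rw [hev, hN]) m1' (by rw [m2, hcofm _ _ hMG])
    (by rw [m2', hcofm _ _ hNG])
  exact Equivalent.inner _ _ X hX hXU

theorem final :
    (∀ (w' : R) (G D G' D' : M3 R), PowerSeries.constantCoeff (R := ℂ) w' = 1 →
      Listed 1 w' G D G' D' → IsFactoring (stdAlg G D G' D')) ∧
    (∀ U : Submodule ℂ (M4 K), IsFactoring U → ∃ (w' : R) (G D G' D' : M3 R),
      PowerSeries.constantCoeff (R := ℂ) w' = 1 ∧ Listed 1 w' G D G' D' ∧
      Equivalent U (stdAlg G D G' D')) :=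
  ⟨fun _ _ _ _ _ hw' h => stdAlg_isFactoring (map_one _) hw' h, fun _ hU => complete hU⟩

end
end Pool.Agent.MP_106392_al
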