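import Mathlib

/-!
Growth lemma: if `E : K^3 → L` satisfies `[E u, E w] = H (u × w)` and `[E u, H u] ∈ range H + range E`
then the Lie algebra generated by `E` has a basis-like system `X n : K^3 → L` with
`[X a u, X b w] ≡ X (a+b) (u × w)` modulo lower terms.
-/

namespace Pool.Agent.MP_106392_al

open Matrix

section LinAlg

variable {K Q : Type*} [Field K] [CharZero K] [AddCommGroup Q] [Module K Q]

/-- The pure linear algebra behind the growth lemma. -/
theorem growth_linalg (n : ℕ) (hn : 4 ≤ n) (A : ℕ → (Fin 3 → K) →ₗ[K] (Fin 3 → K) →ₗ[K] Q)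
    (hJ : ∀ i j l, 1 ≤ i → 1 ≤ j → 1 ≤ l → i + j + l = n → ∀ u v w : Fin 3 → K,
      A i u (v ⨯₃ w) + A j v (w ⨯₃ u) + A l w (u ⨯₃ v) = 0)
    (hS : ∀ i j, 1 ≤ i → 1 ≤ j → i + j = n → ∀ u w : Fin 3 → K, A i u w = - A j w u) :
    ∀ i, 1 ≤ i → i + 1 ≤ n → ∀ u w : Fin 3 → K,
      A i u w = (u ⨯₃ w) 0 • A 1 ![0, 1, 0] ![0, 0, 1] + (u ⨯₃ w) 1 • A 1 ![0, 0, 1] ![1, 0, 0]
        + (u ⨯₃ w) 2 • A 1 ![1, 0, 0] ![0, 1, 0] := by
  -- off-diagonal
  have hoff : ∀ i, 1 ≤ i → i + 2 ≤ n → ∀ u w : Fin 3 → K, A i u (u ⨯₃ w) = A 1 u (u ⨯₃ w) := by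
    intro i hi1 hi2 u w
    have h := hJ i 1 (n - i - 1) hi1 le_rfl (by omega) (by omega) u u w
    have h1 : w ⨯₃ u = - (u ⨯₃ w) := by rw [neg_cross]
    rw [h1, cross_self, map_zero, map_neg, add_zero] at h
    exact sub_eq_zero.mp (by rw [sub_eq_add_neg]; exact h)
  have hanti : ∀ u w : Fin 3 → K, ∀ a b : Fin 3 → K, w = u ⨯₃ a → u = w ⨯₃ b →
      A 1 w u = - A 1 u w := by
    intro u w a b ha hb
    have h1 := hS 2 (n - 2) (by norm_num) (by omega) (by omega) u w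
    have h2 := hoff 2 (by norm_num) (by omega) u a
    rw [← ha] at h2
    have h3 := hoff (n - 2) (by omega) (by omega) w b
    rw [← hb] at h3
    rw [h2, h3] at h1
    rw [h1, neg_neg]
  have hpair : ∀ i, 1 ≤ i → i + 1 ≤ n → ∀ u w : Fin 3 → K, ∀ a b : Fin 3 → K, w = u ⨯₃ a →
      u = w ⨯₃ b → A i u w = A 1 u w := by
    intro i hi1 hi2 u w a b ha hb
    rcases Nat.lt_or_ge (i + 1) n with h | h
    · have := hoff i hi1 (by omega) u a
      rw [← ha] at this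
      exact this
    · have h1 := hS i 1 hi1 le_rfl (by omega) u w
      rw [h1, hanti u w a b ha hb, neg_neg]
  have c01 : (![1, 0, 0] : Fin 3 → K) ⨯₃ ![0, 1, 0] = ![0, 0, 1] := by simp [cross_apply]
  have c12 : (![0, 1, 0] : Fin 3 → K) ⨯₃ ![0, 0, 1] = ![1, 0, 0] := by simp [cross_apply]
  have c20 : (![0, 0, 1] : Fin 3 → K) ⨯₃ ![1, 0, 0] = ![0, 1, 0] := by simp [cross_apply]
  have c02 : (![1, 0, 0] : Fin 3 → K) ⨯₃ ![0, 0, -1] = ![0, 1, 0] := by simp [cross_apply]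
  have c10 : (![0, 1, 0] : Fin 3 → K) ⨯₃ ![-1, 0, 0] = ![0, 0, 1] := by simp [cross_apply]
  have c21 : (![0, 0, 1] : Fin 3 → K) ⨯₃ ![0, -1, 0] = ![1, 0, 0] := by simp [cross_apply]
  -- diagonal
  have hd : ∀ i j l, 1 ≤ i → 1 ≤ j → 1 ≤ l → i + j + l = n →
      A i ![1, 0, 0] ![1, 0, 0] + A j ![0, 1, 0] ![0, 1, 0] + A l ![0, 0, 1] ![0, 0, 1] = 0 := by
    intro i j l hi hj hl hijl
    have h := hJ i j l hi hj hl hijl ![1, 0, 0] ![0, 1, 0] ![0, 0, 1]
    rwa [c12, c20, c01] at h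
  set d0 : ℕ → Q := fun i => A i ![1, 0, 0] ![1, 0, 0] with hd0
  set d1 : ℕ → Q := fun i => A i ![0, 1, 0] ![0, 1, 0] with hd1
  set d2 : ℕ → Q := fun i => A i ![0, 0, 1] ![0, 0, 1] with hd2
  have hs0 : ∀ i j, 1 ≤ i → 1 ≤ j → i + j = n → d0 i = - d0 j := fun i j hi hj h =>
    hS i j hi hj h _ _
  have hs1 : ∀ i j, 1 ≤ i → 1 ≤ j → i + j = n → d1 i = - d1 j := fun i j hi hj h =>
    hS i j hi hj h _ _
  have hs2 : ∀ i j, 1 ≤ i → 1 ≤ j → i + j = n → d2 i = - d2 j := fun i j hi hj h =>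
    hS i j hi hj h _ _
  have hd' : ∀ i j l, 1 ≤ i → 1 ≤ j → 1 ≤ l → i + j + l = n → d0 i + d1 j + d2 l = 0 := hd
  have a2 : ∀ i j, 1 ≤ i → 1 ≤ j → i + j + 1 ≤ n → d2 (i + j) = d0 i + d1 j := by
    intro i j hi hj h
    have h1 := hd' i j (n - i - j) hi hj (by omega) (by omega)
    have h2 := hs2 (i + j) (n - i - j) (by omega) (by omega) (by omega)
    rw [h2]
    exact (eq_neg_of_add_eq_zero_left h1).symm
  have a1 : ∀ i j, 1 ≤ i → 1 ≤ j → i + j + 1 ≤ n → d1 (i + j) = d0 i + d2 j := by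
    intro i j hi hj h
    have h1 := hd' i (n - i - j) j hi (by omega) hj (by omega)
    have h2 := hs1 (i + j) (n - i - j) (by omega) (by omega) (by omega)
    rw [h2]
    rw [add_right_comm] at h1
    exact (eq_neg_of_add_eq_zero_left h1).symm
  have a0 : ∀ i j, 1 ≤ i → 1 ≤ j → i + j + 1 ≤ n → d0 (i + j) = d1 i + d2 j := by
    intro i j hi hj h
    have h1 := hd' (n - i - j) i j (by omega) hi hj (by omega)
    have h2 := hs0 (i + j) (n - i - j) (by omega) (by omega) (by omega)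
    rw [h2]
    rw [add_assoc, add_comm] at h1
    exact (eq_neg_of_add_eq_zero_left h1).symm
  have two_ne : (2 : K) ≠ 0 := two_ne_zero
  have cancel2 : ∀ x y : Q, (2 : K) • x = (2 : K) • y → x = y := fun x y h =>
    smul_right_injective Q two_ne h
  have e01 : d0 1 = d1 1 := by
    apply cancel2
    have h1 := a2 1 2 le_rfl (by norm_num) (by omega)
    have h2 := a2 2 1 (by norm_num) le_rfl (by omega)
    have h3 := a1 1 1 le_rfl le_rfl (by omega)
    have h4 := a0 1 1 le_rfl le_rfl (by omega)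
    norm_num at h1 h2 h3 h4
    rw [h3] at h1
    rw [h4, h1] at h2
    have : (2 : K) • d0 1 - (2 : K) • d1 1 = 0 := by
      have := sub_eq_zero.mpr h2
      rw [← this]
      module
    exact sub_eq_zero.mp this
  have e02 : d0 1 = d2 1 := by
    apply cancel2
    have h1 := a1 1 2 le_rfl (by norm_num) (by omega)
    have h2 := a1 2 1 (by norm_num) le_rfl (by omega)
    have h3 := a2 1 1 le_rfl le_rfl (by omega)
    have h4 := a0 1 1 le_rfl le_rfl (by omega)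
    norm_num at h1 h2 h3 h4
    rw [h3] at h1
    rw [h4, h1] at h2
    have : (2 : K) • d0 1 - (2 : K) • d2 1 = 0 := by
      have := sub_eq_zero.mpr h2
      rw [← this]
      module
    exact sub_eq_zero.mp this
  have hmul : ∀ i, 1 ≤ i → i + 1 ≤ n → d0 i = (i : K) • d0 1 ∧ d1 i = (i : K) • d0 1 ∧
      d2 i = (i : K) • d0 1 := by
    intro i hi
    induction i, hi using Nat.le_induction with
    | base => intro _; simp [← e01, ← e02]
    | succ i hi ih =>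
      intro h
      obtain ⟨h0, h1, h2⟩ := ih (by omega)
      refine ⟨?_, ?_, ?_⟩
      · rw [a0 i 1 hi le_rfl (by omega), h1, ← e02]; push_cast; module
      · rw [a1 i 1 hi le_rfl (by omega), h0, ← e02]; push_cast; module
      · rw [a2 i 1 hi le_rfl (by omega), h0, ← e01]; push_cast; module
  have hz : d0 1 = 0 := by
    have h1 := (hmul (n - 1) (by omega) (by omega)).1
    have h2 := hs0 (n - 1) 1 (by omega) le_rfl (by omega)
    rw [h2] at h1
    have h3 : ((n : K)) • d0 1 = 0 := by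
      have h4 : ((n - 1 : ℕ) : K) = (n : K) - 1 := by
        rw [Nat.cast_sub (by omega)]; simp
      rw [h4] at h1
      have := sub_eq_zero.mpr h1.symm
      rw [← this]; module
    rcases smul_eq_zero.mp h3 with h | h
    · exact absurd h (by exact_mod_cast (by omega : n ≠ 0))
    · exact h
  intro i hi1 hi2 u w
  obtain ⟨z0, z1, z2⟩ := hmul i hi1 hi2
  rw [hz, smul_zero] at z0 z1 z2
  have z0' : A i ![1, 0, 0] ![1, 0, 0] = 0 := z0
  have z1' : A i ![0, 1, 0] ![0, 1, 0] = 0 := z1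
  have z2' : A i ![0, 0, 1] ![0, 0, 1] = 0 := z2
  have c01' : (![0, 0, 1] : Fin 3 → K) = ![0, 1, 0] ⨯₃ ![-1, 0, 0] := c10.symm
  have p01 : A i ![1, 0, 0] ![0, 1, 0] = A 1 ![1, 0, 0] ![0, 1, 0] :=
    hpair i hi1 hi2 _ _ ![0, 0, -1] ![0, 0, 1] c02.symm (by simp [cross_apply])
  have p12 : A i ![0, 1, 0] ![0, 0, 1] = A 1 ![0, 1, 0] ![0, 0, 1] :=
    hpair i hi1 hi2 _ _ ![-1, 0, 0] ![1, 0, 0] c10.symm (by simp [cross_apply])
  have p20 : A i ![0, 0, 1] ![1, 0, 0] = A 1 ![0, 0, 1] ![1, 0, 0] :=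
    hpair i hi1 hi2 _ _ ![0, -1, 0] ![0, 1, 0] c21.symm (by simp [cross_apply])
  have p10 : A i ![0, 1, 0] ![1, 0, 0] = - A 1 ![1, 0, 0] ![0, 1, 0] := by
    rw [hpair i hi1 hi2 _ _ ![0, 0, 1] ![0, 0, -1] (by simp [cross_apply]) (by simp [cross_apply])]
    exact hanti _ _ ![0, 0, -1] ![0, 0, 1] (by simp [cross_apply]) (by simp [cross_apply])
  have p21 : A i ![0, 0, 1] ![0, 1, 0] = - A 1 ![0, 1, 0] ![0, 0, 1] := by
    rw [hpair i hi1 hi2 _ _ ![1, 0, 0] ![-1, 0, 0] (by simp [cross_apply]) (by simp [cross_apply])]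
    exact hanti _ _ ![-1, 0, 0] ![1, 0, 0] (by simp [cross_apply]) (by simp [cross_apply])
  have p02 : A i ![1, 0, 0] ![0, 0, 1] = - A 1 ![0, 0, 1] ![1, 0, 0] := by
    rw [hpair i hi1 hi2 _ _ ![0, 1, 0] ![0, -1, 0] (by simp [cross_apply]) (by simp [cross_apply])]
    exact hanti _ _ ![0, -1, 0] ![0, 1, 0] (by simp [cross_apply]) (by simp [cross_apply])
  have hu : ∀ u : Fin 3 → K, u = u 0 • ![1, 0, 0] + u 1 • ![0, 1, 0] + u 2 • ![0, 0, 1] := by
    intro u; ext k; fin_cases k <;> simp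
  conv_lhs => rw [hu u, hu w]
  have k0 : (u ⨯₃ w) 0 = u 1 * w 2 - u 2 * w 1 := by simp [cross_apply]
  have k1 : (u ⨯₃ w) 1 = u 2 * w 0 - u 0 * w 2 := by simp [cross_apply]
  have k2 : (u ⨯₃ w) 2 = u 0 * w 1 - u 1 * w 0 := by simp [cross_apply]
  rw [k0, k1, k2]
  simp only [map_add, map_smul, LinearMap.add_apply, LinearMap.smul_apply, z0', z1', z2', p01,
    p12, p20, p10, p21, p02, smul_zero, smul_neg]
  module

end LinAlg

section Lie

variable {K L : Type*} [Field K] [LieRing L] [LieAlgebra K L]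

/-- The iterated system `X n`, `X 1 = E`, `X (n+1) e_c = [E e_{c+1}, X n e_{c+2}]`. -/
noncomputable def XX (E : (Fin 3 → K) →ₗ[K] L) : ℕ → (Fin 3 → K) →ₗ[K] L
  | 0 => 0
  | 1 => E
  | (n + 2) =>
      (Pi.basisFun K (Fin 3)).constr K
        ![⁅E ![0, 1, 0], XX E (n + 1) ![0, 0, 1]⁆, ⁅E ![0, 0, 1], XX E (n + 1) ![1, 0, 0]⁆,
          ⁅E ![1, 0, 0], XX E (n + 1) ![0, 1, 0]⁆]

/-- The filtration `F n = sum of ranges of X k, k ≤ n`. -/
noncomputable def FF (E : (Fin 3 → K) →ₗ[K] L) : ℕ → Submodule K L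
  | 0 => ⊥
  | (n + 1) => FF E n ⊔ LinearMap.range (XX E (n + 1))

theorem XX_one (E : (Fin 3 → K) →ₗ[K] L) : XX E 1 = E := rfl

theorem XX_succ_apply (E : (Fin 3 → K) →ₗ[K] L) (n : ℕ) (hn : 1 ≤ n) (u : Fin 3 → K) :
    XX E (n + 1) u = u 0 • ⁅E ![0, 1, 0], XX E n ![0, 0, 1]⁆ +
      u 1 • ⁅E ![0, 0, 1], XX E n ![1, 0, 0]⁆ + u 2 • ⁅E ![1, 0, 0], XX E n ![0, 1, 0]⁆ := by
  obtain ⟨m, rfl⟩ : ∃ m, n = m + 1 := ⟨n - 1, by omega⟩
  simp only [XX]
  rw [Module.Basis.constr_apply_fintype]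
  simp [Fin.sum_univ_three]

theorem FF_mono (E : (Fin 3 → K) →ₗ[K] L) : Monotone (FF E) :=
  monotone_nat_of_le_succ fun n => by simp only [FF]; exact le_sup_left

theorem XX_mem (E : (Fin 3 → K) →ₗ[K] L) (n : ℕ) (u : Fin 3 → K) : XX E n u ∈ FF E n := by
  cases n with
  | zero => simp [XX]
  | succ n => exact Submodule.mem_sup_right ⟨u, rfl⟩

theorem XX_mem' (E : (Fin 3 → K) →ₗ[K] L) (n m : ℕ) (h : n ≤ m) (u : Fin 3 → K) :
    XX E n u ∈ FF E m := FF_mono E h (XX_mem E n u)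

/-- Bracket of `X a u` with an element of `F m`. -/
theorem FF_induction (E : (Fin 3 → K) →ₗ[K] L) (m : ℕ) (p : L → Prop)
    (h0 : p 0) (hadd : ∀ x y, p x → p y → p (x + y))
    (hX : ∀ k, 1 ≤ k → k ≤ m → ∀ u, p (XX E k u)) : ∀ x ∈ FF E m, p x := by
  induction m with
  | zero => intro x hx; simp only [FF, Submodule.mem_bot] at hx; rw [hx]; exact h0
  | succ m ih =>
    intro x hx
    simp only [FF] at hx
    obtain ⟨y, hy, z, ⟨u, rfl⟩, rfl⟩ := Submodule.mem_sup.mp hx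
    exact hadd _ _ (ih (fun k hk hkm u => hX k hk (by omega) u) y hy)
      (hX (m + 1) (by omega) le_rfl u)

end Lie

section Main

variable {K L : Type*} [Field K] [CharZero K] [LieRing L] [LieAlgebra K L]

theorem growth (E H : (Fin 3 → K) →ₗ[K] L) (hEE : ∀ u w, ⁅E u, E w⁆ = H (u ⨯₃ w))
    (hEH : ∀ u, ⁅E u, H u⁆ ∈ LinearMap.range E ⊔ LinearMap.range H) :
    ∀ n a b, 1 ≤ a → 1 ≤ b → a + b = n → ∀ u w : Fin 3 → K,
      ⁅XX E a u, XX E b w⁆ - XX E n (u ⨯₃ w) ∈ FF E (n - 1) := by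
  intro n
  induction n using Nat.strong_induction_on with
  | _ n ih =>
  -- bracket with lower terms
  have hlow : ∀ i m, 1 ≤ i → i + m < n → ∀ u, ∀ x ∈ FF E m, ⁅XX E i u, x⁆ ∈ FF E (i + m) := by
    intro i m hi him u
    apply FF_induction
    · simp
    · intro x y hx hy; rw [lie_add]; exact add_mem hx hy
    · intro k hk hkm w
      have h1 := ih (i + k) (by omega) i k hi hk rfl u w
      have h2 := XX_mem' E (i + k) (i + m) (by omega) (u ⨯₃ w)
      have h3 := FF_mono E (by omega : i + k - 1 ≤ i + m) h1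
      have := add_mem h3 h2
      simpa using this
  intro a b ha hb hab u w
  have hE1 : ∀ u, XX E 1 u = E u := fun u => rfl
  have hu : ∀ u : Fin 3 → K, u = u 0 • ![1, 0, 0] + u 1 • ![0, 1, 0] + u 2 • ![0, 0, 1] := by
    intro u; ext k; fin_cases k <;> simp
  have hX2 : ∀ u, XX E 2 u = H u := by
    intro u
    rw [XX_succ_apply E 1 le_rfl]
    have c01 : (![1, 0, 0] : Fin 3 → K) ⨯₃ ![0, 1, 0] = ![0, 0, 1] := by simp [cross_apply]
    have c12 : (![0, 1, 0] : Fin 3 → K) ⨯₃ ![0, 0, 1] = ![1, 0, 0] := by simp [cross_apply]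
    have c20 : (![0, 0, 1] : Fin 3 → K) ⨯₃ ![1, 0, 0] = ![0, 1, 0] := by simp [cross_apply]
    simp only [hE1, hEE, c01, c12, c20]
    conv_rhs => rw [hu u]
    simp only [map_add, map_smul]
  rcases Nat.lt_or_ge n 4 with hn | hn
  · rcases Nat.lt_or_ge n 3 with hn3 | hn3
    · -- n = 2
      obtain rfl : n = 2 := by omega
      obtain rfl : a = 1 := by omega
      obtain rfl : b = 1 := by omega
      rw [hE1, hE1, hEE, hX2, sub_self]
      exact zero_mem _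
    · -- n = 3
      obtain rfl : n = 3 := by omega
      have hF2 : LinearMap.range E ⊔ LinearMap.range H ≤ FF E 2 := by
        apply sup_le
        · rintro _ ⟨x, rfl⟩; exact XX_mem' E 1 2 (by norm_num) x
        · rintro _ ⟨x, rfl⟩; rw [← hX2]; exact XX_mem E 2 x
      have hsq : ∀ u, ⁅E u, H u⁆ ∈ FF E 2 := fun u => hF2 (hEH u)
      have hanti : ∀ u w, ⁅E u, H w⁆ + ⁅E w, H u⁆ ∈ FF E 2 := by
        intro u w
        have h := sub_mem (sub_mem (hsq (u + w)) (hsq u)) (hsq w)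
        have e : ⁅E (u + w), H (u + w)⁆ - ⁅E u, H u⁆ - ⁅E w, H w⁆ = ⁅E u, H w⁆ + ⁅E w, H u⁆ := by
          simp only [map_add, add_lie, lie_add]; abel
        rwa [e] at h
      have key : ∀ u w, ⁅E u, H w⁆ - XX E 3 (u ⨯₃ w) ∈ FF E 2 := by
        intro u w
        rw [XX_succ_apply E 2 (by norm_num)]
        simp only [hX2]
        have k0 : (u ⨯₃ w) 0 = u 1 * w 2 - u 2 * w 1 := by simp [cross_apply]
        have k1 : (u ⨯₃ w) 1 = u 2 * w 0 - u 0 * w 2 := by simp [cross_apply]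
        have k2 : (u ⨯₃ w) 2 = u 0 * w 1 - u 1 * w 0 := by simp [cross_apply]
        rw [k0, k1, k2]
        have e : ⁅E u, H w⁆ - ((u 1 * w 2 - u 2 * w 1) • ⁅E ![0, 1, 0], H ![0, 0, 1]⁆ +
            (u 2 * w 0 - u 0 * w 2) • ⁅E ![0, 0, 1], H ![1, 0, 0]⁆ +
            (u 0 * w 1 - u 1 * w 0) • ⁅E ![1, 0, 0], H ![0, 1, 0]⁆) =
            (u 0 * w 0) • ⁅E ![1, 0, 0], H ![1, 0, 0]⁆ + (u 1 * w 1) • ⁅E ![0, 1, 0], H ![0, 1, 0]⁆
            + (u 2 * w 2) • ⁅E ![0, 0, 1], H ![0, 0, 1]⁆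
            + (u 1 * w 0) • (⁅E ![1, 0, 0], H ![0, 1, 0]⁆ + ⁅E ![0, 1, 0], H ![1, 0, 0]⁆)
            + (u 2 * w 1) • (⁅E ![0, 1, 0], H ![0, 0, 1]⁆ + ⁅E ![0, 0, 1], H ![0, 1, 0]⁆)
            + (u 0 * w 2) • (⁅E ![0, 0, 1], H ![1, 0, 0]⁆ + ⁅E ![1, 0, 0], H ![0, 0, 1]⁆) := by
          conv_lhs => rw [hu u, hu w]
          simp only [map_add, map_smul, add_lie, lie_add, smul_lie, lie_smul]
          simp
          module
        rw [e]
        refine add_mem (add_mem (add_mem (add_mem (add_mem ?_ ?_) ?_) ?_) ?_) ?_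
        · exact Submodule.smul_mem _ _ (hsq _)
        · exact Submodule.smul_mem _ _ (hsq _)
        · exact Submodule.smul_mem _ _ (hsq _)
        · exact Submodule.smul_mem _ _ (hanti _ _)
        · exact Submodule.smul_mem _ _ (hanti _ _)
        · exact Submodule.smul_mem _ _ (hanti _ _)
      have hab' : (a = 1 ∧ b = 2) ∨ (a = 2 ∧ b = 1) := by omega
      rcases hab' with ⟨rfl, rfl⟩ | ⟨rfl, rfl⟩
      · rw [hE1, hX2]; exact key u w
      · rw [hE1, hX2, ← lie_skew, ← neg_cross, map_neg]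
        have := neg_mem (key w u)
        convert this using 1
        abel
  · -- n ≥ 4
    set F : Submodule K L := FF E (n - 1) with hF
    set A : ℕ → (Fin 3 → K) →ₗ[K] (Fin 3 → K) →ₗ[K] (L ⧸ F) := fun i =>
      LinearMap.mk₂ K (fun u w => F.mkQ ⁅XX E i u, XX E (n - i) w⁆)
        (by intro x y z; simp) (by intro c x y; simp) (by intro x y z; simp)
        (by intro c x y; simp) with hA
    have hAapp : ∀ i u w, A i u w = F.mkQ ⁅XX E i u, XX E (n - i) w⁆ := fun i u w => rfl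
    have hJ : ∀ i j l, 1 ≤ i → 1 ≤ j → 1 ≤ l → i + j + l = n → ∀ u v w : Fin 3 → K,
        A i u (v ⨯₃ w) + A j v (w ⨯₃ u) + A l w (u ⨯₃ v) = 0 := by
      intro i j l hi hj hl hijl u v w
      have gen : ∀ i j l, 1 ≤ i → 1 ≤ j → 1 ≤ l → i + j + l = n → ∀ u v w : Fin 3 → K,
          A i u (v ⨯₃ w) = F.mkQ ⁅XX E i u, ⁅XX E j v, XX E l w⁆⁆ := by
        intro i j l hi hj hl hijl u v w
        have h1 := ih (j + l) (by omega) j l hj hl rfl v w
        have h2 := hlow i (j + l - 1) hi (by omega) u _ h1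
        have h3 : ⁅XX E i u, ⁅XX E j v, XX E l w⁆ - XX E (j + l) (v ⨯₃ w)⁆ ∈ F := by
          have : i + (j + l - 1) = n - 1 := by omega
          rw [this] at h2; exact h2
        rw [hAapp]
        have h4 : n - i = j + l := by omega
        rw [h4]
        rw [lie_sub] at h3
        have h5 := (Submodule.Quotient.mk_eq_zero F).mpr h3
        rw [Submodule.Quotient.mk_sub, sub_eq_zero] at h5
        simpa using h5.symm
      rw [gen i j l hi hj hl hijl u v w, gen j l i hj hl hi (by omega) v w u,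
        gen l i j hl hi hj (by omega) w u v, ← map_add, ← map_add]
      rw [lie_jacobi]
      exact map_zero _
    have hS : ∀ i j, 1 ≤ i → 1 ≤ j → i + j = n → ∀ u w : Fin 3 → K, A i u w = - A j w u := by
      intro i j hi hj hij u w
      rw [hAapp, hAapp, ← map_neg, lie_skew]
      have h1 : n - i = j := by omega
      have h2 : n - j = i := by omega
      rw [h1, h2]
    have hmain := growth_linalg n hn A hJ hS a ha (by omega) u w
    rw [← Submodule.Quotient.mk_eq_zero F, Submodule.Quotient.mk_sub, sub_eq_zero]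
    have h1 : n - a = b := by omega
    rw [hAapp, h1] at hmain
    have h2 : XX E n (u ⨯₃ w) = (u ⨯₃ w) 0 • ⁅E ![0, 1, 0], XX E (n - 1) ![0, 0, 1]⁆ +
      (u ⨯₃ w) 1 • ⁅E ![0, 0, 1], XX E (n - 1) ![1, 0, 0]⁆
        + (u ⨯₃ w) 2 • ⁅E ![1, 0, 0], XX E (n - 1) ![0, 1, 0]⁆ := by
      have := XX_succ_apply E (n - 1) (by omega) (u ⨯₃ w)
      rwa [Nat.sub_add_cancel (by omega : 1 ≤ n)] at this
    rw [h2]
    simp only [hAapp, hE1] at hmain
    simp only [Submodule.mkQ_apply] at hmain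
    rw [hmain]
    simp

end Main

end Pool.Agent.MP_106392_al
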