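import Pool.Agent.MP_106392_al.Vec3

/-!
The isomorphism `iota` and its brackets.
-/

set_option autoImplicit false

namespace Pool.Agent.MP_106392_al

open Matrix

noncomputable section

section generic

variable {F : Type*} [Field F]

/-- `iota` over a general field. -/
def iotaF (a b : V3 F) : Matrix (Fin 4) (Fin 4) F :=
  (2 : F)⁻¹ •
  !![0, -(a 2 + b 2), a 1 + b 1, a 0 - b 0;
     a 2 + b 2, 0, -(a 0 + b 0), a 1 - b 1;
     -(a 1 + b 1), a 0 + b 0, 0, a 2 - b 2;
     -(a 0 - b 0), -(a 1 - b 1), -(a 2 - b 2), 0]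

theorem iotaF_comm (h2 : (2 : F) ≠ 0) (a b c d : V3 F) :
    iotaF a b * iotaF c d - iotaF c d * iotaF a b = iotaF (a ⨯₃ c) (b ⨯₃ d) := by
  obtain ⟨t, ht⟩ : ∃ t : F, t = (2 : F)⁻¹ := ⟨_, rfl⟩
  have ht2 : 2 * t = 1 := by rw [ht]; field_simp
  simp only [iotaF, ← ht]
  ext i j
  fin_cases i <;> fin_cases j
  · simp [Matrix.mul_apply, Fin.sum_univ_four, cross_apply]; ring
  · simp [Matrix.mul_apply, Fin.sum_univ_four, cross_apply]
    linear_combination (t * (-(a 0 * c 1 - a 1 * c 0) - (b 0 * d 1 - b 1 * d 0))) * ht2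
  · simp [Matrix.mul_apply, Fin.sum_univ_four, cross_apply]
    linear_combination (t * ((a 2 * c 0 - a 0 * c 2) + (b 2 * d 0 - b 0 * d 2))) * ht2
  · simp [Matrix.mul_apply, Fin.sum_univ_four, cross_apply]
    linear_combination (t * ((a 1 * c 2 - a 2 * c 1) - (b 1 * d 2 - b 2 * d 1))) * ht2
  · simp [Matrix.mul_apply, Fin.sum_univ_four, cross_apply]
    linear_combination (-t * (-(a 0 * c 1 - a 1 * c 0) - (b 0 * d 1 - b 1 * d 0))) * ht2
  · simp [Matrix.mul_apply, Fin.sum_univ_four, cross_apply]; ring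
  · simp [Matrix.mul_apply, Fin.sum_univ_four, cross_apply]
    linear_combination (t * (-(a 1 * c 2 - a 2 * c 1) - (b 1 * d 2 - b 2 * d 1))) * ht2
  · simp [Matrix.mul_apply, Fin.sum_univ_four, cross_apply]
    linear_combination (t * ((a 2 * c 0 - a 0 * c 2) - (b 2 * d 0 - b 0 * d 2))) * ht2
  · simp [Matrix.mul_apply, Fin.sum_univ_four, cross_apply]
    linear_combination (-t * ((a 2 * c 0 - a 0 * c 2) + (b 2 * d 0 - b 0 * d 2))) * ht2
  · simp [Matrix.mul_apply, Fin.sum_univ_four, cross_apply]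
    linear_combination (-t * (-(a 1 * c 2 - a 2 * c 1) - (b 1 * d 2 - b 2 * d 1))) * ht2
  · simp [Matrix.mul_apply, Fin.sum_univ_four, cross_apply]; ring
  · simp [Matrix.mul_apply, Fin.sum_univ_four, cross_apply]
    linear_combination (t * ((a 0 * c 1 - a 1 * c 0) - (b 0 * d 1 - b 1 * d 0))) * ht2
  · simp [Matrix.mul_apply, Fin.sum_univ_four, cross_apply]
    linear_combination (-t * ((a 1 * c 2 - a 2 * c 1) - (b 1 * d 2 - b 2 * d 1))) * ht2
  · simp [Matrix.mul_apply, Fin.sum_univ_four, cross_apply]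
    linear_combination (-t * ((a 2 * c 0 - a 0 * c 2) - (b 2 * d 0 - b 0 * d 2))) * ht2
  · simp [Matrix.mul_apply, Fin.sum_univ_four, cross_apply]
    linear_combination (-t * ((a 0 * c 1 - a 1 * c 0) - (b 0 * d 1 - b 1 * d 0))) * ht2
  · simp [Matrix.mul_apply, Fin.sum_univ_four, cross_apply]; ring

theorem iotaF_add (a b c d : V3 F) : iotaF (a + c) (b + d) = iotaF a b + iotaF c d := by
  simp only [iotaF]
  ext i j
  fin_cases i <;> fin_cases j <;> simp <;> ring

theorem iotaF_smul (t : F) (a b : V3 F) : iotaF (t • a) (t • b) = t • iotaF a b := by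
  simp only [iotaF]
  ext i j
  fin_cases i <;> fin_cases j <;> simp <;> ring

theorem iotaF_zero : iotaF (0 : V3 F) 0 = 0 := by
  ext i j
  fin_cases i <;> fin_cases j <;> simp [iotaF]

/-- first component of a matrix in the image of `iota`. -/
def getAF (X : Matrix (Fin 4) (Fin 4) F) : V3 F := ![X 2 1 + X 0 3, X 0 2 + X 1 3, X 1 0 + X 2 3]
/-- second component of a matrix in the image of `iota`. -/
def getBF (X : Matrix (Fin 4) (Fin 4) F) : V3 F := ![X 2 1 - X 0 3, X 0 2 - X 1 3, X 1 0 - X 2 3]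

theorem getAF_iotaF (h2 : (2 : F) ≠ 0) (a b : V3 F) : getAF (iotaF a b) = a := by
  ext i; fin_cases i <;> simp [getAF, iotaF] <;> field_simp <;> ring

theorem getBF_iotaF (h2 : (2 : F) ≠ 0) (a b : V3 F) : getBF (iotaF a b) = b := by
  ext i; fin_cases i <;> simp [getBF, iotaF] <;> field_simp <;> ring

theorem iotaF_get (h2 : (2 : F) ≠ 0) {X : Matrix (Fin 4) (Fin 4) F} (hX : Xᵀ = -X) :
    iotaF (getAF X) (getBF X) = X := by
  have h : ∀ i j, X j i = - X i j := fun i j => by
    have := congrFun (congrFun hX i) j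
    simpa using this
  have hd : ∀ i, X i i = 0 := fun i => by
    have := h i i
    have h3 : (2 : F) * X i i = 0 := by linear_combination this
    exact (mul_eq_zero.mp h3).resolve_left h2
  ext i j
  fin_cases i <;> fin_cases j <;> simp [getAF, getBF, iotaF, hd]
  · rw [h 0 1]; field_simp; ring
  · field_simp; ring
  · field_simp; ring
  · field_simp; ring
  · rw [h 1 2]; field_simp; ring
  · field_simp; ring
  · rw [h 0 2]; field_simp; ring
  · field_simp; ring
  · field_simp; ring
  · rw [h 0 3]; field_simp; ring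
  · rw [h 1 3]; field_simp; ring
  · rw [h 2 3]; field_simp; ring

theorem iotaF_skew (a b : V3 F) : (iotaF a b)ᵀ = - iotaF a b := by
  ext i j
  fin_cases i <;> fin_cases j <;> simp [iotaF] <;> ring

end generic

theorem twoK_ne : (2 : K) ≠ 0 := by
  intro h
  have := congrArg (fun x : K => HahnSeries.coeff x 0) h
  have h2 : (2 : K) = HahnSeries.C (2 : ℂ) := by
    rw [map_ofNat]
  rw [h2] at this
  simp at this

theorem iota_comm (a b c d : V3 K) :
    iota a b * iota c d - iota c d * iota a b = iota (a ⨯₃ c) (b ⨯₃ d) :=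
  iotaF_comm twoK_ne a b c d

theorem iota_add (a b c d : V3 K) : iota (a + c) (b + d) = iota a b + iota c d :=
  iotaF_add a b c d

theorem iota_smul (t : K) (a b : V3 K) : iota (t • a) (t • b) = t • iota a b :=
  iotaF_smul t a b

theorem iota_zero : iota 0 0 = 0 := iotaF_zero

theorem getA_iota (a b : V3 K) : getAF (iota a b) = a := getAF_iotaF twoK_ne a b

theorem getB_iota (a b : V3 K) : getBF (iota a b) = b := getBF_iotaF twoK_ne a b

theorem iota_get {X : Matrix (Fin 4) (Fin 4) K} (hX : Xᵀ = -X) :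
    iota (getAF X) (getBF X) = X := iotaF_get twoK_ne hX

theorem iota_skew (a b : V3 K) : (iota a b)ᵀ = - iota a b := iotaF_skew a b

/-! ### Vectors of power series -/

theorem vK_add (a b : V3 R) : vK (a + b) = vK a + vK b := by
  funext i; exact map_add toK _ _

theorem vK_sub (a b : V3 R) : vK (a - b) = vK a - vK b := by
  funext i; exact map_sub toK _ _

theorem vK_smul (c : R) (a : V3 R) : vK (c • a) = toK c • vK a := by
  funext i; exact map_mul toK _ _

theorem vK_cross (a b : V3 R) : vK (a ⨯₃ b) = vK a ⨯₃ vK b := by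
  funext i
  rw [cross_apply, cross_apply]
  fin_cases i
  · exact (map_sub toK _ _).trans (congrArg₂ _ (map_mul toK _ _) (map_mul toK _ _))
  · exact (map_sub toK _ _).trans (congrArg₂ _ (map_mul toK _ _) (map_mul toK _ _))
  · exact (map_sub toK _ _).trans (congrArg₂ _ (map_mul toK _ _) (map_mul toK _ _))

theorem vC_add (a b : V3 ℂ) : vC (a + b) = vC a + vC b := by
  funext i; exact map_add _ _ _

theorem vC_smul (c : ℂ) (a : V3 ℂ) : vC (c • a) = PowerSeries.C (R := ℂ) c • vC a := by
  funext i; exact map_mul _ _ _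

theorem vC_cross (a b : V3 ℂ) : vC (a ⨯₃ b) = vC a ⨯₃ vC b := by
  funext i; fin_cases i <;> simp [vC, cross_apply]

theorem vC_cst (A : M3 ℂ) (x : V3 ℂ) : vC (A *ᵥ x) = cst A *ᵥ vC x := by
  funext i; fin_cases i <;> simp [vC, cst, mulVec3]

theorem toK_C (c : ℂ) : toK (PowerSeries.C (R := ℂ) c) = HahnSeries.C c :=
  HahnSeries.ofPowerSeries_C c

theorem C_smul_eq (c : ℂ) (X : Matrix (Fin 4) (Fin 4) K) :
    (HahnSeries.C c : K) • X = c • X := by
  refine Matrix.ext fun i j => ?_
  simp only [Matrix.smul_apply, smul_eq_mul]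
  exact HahnSeries.C_mul_eq_smul

theorem lamInv_X : lamInv * toK (PowerSeries.X : R) = 1 := by
  rw [toK, HahnSeries.ofPowerSeries_X, lamInv, HahnSeries.single_mul_single]
  simp

end

end Pool.Agent.MP_106392_al
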