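import Pool.Agent.MP_106392_al.Defs3
import Pool.Agent.MP_106392_al.Root

/-!
# Module H2: the components of the decomposable factoring subalgebras satisfy `Half`
-/

set_option autoImplicit false
namespace Pool.Agent.MP_106392_al
open Matrix
noncomputable section

namespace SideHalf

theorem ev0_apply (A : M3 R) (i j : Fin 3) :
    ev0 A i j = PowerSeries.constantCoeff (R := ℂ) (A i j) := rfl

theorem ev0_zero : ev0 (0 : M3 R) = 0 := by
  ext i j
  simp [ev0_apply]

theorem ev0_add (A B : M3 R) : ev0 (A + B) = ev0 A + ev0 B := by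
  ext i j
  simp [ev0_apply]

theorem ev0_sub (A B : M3 R) : ev0 (A - B) = ev0 A - ev0 B := by
  ext i j
  simp [ev0_apply]

theorem ev0_smul (a : R) (B : M3 R) :
    ev0 (a • B) = PowerSeries.constantCoeff (R := ℂ) a • ev0 B := by
  ext i j
  simp [ev0_apply]

theorem ev0_one : ev0 (1 : M3 R) = 1 := by
  ext i j
  rw [ev0_apply]
  by_cases h : i = j
  · subst h
    simp
  · simp [Matrix.one_apply_ne h]

theorem ev0_cof (A : M3 R) : ev0 (cof A) = cof (ev0 A) := by
  ext i j
  fin_cases i <;> fin_cases j <;> simp [ev0_apply, cof]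

theorem const_det (A : M3 R) :
    PowerSeries.constantCoeff (R := ℂ) A.det = (ev0 A).det := by
  rw [Matrix.det_fin_three, Matrix.det_fin_three]
  simp [ev0_apply]

theorem cof_one : cof (1 : M3 ℂ) = 1 := by
  ext i j
  fin_cases i <;> fin_cases j <;> simp [cof]

theorem cst_zero : cst (0 : M3 ℂ) = 0 := by
  ext i j
  simp [cst]

theorem cst_transpose (A : M3 ℂ) : (cst A)ᵀ = cst Aᵀ := by
  ext i j
  simp [cst]

theorem cof_transpose {F : Type*} [CommRing F] (A : M3 F) : (cof A)ᵀ = cof Aᵀ := by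
  ext i j
  fin_cases i <;> fin_cases j <;> simp [cof] <;> ring

theorem cof_smul {F : Type*} [CommRing F] (c : F) (A : M3 F) : cof (c • A) = c ^ 2 • cof A := by
  ext i j
  fin_cases i <;> fin_cases j <;> simp [cof] <;> ring

theorem cof_cof {F : Type*} [CommRing F] (A : M3 F) : cof (cof A) = A.det • A := by
  rw [Matrix.det_fin_three]
  ext i j
  fin_cases i <;> fin_cases j <;> simp [cof] <;> ring

/-- `G (x × G x) = cof(G) x × x` for symmetric `G`. -/
theorem sym_cross {F : Type*} [CommRing F] {G : M3 F} (hG : Gᵀ = G) (x : V3 F) :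
    G *ᵥ (x ⨯₃ (G *ᵥ x)) = (cof G *ᵥ x) ⨯₃ x := by
  have h01 : G 1 0 = G 0 1 := congrFun (congrFun hG 0) 1
  have h02 : G 2 0 = G 0 2 := congrFun (congrFun hG 0) 2
  have h12 : G 2 1 = G 1 2 := congrFun (congrFun hG 1) 2
  ext i
  fin_cases i <;>
    simp [cof, cross_apply, Matrix.mulVec, dotProduct, Fin.sum_univ_three, h01, h02, h12] <;> ring

/-- with `r = s = 0` and `D = 0` only the equation (I2) remains. -/
theorem half_of {A B : M3 ℂ} {G : M3 R} (hA : Aᵀ = A) (hB : Bᵀ = B) (hG : Gᵀ = G)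
    (h0 : ev0 G = 1)
    (h2 : ∀ x : V3 R, G *ᵥ (x ⨯₃ ((G - (PowerSeries.X : R) • cst A) *ᵥ x)) =
      ((PowerSeries.X : R) ^ 2) • (x ⨯₃ (cst B *ᵥ x)))
    (A' B' : M3 ℂ) (hA' : A'ᵀ = A') (hB' : B'ᵀ = B') :
    Half 0 0 A B A' B' G 0 where
  symA := hA
  symB := hB
  symA' := hA'
  symB' := hB'
  symG := hG
  G0 := h0
  D0 := ev0_zero
  I1 := by
    intro x y
    simp [cst_zero]
  I2 := h2
  I3 := by
    intro y
    have hc : cof (0 : M3 R) = 0 := by
      ext i j
      fin_cases i <;> fin_cases j <;> simp [cof]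
    simp [cst_zero, hc]

theorem out_transpose {F : Type*} [CommRing F] (a b : V3 F) : (out a b)ᵀ = out b a := by
  ext i j
  simp [out, Matrix.vecMulVec, mul_comm]

theorem shapeG_transpose {A B : M3 ℂ} (hA : Aᵀ = A) (hB : Bᵀ = B) (w : R) :
    (shapeG A B w)ᵀ = shapeG A B w := by
  unfold shapeG
  rw [transpose_add, transpose_add, transpose_smul, transpose_smul, transpose_smul,
    cst_transpose, cst_transpose, hA, hB, transpose_one]

theorem ev0_shapeG {A B : M3 ℂ} {w : R} (hw : PowerSeries.constantCoeff (R := ℂ) w = 1) :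
    ev0 (shapeG A B w) = 1 := by
  unfold shapeG
  rw [ev0_add, ev0_add, ev0_smul, ev0_smul, ev0_smul, ev0_one, hw]
  simp

theorem cst_smul_out (a : ℂ) (n : V3 ℂ) : cst (a • out n n) = cc a • out (vC n) (vC n) := by
  ext i j : 2
  simp [cst, out, Matrix.vecMulVec, vC]

theorem axial_identity {F : Type*} [CommRing F] (w v l a b : F) (n x : V3 F) (h : w * v = 1) :
    (w • (1 : M3 F) + l • (a • out n n) + (l ^ 2 * v) • (b • out n n)) *ᵥ
      (x ⨯₃ ((w • (1 : M3 F) + l • (a • out n n) + (l ^ 2 * v) • (b • out n n)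
        - l • (a • out n n)) *ᵥ x)) = l ^ 2 • (x ⨯₃ ((b • out n n) *ᵥ x)) := by
  funext i
  fin_cases i
  · simp [out, Matrix.vecMulVec, cross_apply, Matrix.mulVec, dotProduct, Fin.sum_univ_three]
    linear_combination (l ^ 2 * b * (n 0 * x 0 + n 1 * x 1 + n 2 * x 2) *
      (x 1 * n 2 - x 2 * n 1)) * h
  · simp [out, Matrix.vecMulVec, cross_apply, Matrix.mulVec, dotProduct, Fin.sum_univ_three]
    linear_combination (l ^ 2 * b * (n 0 * x 0 + n 1 * x 1 + n 2 * x 2) *
      (x 2 * n 0 - x 0 * n 2)) * h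
  · simp [out, Matrix.vecMulVec, cross_apply, Matrix.mulVec, dotProduct, Fin.sum_univ_three]
    linear_combination (l ^ 2 * b * (n 0 * x 0 + n 1 * x 1 + n 2 * x 2) *
      (x 0 * n 1 - x 1 * n 0)) * h

end SideHalf

open SideHalf

theorem half_side {w : R} (hw : PowerSeries.constantCoeff (R := ℂ) w = 1) {G : M3 R}
    (h : Side w G) : ∃ A B : M3 ℂ, Aᵀ = A ∧ Bᵀ = B ∧ ∀ A' B' : M3 ℂ, A'ᵀ = A' → B'ᵀ = B' →
      Half 0 0 A B A' B' G 0 := by
  have hww : w * w⁻¹ = 1 := PowerSeries.mul_inv_cancel w (by rw [hw]; exact one_ne_zero)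
  cases h with
  | rational A hA =>
    refine ⟨A, 0, hA, transpose_zero, ?_⟩
    apply half_of hA transpose_zero (shapeG_transpose hA transpose_zero w) (ev0_shapeG hw)
    intro x
    have e : shapeG A 0 w - (PowerSeries.X : R) • cst A = w • (1 : M3 R) := by
      unfold shapeG
      rw [cst_zero, smul_zero, add_zero, add_sub_cancel_right]
    rw [e, cst_zero, smul_mulVec, one_mulVec, map_smul, cross_self, smul_zero, mulVec_zero,
      zero_mulVec, map_zero, smul_zero]
  | axial n α β =>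
    have hA : (α • out n n)ᵀ = α • out n n := by rw [transpose_smul, out_transpose]
    have hB : (β • out n n)ᵀ = β • out n n := by rw [transpose_smul, out_transpose]
    refine ⟨α • out n n, β • out n n, hA, hB, ?_⟩
    apply half_of hA hB (shapeG_transpose hA hB w) (ev0_shapeG hw)
    intro x
    unfold shapeG
    rw [cst_smul_out, cst_smul_out]
    exact axial_identity w w⁻¹ lam (cc α) (cc β) (vC n) x hww
  | elliptic B hB =>
    set N : M3 R := w ^ 2 • (1 : M3 R) - lam ^ 2 • cst B with hN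
    have hNs : Nᵀ = N := by
      rw [hN, transpose_sub, transpose_smul, transpose_smul, transpose_one, cst_transpose, hB]
    have hN0 : ev0 N = 1 := by
      rw [hN, ev0_sub, ev0_smul, ev0_smul, ev0_one]
      simp [hw]
    have hdet : PowerSeries.constantCoeff (R := ℂ) N.det = 1 := by
      rw [const_det, hN0, det_one]
    obtain ⟨d, ⟨hd, hd1⟩, -⟩ := exists_sqrtR N.det hdet
    have hex : ∃ d : R, d ^ 2 = N.det ∧ PowerSeries.constantCoeff (R := ℂ) d = 1 := ⟨d, hd, hd1⟩
    have hs := Classical.choose_spec hex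
    have hsq : sqrtR N.det = Classical.choose hex := by
      unfold sqrtR
      rw [dif_pos hex]
    have hG : ellG3 B w = (sqrtR N.det)⁻¹ • cof N := rfl
    obtain ⟨hs1, hs2⟩ := hs
    rw [← hsq] at hs1 hs2
    set q : R := sqrtR N.det with hq
    have hqq : q * q⁻¹ = 1 := PowerSeries.mul_inv_cancel q (by rw [hs2]; exact one_ne_zero)
    have hGs : (q⁻¹ • cof N)ᵀ = q⁻¹ • cof N := by
      rw [transpose_smul, cof_transpose, hNs]
    have hq0 : PowerSeries.constantCoeff (R := ℂ) q⁻¹ = 1 := by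
      rw [PowerSeries.constantCoeff_inv, hs2, inv_one]
    have hcG : cof (q⁻¹ • cof N) = N := by
      rw [cof_smul, cof_cof, smul_smul, ← hs1, ← mul_pow, mul_comm, hqq, one_pow, one_smul]
    rw [hG]
    refine ⟨0, B, transpose_zero, hB, ?_⟩
    apply half_of transpose_zero hB hGs
    · rw [ev0_smul, ev0_cof, hN0, cof_one, hq0, one_smul]
    · intro x
      rw [cst_zero, smul_zero, sub_zero, sym_cross hGs, hcG, hN]
      rw [sub_mulVec, smul_mulVec, smul_mulVec, one_mulVec]
      rw [map_sub, map_smul, map_smul, LinearMap.sub_apply, LinearMap.smul_apply,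
        LinearMap.smul_apply, cross_self, smul_zero, zero_sub, ← smul_neg, cross_anticomm]

end
end Pool.Agent.MP_106392_al
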