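import Pool.Agent.MP_106392_al.NIdAll
import Pool.Agent.MP_106392_al.HalfNId
import Pool.Agent.MP_106392_al.SideHalf
import Pool.Agent.MP_106392_al.Elliptic

/-!
# The members of the list satisfy the two systems of equations
-/

set_option autoImplicit false
set_option linter.unusedSimpArgs false

namespace Pool.Agent.MP_106392_al
open Matrix
noncomputable section

namespace LH

open SideHalf

theorem msqrt_spec {N : M3 R} (hN : Nᵀ = N) (h0 : ev0 N = 1) :
    ev0 (msqrt N) = 1 ∧ (msqrt N)ᵀ * msqrt N = N := by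
  have h : ∃ M : M3 R, ev0 M = 1 ∧ Mᵀ = M ∧ M * M = N := (exists_root N hN h0).exists
  have h1 : msqrt N = Classical.choose h := by
    unfold msqrt
    rw [dif_pos h]
  have h2 := Classical.choose_spec h
  rw [← h1] at h2
  refine ⟨h2.1, ?_⟩
  rw [h2.2.1, h2.2.2]

theorem half_ell (B : M3 ℂ) (hB : Bᵀ = B) {w : R} (hw : PowerSeries.constantCoeff (R := ℂ) w = 1)
    (s A' B' : M3 ℂ) (hA' : A'ᵀ = A') (hB' : B'ᵀ = B') :
    Half 0 s 0 B A' B' (ellG3 B w) 0 := by
  set N : M3 R := w ^ 2 • (1 : M3 R) - lam ^ 2 • cst B with hN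
  have hNs : Nᵀ = N := by
    rw [hN, transpose_sub, transpose_smul, transpose_smul, transpose_one, cst_transpose, hB]
  have hN0 : ev0 N = 1 := by
    rw [hN, ev0_sub, ev0_smul, ev0_smul, ev0_one]
    simp [hw]
  have hdet : PowerSeries.constantCoeff (R := ℂ) N.det = 1 := by
    rw [const_det, hN0, det_one]
  obtain ⟨d, ⟨hd, hd1⟩, -⟩ := exists_sqrtR N.det hdet
  have hex : ∃ d : R, d ^ 2 = N.det ∧ PowerSeries.constantCoeff (R := ℂ) d = 1 := ⟨d, hd, hd1⟩
  have hs := Classical.choose_spec hex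
  have hsq : sqrtR N.det = Classical.choose hex := by
    unfold sqrtR
    rw [dif_pos hex]
  have hG : ellG3 B w = (sqrtR N.det)⁻¹ • cof N := rfl
  obtain ⟨hs1, hs2⟩ := hs
  rw [← hsq] at hs1 hs2
  set q : R := sqrtR N.det with hq
  have hqq : q * q⁻¹ = 1 := PowerSeries.mul_inv_cancel q (by rw [hs2]; exact one_ne_zero)
  have hGs : (q⁻¹ • cof N)ᵀ = q⁻¹ • cof N := by
    rw [transpose_smul, SideHalf.cof_transpose, hNs]
  have hq0 : PowerSeries.constantCoeff (R := ℂ) q⁻¹ = 1 := by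
    rw [PowerSeries.constantCoeff_inv, hs2, inv_one]
  have hcG : cof (q⁻¹ • cof N) = N := by
    rw [cof_smul, cof_cof, smul_smul, ← hs1, ← mul_pow, mul_comm, hqq, one_pow, one_smul]
  rw [hG]
  refine ⟨transpose_zero, hB, hA', hB', hGs, ?_, ev0_zero, ?_, ?_, ?_⟩
  · rw [ev0_smul, ev0_cof, hN0, cof_one, hq0, one_smul]
  · intro x y
    simp [cst_zero]
  · intro x
    rw [cst_zero, smul_zero, sub_zero, sym_cross hGs, hcG, hN]
    rw [sub_mulVec, smul_mulVec, smul_mulVec, one_mulVec]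
    rw [map_sub, map_smul, map_smul, LinearMap.sub_apply, LinearMap.smul_apply,
      LinearMap.smul_apply, cross_self, smul_zero, zero_sub, ← smul_neg, cross_anticomm]
  · intro y
    have hc : cof (0 : M3 R) = 0 := by
      ext i j
      fin_cases i <;> fin_cases j <;> simp [cof]
    simp [cst_zero, hc]

theorem nid_eval (r : M3 ℂ) : NId r 0 0 0 0 (-(rᵀ * r)) 0 0 := by
  have hc0 : cof (0 : M3 ℂ) = 0 := by
    ext i j
    fin_cases i <;> fin_cases j <;> simp [cof]
  have h2 : cof2 r 0 = 0 := by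
    rw [cof2, add_zero, hc0, sub_self, zero_sub, neg_zero]
  have key : ∀ y : V3 ℂ, (r *ᵥ y) ⨯₃ (cof r *ᵥ y) = r *ᵥ (y ⨯₃ ((-(rᵀ * r)) *ᵥ y)) := by
    intro y
    ext i
    fin_cases i <;>
    simp [cof, cross_apply, Matrix.mulVec, dotProduct, Fin.sum_univ_three, Matrix.mul_apply] <;>
      ring
  refine ⟨transpose_zero, transpose_zero, transpose_zero, ?_, ?_, ?_, ?_, ?_, ?_, ?_, ?_, ?_, ?_,
    ?_⟩
  · rw [transpose_neg, transpose_mul, transpose_transpose]
  · intro x y
    simp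
  · intro x y
    simp
  · intro x y
    simp
  · intro x
    simp
  · intro x
    simp
  · intro y
    rw [zero_mulVec, map_zero, mulVec_zero, sub_zero, key]
  · intro y
    rw [h2]
    simp
  · intro y
    rw [hc0, h2]
    simp
  · intro y
    simp
  · intro y
    simp

theorem listed_half {w w' : R} {G D G' D' : M3 R} (h : Listed w w' G D G' D')
    (hw : PowerSeries.constantCoeff (R := ℂ) w = 1)
    (hw' : PowerSeries.constantCoeff (R := ℂ) w' = 1) :
    ∃ r s A B A' B' : M3 ℂ, Half r s A B A' B' G D ∧ Half s r A' B' A B G' D' := by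
  cases h with
  | product h h' =>
    obtain ⟨A, B, hA, hB, H⟩ := half_side hw h
    obtain ⟨A', B', hA', hB', H'⟩ := half_side hw' h'
    exact ⟨0, 0, A, B, A', B', H A' B' hA' hB', H' A B hA hB⟩
  | nonelliptic h =>
    obtain ⟨n1, n2⟩ := Consts.nid h
    exact ⟨_, _, _, _, _, _, half_of_NId n1 w hw, half_of_NId n2 w' hw'⟩
  | evalL r =>
    refine ⟨r, 0, 0, 0, 0, -(rᵀ * r), half_of_NId (nid_eval r) w hw, ?_⟩
    exact half_ell _ (by rw [transpose_neg, transpose_mul, transpose_transpose]) hw' r 0 0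
      transpose_zero transpose_zero
  | evalR s =>
    refine ⟨0, s, 0, -(sᵀ * s), 0, 0, ?_, half_of_NId (nid_eval s) w' hw'⟩
    exact half_ell _ (by rw [transpose_neg, transpose_mul, transpose_transpose]) hw s 0 0
      transpose_zero transpose_zero
  | elliptic r₀ t₁ t₂ =>
    have h1 := half_elliptic r₀ t₁ t₂ w hw
    have h2 := half_elliptic r₀ᵀ t₂ t₁ w' hw'
    rw [transpose_transpose] at h2
    exact ⟨_, _, _, _, _, _, h1, h2⟩

end LH

end
end Pool.Agent.MP_106392_al
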