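import Pool.Agent.MP_106392_al.NIdDef

/-!
# Pairing of matrices; the statement `Good`
-/

set_option autoImplicit false

namespace Pool.Agent.MP_106392_al

open Matrix

noncomputable section

/-- pairing of matrices -/
def pr {F : Type*} [CommRing F] (L Y : M3 F) : F := ∑ i, ∑ j, L i j * Y i j

/-- two solutions of the coupled system are in the list -/
def Good (G D G' D' : M3 R) : Prop :=
  ∃ w w' : R, PowerSeries.constantCoeff (R := ℂ) w = 1 ∧
      PowerSeries.constantCoeff (R := ℂ) w' = 1 ∧ Listed w w' G D G' D'

end

end Pool.Agent.MP_106392_al
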