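import Pool.Agent.MP_106392_al.Defs3

/-!
# The constant identities `NId` behind the non-elliptic shapes (shared by modules G1, G2a, G2b)
-/

set_option autoImplicit false
namespace Pool.Agent.MP_106392_al
open Matrix
noncomputable section

/-- polarised cofactor. -/
def cof2 {F : Type*} [CommRing F] (A B : M3 F) : M3 F := cof (A + B) - cof A - cof B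

/-- the constant identities behind non-elliptic shapes (for one component). -/
structure NId (r s A B A' B' : M3 ℂ) (κ : ℂ) (Y : M3 ℂ) : Prop where
  symA : Aᵀ = A
  symB : Bᵀ = B
  symA' : A'ᵀ = A'
  symB' : B'ᵀ = B'
  n1 : ∀ x y : V3 ℂ, (Y *ᵥ y) ⨯₃ x + A *ᵥ ((r *ᵥ y) ⨯₃ x) = r *ᵥ (y ⨯₃ (s *ᵥ x))
  n2 : ∀ x y : V3 ℂ, A *ᵥ ((Y *ᵥ y) ⨯₃ x) - κ • (A *ᵥ ((r *ᵥ y) ⨯₃ x)) + B *ᵥ ((r *ᵥ y) ⨯₃ x)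
    = (Y - κ • r) *ᵥ (y ⨯₃ (s *ᵥ x))
  n3 : ∀ x y : V3 ℂ, B *ᵥ (((Y - κ • r) *ᵥ y) ⨯₃ x) = 0
  n4 : ∀ x : V3 ℂ, A *ᵥ (x ⨯₃ (B *ᵥ x)) = 0
  n4' : ∀ x : V3 ℂ, B *ᵥ (x ⨯₃ (B *ᵥ x)) = 0
  n50 : ∀ y : V3 ℂ, (r *ᵥ y) ⨯₃ (cof r *ᵥ y) - cof r *ᵥ (y ⨯₃ (A' *ᵥ y)) =
    r *ᵥ (y ⨯₃ (B' *ᵥ y))
  n51 : ∀ y : V3 ℂ, (r *ᵥ y) ⨯₃ (cof2 r Y *ᵥ y) - cof2 r Y *ᵥ (y ⨯₃ (A' *ᵥ y)) +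
    A *ᵥ ((r *ᵥ y) ⨯₃ (cof r *ᵥ y) - cof r *ᵥ (y ⨯₃ (A' *ᵥ y))) = Y *ᵥ (y ⨯₃ (B' *ᵥ y))
  n52 : ∀ y : V3 ℂ, (r *ᵥ y) ⨯₃ (cof Y *ᵥ y) - cof Y *ᵥ (y ⨯₃ (A' *ᵥ y))
    - κ • (A *ᵥ ((r *ᵥ y) ⨯₃ (cof r *ᵥ y) - cof r *ᵥ (y ⨯₃ (A' *ᵥ y))))
    + A *ᵥ ((r *ᵥ y) ⨯₃ (cof2 r Y *ᵥ y) - cof2 r Y *ᵥ (y ⨯₃ (A' *ᵥ y)))
    + B *ᵥ ((r *ᵥ y) ⨯₃ (cof r *ᵥ y) - cof r *ᵥ (y ⨯₃ (A' *ᵥ y))) = 0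
  n53 : ∀ y : V3 ℂ,
    A *ᵥ (κ ^ 2 • ((r *ᵥ y) ⨯₃ (cof r *ᵥ y) - cof r *ᵥ (y ⨯₃ (A' *ᵥ y)))
      - κ • ((r *ᵥ y) ⨯₃ (cof2 r Y *ᵥ y) - cof2 r Y *ᵥ (y ⨯₃ (A' *ᵥ y)))
      + ((r *ᵥ y) ⨯₃ (cof Y *ᵥ y) - cof Y *ᵥ (y ⨯₃ (A' *ᵥ y))))
    + B *ᵥ (((r *ᵥ y) ⨯₃ (cof2 r Y *ᵥ y) - cof2 r Y *ᵥ (y ⨯₃ (A' *ᵥ y)))
      - (2 * κ) • ((r *ᵥ y) ⨯₃ (cof r *ᵥ y) - cof r *ᵥ (y ⨯₃ (A' *ᵥ y)))) = 0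
  n54 : ∀ y : V3 ℂ,
    B *ᵥ (κ ^ 2 • ((r *ᵥ y) ⨯₃ (cof r *ᵥ y) - cof r *ᵥ (y ⨯₃ (A' *ᵥ y)))
      - κ • ((r *ᵥ y) ⨯₃ (cof2 r Y *ᵥ y) - cof2 r Y *ᵥ (y ⨯₃ (A' *ᵥ y)))
      + ((r *ᵥ y) ⨯₃ (cof Y *ᵥ y) - cof Y *ᵥ (y ⨯₃ (A' *ᵥ y)))) = 0

end
end Pool.Agent.MP_106392_al
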