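import Pool.Agent.MP_106392_al.NId

/-!
# Module Sa: uniqueness of the solutions of the equation (I1)
-/

set_option autoImplicit false
namespace Pool.Agent.MP_106392_al
open Matrix
noncomputable section

namespace Uniq

/-- constant coefficients of vectors -/
def ev (v : V3 R) : V3 ℂ := fun i => PowerSeries.constantCoeff (R := ℂ) (v i)

theorem ev_vC (x : V3 ℂ) : ev (vC x) = x := by
  funext i
  simp [ev, vC]

theorem ev_mulVec (A : M3 R) (v : V3 R) : ev (A *ᵥ v) = ev0 A *ᵥ ev v := by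
  funext i
  simp [ev, ev0, Matrix.mulVec, dotProduct]

theorem ev_cross (a b : V3 R) : ev (a ⨯₃ b) = ev a ⨯₃ ev b := by
  funext i
  fin_cases i <;> simp [ev, cross_apply]

theorem ev_add (a b : V3 R) : ev (a + b) = ev a + ev b := by
  funext i
  simp [ev]

theorem ev_smul (c : R) (a : V3 R) : ev (c • a) = PowerSeries.constantCoeff (R := ℂ) c • ev a := by
  funext i
  simp [ev]

theorem ev0_cst (A : M3 ℂ) : ev0 (cst A) = A := by
  ext i j
  simp [ev0, cst]

theorem const_pr (L Y : M3 R) :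
    PowerSeries.constantCoeff (R := ℂ) (pr L Y) = pr (ev0 L) (ev0 Y) := by
  simp [pr, ev0]

theorem pr_sub {F : Type*} [CommRing F] (L A B : M3 F) : pr L (A - B) = pr L A - pr L B := by
  simp [pr, mul_sub, Finset.sum_sub_distrib]

theorem pr_smul {F : Type*} [CommRing F] (L A : M3 F) (c : F) : pr L (c • A) = c * pr L A := by
  simp only [pr, Matrix.smul_apply, smul_eq_mul, Finset.mul_sum]
  refine Finset.sum_congr rfl fun i _ => Finset.sum_congr rfl fun j _ => ?_
  ring

/-- divisibility by `λ` from the vanishing of the constant term -/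
theorem exists_of_ev0 {A : M3 R} (h : ev0 A = 0) : ∃ B : M3 R, A = lam • B := by
  have h1 : ∀ i j, ∃ b : R, A i j = lam * b := by
    intro i j
    have := congrFun (congrFun h i) j
    have h2 : PowerSeries.constantCoeff (R := ℂ) (A i j) = 0 := by simpa [ev0] using this
    exact (PowerSeries.X_dvd_iff.2 h2)
  choose B hB using h1
  refine ⟨Matrix.of fun i j => B i j, Matrix.ext fun i j => ?_⟩
  rw [hB i j]
  simp

theorem smul_cancel_mat {A B : M3 R} {n : ℕ} (h : lam ^ n • A = lam ^ n • B) : A = B := by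
  refine Matrix.ext fun i j => ?_
  have := congrFun (congrFun h i) j
  simp only [Matrix.smul_apply, smul_eq_mul] at this
  exact mul_left_cancel₀ (pow_ne_zero n PowerSeries.X_ne_zero) this

theorem smul_cancel_vec {a b : V3 R} {n : ℕ} (h : lam ^ n • a = lam ^ n • b) : a = b := by
  funext i
  have := congrFun h i
  simp only [Pi.smul_apply, smul_eq_mul] at this
  exact mul_left_cancel₀ (pow_ne_zero n PowerSeries.X_ne_zero) this

/-- a matrix divisible by every power of `λ` vanishes -/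
theorem eq_zero_of_dvd {A : M3 R} (h : ∀ n : ℕ, ∃ B : M3 R, A = lam ^ n • B) : A = 0 := by
  refine Matrix.ext fun i j => PowerSeries.ext fun n => ?_
  obtain ⟨B, hB⟩ := h (n + 1)
  rw [hB]
  simp only [Matrix.smul_apply, smul_eq_mul, Matrix.zero_apply, map_zero]
  rw [PowerSeries.coeff_X_pow_mul']
  simp

end Uniq

open Uniq

/-- uniqueness of solutions of the equation `I1` -/
theorem uniq {r s : M3 ℂ} {G D G₁ D₁ : M3 R}
    (sG : Gᵀ = G) (sG₁ : G₁ᵀ = G₁) (hG : ev0 G = 1) (hG₁ : ev0 G₁ = 1)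
    (hD : ev0 D = r) (hD₁ : ev0 D₁ = r)
    (I : ∀ x y : V3 R, G *ᵥ ((D *ᵥ y) ⨯₃ x) =
      (cst r *ᵥ y) ⨯₃ x + lam • (D *ᵥ (y ⨯₃ (cst s *ᵥ x))))
    (I₁ : ∀ x y : V3 R, G₁ *ᵥ ((D₁ *ᵥ y) ⨯₃ x) =
      (cst r *ᵥ y) ⨯₃ x + lam • (D₁ *ᵥ (y ⨯₃ (cst s *ᵥ x))))
    (L L' : M3 ℂ)
    (hinj : ∀ X Y : M3 ℂ, Xᵀ = X →
      (∀ x y : V3 ℂ, X *ᵥ ((r *ᵥ y) ⨯₃ x) + (Y *ᵥ y) ⨯₃ x = 0) →
      pr L Y = 0 → pr L' X = 0 → X = 0 ∧ Y = 0)
    (hL : pr (cst L) D = pr (cst L) D₁) (hL' : pr (cst L') G = pr (cst L') G₁) :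
    G = G₁ ∧ D = D₁ := by
  have key : ∀ n : ℕ, ∃ Γ Δ : M3 R, G - G₁ = lam ^ n • Γ ∧ D - D₁ = lam ^ n • Δ ∧
      (n = 0 → ev0 Γ = 0 ∧ ev0 Δ = 0) := by
    intro n
    induction n with
    | zero =>
      refine ⟨G - G₁, D - D₁, by simp, by simp, fun _ => ⟨?_, ?_⟩⟩
      · have : ev0 (G - G₁) = ev0 G - ev0 G₁ := by
          ext i j
          simp [ev0]
        rw [this, hG, hG₁, sub_self]
      · have : ev0 (D - D₁) = ev0 D - ev0 D₁ := by
          ext i j
          simp [ev0]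
        rw [this, hD, hD₁, sub_self]
    | succ n ih =>
      obtain ⟨Γ, Δ, h1, h2, h3⟩ := ih
      have hz : ev0 Γ = 0 ∧ ev0 Δ = 0 := by
        rcases Nat.eq_zero_or_pos n with hn | hn
        · exact h3 hn
        · have hsym : Γᵀ = Γ := by
            apply smul_cancel_mat (n := n)
            rw [← transpose_smul, ← h1, transpose_sub, sG, sG₁]
          have hid : ∀ x y : V3 R, Γ *ᵥ ((D *ᵥ y) ⨯₃ x) + G₁ *ᵥ ((Δ *ᵥ y) ⨯₃ x) =
              lam • (Δ *ᵥ (y ⨯₃ (cst s *ᵥ x))) := by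
            intro x y
            apply smul_cancel_vec (n := n)
            have e1 : lam ^ n • (Γ *ᵥ ((D *ᵥ y) ⨯₃ x) + G₁ *ᵥ ((Δ *ᵥ y) ⨯₃ x)) =
                G *ᵥ ((D *ᵥ y) ⨯₃ x) - G₁ *ᵥ ((D₁ *ᵥ y) ⨯₃ x) := by
              rw [smul_add, ← smul_mulVec, ← h1, ← mulVec_smul, ← LinearMap.smul_apply,
                ← map_smul, ← smul_mulVec, ← h2, sub_mulVec, sub_mulVec, map_sub,
                LinearMap.sub_apply, mulVec_sub]
              abel
            have e2 : lam ^ n • (lam • (Δ *ᵥ (y ⨯₃ (cst s *ᵥ x)))) =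
                lam • ((D - D₁) *ᵥ (y ⨯₃ (cst s *ᵥ x))) := by
              rw [h2, smul_mulVec, smul_comm]
            rw [e1, e2, I, I₁, sub_mulVec, smul_sub]
            abel
          have hid0 : ∀ x y : V3 ℂ, ev0 Γ *ᵥ ((r *ᵥ y) ⨯₃ x) + (ev0 Δ *ᵥ y) ⨯₃ x = 0 := by
            intro x y
            have := congrArg ev (hid (vC x) (vC y))
            rw [ev_add, ev_mulVec, ev_mulVec, ev_cross, ev_cross, ev_mulVec, ev_mulVec, ev_smul,
              ev_vC, ev_vC, hD, hG₁, one_mulVec] at this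
            simpa using this
          apply hinj (ev0 Γ) (ev0 Δ) _ hid0
          · have h4 : pr (cst L) (D - D₁) = 0 := by rw [pr_sub, hL, sub_self]
            rw [h2, pr_smul] at h4
            have h5 : pr (cst L) Δ = 0 := by
              rcases mul_eq_zero.1 h4 with h | h
              · exact absurd h (pow_ne_zero n PowerSeries.X_ne_zero)
              · exact h
            have h6 := congrArg (PowerSeries.constantCoeff (R := ℂ)) h5
            rwa [const_pr, ev0_cst, map_zero] at h6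
          · have h4 : pr (cst L') (G - G₁) = 0 := by rw [pr_sub, hL', sub_self]
            rw [h1, pr_smul] at h4
            have h5 : pr (cst L') Γ = 0 := by
              rcases mul_eq_zero.1 h4 with h | h
              · exact absurd h (pow_ne_zero n PowerSeries.X_ne_zero)
              · exact h
            have h6 := congrArg (PowerSeries.constantCoeff (R := ℂ)) h5
            rwa [const_pr, ev0_cst, map_zero] at h6
          · have : (ev0 Γ)ᵀ = ev0 Γᵀ := by
              ext i j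
              simp [ev0]
            rw [this, hsym]
      obtain ⟨Γ', hΓ'⟩ := exists_of_ev0 hz.1
      obtain ⟨Δ', hΔ'⟩ := exists_of_ev0 hz.2
      refine ⟨Γ', Δ', ?_, ?_, fun h => absurd h (Nat.succ_ne_zero n)⟩
      · rw [h1, hΓ', smul_smul, ← pow_succ]
      · rw [h2, hΔ', smul_smul, ← pow_succ]
  constructor
  · rw [← sub_eq_zero]
    exact eq_zero_of_dvd fun n => by
      obtain ⟨Γ, -, h, -⟩ := key n
      exact ⟨Γ, h⟩
  · rw [← sub_eq_zero]
    exact eq_zero_of_dvd fun n => by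
      obtain ⟨-, Δ, -, h, -⟩ := key n
      exact ⟨Δ, h⟩

end
end Pool.Agent.MP_106392_al
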