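import Pool.Agent.MP_106392_al.Defs

/-!
Vector and matrix identities in dimension three, over a commutative ring.
-/

set_option autoImplicit false

namespace Pool.Agent.MP_106392_al

open Matrix

section

variable {F : Type*} [CommRing F]

theorem mulVec3 (A : M3 F) (v : V3 F) : A *ᵥ v =
    ![A 0 0 * v 0 + A 0 1 * v 1 + A 0 2 * v 2, A 1 0 * v 0 + A 1 1 * v 1 + A 1 2 * v 2,
      A 2 0 * v 0 + A 2 1 * v 1 + A 2 2 * v 2] := by
  ext i; fin_cases i <;> simp [Matrix.mulVec, dotProduct, Fin.sum_univ_three]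

theorem cof_mulVec_cross (A : M3 F) (a b : V3 F) :
    cof A *ᵥ (a ⨯₃ b) = (A *ᵥ a) ⨯₃ (A *ᵥ b) := by
  ext i; fin_cases i <;> simp [mulVec3, cof, cross_apply] <;> ring

theorem cof_eq (A : M3 F) : cof A = (adjugate A)ᵀ := by
  rw [adjugate_fin_three]
  ext i j; fin_cases i <;> fin_cases j <;> simp [cof] <;> ring

theorem cof_transpose (A : M3 F) : cof Aᵀ = (cof A)ᵀ := by
  ext i j; fin_cases i <;> fin_cases j <;> simp [cof] <;> ring

theorem cofT_mul (A : M3 F) : (cof A)ᵀ * A = A.det • (1 : M3 F) := by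
  rw [cof_eq, transpose_transpose, adjugate_mul]

theorem mul_cofT (A : M3 F) : A * (cof A)ᵀ = A.det • (1 : M3 F) := by
  rw [cof_eq, transpose_transpose, mul_adjugate]

theorem T_mul_cof (A : M3 F) : Aᵀ * cof A = A.det • (1 : M3 F) := by
  have := congrArg transpose (cofT_mul A)
  rwa [transpose_mul, transpose_transpose, transpose_smul, transpose_one] at this

theorem cof_mul_T (A : M3 F) : cof A * Aᵀ = A.det • (1 : M3 F) := by
  have := congrArg transpose (mul_cofT A)
  rwa [transpose_mul, transpose_transpose, transpose_smul, transpose_one] at this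

theorem cof_mul (A B : M3 F) : cof (A * B) = cof A * cof B := by
  rw [cof_eq, cof_eq, cof_eq, adjugate_mul_distrib, transpose_mul]

theorem cof_cof (A : M3 F) : cof (cof A) = A.det • A := by
  rw [det_fin_three]
  ext i j; fin_cases i <;> fin_cases j <;> simp [cof] <;> ring

theorem det_cof (A : M3 F) : (cof A).det = A.det ^ 2 := by
  rw [cof_eq, det_transpose, det_adjugate]; simp

theorem cross_mulVec_T (A : M3 F) (a : V3 F) (b : V3 F) :
    a ⬝ᵥ (A *ᵥ b) = (Aᵀ *ᵥ a) ⬝ᵥ b := by
  rw [Matrix.dotProduct_mulVec, Matrix.mulVec_transpose]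

end

end Pool.Agent.MP_106392_al
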